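import Pool.Agent.MP_67f0e4_gt.EU.Spec

/-! Row AEST: derivatives of the averaged difference quotient. -/

set_option autoImplicit false

open scoped ContDiff Topology
open Set Metric Filter

namespace Pool.Agent.MP_67f0e4_gt.EU

open K

namespace RAEST

theorem sm {O : Set V} (hO : IsOpen O) {f : V → ℝ} (hf : ContDiffOn ℝ ∞ f O) (l : List (Fin 4)) :
    ContDiffOn ℝ ∞ (DL l f) O := by
  induction l with
  | nil => exact hf
  | cons i l ih =>
    exact (ih.fderiv_of_isOpen hO (by simp)).clm_apply contDiffOn_const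

theorem lin {O : Set V} (hO : IsOpen O) {f g : V → ℝ} (hf : ContDiffOn ℝ ∞ f O)
    (hg : ContDiffOn ℝ ∞ g O) (a b : ℝ) (l : List (Fin 4)) :
    ∀ y ∈ O, DL l (fun w => a * f w + b * g w) y = a * DL l f y + b * DL l g y := by
  induction l with
  | nil => exact fun _ _ => rfl
  | cons i l ih =>
    intro y hy
    have h1 : DL l (fun w => a * f w + b * g w) =ᶠ[𝓝 y] fun w => a * DL l f w + b * DL l g w := by
      filter_upwards [hO.mem_nhds hy] with w hw using ih w hw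
    have h2 := (((sm hO hf l).contDiffAt (hO.mem_nhds hy)).differentiableAt (by simp)).hasFDerivAt
    have h3 := (((sm hO hg l).contDiffAt (hO.mem_nhds hy)).differentiableAt (by simp)).hasFDerivAt
    have h4 : HasFDerivAt (fun w => a * DL l f w + b * DL l g w)
        (a • fderiv ℝ (DL l f) y + b • fderiv ℝ (DL l g) y) y :=
      (h2.const_mul a).add (h3.const_mul b)
    change fderiv ℝ (DL l fun w => a * f w + b * g w) y (e i) = _
    rw [h1.fderiv_eq, h4.fderiv]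
    rfl

theorem joint {U : Set (V × ℝ)} (hU : IsOpen U) {G : V × ℝ → ℝ} (hG : ContDiffOn ℝ ∞ G U)
    (l : List (Fin 4)) :
    ContDiffOn ℝ ∞ (fun z : V × ℝ => DL l (fun w => G (w, z.2)) z.1) U := by
  induction l with
  | nil => exact hG
  | cons i l ih =>
    intro a ha
    have h2 : ContDiffAt ℝ ∞ (fun x : (V × ℝ) × V => (x.2, x.1.2)) (a, a.1) :=
      contDiffAt_snd.prodMk contDiffAt_fst.snd
    have h3 : ContDiffAt ℝ ∞ (Function.uncurry fun (a : V × ℝ) (y : V) =>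
        DL l (fun w => G (w, a.2)) y) (a, a.1) :=
      ContDiffAt.comp (g := fun z : V × ℝ => DL l (fun w => G (w, z.2)) z.1) (a, a.1)
        (ih.contDiffAt (hU.mem_nhds ha)) h2
    exact ((ContDiffAt.fderiv (g := Prod.fst) h3 contDiffAt_fst (by simp)).clm_apply
      contDiffAt_const).contDiffWithinAt

theorem mem {ε η s : ℝ} (hη : η ∈ Ioo 0 ε) (hs : s ∈ Icc (0 : ℝ) 1) :
    0 ≤ s * η ∧ s * η ≤ η ∧ s * η ∈ Ioo (-ε) ε ∧ -(s * η) ∈ Ioo (-ε) ε := by
  have h1 : 0 ≤ s * η := mul_nonneg hs.1 hη.1.le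
  have h2 : s * η ≤ η := mul_le_of_le_one_left hη.1.le hs.2
  refine ⟨h1, h2, ⟨?_, ?_⟩, ?_, ?_⟩ <;> linarith [hη.1, hη.2]

theorem intg {ε η : ℝ} (hη : η ∈ Ioo 0 ε) {u : ℝ → ℝ} (hu : ContinuousOn u (Ioo (-ε) ε)) :
    IntervalIntegrable (fun s => u (s * η) + u (-(s * η))) MeasureTheory.volume 0 1 := by
  refine ContinuousOn.intervalIntegrable_of_Icc zero_le_one (ContinuousOn.add ?_ ?_)
  · exact hu.comp (by fun_prop) fun s hs => (mem hη hs).2.2.1
  · exact hu.comp (f := fun s : ℝ => -(s * η)) (by fun_prop) fun s hs => (mem hη hs).2.2.2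

theorem intd {ε η : ℝ} (hη : η ∈ Ioo 0 ε) {u : ℝ → ℝ} (hu : ContinuousOn u (Ioo (-ε) ε)) :
    IntervalIntegrable (fun s => d2 u (s * η)) MeasureTheory.volume 0 1 :=
  (intg hη hu).sub intervalIntegrable_const

theorem cst {η B : ℝ} (hη : 0 < η) {u : ℝ → ℝ} (h : ∀ s ∈ Icc (0 : ℝ) 1, |u s| ≤ η ^ 2 * B) :
    |3 / η ^ 2 * ∫ s in (0 : ℝ)..1, u s| ≤ 3 * B := by
  have h1 := intervalIntegral.norm_integral_le_of_norm_le_const (a := 0) (b := 1) (f := u)
    (C := η ^ 2 * B) fun s hs => h s (by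
      rw [uIoc_of_le zero_le_one] at hs
      exact Ioc_subset_Icc_self hs)
  rw [sub_zero, abs_one, mul_one, Real.norm_eq_abs] at h1
  rw [abs_mul, abs_of_pos (by positivity : 0 < 3 / η ^ 2)]
  calc _ ≤ 3 / η ^ 2 * (η ^ 2 * B) := mul_le_mul_of_nonneg_left h1 (by positivity)
    _ = 3 * B := by field_simp

theorem var {η C M : ℝ} (hη : 0 < η) {u D : ℝ → ℝ}
    (hD : IntervalIntegrable D MeasureTheory.volume 0 1)
    (h : ∀ s ∈ Icc (0 : ℝ) 1, |u s| ≤ C * (η * D s + η ^ 2 * M)) :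
    |3 / η ^ 2 * ∫ s in (0 : ℝ)..1, u s| ≤ 3 * C * (M + η⁻¹ * ∫ s in (0 : ℝ)..1, D s) := by
  have h1 := intervalIntegral.norm_integral_le_of_norm_le (a := 0) (b := 1) (f := u)
    (μ := MeasureTheory.volume) (g := fun s => C * (η * D s + η ^ 2 * M)) zero_le_one
    (Eventually.of_forall fun s hs => h s (Ioc_subset_Icc_self hs))
    (((hD.const_mul η).add intervalIntegrable_const).const_mul C)
  rw [intervalIntegral.integral_const_mul,
    intervalIntegral.integral_add (hD.const_mul η) intervalIntegrable_const,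
    intervalIntegral.integral_const_mul, intervalIntegral.integral_const, sub_zero, one_smul,
    Real.norm_eq_abs] at h1
  rw [abs_mul, abs_of_pos (by positivity : 0 < 3 / η ^ 2)]
  refine (mul_le_mul_of_nonneg_left h1 (by positivity)).trans (le_of_eq ?_)
  field_simp
  ring

theorem form (hI : StmtINT) {O : Set V} (hO : IsOpen O) {ε η : ℝ} (hη : η ∈ Ioo 0 ε)
    {f : V → ℝ} {ψ : V × ℝ → V}
    (hF : ContDiffOn ℝ ∞ (fun z => f (ψ z)) (O ×ˢ Ioo (-ε) ε)) :
    ContDiffOn ℝ ∞ (Aop η f ψ) O ∧ ∀ l : List (Fin 4), ∀ y ∈ O, DL l (Aop η f ψ) y =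
      3 / η ^ 2 * ∫ s in (0 : ℝ)..1, d2 (fun e => DL l (fun w => f (ψ (w, e))) y) (s * η) := by
  have h0 : (0 : ℝ) ∈ Ioo (-ε) ε := ⟨by linarith [hη.1, hη.2], hη.1.trans hη.2⟩
  have hJ : IsOpen {s : ℝ | s * η ∈ Ioo (-ε) ε ∧ -(s * η) ∈ Ioo (-ε) ε} :=
    (isOpen_Ioo.preimage (by fun_prop : Continuous fun s : ℝ => s * η)).inter
      (isOpen_Ioo.preimage (by fun_prop : Continuous fun s : ℝ => -(s * η)))
  have hg : ContDiffOn ℝ ∞ (fun z : V × ℝ => d2 (fun e => f (ψ (z.1, e))) (z.2 * η))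
      (O ×ˢ {s : ℝ | s * η ∈ Ioo (-ε) ε ∧ -(s * η) ∈ Ioo (-ε) ε}) := by
    refine ContDiffOn.sub (ContDiffOn.add ?_ ?_) (contDiffOn_const.mul ?_)
    · exact hF.comp (f := fun z : V × ℝ => (z.1, z.2 * η)) (by fun_prop)
        fun z hz => ⟨hz.1, hz.2.1⟩
    · exact hF.comp (f := fun z : V × ℝ => (z.1, -(z.2 * η))) (by fun_prop)
        fun z hz => ⟨hz.1, hz.2.2⟩
    · exact hF.comp (f := fun z : V × ℝ => (z.1, (0 : ℝ))) (by fun_prop)
        fun z hz => ⟨hz.1, h0⟩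
  obtain ⟨h1, h2⟩ := hI O _ _ hO hJ (fun s hs => (mem hη hs).2.2) hg
  have hs : ∀ t ∈ Ioo (-ε) ε, ContDiffOn ℝ ∞ (fun w => f (ψ (w, t))) O := fun t ht =>
    hF.comp (f := fun w : V => (w, t)) (by fun_prop) fun w hw => ⟨hw, ht⟩
  refine ⟨contDiffOn_const.mul h1, fun l y hy => ?_⟩
  have h3 : Aop η f ψ = fun w => 3 / η ^ 2 *
      (∫ s in (0 : ℝ)..1, d2 (fun e => f (ψ (w, e))) (s * η)) +
      0 * ∫ s in (0 : ℝ)..1, d2 (fun e => f (ψ (w, e))) (s * η) := by
    funext w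
    rw [zero_mul, add_zero, Aop]
  rw [h3, lin hO h1 h1 _ _ l y hy, zero_mul, add_zero, h2 l y hy]
  refine congrArg _ (intervalIntegral.integral_congr fun s hs' => ?_)
  rw [uIcc_of_le zero_le_one] at hs'
  obtain ⟨-, -, h4, h5⟩ := mem hη hs'
  have h6 : (fun w => d2 (fun e => f (ψ (w, e))) (s * η)) = fun w =>
      1 * (1 * f (ψ (w, s * η)) + 1 * f (ψ (w, -(s * η)))) + (-2) * f (ψ (w, 0)) := by
    funext w
    rw [d2]
    ring
  change DL l (fun w => d2 (fun e => f (ψ (w, e))) (s * η)) y = d2 _ (s * η)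
  rw [h6, lin hO ((contDiffOn_const.mul (hs _ h4)).add (contDiffOn_const.mul (hs _ h5)))
    (hs 0 h0) _ _ l y hy, lin hO (hs _ h4) (hs _ h5) _ _ l y hy, d2]
  ring

end RAEST

open RAEST in
theorem aest (hI : StmtINT) (hD : StmtDIF) : StmtAEST := by
  intro κ O ε ψ hj k
  obtain ⟨C, hC, h⟩ := hD κ O ε ψ hj k
  refine ⟨3 * C, by positivity, fun x f M η hη hf hM => ?_⟩
  have h0 : (0 : ℝ) ∈ Ioo (-ε) ε := ⟨by linarith [hη.1, hη.2], hη.1.trans hη.2⟩
  have hψ : ContDiffOn ℝ ∞ (ψ x) (O x ×ˢ Ioo (-ε) ε) := hj.bd.1 x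
  have hm : MapsTo (ψ x) (O x ×ˢ Ioo (-ε) ε) (ball 0 1) := fun z hz => hj.maps x z.1 hz.1 z.2 hz.2
  have hF : ContDiffOn ℝ ∞ (fun z => f (ψ x z)) (O x ×ˢ Ioo (-ε) ε) := hf.comp hψ hm
  obtain ⟨h1, h2⟩ := form hI (hj.op x) hη hF
  refine ⟨h1, fun y hy => ?_⟩
  have hy1 : y ∈ ball (0 : V) 1 := hj.zero x y hy ▸ hj.maps x y hy 0 h0
  have hM0 : 0 ≤ M := (abs_nonneg _).trans (hM y hy1 [] (Nat.zero_le k))
  have hc : ∀ {u : V × ℝ → ℝ}, ContinuousOn u (O x ×ˢ Ioo (-ε) ε) →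
      ContinuousOn (fun e => u (y, e)) (Ioo (-ε) ε) := fun hu =>
    hu.comp (f := fun e : ℝ => (y, e)) (by fun_prop) fun e he => ⟨hy, he⟩
  have h3 := h x f M hf hM y hy (fun _ => M + M) continuousOn_const fun e he l hl =>
    (abs_sub _ _).trans (add_le_add (hM _ (hj.maps x y hy e he) l hl) (hM y hy1 l hl))
  have hp : ∀ s ∈ Icc (0 : ℝ) 1, ∀ n : ℕ, (s * η) ^ n * M ≤ η ^ n * M := fun s hs n =>
    mul_le_mul_of_nonneg_right (pow_le_pow_left₀ (mem hη hs).1 (mem hη hs).2.1 n) hM0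
  have hi : ∀ s ∈ Icc (0 : ℝ) 1, s * η ∈ Ico 0 ε := fun s hs =>
    ⟨(mem hη hs).1, (mem hη hs).2.2.1.2⟩
  refine ⟨fun l hl => ?_, fun hk => ?_, fun d hd hb l => ⟨fun hl => ?_, fun hl => ?_⟩⟩
  · rw [h2 l y hy, mul_assoc]
    refine cst hη.1 fun s hs => ((h3 _ (hi s hs) l).2.2.1 hl).trans ?_
    rw [mul_left_comm (η ^ 2)]
    exact mul_le_mul_of_nonneg_left (hp s hs 2) hC
  · have h4 : Aop η f (ψ x) y - A0 f (ψ x) y = 3 / η ^ 2 * ∫ s in (0 : ℝ)..1,
        (d2 (fun e => f (ψ x (y, e))) (s * η) - s ^ 2 * (η ^ 2 * A0 f (ψ x) y)) := by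
      rw [intervalIntegral.integral_sub (intd hη (hc hF.continuousOn))
        (Continuous.intervalIntegrable (by fun_prop) 0 1), intervalIntegral.integral_mul_const,
        integral_pow, Aop]
      have := hη.1.ne'
      field_simp
      ring
    rw [h4, mul_assoc]
    refine cst hη.1 fun s hs => ?_
    have h5 := (h3 _ (hi s hs) []).2.2.2 hk
    rw [mul_pow s η 2, mul_assoc] at h5
    refine h5.trans ((mul_le_mul_of_nonneg_left (hp s hs 3) hC).trans (le_of_eq ?_))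
    ring
  · have h4 : ContinuousOn (fun e => DL l (fun w => f (ψ x (w, e))) y) (Ioo (-ε) ε) :=
      hc (joint ((hj.op x).prod isOpen_Ioo) hF l).continuousOn
    have h5 : ContinuousOn (fun e => DL l f (ψ x (y, e))) (Ioo (-ε) ε) :=
      hc ((sm isOpen_ball hf l).comp hψ hm).continuousOn
    rw [h2 l y hy, ← mul_sub, ← intervalIntegral.integral_sub (intd hη h4) (intd hη h5)]
    refine var hη.1 (intg hη hd) fun s hs => ?_
    refine ((h x f M hf hM y hy d hd hb _ (hi s hs) l).1 hl).trans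
      (mul_le_mul_of_nonneg_left (add_le_add ?_ (hp s hs 2)) hC)
    obtain ⟨-, h6, h7, h8⟩ := mem hη hs
    exact mul_le_mul_of_nonneg_right h6 (add_nonneg
      ((abs_nonneg _).trans (hb _ h7 [] (Nat.zero_le k)))
      ((abs_nonneg _).trans (hb _ h8 [] (Nat.zero_le k))))
  · rw [h2 l y hy]
    have hsub : ∀ t ∈ Icc 0 η, t ∈ Ioo (-ε) ε ∧ -t ∈ Ioo (-ε) ε := fun t ht => by
      refine ⟨⟨?_, ?_⟩, ?_, ?_⟩ <;> linarith [ht.1, ht.2, hη.1, hη.2]
    have h4 : IntervalIntegrable (fun t => d t + d (-t)) MeasureTheory.volume 0 η := by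
      refine ContinuousOn.intervalIntegrable_of_Icc hη.1.le (ContinuousOn.add ?_ ?_)
      · exact hd.mono fun t ht => (hsub t ht).1
      · exact hd.comp (f := fun t : ℝ => -t) (by fun_prop) fun t ht => (hsub t ht).2
    have h5 : η * ∫ s in (0 : ℝ)..1, (d (s * η) + d (-(s * η))) =
        ∫ t in (0 : ℝ)..η, (d t + d (-t)) := by
      have := intervalIntegral.smul_integral_comp_mul_right (a := 0) (b := 1)
        (fun t => d t + d (-t)) η
      rwa [zero_mul, one_mul, smul_eq_mul] at this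
    have h6 := var (C := C) (M := M) hη.1
      (u := fun s => d2 (fun e => DL l (fun w => f (ψ x (w, e))) y) (s * η))
      (D := fun _ => ∫ s in (0 : ℝ)..1, (d (s * η) + d (-(s * η)))) intervalIntegrable_const
      fun s hs => by
        refine ((h x f M hf hM y hy d hd hb _ (hi s hs) l).2.1 hl).trans
          (mul_le_mul_of_nonneg_left (add_le_add ?_ (hp s hs 2)) hC)
        rw [h5]
        refine intervalIntegral.integral_mono_interval le_rfl (mem hη hs).1 (mem hη hs).2.1 ?_ h4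
        refine (MeasureTheory.ae_restrict_mem measurableSet_Ioc).mono fun t ht => ?_
        obtain ⟨h7, h8⟩ := hsub t (Ioc_subset_Icc_self ht)
        exact add_nonneg ((abs_nonneg _).trans (hb _ h7 [] (Nat.zero_le k)))
          ((abs_nonneg _).trans (hb _ h8 [] (Nat.zero_le k)))
    rwa [intervalIntegral.integral_const, sub_zero, one_smul] at h6

end Pool.Agent.MP_67f0e4_gt.EU
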