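import Pool.Agent.MP_67f0e4_gt.EU.Spec

/-! Row ALG: the discrete Bernstein inequality at one point. -/

set_option autoImplicit false

open scoped InnerProductSpace
open Set MeasureTheory

namespace Pool.Agent.MP_67f0e4_gt.EU

namespace RALG

theorem half (a m d x c K η M : ℝ) (ha : 0 ≤ a) (haM : a ≤ M) (hm : 0 ≤ m) (hmM : m ≤ M)
    (had : |a - m| ≤ d) (hx : |x - c| ≤ K * η) (hc : 0 ≤ c) :
    (c ^ 2 - x ^ 2) * (a ^ 2 - m ^ 2) ≤ K * η * (2 * c + K * η) * (2 * M * d) := by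
  have h0 : 0 ≤ K * η := (abs_nonneg _).trans hx
  have h1 : |c ^ 2 - x ^ 2| ≤ K * η * (2 * c + K * η) := by
    have e : c ^ 2 - x ^ 2 = -((x - c) * (2 * c + (x - c))) := by ring
    rw [e, abs_neg, abs_mul]
    refine mul_le_mul hx ?_ (abs_nonneg _) h0
    refine (abs_add_le _ _).trans ?_
    rw [abs_of_nonneg (by positivity : (0 : ℝ) ≤ 2 * c)]
    linarith
  have h2 : |a ^ 2 - m ^ 2| ≤ 2 * M * d := by
    have e : a ^ 2 - m ^ 2 = (a + m) * (a - m) := by ring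
    rw [e, abs_mul, abs_of_nonneg (by positivity : (0 : ℝ) ≤ a + m)]
    exact mul_le_mul (by linarith) had (abs_nonneg _) (by linarith)
  refine (le_abs_self _).trans ?_
  rw [abs_mul]
  exact mul_le_mul h1 h2 (abs_nonneg _) ((abs_nonneg _).trans h1)

theorem pt (a b m d1 d2 c x y K η M q J : ℝ) (ha : 0 ≤ a) (haM : a ≤ M) (hb : 0 ≤ b)
    (hbM : b ≤ M) (hm : 0 ≤ m) (hmM : m ≤ M) (h1 : |a - m| ≤ d1) (h2 : |b - m| ≤ d2)
    (h1M : d1 ≤ 2 * M) (h2M : d2 ≤ 2 * M) (hx : x ^ 2 * a ^ 2 ≤ q) (hy : y ^ 2 * b ^ 2 ≤ q)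
    (hxc : |x - c| ≤ K * η) (hyc : |y - c| ≤ K * η) (hs : |x ^ 2 + y ^ 2 - 2 * c ^ 2| ≤ K * η ^ 2)
    (hc : 0 ≤ c) :
    c ^ 2 * (a ^ 2 + b ^ 2 - 2 * m ^ 2 - d1 ^ 2 - d2 ^ 2) ≤
      2 * (q - c ^ 2 * m ^ 2) + η ^ 2 * M ^ 2 * (K + 40 * K ^ 2) +
        3 / 8 * c ^ 2 * (J ^ 2 - 2 * J * (d1 + d2)) := by
  have hM : 0 ≤ M := ha.trans haM
  have h0 : 0 ≤ K * η := (abs_nonneg _).trans hxc
  have e1 := half a m d1 x c K η M ha haM hm hmM h1 hxc hc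
  have e2 := half b m d2 y c K η M hb hbM hm hmM h2 hyc hc
  have e3 : (2 * c ^ 2 - x ^ 2 - y ^ 2) * m ^ 2 ≤ K * η ^ 2 * M ^ 2 := by
    have h3 : 2 * c ^ 2 - x ^ 2 - y ^ 2 ≤ K * η ^ 2 := by
      have := neg_abs_le (x ^ 2 + y ^ 2 - 2 * c ^ 2)
      linarith
    have h4 : m ^ 2 ≤ M ^ 2 := pow_le_pow_left₀ hm hmM 2
    calc (2 * c ^ 2 - x ^ 2 - y ^ 2) * m ^ 2 ≤ K * η ^ 2 * m ^ 2 :=
          mul_le_mul_of_nonneg_right h3 (sq_nonneg _)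
      _ ≤ K * η ^ 2 * M ^ 2 :=
          mul_le_mul_of_nonneg_left h4 ((abs_nonneg _).trans hs)
  have e4 : (K * η) ^ 2 * M * (d1 + d2) ≤ (K * η) ^ 2 * M * (4 * M) :=
    mul_le_mul_of_nonneg_left (by linarith) (by positivity)
  have e5 : 0 ≤ (c * (d1 + d2) - 16 * (K * η) * M) ^ 2 := sq_nonneg _
  have e6 : 0 ≤ c ^ 2 * (d1 - d2) ^ 2 := by positivity
  have e7 : 0 ≤ c ^ 2 * (d1 + d2 - J) ^ 2 := by positivity
  nlinarith

variable {H : Type} [NormedAddCommGroup H] [InnerProductSpace ℝ H] [CompleteSpace H]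

omit [InnerProductSpace ℝ H] [CompleteSpace H] in
theorem cont {u : ℝ → H} {η : ℝ} (hη : 0 < η) (hu : ContinuousOn u (Icc (-η) η)) :
    ContinuousOn (fun s : ℝ => u (s * η)) (uIcc 0 1) ∧
      ContinuousOn (fun s : ℝ => u (-(s * η))) (uIcc 0 1) := by
  rw [uIcc_of_le zero_le_one]
  constructor
  · refine hu.comp (by fun_prop) fun s hs => ⟨?_, ?_⟩
    · have := mul_nonneg hs.1 hη.le
      linarith
    · exact mul_le_of_le_one_left hη.le hs.2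
  · refine hu.comp (by fun_prop) fun s hs => ⟨?_, ?_⟩
    · have := mul_le_of_le_one_left hη.le hs.2
      linarith
    · have := mul_nonneg hs.1 hη.le
      linarith

omit [CompleteSpace H] in
theorem inner_id (w a b : H) : 2 * ⟪w, a + b - (2 : ℝ) • w⟫_ℝ =
    ‖a‖ ^ 2 + ‖b‖ ^ 2 - 2 * ‖w‖ ^ 2 - ‖a - w‖ ^ 2 - ‖b - w‖ ^ 2 := by
  rw [norm_sub_sq_real, norm_sub_sq_real, inner_sub_right, inner_add_right, inner_smul_right,
    real_inner_self_eq_norm_sq, real_inner_comm a w, real_inner_comm b w]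
  ring

theorem one {u : ℝ → H} {χ : ℝ → ℝ} {η M q c K : ℝ} {w : H} (hη : 0 < η)
    (hu : ContinuousOn u (Icc (-η) η)) (hc : 0 ≤ c) (hw : ‖w‖ ≤ M)
    (h : ∀ e ∈ Icc (-η) η, ‖u e‖ ≤ M ∧ χ e ^ 2 * ‖u e‖ ^ 2 ≤ q ∧ |χ e - c| ≤ K * η ∧
      |χ e ^ 2 + χ (-e) ^ 2 - 2 * c ^ 2| ≤ K * η ^ 2) {I : H} {J : ℝ}
    (hI : I = ∫ s in (0 : ℝ)..1, (u (s * η) + u (-(s * η)) - (2 : ℝ) • w))
    (hJ : J = ∫ s in (0 : ℝ)..1, (‖u (s * η) - w‖ + ‖u (-(s * η)) - w‖)) :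
    ‖I‖ ≤ J ∧ J ≤ 4 * M ∧ c ^ 2 * (2 * ⟪w, I⟫_ℝ) ≤
      2 * (q - c ^ 2 * ‖w‖ ^ 2) + η ^ 2 * M ^ 2 * (K + 40 * K ^ 2) - 3 / 8 * c ^ 2 * J ^ 2 := by
  obtain ⟨c1, c2⟩ := cont hη hu
  have m1 : ∀ s ∈ Icc (0 : ℝ) 1, s * η ∈ Icc (-η) η := fun s hs =>
    ⟨by have := mul_nonneg hs.1 hη.le; linarith, mul_le_of_le_one_left hη.le hs.2⟩
  have m2 : ∀ s ∈ Icc (0 : ℝ) 1, -(s * η) ∈ Icc (-η) η := fun s hs =>
    ⟨neg_le_neg (m1 s hs).2, by have := (m1 s hs).1; linarith⟩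
  have cF : ContinuousOn (fun s : ℝ => u (s * η) + u (-(s * η)) - (2 : ℝ) • w) (uIcc 0 1) :=
    (c1.add c2).sub continuousOn_const
  have cG : ContinuousOn (fun s : ℝ => ‖u (s * η) - w‖ + ‖u (-(s * η)) - w‖) (uIcc 0 1) :=
    (c1.sub continuousOn_const).norm.add (c2.sub continuousOn_const).norm
  have iF := cF.intervalIntegrable (μ := volume)
  have iG := cG.intervalIntegrable (μ := volume)
  have hd : ∀ e ∈ Icc (-η) η, ‖u e - w‖ ≤ 2 * M := fun e he =>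
    (norm_sub_le _ _).trans (by have := (h e he).1; linarith)
  refine ⟨?_, ?_, ?_⟩
  · rw [hI, hJ]
    refine (intervalIntegral.norm_integral_le_integral_norm zero_le_one).trans ?_
    refine intervalIntegral.integral_mono_on zero_le_one iF.norm iG fun s _ => ?_
    have e : u (s * η) + u (-(s * η)) - (2 : ℝ) • w = (u (s * η) - w) + (u (-(s * η)) - w) := by
      rw [two_smul]; abel
    rw [e]
    exact norm_add_le _ _
  · rw [hJ]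
    have := intervalIntegral.integral_mono_on (g := fun _ => 4 * M) zero_le_one iG
      intervalIntegrable_const fun s hs => by
        have a1 := hd _ (m1 s hs)
        have a2 := hd _ (m2 s hs)
        linarith
    simpa using this
  · have e1 : c ^ 2 * (2 * ⟪w, I⟫_ℝ) = ∫ s in (0 : ℝ)..1,
        c ^ 2 * (2 * ⟪w, u (s * η) + u (-(s * η)) - (2 : ℝ) • w⟫_ℝ) := by
      rw [intervalIntegral.integral_const_mul, intervalIntegral.integral_const_mul, hI]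
      have := (innerSL ℝ w).intervalIntegral_comp_comm iF
      simp only [innerSL_apply_apply] at this
      rw [this]
    have e2 : 2 * (q - c ^ 2 * ‖w‖ ^ 2) + η ^ 2 * M ^ 2 * (K + 40 * K ^ 2) -
        3 / 8 * c ^ 2 * J ^ 2 = ∫ s in (0 : ℝ)..1,
        ((2 * (q - c ^ 2 * ‖w‖ ^ 2) + η ^ 2 * M ^ 2 * (K + 40 * K ^ 2) + 3 / 8 * c ^ 2 * J ^ 2) -
          3 / 4 * c ^ 2 * J * (‖u (s * η) - w‖ + ‖u (-(s * η)) - w‖)) := by
      rw [intervalIntegral.integral_sub intervalIntegrable_const (iG.const_mul _),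
        intervalIntegral.integral_const_mul, ← hJ]
      simp only [intervalIntegral.integral_const, sub_zero, one_smul]
      ring
    rw [e1, e2]
    have cI : ContinuousOn
        (fun s : ℝ => ⟪w, u (s * η) + u (-(s * η)) - (2 : ℝ) • w⟫_ℝ) (uIcc 0 1) :=
      continuousOn_const.inner cF
    refine intervalIntegral.integral_mono_on zero_le_one
      (((cI.intervalIntegrable (μ := volume)).const_mul _).const_mul _)
      (intervalIntegrable_const.sub (iG.const_mul _)) fun s hs => ?_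
    obtain ⟨a1, a2, a3, a4⟩ := h _ (m1 s hs)
    obtain ⟨b1, b2, b3, -⟩ := h _ (m2 s hs)
    have := pt ‖u (s * η)‖ ‖u (-(s * η))‖ ‖w‖ ‖u (s * η) - w‖ ‖u (-(s * η)) - w‖ c (χ (s * η))
      (χ (-(s * η))) K η M q J (norm_nonneg _) a1 (norm_nonneg _) b1 (norm_nonneg _) hw
      (abs_norm_sub_norm_le _ _) (abs_norm_sub_norm_le _ _) (hd _ (m1 s hs)) (hd _ (m2 s hs))
      a2 b2 a3 b3 a4 hc
    rw [inner_id]
    linarith

omit [CompleteSpace H] in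
theorem summ {Ω : Type} [Fintype Ω] {lam J : Ω → ℝ} {I : Ω → H} {w : H} {c q M E : ℝ}
    (hl : ∀ o, 0 ≤ lam o) (hs : ∑ o, lam o ≤ 1 / 8) (hw : ‖w‖ ≤ M) (hq : c ^ 2 * ‖w‖ ^ 2 ≤ q)
    (h : ∀ o, ‖I o‖ ≤ J o ∧ J o ≤ 4 * M ∧ c ^ 2 * (2 * ⟪w, I o⟫_ℝ) ≤
      2 * (q - c ^ 2 * ‖w‖ ^ 2) + E - 3 / 8 * c ^ 2 * J o ^ 2) :
    ‖w + ∑ o, lam o • I o‖ ≤ 2 * M ∧ c ^ 2 * ‖w + ∑ o, lam o • I o‖ ^ 2 ≤
      q + (∑ o, lam o) * E - 1 / 4 * c ^ 2 * ∑ o, lam o * J o ^ 2 := by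
  have hM : 0 ≤ M := (norm_nonneg _).trans hw
  have h0 : 0 ≤ ∑ o, lam o := Finset.sum_nonneg fun o _ => hl o
  have n1 : ‖∑ o, lam o • I o‖ ≤ ∑ o, lam o * J o := by
    refine (norm_sum_le _ _).trans (Finset.sum_le_sum fun o _ => ?_)
    rw [norm_smul, Real.norm_of_nonneg (hl o)]
    exact mul_le_mul_of_nonneg_left (h o).1 (hl o)
  have n2 : ∑ o, lam o * J o ≤ (∑ o, lam o) * (4 * M) := by
    rw [Finset.sum_mul]
    exact Finset.sum_le_sum fun o _ => mul_le_mul_of_nonneg_left (h o).2.1 (hl o)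
  have hP : 0 ≤ ∑ o, lam o * J o ^ 2 :=
    Finset.sum_nonneg fun o _ => mul_nonneg (hl o) (sq_nonneg _)
  have n3 : (∑ o, lam o * J o) ^ 2 ≤ (∑ o, lam o) * ∑ o, lam o * J o ^ 2 :=
    Finset.sum_sq_le_sum_mul_sum_of_sq_le_mul _ (fun o _ => hl o)
      (fun o _ => mul_nonneg (hl o) (sq_nonneg _)) fun o _ => le_of_eq (by ring)
  have n4 : ‖∑ o, lam o • I o‖ ^ 2 ≤ 1 / 8 * ∑ o, lam o * J o ^ 2 :=
    (pow_le_pow_left₀ (norm_nonneg _) n1 2).trans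
      (n3.trans (mul_le_mul_of_nonneg_right hs hP))
  refine ⟨(norm_add_le _ _).trans ?_, ?_⟩
  · have : (∑ o, lam o) * (4 * M) ≤ 1 / 8 * (4 * M) :=
      mul_le_mul_of_nonneg_right hs (by positivity)
    linarith
  · have n5 : c ^ 2 * (2 * ⟪w, ∑ o, lam o • I o⟫_ℝ) ≤
        (∑ o, lam o) * (2 * (q - c ^ 2 * ‖w‖ ^ 2) + E) -
          3 / 8 * c ^ 2 * ∑ o, lam o * J o ^ 2 := by
      rw [inner_sum, Finset.mul_sum, Finset.mul_sum, Finset.sum_mul, Finset.mul_sum,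
        ← Finset.sum_sub_distrib]
      refine Finset.sum_le_sum fun o _ => ?_
      rw [real_inner_smul_right]
      have := mul_le_mul_of_nonneg_left (h o).2.2 (hl o)
      linarith
    have n6 : (∑ o, lam o) * (q - c ^ 2 * ‖w‖ ^ 2) ≤ 1 / 8 * (q - c ^ 2 * ‖w‖ ^ 2) :=
      mul_le_mul_of_nonneg_right hs (by linarith)
    have n7 := mul_le_mul_of_nonneg_left n4 (sq_nonneg c)
    rw [norm_add_sq_real]
    linarith

theorem fin (c v h K M R a : ℝ) (hc : 0 ≤ c) (hc1 : c ≤ 1) (hv : 0 ≤ v) (hvM : v ≤ 2 * M)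
    (hh : 0 < h) (hh1 : h ≤ 1) (hK : 0 ≤ K) (hR : 0 ≤ R) (ha : 0 < a)
    (hha : 16 * h * K ^ 2 ≤ a) :
    c ^ 2 * (v + h * K * (1 + M + R)) ^ 2 ≤ c ^ 2 * v ^ 2 + 1 / 4 * c ^ 2 * (a * h * R ^ 2) +
      h * (8 * K + 32 * K ^ 2 / a + 4 * K ^ 2) * (1 + M ^ 2) := by
  have hM : 0 ≤ M := by linarith
  have hc2 : c ^ 2 ≤ 1 := pow_le_one₀ hc hc1
  have e1 : c ^ 2 * (2 * v * K * (1 + M)) ≤ 8 * K * (1 + M ^ 2) := by
    have a1 : 2 * v * K * (1 + M) ≤ 2 * (2 * M) * K * (1 + M) := by gcongr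
    have a2 : M * (1 + M) ≤ 2 * (1 + M ^ 2) := by nlinarith [sq_nonneg (M - 1)]
    have a3 := mul_le_mul_of_nonneg_left a2 hK
    have a4 : c ^ 2 * (2 * v * K * (1 + M)) ≤ 2 * v * K * (1 + M) :=
      mul_le_of_le_one_left (by positivity) hc2
    linarith
  have e2 : 2 * v * K * R ≤ a / 8 * R ^ 2 + 32 * K ^ 2 / a * M ^ 2 := by
    have a1 : 2 * v * K * R ≤ 2 * (2 * M) * K * R := by gcongr
    have a2 : a / 8 * R ^ 2 + 32 * K ^ 2 / a * M ^ 2 - 4 * M * K * R =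
        (a * R - 16 * K * M) ^ 2 / (8 * a) := by
      field_simp
      ring
    have a3 : 0 ≤ (a * R - 16 * K * M) ^ 2 / (8 * a) := by positivity
    linarith
  have e3 : c ^ 2 * (2 * v * K * R) ≤ c ^ 2 * (a / 8 * R ^ 2) + 32 * K ^ 2 / a * (1 + M ^ 2) := by
    have a1 := mul_le_mul_of_nonneg_left e2 (sq_nonneg c)
    have a2 : c ^ 2 * (32 * K ^ 2 / a * M ^ 2) ≤ 32 * K ^ 2 / a * M ^ 2 :=
      mul_le_of_le_one_left (by positivity) hc2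
    have a3 : 0 ≤ 32 * K ^ 2 / a := by positivity
    nlinarith
  have e4 : c ^ 2 * (h * K ^ 2 * (1 + M + R) ^ 2) ≤
      c ^ 2 * (a / 8 * R ^ 2) + 4 * K ^ 2 * (1 + M ^ 2) := by
    have a1 : (1 + M + R) ^ 2 ≤ 4 * (1 + M ^ 2) + 2 * R ^ 2 := by
      nlinarith [sq_nonneg (M - 1), sq_nonneg (1 + M - R)]
    have a2 : h * K ^ 2 * (1 + M + R) ^ 2 ≤ h * K ^ 2 * (4 * (1 + M ^ 2) + 2 * R ^ 2) :=
      mul_le_mul_of_nonneg_left a1 (by positivity)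
    have a3 : h * (K ^ 2 * (4 * (1 + M ^ 2))) ≤ K ^ 2 * (4 * (1 + M ^ 2)) :=
      mul_le_of_le_one_left (by positivity) hh1
    have a4 : 16 * h * K ^ 2 * R ^ 2 ≤ a * R ^ 2 := mul_le_mul_of_nonneg_right hha (sq_nonneg R)
    have a5 : h * K ^ 2 * (1 + M + R) ^ 2 ≤ a / 8 * R ^ 2 + 4 * K ^ 2 * (1 + M ^ 2) := by
      linarith
    have a6 := mul_le_mul_of_nonneg_left a5 (sq_nonneg c)
    have a7 : c ^ 2 * (4 * K ^ 2 * (1 + M ^ 2)) ≤ 4 * K ^ 2 * (1 + M ^ 2) :=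
      mul_le_of_le_one_left (by positivity) hc2
    linarith
  have e5 : c ^ 2 * (2 * v * K * (1 + M)) + c ^ 2 * (2 * v * K * R) +
      c ^ 2 * (h * K ^ 2 * (1 + M + R) ^ 2) ≤ 1 / 4 * c ^ 2 * (a * R ^ 2) +
        (8 * K + 32 * K ^ 2 / a + 4 * K ^ 2) * (1 + M ^ 2) := by
    linarith
  have e6 := mul_le_mul_of_nonneg_left e5 hh.le
  linarith

end RALG

open RALG in
theorem alg : StmtALG := by
  intro Ω _ c₀ C₀ K hc₀ hK
  obtain ⟨n, hn⟩ : ∃ n : ℝ, n = Fintype.card Ω := ⟨_, rfl⟩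
  have hn0 : 0 ≤ n := by rw [hn]; positivity
  obtain ⟨a, ha⟩ : ∃ a : ℝ, a = c₀ / (n + 1) := ⟨_, rfl⟩
  have ha0 : 0 < a := by rw [ha]; positivity
  refine ⟨n * |C₀| * (K + 40 * K ^ 2) + (8 * K + 32 * K ^ 2 / a + 4 * K ^ 2),
    min 1 (a / (16 * (K ^ 2 + 1))), by positivity, by positivity, ?_⟩
  intro H _ _ _ η h M q χ₀ w w' θ c u χ hη _ hh hh0 hcfl hu hc hχ hχ1 hw hq hb hr
  rw [← hn] at hcfl
  have hM : 0 ≤ M := (norm_nonneg _).trans hw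
  obtain ⟨I, hI⟩ : ∃ I : Ω → H, ∀ o, I o =
      ∫ s in (0 : ℝ)..1, (u o (s * η) + u o (-(s * η)) - (2 : ℝ) • w) := ⟨_, fun _ => rfl⟩
  obtain ⟨J, hJ⟩ : ∃ J : Ω → ℝ, ∀ o, J o =
      ∫ s in (0 : ℝ)..1, (‖u o (s * η) - w‖ + ‖u o (-(s * η)) - w‖) := ⟨_, fun _ => rfl⟩
  simp only [← hI, ← hJ] at hr
  have hone := fun o => one hη (hu o) hχ hw (hb o) (hI o) (hJ o)
  have hc0 : ∀ o, 0 ≤ c o := fun o => le_trans (by positivity) (hc o).1
  have hη2 : 0 < η ^ 2 := by positivity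
  have hl : ∀ o, 0 ≤ h * (c o / η ^ 2) := fun o => by have := hc0 o; positivity
  have hsc : ∑ o, c o ≤ n * C₀ := by
    have := Finset.sum_le_card_nsmul Finset.univ c C₀ fun o _ => (hc o).2
    rwa [nsmul_eq_mul, Finset.card_univ, ← hn] at this
  have hse : (∑ o, h * (c o / η ^ 2)) * η ^ 2 = h * ∑ o, c o := by
    rw [Finset.sum_mul, Finset.mul_sum]
    exact Finset.sum_congr rfl fun o _ => by field_simp
  have hsc' := mul_le_mul_of_nonneg_left hsc hh.le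
  have hs : ∑ o, h * (c o / η ^ 2) ≤ 1 / 8 := by
    refine le_of_mul_le_mul_right ?_ hη2
    rw [hse]
    linarith
  obtain ⟨s1, s2⟩ := summ hl hs hw hq hone
  have ev : h • ∑ o, (c o / η ^ 2) • I o = ∑ o, (h * (c o / η ^ 2)) • I o := by
    rw [Finset.smul_sum]
    exact Finset.sum_congr rfl fun o _ => smul_smul _ _ _
  rw [ev] at hr
  obtain ⟨v, hv⟩ : ∃ v : H, v = w + ∑ o, (h * (c o / η ^ 2)) • I o := ⟨_, rfl⟩
  obtain ⟨R, hR⟩ : ∃ R : ℝ, R = ∑ o, |θ o| * (η⁻¹ * J o) := ⟨_, rfl⟩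
  obtain ⟨P, hP⟩ : ∃ P : ℝ, P = ∑ o, h * (c o / η ^ 2) * J o ^ 2 := ⟨_, rfl⟩
  rw [← hv] at hr s1 s2
  rw [← hR] at hr
  rw [← hP] at s2
  have hJ0 : ∀ o, 0 ≤ J o := fun o => (norm_nonneg _).trans (hone o).1
  have hR0 : 0 ≤ R := by
    rw [hR]
    exact Finset.sum_nonneg fun o _ => by have := hJ0 o; positivity
  have hP0 : 0 ≤ P := by
    rw [hP]
    exact Finset.sum_nonneg fun o _ => mul_nonneg (hl o) (sq_nonneg _)
  have hRP : a * h * R ^ 2 ≤ P := by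
    have a1 : R ^ 2 ≤ n * ∑ o, (|θ o| * (η⁻¹ * J o)) ^ 2 := by
      have := sq_sum_le_card_mul_sum_sq (s := Finset.univ) (f := fun o => |θ o| * (η⁻¹ * J o))
      rwa [Finset.card_univ, ← hn, ← hR] at this
    have a2 : c₀ * h * ∑ o, (|θ o| * (η⁻¹ * J o)) ^ 2 ≤ P := by
      rw [hP, Finset.mul_sum]
      refine Finset.sum_le_sum fun o _ => ?_
      have e : c₀ * h * (|θ o| * (η⁻¹ * J o)) ^ 2 = c₀ * θ o ^ 2 * (h * (J o ^ 2 / η ^ 2)) := by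
        rw [mul_pow, sq_abs]
        field_simp
      have e' : h * (c o / η ^ 2) * J o ^ 2 = c o * (h * (J o ^ 2 / η ^ 2)) := by ring
      rw [e, e']
      exact mul_le_mul_of_nonneg_right (hc o).1 (by positivity)
    have a3 : 0 ≤ ∑ o, (|θ o| * (η⁻¹ * J o)) ^ 2 := Finset.sum_nonneg fun o _ => sq_nonneg _
    have a4 : a * n ≤ c₀ := by
      rw [ha, div_mul_eq_mul_div, div_le_iff₀ (by positivity)]
      nlinarith
    have a5 := mul_le_mul_of_nonneg_left a1 (by positivity : 0 ≤ a * h)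
    have a6 := mul_le_mul_of_nonneg_right a4 (mul_nonneg hh.le a3)
    linarith
  have hh1 : h ≤ 1 := hh0.trans (min_le_left _ _)
  have hha : 16 * h * K ^ 2 ≤ a := by
    have := hh0.trans (min_le_right _ _)
    rw [le_div_iff₀ (by positivity)] at this
    nlinarith
  have f1 := fin χ₀ ‖v‖ h K M R a hχ hχ1 (norm_nonneg _) s1 hh hh1 hK hR0 ha0 hha
  have f2 : ‖w'‖ ≤ ‖v‖ + h * K * (1 + M + R) := by
    have := norm_sub_norm_le w' v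
    linarith
  have f3 := mul_le_mul_of_nonneg_left (pow_le_pow_left₀ (norm_nonneg _) f2 2) (sq_nonneg χ₀)
  have f4 := mul_le_mul_of_nonneg_left hRP (sq_nonneg χ₀)
  have f5 : (∑ o, h * (c o / η ^ 2)) * (η ^ 2 * M ^ 2 * (K + 40 * K ^ 2)) ≤
      h * (n * |C₀| * (K + 40 * K ^ 2)) * (1 + M ^ 2) := by
    have a1 : h * ∑ o, c o ≤ h * (n * |C₀|) :=
      hsc'.trans (mul_le_mul_of_nonneg_left
        (mul_le_mul_of_nonneg_left (le_abs_self _) hn0) hh.le)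
    have a2 : M ^ 2 * (K + 40 * K ^ 2) ≤ (1 + M ^ 2) * (K + 40 * K ^ 2) :=
      mul_le_mul_of_nonneg_right (by linarith) (by positivity)
    calc (∑ o, h * (c o / η ^ 2)) * (η ^ 2 * M ^ 2 * (K + 40 * K ^ 2))
        = (h * ∑ o, c o) * (M ^ 2 * (K + 40 * K ^ 2)) := by rw [← hse]; ring
      _ ≤ h * (n * |C₀|) * ((1 + M ^ 2) * (K + 40 * K ^ 2)) :=
          mul_le_mul a1 a2 (by positivity) (by positivity)
      _ = _ := by ring
  linarith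

end Pool.Agent.MP_67f0e4_gt.EU
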