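import Pool.Agent.MP_67f0e4_gt.EU.Spec
import Pool.Agent.MP_67f0e4_gt.K.Alg

/-! The limit operator is a linear differential operator of second order. -/

set_option autoImplicit false

open scoped ContDiff Topology
open Set Metric Filter

namespace Pool.Agent.MP_67f0e4_gt.EU

noncomputable section

open K

namespace RAZ

section
variable {E E' W W' κ : Type} [NormedAddCommGroup E] [NormedSpace ℝ E] [NormedAddCommGroup E']
  [NormedSpace ℝ E'] [NormedAddCommGroup W] [NormedSpace ℝ W] [NormedAddCommGroup W']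
  [NormedSpace ℝ W'] {U : κ → Set E}

theorem le_inf (n : ℕ) : (n : WithTop ℕ∞) ≤ ∞ := by exact_mod_cast le_top

theorem bd_left (hU : ∀ x, IsOpen (U x)) {F : κ → E → W} (hF : Bd U F) (L : W →L[ℝ] W') :
    Bd U fun x y => L (F x y) := by
  refine ⟨fun x => L.contDiff.comp_contDiffOn (hF.1 x), fun n => ?_⟩
  obtain ⟨C, hC⟩ := hF.2 n
  exact ⟨‖L‖ * C, fun x y hy => (L.norm_iteratedFDeriv_comp_left
    ((hF.1 x).contDiffAt ((hU x).mem_nhds hy)) (le_inf n)).trans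
    (mul_le_mul_of_nonneg_left (hC x y hy) (norm_nonneg L))⟩

theorem bd_der (hU : ∀ x, IsOpen (U x)) {F : κ → E → W} (hF : Bd U F) (v : E) :
    Bd U fun x y => fderiv ℝ (F x) y v := by
  have h : Bd U fun x => fderiv ℝ (F x) := by
    refine ⟨fun x => (hF.1 x).fderiv_of_isOpen (hU x) le_rfl, fun n => ?_⟩
    obtain ⟨C, hC⟩ := hF.2 (n + 1)
    exact ⟨C, fun x y hy => by rw [norm_iteratedFDeriv_fderiv]; exact hC x y hy⟩
  exact bd_left hU h (ContinuousLinearMap.apply ℝ W v)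

theorem bd_mul (hU : ∀ x, IsOpen (U x)) {F G : κ → E → ℝ} (hF : Bd U F) (hG : Bd U G) :
    Bd U fun x y => F x y * G x y := by
  refine ⟨fun x => (hF.1 x).mul (hG.1 x), fun n => ?_⟩
  choose C hC using hF.2
  choose C' hC' using hG.2
  refine ⟨∑ i ∈ Finset.range (n + 1), (n.choose i : ℝ) * C i * C' (n - i), fun x y hy => ?_⟩
  rw [← iteratedFDerivWithin_of_isOpen n (hU x) hy]
  refine (norm_iteratedFDerivWithin_mul_le (hF.1 x) (hG.1 x) (hU x).uniqueDiffOn hy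
    (le_inf n)).trans (Finset.sum_le_sum fun i _ => ?_)
  rw [iteratedFDerivWithin_of_isOpen i (hU x) hy, iteratedFDerivWithin_of_isOpen _ (hU x) hy]
  exact mul_le_mul (mul_le_mul_of_nonneg_left (hC i x y hy) (Nat.cast_nonneg _)) (hC' _ x y hy)
    (norm_nonneg _) (mul_nonneg (Nat.cast_nonneg _) ((norm_nonneg _).trans (hC i x y hy)))

theorem bd_right (hU : ∀ x, IsOpen (U x)) {F : κ → E → W} (hF : Bd U F) (L : E' →L[ℝ] E)
    {O : κ → Set E'} (hO : ∀ x, O x ⊆ L ⁻¹' U x) : Bd O fun x y => F x (L y) := by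
  refine ⟨fun x => (hF.1 x).comp L.contDiff.contDiffOn (hO x), fun n => ?_⟩
  obtain ⟨C, hC⟩ := hF.2 n
  refine ⟨C * ∏ _i : Fin n, ‖L‖, fun x y hy => ?_⟩
  have ho : IsOpen (L ⁻¹' U x) := (hU x).preimage L.continuous
  have h := L.iteratedFDerivWithin_comp_right (hF.1 x) (hU x).uniqueDiffOn ho.uniqueDiffOn
    (hO x hy) (le_inf n)
  rw [iteratedFDerivWithin_of_isOpen n ho (hO x hy),
    iteratedFDerivWithin_of_isOpen n (hU x) (hO x hy)] at h
  refine (congrArg norm h).trans_le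
    ((ContinuousMultilinearMap.norm_compContinuousLinearMap_le _ _).trans ?_)
  exact mul_le_mul_of_nonneg_right (hC x _ (hO x hy))
    (Finset.prod_nonneg fun _ _ => norm_nonneg L)

end

/-- the real coordinates -/
def co : Fin 4 → V →L[ℝ] ℝ :=
  ![Complex.reCLM.comp (ContinuousLinearMap.fst ℝ ℂ ℂ),
    Complex.imCLM.comp (ContinuousLinearMap.fst ℝ ℂ ℂ),
    Complex.reCLM.comp (ContinuousLinearMap.snd ℝ ℂ ℂ),
    Complex.imCLM.comp (ContinuousLinearMap.snd ℝ ℂ ℂ)]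

theorem expand (L : V →L[ℝ] ℝ) (v : V) : L v = ∑ i, co i v * L (e i) := by
  conv_lhs => rw [V_eq v]
  rw [Fin.sum_univ_four, map_add, map_add, map_add, map_smul, map_smul, map_smul, map_smul]
  rfl

theorem curve {W : Type} [NormedAddCommGroup W] [NormedSpace ℝ W] {g : V × ℝ → W} {y : V} {s : ℝ}
    (hg : DifferentiableAt ℝ g (y, s)) :
    HasDerivAt (fun r => g (y, r)) (fderiv ℝ g (y, s) (0, 1)) s :=
  hg.hasFDerivAt.comp_hasDerivAt s ((hasDerivAt_const s y).prodMk (hasDerivAt_id s))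

end RAZ

open RAZ in
theorem az : StmtAZ := by
  intro κ O ε ψ hε hJ
  have hU : ∀ x, IsOpen (O x ×ˢ Ioo (-ε) ε) := fun x => (hJ.op x).prod isOpen_Ioo
  have h0 : (0 : ℝ) ∈ Ioo (-ε) ε := ⟨by linarith, hε⟩
  have hp := bd_der hU hJ.bd ((0, 1) : V × ℝ)
  have hq := bd_der hU hp ((0, 1) : V × ℝ)
  have hO : ∀ x, O x ⊆ ContinuousLinearMap.inl ℝ V ℝ ⁻¹' (O x ×ˢ Ioo (-ε) ε) :=
    fun x y hy => ⟨hy, h0⟩
  have hp' := fun i => bd_left hJ.op (bd_right hU hp _ hO) (co i)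
  have hq' := fun i => bd_left hJ.op (bd_right hU hq _ hO) (co i)
  refine ⟨_, _, fun i j => bd_mul hJ.op (hp' i) (hp' j), hq', fun x f hf y hy => ?_⟩
  have hc : ∀ s ∈ Ioo (-ε) ε, HasDerivAt (fun r => ψ x (y, r))
      (fderiv ℝ (ψ x) (y, s) (0, 1)) s := fun s hs =>
    curve (((hJ.bd.1 x).contDiffAt ((hU x).mem_nhds ⟨hy, hs⟩)).differentiableAt (by simp))
  have hc' := curve (((hp.1 x).contDiffAt ((hU x).mem_nhds
    (show (y, (0 : ℝ)) ∈ O x ×ˢ Ioo (-ε) ε from ⟨hy, h0⟩))).differentiableAt (by simp))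
  have h1 : deriv (fun r => f (ψ x (y, r))) =ᶠ[𝓝 0] fun s =>
      ∑ j, co j (fderiv ℝ (ψ x) (y, s) (0, 1)) * D (e j) f (ψ x (y, s)) := by
    filter_upwards [isOpen_Ioo.mem_nhds h0] with s hs
    have := ((hf.contDiffAt (isOpen_ball.mem_nhds (hJ.maps x y hy s hs))).differentiableAt
      (by simp)).hasFDerivAt.comp_hasDerivAt s (hc s hs)
    exact this.deriv.trans (expand _ _)
  have hy1 : ψ x (y, 0) ∈ ball (0 : V) 1 := hJ.maps x y hy 0 h0
  have h2 : ∀ j, HasDerivAt (fun s => D (e j) f (ψ x (y, s)))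
      (fderiv ℝ (D (e j) f) (ψ x (y, 0)) (fderiv ℝ (ψ x) (y, 0) (0, 1))) 0 := fun j => by
    have a : ContDiffOn ℝ ∞ (D (e j) f) (ball 0 1) :=
      (hf.fderiv_of_isOpen isOpen_ball le_rfl).clm_apply contDiffOn_const
    exact ((a.contDiffAt (isOpen_ball.mem_nhds hy1)).differentiableAt
      (by simp)).hasFDerivAt.comp_hasDerivAt 0 (hc 0 h0)
  have h3 := HasDerivAt.fun_sum (u := Finset.univ) fun j _ =>
    ((co j).hasFDerivAt.comp_hasDerivAt 0 hc').mul (h2 j)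
  unfold A0
  rw [h1.deriv_eq]
  refine h3.deriv.trans ?_
  rw [Finset.sum_add_distrib, add_comm, Finset.sum_comm, hJ.zero x y hy]
  refine congrArg₂ (· + ·) (Finset.sum_congr rfl fun j _ => ?_) rfl
  rw [expand (fderiv ℝ (D (e j) f) y), Finset.mul_sum]
  refine Finset.sum_congr rfl fun i _ => ?_
  change co j (fderiv ℝ (ψ x) (y, 0) (0, 1)) * (co i (fderiv ℝ (ψ x) (y, 0) (0, 1)) *
    DL [i, j] f y) = co i (fderiv ℝ (ψ x) (y, 0) (0, 1)) * co j (fderiv ℝ (ψ x) (y, 0) (0, 1)) *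
    DL [i, j] f y
  ring

end

end Pool.Agent.MP_67f0e4_gt.EU
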