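import Pool.Agent.MP_67f0e4_gt.EU.SpecC

/-! Row CAU: Cauchy estimates. -/

set_option autoImplicit false

open scoped ContDiff Topology
open Set Metric Filter

namespace Pool.Agent.MP_67f0e4_gt.EU

open K

namespace RCAU

theorem lt_inf (n : ℕ) : ((n : ℕ) : WithTop ℕ∞) < ∞ := by
  exact_mod_cast ENat.natCast_lt_top n

theorem bound {κ : Type} (c : κ → V) (r R : ℝ) (T : κ → V → V)
    (hT : ∀ x, ContDiffOn ℂ ∞ (T x) (ball (c x) r))
    (hR : ∀ x, ∀ y ∈ ball (c x) r, ‖T x y‖ ≤ R) (n : ℕ) :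
    ∀ s < r, ∃ C : ℝ, ∀ x, ∀ y ∈ ball (c x) s, ‖iteratedFDeriv ℂ n (T x) y‖ ≤ C := by
  induction n with
  | zero =>
    intro s hs
    refine ⟨R, fun x y hy => ?_⟩
    rw [norm_iteratedFDeriv_zero]
    exact hR x y (ball_subset_ball hs.le hy)
  | succ n ih =>
    intro s hs
    obtain ⟨C, hC⟩ := ih ((s + r) / 2) (by linarith)
    refine ⟨2 * C / ((r - s) / 2), fun x y hy => ?_⟩
    have hpos : 0 < (r - s) / 2 := by linarith
    have hsub : ball y ((r - s) / 2) ⊆ ball (c x) ((s + r) / 2) := by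
      intro z hz
      rw [mem_ball] at hz hy ⊢
      have := dist_triangle z y (c x)
      linarith
    have hsub2 : ball (c x) ((s + r) / 2) ⊆ ball (c x) r := ball_subset_ball (by linarith)
    rw [← norm_fderiv_iteratedFDeriv]
    refine Complex.norm_fderiv_le_div_of_mapsTo_ball (fun z hz => ?_) (fun z hz => ?_) hpos
    · exact (((hT x).contDiffAt (isOpen_ball.mem_nhds (hsub2 (hsub hz)))).differentiableAt_iteratedFDeriv
        (lt_inf n)).differentiableWithinAt
    · rw [mem_closedBall, dist_eq_norm]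
      have h1 := hC x z (hsub hz)
      have h2 := hC x y (hsub (mem_ball_self hpos))
      have h3 := norm_sub_le (iteratedFDeriv ℂ n (T x) z) (iteratedFDeriv ℂ n (T x) y)
      linarith

end RCAU

open RCAU in
theorem cau : StmtCAU := by
  intro κ c r R T hr hT hR
  have hsub : ∀ x, ball (c x) (r / 2) ⊆ ball (c x) r := fun x => ball_subset_ball (by linarith)
  refine ⟨fun x => ((hT x).restrict_scalars ℝ).mono (hsub x), fun n => ?_⟩
  obtain ⟨C, hC⟩ := bound c r R T hT hR n (r / 2) (by linarith)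
  refine ⟨C, fun x y hy => ?_⟩
  have h1 : ContDiffAt ℂ n (T x) y :=
    ((hT x).contDiffAt (isOpen_ball.mem_nhds (hsub x hy))).of_le (lt_inf n).le
  rw [← h1.restrictScalars_iteratedFDeriv (𝕜 := ℝ), Function.comp_apply,
    ContinuousMultilinearMap.norm_restrictScalars]
  exact hC x y hy

end Pool.Agent.MP_67f0e4_gt.EU
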