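import Pool.Agent.MP_67f0e4_gt.EU.Spec

/-! Row COMP: derivatives of a composition with a bounded family. -/

set_option autoImplicit false

open scoped ContDiff Topology
open Set Metric Filter

namespace Pool.Agent.MP_67f0e4_gt.EU

open K

namespace RCOMP

/-- Words of derivatives are values of the iterated derivative. -/
theorem dw_ofFn {E : Type} [NormedAddCommGroup E] [NormedSpace ℝ E] {O : Set E} (hO : IsOpen O)
    {g : E → ℝ} (hg : ContDiffOn ℝ ∞ g O) (n : ℕ) : ∀ (m : Fin n → E), ∀ z ∈ O,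
    dw (List.ofFn m) g z = iteratedFDeriv ℝ n g z m := by
  induction n with
  | zero => intro m z _; rfl
  | succ n ih =>
    intro m z hz
    have h1 : dw (List.ofFn fun i => m i.succ) g =ᶠ[𝓝 z]
        fun y => iteratedFDeriv ℝ n g y (Fin.tail m) :=
      eventually_of_mem (hO.mem_nhds hz) fun y hy => ih _ y hy
    have h2 : DifferentiableAt ℝ (iteratedFDeriv ℝ n g) z :=
      (hg.contDiffAt (hO.mem_nhds hz)).differentiableAt_iteratedFDeriv
        (by exact_mod_cast ENat.natCast_lt_top n)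
    rw [List.ofFn_succ, iteratedFDeriv_succ_apply_left,
      ← fderiv_continuousMultilinear_apply_const_apply h2, ← h1.fderiv_eq]
    rfl

theorem DL_eq (l : List (Fin 4)) (f : V → ℝ) : DL l f = dw (l.map e) f := by
  induction l with
  | nil => rfl
  | cons i l ih => rw [DL, ih]; rfl

/-- The real coordinates. -/
def co (v : V) : Fin 4 → ℝ := ![v.1.re, v.1.im, v.2.re, v.2.im]

theorem sum_co (v : V) : ∑ a, co v a • e a = v := by
  refine Prod.ext (Complex.ext ?_ ?_) (Complex.ext ?_ ?_) <;> simp [Fin.sum_univ_four, co, e]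

theorem co_le (v : V) (a : Fin 4) : |co v a| ≤ ‖v‖ := by
  fin_cases a
  · exact (Complex.abs_re_le_norm _).trans (norm_fst_le v)
  · exact (Complex.abs_im_le_norm _).trans (norm_fst_le v)
  · exact (Complex.abs_re_le_norm _).trans (norm_snd_le v)
  · exact (Complex.abs_im_le_norm _).trans (norm_snd_le v)

/-- The norm of the iterated derivative is bounded by the coordinate derivatives. -/
theorem norm_le {W : Set V} (hW : IsOpen W) {f : V → ℝ} (hf : ContDiffOn ℝ ∞ f W) {y : V}
    (hy : y ∈ W) {k : ℕ} {M : ℝ} (hM : JB k f y M) {i : ℕ} (hi : i ≤ k) :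
    ‖iteratedFDeriv ℝ i f y‖ ≤ 4 ^ k * M := by
  have M0 : 0 ≤ M := (abs_nonneg _).trans (hM [] (Nat.zero_le k))
  refine le_trans (ContinuousMultilinearMap.opNorm_le_bound (M := 4 ^ i * M) (by positivity)
    fun m => ?_) (mul_le_mul_of_nonneg_right (pow_le_pow_right₀ (by norm_num) hi) M0)
  have h1 : m = fun j => ∑ a, co (m j) a • e a := funext fun j => (sum_co _).symm
  have h2 : ∀ r : Fin i → Fin 4, ‖iteratedFDeriv ℝ i f y fun j => co (m j) (r j) • e (r j)‖ ≤
      M * ∏ j, ‖m j‖ := fun r => by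
    rw [ContinuousMultilinearMap.map_smul_univ, norm_smul, mul_comm, ← dw_ofFn hW hf i _ y hy,
      norm_prod]
    refine mul_le_mul ?_ (Finset.prod_le_prod (fun j _ => norm_nonneg _) fun j _ => co_le _ _)
      (Finset.prod_nonneg fun j _ => norm_nonneg _) M0
    have h3 := hM (List.ofFn r) (by rwa [List.length_ofFn])
    rwa [DL_eq, List.map_ofFn] at h3
  conv_lhs => rw [h1, ContinuousMultilinearMap.map_sum]
  refine (norm_sum_le_of_le _ fun r _ => h2 r).trans (le_of_eq ?_)
  rw [Finset.sum_const, Finset.card_univ, Fintype.card_fun, Fintype.card_fin, Fintype.card_fin,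
    nsmul_eq_mul, mul_assoc]
  norm_num

end RCOMP

open RCOMP in
theorem comp : StmtCOMP := by
  intro E κ _ _ U T hU hT l
  choose c hc using hT.2
  obtain ⟨B, B1, hB⟩ : ∃ B : ℝ, 1 ≤ B ∧ ∀ i ≤ l.length, c i ≤ B :=
    ⟨1 + ∑ i ∈ Finset.range (l.length + 1), |c i|,
      le_add_of_nonneg_right (Finset.sum_nonneg fun i _ => abs_nonneg _), fun i hi =>
      (le_abs_self _).trans ((Finset.single_le_sum (f := fun i => |c i|) (fun i _ => abs_nonneg _)
        (Finset.mem_range.2 (Nat.lt_succ_of_le hi))).trans (le_add_of_nonneg_left zero_le_one))⟩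
  have B0 : 0 ≤ B := zero_le_one.trans B1
  have P0 : 0 ≤ ∏ j, ‖l.get j‖ := Finset.prod_nonneg fun j _ => norm_nonneg _
  refine ⟨l.length.factorial * 4 ^ l.length * B ^ l.length * ∏ j, ‖l.get j‖, by positivity,
    fun x f W M hW hf z hz hzW hM => ?_⟩
  have hS : IsOpen (U x ∩ T x ⁻¹' W) := (hT.1 x).continuousOn.isOpen_inter_preimage (hU x) hW
  have hz' : z ∈ U x ∩ T x ⁻¹' W := ⟨hz, hzW⟩
  have h1 : ContDiffOn ℝ ∞ (T x) (U x ∩ T x ⁻¹' W) := (hT.1 x).mono inter_subset_left
  have h2 : MapsTo (T x) (U x ∩ T x ⁻¹' W) W := fun _ h => h.2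
  have h3 := norm_iteratedFDerivWithin_comp_le (n := l.length) hf h1
    (by exact_mod_cast le_top) hW.uniqueDiffOn hS.uniqueDiffOn h2 hz' (C := 4 ^ l.length * M)
    (D := B) (fun i hi => by
      rw [iteratedFDerivWithin_of_isOpen i hW hzW]
      exact norm_le hW hf hzW hM hi) fun i h hi => by
      rw [iteratedFDerivWithin_of_isOpen i hS hz']
      exact (hc i x z hz).trans ((hB i hi).trans (le_self_pow₀ B1 (Nat.one_le_iff_ne_zero.1 h)))
  rw [iteratedFDerivWithin_of_isOpen _ hS hz'] at h3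
  have h4 := dw_ofFn hS (hf.comp h1 h2) l.length l.get z hz'
  rw [List.ofFn_get] at h4
  refine (le_of_eq (congrArg abs h4)).trans (((ContinuousMultilinearMap.le_opNorm _ _).trans
    (mul_le_mul_of_nonneg_right h3 P0)).trans (le_of_eq (by ring)))

end Pool.Agent.MP_67f0e4_gt.EU
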