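import Pool.Agent.MP_67f0e4_gt.EU.SpecC
import Pool.Agent.MP_67f0e4_gt.EU.RCOMP
import Pool.Agent.MP_67f0e4_gt.K.Chain

/-! Block A, row CONJ: uniform bounds for the data of the scheme. -/

set_option autoImplicit false

open scoped ContDiff Topology
open Set Metric Filter

namespace Pool.Agent.MP_67f0e4_gt.EU

open K

namespace RCONJ

section kit
variable {E W Z κ κ' : Type} [NormedAddCommGroup E] [NormedSpace ℝ E] [NormedAddCommGroup W]
  [NormedSpace ℝ W] [NormedAddCommGroup Z] [NormedSpace ℝ Z]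

theorem reindex {U : κ → Set E} {F : κ → E → W} (h : Bd U F) (π : κ' → κ) {U' : κ' → Set E}
    (hU : ∀ x, U' x ⊆ U (π x)) : Bd U' fun x => F (π x) :=
  ⟨fun x => (h.1 (π x)).mono (hU x), fun n =>
    (h.2 n).imp fun _ hC x y hy => hC (π x) y (hU x hy)⟩

theorem ub (c : ℕ → ℝ) (n : ℕ) : ∃ B : ℝ, 1 ≤ B ∧ ∀ i ≤ n, c i ≤ B :=
  ⟨1 + ∑ i ∈ Finset.range (n + 1), |c i|,
    le_add_of_nonneg_right (Finset.sum_nonneg fun _ _ => abs_nonneg _), fun _ hi =>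
    (le_abs_self _).trans ((Finset.single_le_sum (f := fun i => |c i|) (fun _ _ => abs_nonneg _)
      (Finset.mem_range.2 (Nat.lt_succ_of_le hi))).trans (le_add_of_nonneg_left zero_le_one))⟩

theorem comp0 {U : κ → Set E} {O : κ → Set W} {T : κ → E → W} {G : κ → W → Z}
    (hU : ∀ x, IsOpen (U x)) (hO : ∀ x, IsOpen (O x)) (hG : ∀ x, ContDiffOn ℝ ∞ (G x) (O x))
    (hT : Bd U T) (hm : ∀ x, ∀ y ∈ U x, T x y ∈ O x)
    (hb : ∀ n : ℕ, ∃ C : ℝ, ∀ x, ∀ y ∈ U x, ‖iteratedFDeriv ℝ n (G x) (T x y)‖ ≤ C) :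
    Bd U fun x y => G x (T x y) := by
  refine ⟨fun x => (hG x).comp (hT.1 x) (hm x), fun n => ?_⟩
  choose c hc using hT.2
  choose d hd using hb
  obtain ⟨B, B1, hB⟩ := ub c n
  obtain ⟨C, -, hC⟩ := ub d n
  refine ⟨n.factorial * C * B ^ n, fun x y hy => ?_⟩
  have h3 := norm_iteratedFDerivWithin_comp_le (n := n) (hG x) (hT.1 x)
    (by exact_mod_cast le_top) (hO x).uniqueDiffOn (hU x).uniqueDiffOn (hm x) hy (C := C)
    (D := B) (fun i hi => by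
      rw [iteratedFDerivWithin_of_isOpen i (hO x) (hm x y hy)]
      exact (hd i x y hy).trans (hC i hi)) fun i h hi => by
      rw [iteratedFDerivWithin_of_isOpen i (hU x) hy]
      exact (hc i x y hy).trans ((hB i hi).trans (le_self_pow₀ B1 (Nat.one_le_iff_ne_zero.1 h)))
  rw [iteratedFDerivWithin_of_isOpen _ (hU x) hy] at h3
  exact h3

theorem bcomp {U : κ → Set E} {O : κ → Set W} {T : κ → E → W} {G : κ → W → Z}
    (hU : ∀ x, IsOpen (U x)) (hO : ∀ x, IsOpen (O x)) (hG : Bd O G)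
    (hT : Bd U T) (hm : ∀ x, ∀ y ∈ U x, T x y ∈ O x) : Bd U fun x y => G x (T x y) :=
  comp0 hU hO hG.1 hT hm fun n => (hG.2 n).imp fun _ hC x y hy => hC x _ (hm x y hy)

theorem cpt_bound {O Q : Set W} {G : W → Z} (hO : IsOpen O) (hQ : IsCompact Q) (hQO : Q ⊆ O)
    (hG : ContDiffOn ℝ ∞ G O) (n : ℕ) : ∃ C : ℝ, ∀ w ∈ Q, ‖iteratedFDeriv ℝ n G w‖ ≤ C := by
  have h1 : ContinuousOn (iteratedFDerivWithin ℝ n G O) O :=
    hG.continuousOn_iteratedFDerivWithin (by exact_mod_cast le_top) hO.uniqueDiffOn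
  obtain ⟨C, hC⟩ := hQ.exists_bound_of_continuousOn (h1.mono hQO)
  refine ⟨C, fun w hw => ?_⟩
  rw [← iteratedFDerivWithin_of_isOpen n hO (hQO hw)]
  exact hC w hw

theorem cpt {U : κ → Set E} {O Q : Set W} {T : κ → E → W} {G : W → Z}
    (hU : ∀ x, IsOpen (U x)) (hO : IsOpen O) (hQ : IsCompact Q) (hQO : Q ⊆ O)
    (hG : ContDiffOn ℝ ∞ G O) (hT : Bd U T) (hm : ∀ x, ∀ y ∈ U x, T x y ∈ Q) :
    Bd U fun x y => G (T x y) :=
  comp0 (O := fun _ => O) (G := fun _ => G) hU (fun _ => hO) (fun _ => hG) hT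
    (fun x y hy => hQO (hm x y hy)) fun n =>
      (cpt_bound hO hQ hQO hG n).imp fun _ hC x y hy => hC _ (hm x y hy)

theorem smooth [ProperSpace W] {U : κ → Set E} {T : κ → E → W} {G : W → Z}
    (hU : ∀ x, IsOpen (U x)) (hG : ContDiff ℝ ∞ G) (hT : Bd U T) :
    Bd U fun x y => G (T x y) := by
  obtain ⟨C, hC⟩ := hT.2 0
  refine cpt hU isOpen_univ (isCompact_closedBall (0 : W) C) (subset_univ _) hG.contDiffOn hT
    fun x y hy => ?_
  have h := hC x y hy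
  rw [norm_iteratedFDeriv_zero] at h
  exact mem_closedBall_zero_iff.2 h

theorem fixed {U : κ → Set E} {Q : Set E} {G : E → W} (hQ : IsCompact Q) (hU : ∀ x, U x ⊆ Q)
    (hG : ContDiff ℝ ∞ G) : Bd U fun _ => G :=
  ⟨fun _ => hG.contDiffOn, fun n =>
    (cpt_bound isOpen_univ hQ (subset_univ _) hG.contDiffOn n).imp fun _ hC x y hy =>
      hC y (hU x hy)⟩

theorem prod {U : κ → Set E} {F : κ → E → W} {G : κ → E → Z} (hU : ∀ x, IsOpen (U x))
    (hF : Bd U F) (hG : Bd U G) : Bd U fun x y => (F x y, G x y) := by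
  refine ⟨fun x => (hF.1 x).prodMk (hG.1 x), fun n => ?_⟩
  obtain ⟨C, hC⟩ := hF.2 n
  obtain ⟨D, hD⟩ := hG.2 n
  refine ⟨max C D, fun x y hy => ?_⟩
  rw [iteratedFDeriv_prodMk ((hF.1 x).contDiffAt ((hU x).mem_nhds hy))
    ((hG.1 x).contDiffAt ((hU x).mem_nhds hy)) (by exact_mod_cast le_top),
    ContinuousMultilinearMap.opNorm_prod]
  exact max_le_max (hC x y hy) (hD x y hy)

end kit

theorem vec_smooth : ContDiff ℝ ∞ fun p : ℝ × ℝ × ℝ × ℝ =>
    (![p.1, p.2.1, p.2.2.1, p.2.2.2] : Hm) := by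
  refine contDiff_pi.2 fun α => ?_
  fin_cases α
  exacts [contDiff_fst, contDiff_fst.comp contDiff_snd,
    contDiff_fst.comp (contDiff_snd.comp contDiff_snd),
    contDiff_snd.comp (contDiff_snd.comp contDiff_snd)]

theorem qf_smooth : ContDiff ℝ ∞ fun p : Hm × V => qf p.1 p.2 / 2 := by
  have a : ContDiff ℝ ∞ fun p : Hm × V => p.2.1.re :=
    Complex.reCLM.contDiff.comp (contDiff_fst.comp contDiff_snd)
  have b : ContDiff ℝ ∞ fun p : Hm × V => p.2.1.im :=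
    Complex.imCLM.contDiff.comp (contDiff_fst.comp contDiff_snd)
  have c : ContDiff ℝ ∞ fun p : Hm × V => p.2.2.re :=
    Complex.reCLM.contDiff.comp (contDiff_snd.comp contDiff_snd)
  have d : ContDiff ℝ ∞ fun p : Hm × V => p.2.2.im :=
    Complex.imCLM.contDiff.comp (contDiff_snd.comp contDiff_snd)
  have g : ∀ α, ContDiff ℝ ∞ fun p : Hm × V => p.1 α := fun α =>
    (contDiff_apply ℝ ℝ α).comp contDiff_fst
  refine ContDiff.div_const ?_ 2
  exact ((((g 0).mul ((a.mul a).add (b.mul b))).add ((g 1).mul ((c.mul c).add (d.mul d)))).add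
    ((g 2).mul ((((a.mul c).add (b.mul d)).add (c.mul a)).add (d.mul b)))).add
    ((g 3).mul ((((a.mul d).sub (b.mul c)).add (d.mul a)).sub (c.mul b)))

theorem norm_rt (n : ℕ) (k : Fin n) : ‖rt n k‖ = 1 := by
  have h : (2 * Real.pi * Complex.I * (k : ℕ) / n : ℂ) =
      ((2 * Real.pi * (k : ℕ) / n : ℝ) : ℂ) * Complex.I := by
    push_cast
    ring
  rw [rt, h, Complex.norm_exp_ofReal_mul_I]

/-- the Levi forms of the data in all charts -/
theorem lv_bd {X : Set C3} (F : Fam X) {M : Type} (f : M → C3 → ℝ) (hs : ∀ m, XSm0 X (f m))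
    (hb : ∀ k, ∃ C, ∀ m, F.Bnd k C (f m)) :
    Bd (fun _ : M × F.ι => ball (0 : V) 1) fun x => lv (f x.1 ∘ F.Φ x.2) := by
  have hsm : ∀ x : M × F.ι, ContDiffOn ℝ ∞ (lv (f x.1 ∘ F.Φ x.2)) (ball (0 : V) 1) :=
    fun x y hy => (lv_smooth ((hs x.1 _ _ (F.par x.2)).contDiffAt
      (isOpen_ball.mem_nhds (ball_subset_ball (by norm_num) hy)))).contDiffWithinAt
  have h1 : ∀ α, Bd (fun _ : M × F.ι => ball (0 : V) 1)
      fun x y => lv (f x.1 ∘ F.Φ x.2) y α := fun α => by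
    have h2 := fun x => contDiffOn_pi.1 (hsm x) α
    refine ⟨h2, fun n => ?_⟩
    obtain ⟨C, hC⟩ := hb n
    exact ⟨4 ^ n * C, fun x y hy =>
      RCOMP.norm_le isOpen_ball (h2 x) hy (fun l hl => hC x.1 x.2 l hl α y hy) le_rfl⟩
  have ho : ∀ _ : M × F.ι, IsOpen (ball (0 : V) 1) := fun _ => isOpen_ball
  exact smooth ho vec_smooth (prod ho (h1 0) (prod ho (h1 1) (prod ho (h1 2) (h1 3))))

end RCONJ

open RCONJ in
theorem conj' (hF : StmtFR) : StmtCONJ := by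
  intro X F A L M f ρ Λ ε δ c hA hL hD hε hS
  have s1 : ball (0 : V) L.s ⊆ ball 0 1 := ball_subset_ball (hL.s_le.trans (by norm_num))
  have hO : ∀ x : M × {x : F.ι × V // x.2 ∈ ball (0 : V) (1 / 2)}, IsOpen (L.O x.2.1) :=
    fun x => (hL.op _).1
  have hT : ∀ c, Bd (fun x : M × {x : F.ι × V // x.2 ∈ ball (0 : V) (1 / 2)} => L.O x.2.1)
      fun x => L.T c x.2.1 := fun c => reindex (hL.Tb c)
        (fun x : M × {x : F.ι × V // x.2 ∈ ball (0 : V) (1 / 2)} => x.2.1) fun _ => Subset.rfl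
  have hlv : ∀ (g : M → C3 → ℝ), (∀ m, XSm0 X (g m)) → (∀ k, ∃ C, ∀ m, F.Bnd k C (g m)) → ∀ c,
      Bd (fun x : M × {x : F.ι × V // x.2 ∈ ball (0 : V) (1 / 2)} => L.O x.2.1)
        fun x y => lv (g x.1 ∘ F.Φ (L.j c x.2.1)) (L.T c x.2.1 y) := fun g h1 h2 c =>
    bcomp (O := fun _ => ball (0 : V) 1) hO (fun _ => isOpen_ball)
      (reindex (lv_bd F g h1 h2)
        (fun x : M × {x : F.ι × V // x.2 ∈ ball (0 : V) (1 / 2)} => (x.1, L.j c x.2.1))
        fun _ => Subset.rfl) (hT c)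
      fun x y hy => s1 (hL.Tm c _ y hy).1
  have hell : ∀ c (x : M × {x : F.ι × V // x.2 ∈ ball (0 : V) (1 / 2)}), ∀ y ∈ L.O x.2.1,
      EllH Λ (lv (f x.1 ∘ F.Φ (L.j c x.2.1)) (L.T c x.2.1 y)) := fun c x y hy =>
    hD.ell x.1 _ _ (s1 (hL.Tm c _ y hy).1)
  obtain ⟨Q, R, hQ, hQs, -, hQe⟩ := hF.2.2.2.2 Λ hD.pos
  have hop : IsOpen {g : Hm | 0 < g 1 ∧ 0 < hdet g} :=
    (isOpen_lt continuous_const (continuous_apply 1)).inter
      (isOpen_lt continuous_const hdet_smooth.continuous)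
  have hfr : ∀ c γ a,
      Bd (fun x : M × {x : F.ι × V // x.2 ∈ ball (0 : V) (1 / 2)} => L.O x.2.1)
        fun x y => fr (lv (f x.1 ∘ F.Φ (L.j c x.2.1)) (L.T c x.2.1 y)) γ a := fun c γ a =>
    cpt (G := fun g => fr g γ a) hO hop hQ hQs (hF.2.2.2.1 γ a) (hlv f hD.fs hD.fb c)
      fun x y hy => (hQe _ (hell c x y hy)).1
  have hin : ∀ c (k : Fin A.n) a (x : M × {x : F.ι × V // x.2 ∈ ball (0 : V) (1 / 2)}),
      ∀ y ∈ L.O x.2.1, ∀ e ∈ Ioo (-ε) ε, L.T c x.2.1 y +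
        e • fr (lv (f x.1 ∘ F.Φ (L.j c x.2.1)) (L.T c x.2.1 y)) (rt A.n k) a ∈
          ball (0 : V) (2 * L.s) := by
    intro c k a x y hy e he
    have h1 := mem_ball_zero_iff.1 (hL.Tm c _ y hy).1
    have h2 := hS _ (hell c x y hy) (rt A.n k) a (norm_rt _ _)
    have h3 : |e| ≤ ε := abs_le.2 ⟨he.1.le, he.2.le⟩
    refine mem_ball_zero_iff.2 ((norm_add_le _ _).trans_lt ?_)
    rw [norm_smul, Real.norm_eq_abs]
    have h4 := mul_le_mul_of_nonneg_right h3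
      (norm_nonneg (fr (lv (f x.1 ∘ F.Φ (L.j c x.2.1)) (L.T c x.2.1 y)) (rt A.n k) a))
    linarith
  refine ⟨?_, fun b a => ⟨hO, ?_, fun x y hy => ?_, fun x y hy e he => ?_⟩, fun b => ?_,
    fun b a => ?_⟩
  · rcases isEmpty_or_nonempty A.C with hC | ⟨⟨c₀⟩⟩
    · refine ⟨PEmpty, fun x => x.elim, fun x => x.elim, fun x => x.elim, fun x => x.elim,
        fun x => x.elim, ⟨fun x => x.elim, fun _ => ⟨0, fun x => x.elim⟩⟩, fun i y _ => ?_,
        fun x => x.elim⟩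
      have h := hA.sq (F.Φ i.2 0) ((F.par i.2).mem (mem_ball_self (by norm_num)))
      rw [Finset.univ_eq_empty, Finset.sum_empty] at h
      exact absurd h zero_ne_one
    · refine ⟨M × (F.ι × V), fun x => (x.1, x.2.1), fun x => (x.1, L.j c₀ x.2),
        fun x => L.O x.2, fun x => L.T c₀ x.2, fun x => (hL.op _).1,
        reindex (hL.Tb c₀) (fun x : M × (F.ι × V) => x.2) fun _ => Subset.rfl,
        fun i y hy => ⟨(i.1, (i.2, y)), rfl, (hL.mem (i.2, y) hy).1⟩, fun x y hy => ⟨?_, ?_⟩⟩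
      · exact ball_subset_ball (hL.s_le.trans (by norm_num)) (hL.Tm c₀ _ y hy).1
      · exact Prod.ext rfl (hL.Tm c₀ _ y hy).2.1
  · have hU : ∀ x : M × {x : F.ι × V // x.2 ∈ ball (0 : V) (1 / 2)},
        IsOpen (L.O x.2.1 ×ˢ Ioo (-ε) ε) := fun x => (hO x).prod isOpen_Ioo
    have hK : ∀ x : M × {x : F.ι × V // x.2 ∈ ball (0 : V) (1 / 2)},
        L.O x.2.1 ×ˢ Ioo (-ε) ε ⊆ closedBall (0 : V) 1 ×ˢ Icc (-ε) ε := fun x =>
      prod_mono ((hL.op _).2.trans ball_subset_closedBall) Ioo_subset_Icc_self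
    have hC : IsCompact (closedBall (0 : V) 1 ×ˢ Icc (-ε) ε) :=
      (isCompact_closedBall _ _).prod isCompact_Icc
    have h1 := fixed hC hK (contDiff_fst (𝕜 := ℝ) (E := V) (F := ℝ) (n := ∞))
    have h2 := fixed hC hK (contDiff_snd (𝕜 := ℝ) (E := V) (F := ℝ) (n := ∞))
    have h3 := bcomp hU hO (hT b.1) h1 fun _ _ hy => hy.1
    have h4 := bcomp hU hO (hfr b.1 (rt A.n b.2) a) h1 fun _ _ hy => hy.1
    have h5 : ContDiff ℝ ∞ fun p : V × ℝ × V => p.1 + p.2.1 • p.2.2 :=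
      contDiff_fst.add ((contDiff_fst.comp contDiff_snd).smul (contDiff_snd.comp contDiff_snd))
    have h6 := smooth hU h5 (prod hU h3 (prod hU h2 h4))
    exact bcomp (O := fun _ => ball (0 : V) (2 * L.s)) hU (fun _ => isOpen_ball)
      (reindex (hL.Sb b.1)
        (fun x : M × {x : F.ι × V // x.2 ∈ ball (0 : V) (1 / 2)} => x.2.1)
        fun _ => Subset.rfl) h6
      fun x q hq => hin b.1 b.2 a x q.1 hq.1 q.2 hq.2
  · show L.S b.1 x.2.1 (L.T b.1 x.2.1 y + (0 : ℝ) • _) = y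
    rw [zero_smul, add_zero]
    exact (hL.Tm b.1 _ y hy).2.2
  · exact (hL.Sm b.1 x.2.1 _ (hin b.1 b.2 a x y hy e he)).2 x.2.2
  · have h1 : ContDiff ℝ ∞ fun z : ℝ => z / √(A.n : ℝ) := contDiff_id.div_const _
    exact smooth hO h1 (reindex (hA.thb b.1)
      (fun x : M × {x : F.ι × V // x.2 ∈ ball (0 : V) (1 / 2)} => x.2.1.1) fun x => (hL.op _).2)
  · exact smooth hO qf_smooth (prod hO (hlv ρ hD.ρs hD.ρb b.1) (hfr b.1 (rt A.n b.2) a))

end Pool.Agent.MP_67f0e4_gt.EU
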