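import Pool.Agent.MP_67f0e4_gt.EU.SpecC
import Pool.Agent.MP_67f0e4_gt.K.Chain

/-! Row CONO: the global operator in a chart. -/

set_option autoImplicit false

open scoped ContDiff Topology
open Set Metric Filter

namespace Pool.Agent.MP_67f0e4_gt.EU

open K

namespace RCONO

/-- the diagonal map as a complex linear map -/
noncomputable def dgL (d₁ d₂ : ℝ) (γ : ℂ) : V →L[ℂ] V := cols ((d₁ : ℂ), 0) (0, (d₂ : ℂ) * γ)

theorem dgL_apply (d₁ d₂ : ℝ) (γ : ℂ) (u : V) : dgL d₁ d₂ γ u = dg d₁ d₂ γ u := by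
  rw [dgL, cols_apply, dg]
  ext
  · simp [mul_comm]
  · simp [mul_comm]

theorem dg_smul (d₁ d₂ : ℝ) (γ : ℂ) (s : ℝ) (u : V) :
    dg d₁ d₂ γ (s • u) = s • dg d₁ d₂ γ u := by
  rw [← dgL_apply, ← dgL_apply]
  exact (dgL d₁ d₂ γ).map_smul_of_tower s u

theorem qf_dg {h h' : V → ℝ} {y y' : V} {d₁ d₂ : ℝ} {γ : ℂ} (hy : y ∈ ball (0 : V) 1)
    (hy' : y' ∈ ball (0 : V) 1) (hs : ContDiffAt ℝ 2 h' y')
    (H : ∀ u : V, y + u ∈ ball (0 : V) 1 → y' + dg d₁ d₂ γ u ∈ ball (0 : V) 1 →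
      h' (y' + dg d₁ d₂ γ u) = h (y + u)) (u : V) :
    qf (lv h' y') (dg d₁ d₂ γ u) = qf (lv h y) u := by
  have e0 : y' - dgL d₁ d₂ γ y + dgL d₁ d₂ γ y = y' := sub_add_cancel _ _
  have e1 : ∀ w, y' - dgL d₁ d₂ γ y + dgL d₁ d₂ γ w = y' + dg d₁ d₂ γ (w - y) := fun w => by
    rw [← dgL_apply, map_sub]
    abel
  have hc : Continuous fun w => y' - dgL d₁ d₂ γ y + dgL d₁ d₂ γ w :=
    continuous_const.add (dgL d₁ d₂ γ).continuous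
  have h1 : ∀ᶠ w in 𝓝 y, y' - dgL d₁ d₂ γ y + dgL d₁ d₂ γ w ∈ ball (0 : V) 1 := by
    have h3 : ball (0 : V) 1 ∈ 𝓝 (y' - dgL d₁ d₂ γ y + dgL d₁ d₂ γ y) := by
      rw [e0]
      exact isOpen_ball.mem_nhds hy'
    exact hc.continuousAt.eventually h3
  have h2 : h =ᶠ[𝓝 y] fun w => h' (y' - dgL d₁ d₂ γ y + dgL d₁ d₂ γ w) := by
    filter_upwards [h1, isOpen_ball.mem_nhds hy] with w hw1 hw2
    rw [e1] at hw1 ⊢
    have e2 : y + (w - y) = w := add_sub_cancel _ _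
    rw [H (w - y) (by rwa [e2]) hw1, e2]
  rw [lv_congr h2, lv_affine (dgL d₁ d₂ γ) _ (by rwa [e0]), e0, qf_pb, dgL_apply]

theorem Aop_congr {η : ℝ} {f f' : V → ℝ} {ψ ψ' : V × ℝ → V} {y y' : V} (hη : 0 < η)
    (H : ∀ e : ℝ, |e| ≤ η → f (ψ (y, e)) = f' (ψ' (y', e))) : Aop η f ψ y = Aop η f' ψ' y' := by
  unfold Aop
  refine congrArg (fun z => 3 / η ^ 2 * z) ?_
  refine intervalIntegral.integral_congr fun s hs => ?_
  rw [uIcc_of_le zero_le_one] at hs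
  have h1 : |s * η| ≤ η := by
    rw [abs_of_nonneg (mul_nonneg hs.1 hη.le)]
    exact mul_le_of_le_one_left hη.le hs.2
  simp only [d2]
  rw [H _ h1, H _ (by rwa [abs_neg]), H 0 (by rw [abs_zero]; exact hη.le)]

theorem rt_eq (n : ℕ) (k : Fin n) :
    rt n k = Complex.exp (2 * Real.pi * Complex.I / n) ^ (k : ℕ) := by
  rw [rt, ← Complex.exp_nat_mul]
  refine congrArg Complex.exp ?_
  ring

theorem norm_root {n : ℕ} (hn : 0 < n) {γ : ℂ} (h : γ ^ n = 1) : ‖γ‖ = 1 :=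
  Complex.norm_eq_one_of_pow_eq_one h hn.ne'

theorem rt_pow {n : ℕ} (hn : 0 < n) (k : Fin n) : rt n k ^ n = 1 := by
  rw [rt_eq, ← pow_mul, mul_comm (k : ℕ) n, pow_mul,
    (Complex.isPrimitiveRoot_exp n hn.ne').pow_eq_one, one_pow]

theorem norm_rt {n : ℕ} (hn : 0 < n) (k : Fin n) : ‖rt n k‖ = 1 := norm_root hn (rt_pow hn k)

theorem sum_rt {n : ℕ} (hn : 0 < n) {γ : ℂ} (h : γ ^ n = 1) (G : ℂ → ℝ) :
    ∑ k : Fin n, G (rt n k) = ∑ k : Fin n, G (γ * rt n k) := by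
  have : NeZero n := ⟨hn.ne'⟩
  have hp := Complex.isPrimitiveRoot_exp n hn.ne'
  obtain ⟨k0, hk0, e⟩ := hp.eq_pow_of_pow_eq_one h
  rw [← Equiv.sum_comp (Equiv.addLeft (⟨k0, hk0⟩ : Fin n))]
  refine Finset.sum_congr rfl fun k _ => congrArg G ?_
  rw [rt_eq, rt_eq, ← e, ← pow_add, Equiv.coe_addLeft, Fin.val_add]
  exact (pow_eq_pow_mod _ hp.pow_eq_one).symm

theorem mem_jump {Λ ε s η r e : ℝ} {g : Hm} {γ : ℂ} {a : Dir} {y : V} (hS : Short Λ ε s)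
    (hg : EllH Λ g) (hγ : ‖γ‖ = 1) (hη : η < ε) (he : |e| ≤ η) (hy : y ∈ ball (0 : V) r) :
    y + e • fr g γ a ∈ ball (0 : V) (r + s) := by
  rw [mem_ball_zero_iff] at hy ⊢
  have h1 := hS g hg γ a hγ
  have h2 : ‖e • fr g γ a‖ ≤ s := by
    rw [norm_smul, Real.norm_eq_abs]
    exact (mul_le_mul_of_nonneg_right (he.trans hη.le) (norm_nonneg _)).trans h1
  exact (norm_add_le _ _).trans_lt (add_lt_add_of_lt_of_le hy h2)

theorem term_eq (hF : StmtFR) {X : Set C3} {F : Fam X} {A : Atl F} (hA : A.Ok) {f ρ : C3 → ℝ}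
    {Λ ε s η : ℝ} (hf : XSm0 X f) (hρ : XSm0 X ρ) (hE : F.Ell Λ f) (hS : Short Λ ε s)
    (hs : s ≤ 1 / 8) (hη : η ∈ Ioo 0 ε) (t : ℝ) (v : C3 → ℝ) {i j : F.ι}
    (hij : A.typ i = A.typ j) {y y' : V} (hy : y ∈ ball (0 : V) (1 / 4))
    (hy' : y' ∈ ball (0 : V) (1 / 4)) (e : F.Φ i y = F.Φ j y') :
    term A.n η t (f ∘ F.Φ j) (ρ ∘ F.Φ j) (v ∘ F.Φ j) y' =
      term A.n η t (f ∘ F.Φ i) (ρ ∘ F.Φ i) (v ∘ F.Φ i) y := by
  obtain ⟨d₁, d₂, γ, h₁, h₂, hγ, H⟩ := hA.same i j hij y hy y' hy' e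
  have y1 : y ∈ ball (0 : V) 1 := ball_subset_ball (by norm_num) hy
  have y1' : y' ∈ ball (0 : V) 1 := ball_subset_ball (by norm_num) hy'
  have y2' : ball (0 : V) 2 ∈ 𝓝 y' := isOpen_ball.mem_nhds (ball_subset_ball (by norm_num) hy')
  have nγ := norm_root hA.n_pos hγ
  have key : ∀ g : C3 → ℝ, XSm0 X g → ∀ u,
      qf (lv (g ∘ F.Φ j) y') (dg d₁ d₂ γ u) = qf (lv (g ∘ F.Φ i) y) u := fun g hg =>
    qf_dg y1 y1' (((hg _ _ (F.par j)).contDiffAt y2').of_le two_le_inf)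
      fun u hu hu' => congrArg g (H u hu hu')
  have hfr := hF.2.2.1 _ _ d₁ d₂ γ (hE i y y1).isPos h₁ h₂ nγ (key f hf)
  unfold term
  rw [sum_rt hA.n_pos hγ fun z => Gh fun a =>
    t * (qf (lv (ρ ∘ F.Φ j) y') (fr (lv (f ∘ F.Φ j) y') z a) / 2) +
      Aop η (v ∘ F.Φ j) (fun q => q.1 + q.2 • fr (lv (f ∘ F.Φ j) y') z a) y']
  refine Finset.sum_congr rfl fun k _ => congrArg Gh (funext fun a => ?_)
  have nk := norm_rt hA.n_pos k
  have nk' : ‖γ * rt A.n k‖ = 1 := by rw [norm_mul, nγ, nk, one_mul]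
  have e1 : Aop η (v ∘ F.Φ j) (fun q => q.1 + q.2 • fr (lv (f ∘ F.Φ j) y') (γ * rt A.n k) a) y' =
      Aop η (v ∘ F.Φ i) (fun q => q.1 + q.2 • fr (lv (f ∘ F.Φ i) y) (rt A.n k) a) y := by
    refine Aop_congr hη.1 fun c hc => ?_
    have m1 := mem_jump (a := a) hS (hE i y y1) nk hη.2 hc hy
    have m2 := mem_jump (a := a) hS (hE j y' y1') nk' hη.2 hc hy'
    rw [hfr, ← dg_smul] at m2
    have := H _ (ball_subset_ball (by linarith) m1) (ball_subset_ball (by linarith) m2)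
    show v (F.Φ j (y' + c • fr (lv (f ∘ F.Φ j) y') (γ * rt A.n k) a)) =
      v (F.Φ i (y + c • fr (lv (f ∘ F.Φ i) y) (rt A.n k) a))
    rw [hfr, ← dg_smul, this]
  rw [e1, hfr, key ρ hρ]

end RCONO

open RCONO in
theorem cono (hF : StmtFR) : StmtCONO := by
  intro X F A L M f ρ Λ ε δ c hA hL hD hε hS η hη t v x y hy
  obtain ⟨m, x, hx⟩ := x
  have hy' : y ∈ L.O x := hy
  show Nop A (f m) (ρ m) η t (fun p' => v (m, p')) (F.Φ x.1 y) =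
    ∑ b : A.C × Fin A.n, (A.th b.1 (F.Φ x.1 y) / √(A.n : ℝ)) ^ 2 * Gh fun a =>
      t * (qf (lv (ρ m ∘ F.Φ (L.j b.1 x)) (L.T b.1 x y))
        (fr (lv (f m ∘ F.Φ (L.j b.1 x)) (L.T b.1 x y)) (rt A.n b.2) a) / 2) +
      Aop η (fun w => v (m, F.Φ x.1 w)) (fun q => L.S b.1 x (L.T b.1 x q.1 +
        q.2 • fr (lv (f m ∘ F.Φ (L.j b.1 x)) (L.T b.1 x q.1)) (rt A.n b.2) a)) y
  rw [Fintype.sum_prod_type]
  unfold Nop
  refine Finset.sum_congr rfl fun b _ => ?_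
  by_cases h0 : A.th b (F.Φ x.1 y) = 0
  · simp only [h0]
    simp
  have hty : A.typ (L.j b x) = b := (hL.typ b x).resolve_right fun h => h0 (h y hy')
  obtain ⟨T1, T2, -⟩ := hL.Tm b x y hy'
  have hs := hL.s_le
  have T3 : L.T b x y ∈ ball (0 : V) (1 / 4) := ball_subset_ball (by linarith) T1
  have T4 : L.T b x y ∈ ball (0 : V) 1 := ball_subset_ball (by linarith) T1
  have hex : ∃ q : F.ι × V, A.typ q.1 = b ∧ q.2 ∈ ball (0 : V) (1 / 4) ∧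
      F.Φ q.1 q.2 = F.Φ x.1 y := ⟨(L.j b x, L.T b x y), hty, T3, T2⟩
  rw [dif_pos hex]
  obtain ⟨q1, q2, q3⟩ := hex.choose_spec
  rw [term_eq hF hA (hD.fs m) (hD.ρs m) (hD.ell m) hS hs hη t (fun p' => v (m, p'))
    (hty.trans q1.symm) T3 q2 (T2.trans q3.symm)]
  unfold term
  rw [Finset.mul_sum]
  refine Finset.sum_congr rfl fun k _ => ?_
  rw [div_pow, Real.sq_sqrt (Nat.cast_nonneg _)]
  refine congrArg (fun z => A.th b (F.Φ x.1 y) ^ 2 / (A.n : ℝ) * Gh z) (funext fun a => ?_)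
  refine congrArg₂ (fun z w : ℝ => z + w) rfl ?_
  refine Aop_congr hη.1 fun e he => ?_
  have m1 := mem_jump (a := a) hS (hD.ell m (L.j b x) _ T4) (norm_rt hA.n_pos k) hη.2 he T1
  rw [← two_mul] at m1
  exact congrArg (fun p => v (m, p)) (hL.Sm b x _ m1).1.symm

end Pool.Agent.MP_67f0e4_gt.EU
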