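import Pool.Agent.MP_67f0e4_gt.EU.SpecC
import Pool.Agent.MP_67f0e4_gt.K.Alg

/-! Row CONT: continuation. -/

set_option autoImplicit false

open scoped ContDiff Topology
open Set Metric Filter

namespace Pool.Agent.MP_67f0e4_gt.EU

open K

namespace RCONT

theorem D_ev {f g : V → ℝ} {x : V} (v : V) (h : f =ᶠ[𝓝 x] g) : D v f =ᶠ[𝓝 x] D v g := by
  filter_upwards [h.fderiv (𝕜 := ℝ)] with y hy
  simp only [D, hy]

theorem DL_ev {f g : V → ℝ} {x : V} (l : List (Fin 4)) (h : f =ᶠ[𝓝 x] g) :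
    DL l f =ᶠ[𝓝 x] DL l g := by
  induction l with
  | nil => exact h
  | cons i l ih => exact D_ev _ ih

theorem lv_ev {f g : V → ℝ} {x : V} (h : f =ᶠ[𝓝 x] g) : ∀ᶠ y in 𝓝 x, lv f y = lv g y := by
  have H : ∀ v w : V, ∀ᶠ y in 𝓝 x, lev f y v w = lev g y v w := fun v w => by
    filter_upwards [D_ev v (D_ev w h), D_ev (Complex.I • v) (D_ev (Complex.I • w) h)] with y h1 h2
    simp only [lev, h1, h2]
  filter_upwards [H (e 0) (e 0), H (e 2) (e 2), H (e 0) (e 2), H (e 0) (e 3)] with y h1 h2 h3 h4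
  simp only [lv, h1, h2, h3, h4]

theorem ev_of {f g : V → ℝ} {U : Set V} (hU : IsOpen U) (h : EqOn f g U) {x : V} (hx : x ∈ U) :
    f =ᶠ[𝓝 x] g := h.eventuallyEq_of_mem (hU.mem_nhds hx)

variable {S S' : Set ℝ} {U : Set V} {φ φ' : ℝ → V → ℝ} {w : V → ℝ}

theorem pmono (h : PFlow S U φ w) (hS : S' ⊆ S) : PFlow S' U φ w :=
  ⟨h.sm.mono (prod_mono hS Subset.rfl), h.om, h.ph, fun t ht => h.pos t (hS ht),
    fun t ht x hx => (h.eq t (hS ht) x hx).mono hS⟩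

theorem pshift (h : PFlow S U φ w) (c : ℝ) :
    PFlow {t | c + t ∈ S} U (fun t => φ (c + t)) w := by
  refine ⟨?_, h.om, h.ph, fun t ht => h.pos _ ht, fun t ht x hx => ?_⟩
  · have h1 : ContDiff ℝ ∞ fun q : ℝ × V => (c + q.1, q.2) := by fun_prop
    exact h.sm.comp h1.contDiffOn fun q hq => ⟨hq.1, hq.2⟩
  · have h1 : HasDerivWithinAt (fun s : ℝ => c + s) 1 {t | c + t ∈ S} t :=
      ((hasDerivAt_id t).const_add c).hasDerivWithinAt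
    have h2 := (h.eq _ ht x hx).comp t h1 fun s hs => hs
    rw [mul_one] at h2
    exact h2

theorem plocal (hU : IsOpen U) (h0 : S.Nonempty)
    (h : ∀ t ∈ S, ∃ (S' : Set ℝ) (φ' : ℝ → V → ℝ), PFlow S' U φ' w ∧ S' ∈ 𝓝[S] t ∧
      ∀ s ∈ S', EqOn (φ s) (φ' s) U) : PFlow S U φ w := by
  obtain ⟨t0, ht0⟩ := h0
  obtain ⟨_, _, P0, -, -⟩ := h t0 ht0
  refine ⟨fun q hq => ?_, P0.om, P0.ph, fun t ht x hx => ?_, fun t ht x hx => ?_⟩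
  · obtain ⟨S', φ', P, hS, hE⟩ := h q.1 hq.1
    have ht : q.1 ∈ S' := mem_of_mem_nhdsWithin hq.1 hS
    have hn : S' ×ˢ U ∈ 𝓝[S ×ˢ U] q := by
      rw [show q = (q.1, q.2) from rfl, nhdsWithin_prod_eq]
      exact prod_mem_prod hS self_mem_nhdsWithin
    refine ((P.sm q ⟨ht, hq.2⟩).mono_of_mem_nhdsWithin hn).congr_of_eventuallyEq ?_
      (hE _ ht hq.2)
    filter_upwards [hn] with z hz using hE _ hz.1 hz.2
  · obtain ⟨S', φ', P, hS, hE⟩ := h t ht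
    have ht' : t ∈ S' := mem_of_mem_nhdsWithin ht hS
    rw [(lv_ev (ev_of hU (hE t ht') hx)).self_of_nhds]
    exact P.pos t ht' x hx
  · obtain ⟨S', φ', P, hS, hE⟩ := h t ht
    have ht' : t ∈ S' := mem_of_mem_nhdsWithin ht hS
    rw [(lv_ev (ev_of hU (hE t ht') hx)).self_of_nhds]
    refine ((P.eq t ht' x hx).mono_of_mem_nhdsWithin hS).congr_of_eventuallyEq ?_ (hE t ht' hx)
    filter_upwards [hS] with s hs using hE s hs hx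

variable {X : Set C3} {F : Fam X} {ψ : C3 → ℝ}

theorem xlocal {Φ : ℝ → C3 → ℝ} (h0 : S.Nonempty)
    (h : ∀ t ∈ S, ∃ (S' : Set ℝ) (Φ' : ℝ → C3 → ℝ), XFlow X ψ S' Φ' ∧ S' ∈ 𝓝[S] t ∧
      ∀ s ∈ S', ∀ p ∈ X, Φ s p = Φ' s p) : XFlow X ψ S Φ := fun N U hP =>
  plocal hP.op h0 fun t ht => by
    obtain ⟨S', Φ', P, hS, hE⟩ := h t ht
    exact ⟨S', _, P N U hP, hS, fun s hs x hx => hE s hs _ (hP.mem hx)⟩

theorem chart_ev {f g : C3 → ℝ} (h : ∀ p ∈ X, f p = g p) (i : F.ι) {x : V}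
    (hx : x ∈ ball (0 : V) 1) : f ∘ F.Φ i =ᶠ[𝓝 x] g ∘ F.Φ i :=
  ev_of isOpen_ball (fun _ hy => h _ ((F.par i).mem hy)) (ball_subset_ball one_le_two hx)

theorem ell_congr {f g : C3 → ℝ} {Λ : ℝ} (h : ∀ p ∈ X, f p = g p) (H : F.Ell Λ g) : F.Ell Λ f :=
  fun i x hx => by
    rw [(lv_ev (chart_ev h i hx)).self_of_nhds]
    exact H i x hx

theorem bnd_congr {f g : C3 → ℝ} {k : ℕ} {M : ℝ} (h : ∀ p ∈ X, f p = g p) (H : F.Bnd k M g) :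
    F.Bnd k M f := fun i l hl α x hx => by
  have h1 : (fun y => lv (f ∘ F.Φ i) y α) =ᶠ[𝓝 x] fun y => lv (g ∘ F.Φ i) y α := by
    filter_upwards [lv_ev (chart_ev h i hx)] with y hy
    rw [hy]
  rw [(DL_ev l h1).self_of_nhds]
  exact H i l hl α x hx

theorem ell_mono {f : C3 → ℝ} {Λ Λ' : ℝ} (H : F.Ell Λ f) (h : Λ ≤ Λ') : F.Ell Λ' f :=
  fun i x hx => (H i x hx).mono h

theorem bnd_mono {f : C3 → ℝ} {k : ℕ} {M M' : ℝ} (H : F.Bnd k M f) (h : M ≤ M') : F.Bnd k M' f :=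
  fun i l hl α x hx => (H i l hl α x hx).trans h

variable {τ τ' : ℝ} {Φ Φ' : ℝ → C3 → ℝ}

theorem restrict (H : F.GFlow ψ τ Φ) (h : τ' ≤ τ) : F.GFlow ψ τ' Φ := by
  have hS : Icc 0 τ' ⊆ Icc 0 τ := Icc_subset_Icc_right h
  obtain ⟨h1, ⟨Λ, h2⟩, h3⟩ := H
  refine ⟨fun N U hP => pmono (h1 N U hP) hS, ⟨Λ, fun t ht => h2 t (hS ht)⟩, fun k => ?_⟩
  obtain ⟨M, h4⟩ := h3 k
  exact ⟨M, fun t ht => h4 t (hS ht)⟩

theorem shift (H : F.GFlow ψ τ Φ) {s : ℝ} (hs : 0 ≤ s) :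
    F.GFlow ψ (τ - s) fun t => Φ (s + t) := by
  have hS : ∀ t ∈ Icc 0 (τ - s), s + t ∈ Icc 0 τ := fun t ht =>
    ⟨by linarith [ht.1], by linarith [ht.2]⟩
  obtain ⟨h1, ⟨Λ, h2⟩, h3⟩ := H
  refine ⟨fun N U hP => pmono (pshift (h1 N U hP) s) hS, ⟨Λ, fun t ht => h2 _ (hS t ht)⟩,
    fun k => ?_⟩
  obtain ⟨M, h4⟩ := h3 k
  exact ⟨M, fun t ht => h4 _ (hS t ht)⟩

theorem gcongr (H : F.GFlow ψ τ Φ') (h0 : 0 ≤ τ) (h : ∀ t ∈ Icc 0 τ, ∀ p ∈ X, Φ t p = Φ' t p) :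
    F.GFlow ψ τ Φ := by
  obtain ⟨h1, ⟨Λ, h2⟩, h3⟩ := H
  refine ⟨xlocal ⟨0, le_rfl, h0⟩ fun t _ => ⟨_, _, h1, self_mem_nhdsWithin, h⟩,
    ⟨Λ, fun t ht => ell_congr (h t ht) (h2 t ht)⟩, fun k => ?_⟩
  obtain ⟨M, h4⟩ := h3 k
  exact ⟨M, fun t ht => bnd_congr (h t ht) (h4 t ht)⟩

theorem slice (H : F.GFlow ψ τ Φ) {s : ℝ} (hs : s ∈ Icc 0 τ) : XSm0 X (Φ s) := fun N U hP => by
  have h1 : ContDiff ℝ ∞ fun x : V => (s, x) := by fun_prop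
  exact (H.1 N U hP).sm.comp h1.contDiffOn fun x hx => ⟨hs, hx⟩

theorem extend (hU : UNI F ψ) (H : F.GFlow ψ τ Φ) {s σ : ℝ} (H' : F.GFlow ψ σ Φ') (hs : 0 ≤ s)
    (hτ : s < τ) (hσ : τ ≤ s + σ) (h : ∀ p ∈ X, Φ' 0 p = Φ s p) :
    ∃ Ψ : ℝ → C3 → ℝ, Ψ 0 = Φ 0 ∧ F.GFlow ψ (s + σ) Ψ := by
  have hu := hU (τ - s) _ _ (sub_pos.2 hτ) (shift H hs) (restrict H' (by linarith))
    fun p hp => by rw [add_zero, h p hp]
  let Ψ : ℝ → C3 → ℝ := fun t => if t ≤ τ then Φ t else Φ' (-s + t)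
  have e1 : ∀ t, t ≤ τ → Ψ t = Φ t := fun t ht => if_pos ht
  have e2 : ∀ t, s ≤ t → ∀ p ∈ X, Ψ t p = Φ' (-s + t) p := fun t ht p hp => by
    by_cases h1 : t ≤ τ
    · rw [e1 t h1, ← hu (-s + t) ⟨by linarith, by linarith⟩ p hp]
      simp
    · simp only [Ψ, if_neg h1]
  obtain ⟨h1, ⟨Λ, h2⟩, h3⟩ := H
  obtain ⟨g1, ⟨Λ', g2⟩, g3⟩ := H'
  refine ⟨Ψ, e1 0 (hs.trans hτ.le), xlocal ⟨0, le_rfl, by linarith⟩ fun t ht => ?_,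
    ⟨max Λ Λ', fun t ht => ?_⟩, fun k => ?_⟩
  · by_cases h4 : t < τ
    · refine ⟨Icc 0 τ, Φ, h1, ?_, fun r hr p _ => by rw [e1 r hr.2]⟩
      filter_upwards [self_mem_nhdsWithin, mem_nhdsWithin_of_mem_nhds (Iio_mem_nhds h4)]
        with r hr hr' using ⟨hr.1, le_of_lt hr'⟩
    · refine ⟨{r | -s + r ∈ Icc 0 σ}, fun r => Φ' (-s + r), fun N U hP => pshift (g1 N U hP) (-s),
        ?_, fun r hr p hp => e2 r (by linarith [hr.1]) p hp⟩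
      have h5 : s < t := hτ.trans_le (not_lt.1 h4)
      filter_upwards [self_mem_nhdsWithin, mem_nhdsWithin_of_mem_nhds (Ioi_mem_nhds h5)]
        with r hr hr'
      exact ⟨by linarith [mem_Ioi.1 hr'], by linarith [hr.2]⟩
  · by_cases h4 : t ≤ τ
    · rw [e1 t h4]
      exact ell_mono (h2 t ⟨ht.1, h4⟩) (le_max_left _ _)
    · have h5 : s ≤ t := (hτ.trans (not_le.1 h4)).le
      exact ell_congr (e2 t h5)
        (ell_mono (g2 _ ⟨by linarith, by linarith [ht.2]⟩) (le_max_right _ _))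
  · obtain ⟨M, h6⟩ := h3 k
    obtain ⟨M', g6⟩ := g3 k
    refine ⟨max M M', fun t ht => ?_⟩
    by_cases h4 : t ≤ τ
    · rw [e1 t h4]
      exact bnd_mono (h6 t ⟨ht.1, h4⟩) (le_max_left _ _)
    · have h5 : s ≤ t := (hτ.trans (not_le.1 h4)).le
      exact bnd_congr (e2 t h5)
        (bnd_mono (g6 _ ⟨by linarith, by linarith [ht.2]⟩) (le_max_right _ _))

theorem reach (hE : EXF F ψ) (hU : UNI F ψ) {f : C3 → ℝ} (hf : XSm0 X f) (h1 : ∃ Λ, F.Ell Λ f)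
    (h2 : ∀ k, ∃ M, F.Bnd k M f) {t1 : ℝ} (h0 : 0 < t1)
    (h3 : ∀ k, ∃ Λ M, ∀ τ ∈ Ioc 0 t1, ∀ φ : ℝ → C3 → ℝ, (∀ p ∈ X, φ 0 p = f p) →
      F.GFlow ψ τ φ → F.Ell Λ (φ τ) ∧ F.Bnd k M (φ τ)) :
    ∃ φ : ℝ → C3 → ℝ, (∀ p ∈ X, φ 0 p = f p) ∧ F.GFlow ψ t1 φ := by
  obtain ⟨Λ0, h1⟩ := h1
  choose M0 h2 using h2
  choose Λ M h3 using h3
  obtain ⟨τ0, hτ0, g0⟩ := hE (max Λ0 1) M0 (lt_max_of_lt_right one_pos)
  obtain ⟨σ, hσ, g1⟩ := hE (max (Λ 0) 1) M (lt_max_of_lt_right one_pos)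
  have step : ∀ τ, 0 < τ → τ ≤ t1 →
      (∃ φ : ℝ → C3 → ℝ, (∀ p ∈ X, φ 0 p = f p) ∧ F.GFlow ψ τ φ) →
      ∃ φ : ℝ → C3 → ℝ, (∀ p ∈ X, φ 0 p = f p) ∧ F.GFlow ψ (τ + σ / 2) φ := by
    rintro τ a1 a2 ⟨φ, a3, a4⟩
    have b1 : τ / 2 ≤ max (τ - σ / 2) (τ / 2) := le_max_right _ _
    have b2 : τ - σ / 2 ≤ max (τ - σ / 2) (τ / 2) := le_max_left _ _
    have b3 : max (τ - σ / 2) (τ / 2) < τ := max_lt (by linarith) (by linarith)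
    generalize max (τ - σ / 2) (τ / 2) = s at b1 b2 b3
    have b4 : s ∈ Ioc 0 t1 := ⟨by linarith, by linarith⟩
    have b5 := fun k => h3 k s b4 φ a3 (restrict a4 b3.le)
    obtain ⟨φ', c1, c2⟩ := g1 (φ s) (slice a4 ⟨b4.1.le, b3.le⟩)
      (ell_mono (b5 0).1 (le_max_left _ _)) fun k => (b5 k).2
    obtain ⟨Ψ, c3, c4⟩ := extend hU a4 c2 b4.1.le b3 (by linarith) c1
    exact ⟨Ψ, fun p hp => by rw [c3, a3 p hp], restrict c4 (by linarith)⟩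
  have all : ∀ n : ℕ, ∃ φ : ℝ → C3 → ℝ, (∀ p ∈ X, φ 0 p = f p) ∧
      F.GFlow ψ (min t1 (τ0 + n * (σ / 2))) φ := by
    intro n
    induction n with
    | zero =>
      obtain ⟨φ, a1, a2⟩ := g0 f hf (ell_mono h1 (le_max_left _ _)) h2
      exact ⟨φ, a1, restrict a2 (by simp)⟩
    | succ n ih =>
      obtain ⟨φ, a1, a2⟩ := step _ (lt_min h0 (by positivity)) (min_le_left _ _) ih
      refine ⟨φ, a1, restrict a2 ?_⟩
      push_cast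
      rcases le_total t1 (τ0 + n * (σ / 2)) with h | h
      · rw [min_eq_left h]
        exact (min_le_left _ _).trans (by linarith)
      · rw [min_eq_right h]
        exact (min_le_right _ _).trans (by linarith)
  obtain ⟨n, hn⟩ := exists_nat_ge (t1 / (σ / 2))
  obtain ⟨φ, a1, a2⟩ := all n
  rw [div_le_iff₀ (by positivity)] at hn
  rw [min_eq_left (by linarith)] at a2
  exact ⟨φ, a1, a2⟩

end RCONT

open RCONT in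
theorem cont : StmtCONT := by
  intro X F ψ hE hU T f hT hf h1 h2 h3
  have h4 : ∀ t1 ∈ Ioo 0 T, ∃ φ : ℝ → C3 → ℝ, (∀ p ∈ X, φ 0 p = f p) ∧ F.GFlow ψ t1 φ :=
    fun t1 ht => reach hE hU hf h1 h2 ht.1 (h3 t1 ht.2)
  choose! Ψ h5 h6 using h4
  have h7 : ∀ τ ∈ Ioo 0 T, ∀ t ∈ Icc 0 τ, ∀ p ∈ X, Ψ ((t + T) / 2) t p = Ψ τ t p := by
    intro τ hτ t ht p hp
    have a1 : (t + T) / 2 ∈ Ioo 0 T := ⟨by linarith [ht.1], by linarith [ht.2, hτ.2]⟩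
    refine hU (min τ ((t + T) / 2)) _ _ (lt_min hτ.1 a1.1) (restrict (h6 _ a1) (min_le_right _ _))
      (restrict (h6 _ hτ) (min_le_left _ _)) (fun p hp => ?_) t
      ⟨ht.1, le_min ht.2 (by linarith [ht.2, hτ.2])⟩ p hp
    rw [h5 _ a1 p hp, h5 _ hτ p hp]
  have h8 : ∀ τ ∈ Ioo 0 T, F.GFlow ψ τ fun t => Ψ ((t + T) / 2) t := fun τ hτ =>
    gcongr (h6 τ hτ) hτ.1.le (h7 τ hτ)
  refine ⟨fun t => Ψ ((t + T) / 2) t, h5 _ ⟨by linarith, by linarith⟩,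
    xlocal ⟨0, le_rfl, hT⟩ fun t ht => ?_, h8⟩
  have a1 : (t + T) / 2 ∈ Ioo 0 T := ⟨by linarith [ht.1], by linarith [ht.2]⟩
  refine ⟨_, _, (h8 _ a1).1, ?_, fun _ _ _ _ => rfl⟩
  have a2 : t < (t + T) / 2 := by linarith [ht.2]
  filter_upwards [self_mem_nhdsWithin, mem_nhdsWithin_of_mem_nhds (Iio_mem_nhds a2)]
    with r hr hr' using ⟨hr.1, le_of_lt hr'⟩

end Pool.Agent.MP_67f0e4_gt.EU
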