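import Pool.Agent.MP_67f0e4_gt.EU.Spec

/-! Row COV: from the small balls to the big balls. -/

set_option autoImplicit false

open scoped ContDiff Topology
open Set Metric Filter

namespace Pool.Agent.MP_67f0e4_gt.EU

open K

namespace RCOV

lemma dl_eq (l : List (Fin 4)) (f : V → ℝ) : DL l f = dw (l.map e) f := by
  induction l with
  | nil => rfl
  | cons i l ih => rw [DL, ih]; rfl

lemma dl_congr (l : List (Fin 4)) {f g : V → ℝ} {y : V} (h : f =ᶠ[𝓝 y] g) :
    DL l f =ᶠ[𝓝 y] DL l g := by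
  induction l with
  | nil => exact h
  | cons i l ih => exact (ih.fderiv (𝕜 := ℝ)).mono fun w hw => congrArg (fun A => A (e i)) hw

end RCOV

open RCOV in
theorem cov' (hP : StmtCOMP) : StmtCOV := by
  rintro X ι Φ ⟨κ, src, tgt, O, T, hO, hB, hc, hT⟩
  have key : ∀ (f : X → ℝ) (x : κ), ∀ y ∈ O x,
      (fun w => f (Φ (src x) w)) =ᶠ[𝓝 y] fun w => f (Φ (tgt x) (T x w)) := fun f x y hy =>
    Filter.mem_of_superset ((hO x).mem_nhds hy) fun w hw => congrArg f (hT x w hw).2.symm
  refine ⟨fun f hf i y hy => ?_, fun k => ?_⟩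
  · obtain ⟨x, rfl, hx⟩ := hc i y hy
    exact ((((hf (tgt x)).contDiffAt (isOpen_ball.mem_nhds (hT x y hx).1)).comp y
      ((hB.1 x).contDiffAt ((hO x).mem_nhds hx))).congr_of_eventuallyEq
        (key f x y hx)).contDiffWithinAt
  · choose C hC0 hC using hP V κ O T hO hB
    refine ⟨1 + ∑ l : Wd k, C (l.1.map e), le_add_of_nonneg_right
      (Finset.sum_nonneg fun l _ => hC0 _), fun f M hf hM i y hy l hl => ?_⟩
    obtain ⟨x, rfl, hx⟩ := hc i y hy
    have h1 := hM (tgt x) _ (hT x y hx).1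
    have hM0 : 0 ≤ M := (abs_nonneg _).trans (h1 [] (Nat.zero_le k))
    rw [(dl_congr l (key f x y hx)).eq_of_nhds, dl_eq]
    refine (hC (l.map e) x _ _ M isOpen_ball (hf (tgt x)) y hx (hT x y hx).1
      fun l' hl' => h1 l' (hl'.trans (by rwa [List.length_map]))).trans
      (mul_le_mul_of_nonneg_right ?_ hM0)
    exact (Finset.single_le_sum (f := fun l : Wd k => C (l.1.map e)) (fun l _ => hC0 _)
      (Finset.mem_univ ⟨l, hl⟩)).trans (le_add_of_nonneg_left zero_le_one)

end Pool.Agent.MP_67f0e4_gt.EU
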