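import Pool.Agent.MP_67f0e4_gt.EU.RDIFb

/-! Row DIF: second differences of the derivatives of `f ∘ ψ`. -/

set_option autoImplicit false

open scoped ContDiff Topology
open Set Metric Filter

namespace Pool.Agent.MP_67f0e4_gt.EU

open K

namespace RDIF

variable {κ : Type} {O : κ → Set V} {ε : ℝ} {ψ : κ → V × ℝ → V}

theorem d2_sp {k : ℕ} {x : κ} {f : V → ℝ} {M : ℝ} {y : V} {d : ℝ → ℝ} {s : ℝ} (J : Jmp O ε ψ)
    (H : Hy O ε ψ k x f M y d s) (l : List (Fin 4)) :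
    d2 (fun e => DL l (fun w => f (ψ x (w, e))) y) s =
      d2 (fun r => dw (l.map fun i => ((e i, 0) : V × ℝ)) (fun z => f (ψ x z)) (y, r)) s := by
  have h := fun r hr => DL_sp (s := r) (J.op x) isOpen_Ioo (comp_sm J x H.sm) hr l y H.mem
  exact congrArg₂ HSub.hSub (congrArg₂ HAdd.hAdd (h _ H.pm.1) (h _ H.pm.2.1))
    (congrArg (HMul.hMul 2) (h _ H.pm.2.2))

theorem pa (hC : StmtCOMP) (J : Jmp O ε ψ) (hε : 0 < ε) (k : ℕ) (l : List (Fin 4)) :
    ∃ C : ℝ, 0 ≤ C ∧ ∀ x f M y d s, Hy O ε ψ k x f M y d s → l.length ≤ k →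
      |d2 (fun e => DL l (fun w => f (ψ x (w, e))) y) s - d2 (fun e => DL l f (ψ x (y, e))) s| ≤
        C * (s * (d s + d (-s)) + s ^ 2 * M) := by
  by_cases hl : l.length ≤ k
  · obtain ⟨C, c1, c2⟩ := est_a J hl (rep2 hC J hε l)
    refine ⟨C, c1, fun x f M y d s H _ => le_trans (le_of_eq (congrArg _ ?_)) (c2 x f M y d s H)⟩
    rw [d2_sp J H]
    simp only [d2]
    ring
  · exact ⟨0, le_rfl, fun _ _ _ _ _ _ _ h => absurd h hl⟩

theorem pb (hC : StmtCOMP) (J : Jmp O ε ψ) (hε : 0 < ε) (k : ℕ) (l : List (Fin 4)) :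
    ∃ C : ℝ, 0 ≤ C ∧ ∀ x f M y d s, Hy O ε ψ k x f M y d s → ContinuousOn d (Ioo (-ε) ε) →
      l.length + 1 ≤ k → |d2 (fun e => DL l (fun w => f (ψ x (w, e))) y) s| ≤
        C * ((∫ r in (0 : ℝ)..s, (d r + d (-r))) + s ^ 2 * M) := by
  by_cases hl : l.length + 1 ≤ k
  · obtain ⟨C, c1, c2⟩ := est_b J (k := k) (by simpa using hl)
      (rep1 hC J hε ((0, 1) :: l.map fun i => ((e i, 0) : V × ℝ)))
    refine ⟨C, c1, fun x f M y d s H hd _ => ?_⟩
    rw [d2_sp J H]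
    have hc : ContinuousOn (fun r => d r + d (-r)) (Ioo (-ε) ε) :=
      hd.add (hd.comp continuous_neg.continuousOn fun r hr =>
        ⟨by linarith [hr.2], by linarith [hr.1]⟩)
    refine grow (B := fun t => C * ((∫ r in (0 : ℝ)..t, (d r + d (-r))) + t ^ 2 * M))
      (B' := fun t => C * (d t + d (-t) + 2 * t * M)) H.rng.1 (by simp [d2_zero])
      (fun r hr => d2_der (fun r hr => slice (J.op x) isOpen_Ioo
        (dw_sm (opn J x) (comp_sm J x H.sm) _) H.mem hr) H.rng hr) (fun r hr => ?_)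
      fun r hr => c2 x f M y d r { H with rng := (mem_pm H.rng hr).2.2 }
    have hr' := (mem_pm H.rng hr).1
    have h1 := intervalIntegral.integral_hasDerivAt_right (f := fun r => d r + d (-r)) (a := 0)
      (b := r) ((hc.mono fun u hu => by
        rw [uIcc_of_le hr.1] at hu
        exact (mem_pm H.rng ⟨hu.1, hu.2.trans hr.2⟩).1).intervalIntegrable)
      (hc.stronglyMeasurableAtFilter isOpen_Ioo r hr') (hc.continuousAt (isOpen_Ioo.mem_nhds hr'))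
    refine HasDerivAt.congr_deriv ((h1.add ((hasDerivAt_pow 2 r).mul_const M)).const_mul C) ?_
    simp
  · exact ⟨0, le_rfl, fun _ _ _ _ _ _ _ _ h => absurd h hl⟩

theorem bnd (hC : StmtCOMP) (J : Jmp O ε ψ) (L : List (V × ℝ)) :
    ∃ C : ℝ, 0 ≤ C ∧ ∀ k x f M y d s, Hy O ε ψ k x f M y d s → L.length ≤ k →
      ∀ r ∈ Ioo (-ε) ε, |dw L (fun z => f (ψ x z)) (y, r)| ≤ C * M := by
  obtain ⟨C, c1, c2⟩ := hC _ κ _ ψ (opn J) J.bd L
  exact ⟨C, c1, fun k x f M y d s H hl r hr => c2 x f _ M isOpen_ball H.sm _ (mk_mem_prod H.mem hr)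
    (J.maps x y H.mem r hr) fun β hβ => H.jb _ (J.maps x y H.mem r hr) β (hβ.trans hl)⟩

theorem sl {k : ℕ} {x : κ} {f : V → ℝ} {M : ℝ} {y : V} {d : ℝ → ℝ} {s : ℝ} (J : Jmp O ε ψ)
    (H : Hy O ε ψ k x f M y d s) (L : List (V × ℝ)) : ∀ r ∈ Ioo (-ε) ε,
    HasDerivAt (fun r => dw L (fun z => f (ψ x z)) (y, r))
      (dw ((0, 1) :: L) (fun z => f (ψ x z)) (y, r)) r :=
  fun _ hr => slice (J.op x) isOpen_Ioo (dw_sm (opn J x) (comp_sm J x H.sm) L) H.mem hr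

theorem pc (hC : StmtCOMP) (J : Jmp O ε ψ) (k : ℕ) (l : List (Fin 4)) :
    ∃ C : ℝ, 0 ≤ C ∧ ∀ x f M y d s, Hy O ε ψ k x f M y d s → l.length + 2 ≤ k →
      |d2 (fun e => DL l (fun w => f (ψ x (w, e))) y) s| ≤ C * (s ^ 2 * M) := by
  obtain ⟨C, c1, c2⟩ := bnd hC J ((0, 1) :: (0, 1) :: l.map fun i => ((e i, 0) : V × ℝ))
  refine ⟨C, c1, fun x f M y d s H hl => ?_⟩
  rw [d2_sp J H]
  exact (t2 (sl J H _) (sl J H _) (c2 k x f M y d s H
    (by rw [List.length_cons, List.length_cons, List.length_map]; exact hl)) H.rng).trans_eq (by ring)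

theorem pd (hC : StmtCOMP) (J : Jmp O ε ψ) (k : ℕ) :
    ∃ C : ℝ, 0 ≤ C ∧ ∀ x f M y d s, Hy O ε ψ k x f M y d s → 3 ≤ k →
      |d2 (fun e => f (ψ x (y, e))) s - s ^ 2 * A0 f (ψ x) y| ≤ C * (s ^ 3 * M) := by
  obtain ⟨C, c1, c2⟩ := bnd hC J [(0, 1), (0, 1), (0, 1)]
  exact ⟨C, c1, fun x f M y d s H hl => (t3 (sl J H []) (sl J H _) (sl J H _)
    (c2 k x f M y d s H hl) H.rng).trans_eq (by ring)⟩

end RDIF

open RDIF

theorem dif (hC : StmtCOMP) : StmtDIF := by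
  intro κ O ε ψ J k
  rcases le_or_gt ε 0 with hε | hε
  · exact ⟨0, le_rfl, fun _ _ _ _ _ _ _ _ _ _ s hs => absurd (hs.1.trans_lt hs.2) hε.not_gt⟩
  choose A a1 a2 using pa hC J hε k
  choose B b1 b2 using pb hC J hε k
  choose C c1 c2 using pc hC J k
  obtain ⟨E, e1, e2⟩ := pd hC J k
  have hn : ∀ l : Wd k, 0 ≤ A l.1 + B l.1 + C l.1 := fun l =>
    add_nonneg (add_nonneg (a1 _) (b1 _)) (c1 _)
  have hS : 0 ≤ ∑ l : Wd k, (A l.1 + B l.1 + C l.1) := Finset.sum_nonneg fun l _ => hn l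
  have hl : ∀ l : List (Fin 4), l.length ≤ k →
      A l + B l + C l ≤ ∑ l : Wd k, (A l.1 + B l.1 + C l.1) := fun l h =>
    Finset.single_le_sum (fun l _ => hn l) (Finset.mem_univ (⟨l, h⟩ : Wd k))
  refine ⟨∑ l : Wd k, (A l.1 + B l.1 + C l.1) + E, add_nonneg hS e1,
    fun x f M h1 h2 y hy d hd h3 s hs l => ?_⟩
  have H : Hy O ε ψ k x f M y d s := ⟨h1, h2, hy, h3, hs⟩
  obtain ⟨n1, n2, n3⟩ := H.nn
  have n4 := hs.1
  have n5 : 0 ≤ ∫ r in (0 : ℝ)..s, (d r + d (-r)) := intervalIntegral.integral_nonneg n4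
    fun r hr => by
      obtain ⟨-, m1, m2⟩ := Hy.nn { H with rng := (mem_pm hs hr).2.2 }
      exact add_nonneg m1 m2
  refine ⟨fun h => (a2 l x f M y d s H h).trans (mul_le_mul_of_nonneg_right ?_ (by positivity)),
    fun h => (b2 l x f M y d s H hd h).trans (mul_le_mul_of_nonneg_right ?_ (by positivity)),
    fun h => (c2 l x f M y d s H h).trans (mul_le_mul_of_nonneg_right ?_ (by positivity)),
    fun h => (e2 x f M y d s H h).trans (mul_le_mul_of_nonneg_right ?_ (by positivity))⟩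
  · linarith [hl l h, b1 l, c1 l]
  · linarith [hl l (by omega), a1 l, c1 l]
  · linarith [hl l (by omega), a1 l, b1 l]
  · linarith

end Pool.Agent.MP_67f0e4_gt.EU
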