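import Pool.Agent.MP_67f0e4_gt.EU.SpecC
import Pool.Agent.MP_67f0e4_gt.K.Chain

/-! Row EXI: short time existence. -/

set_option autoImplicit false

open scoped ContDiff Topology
open Set Metric Filter

namespace Pool.Agent.MP_67f0e4_gt.EU

open K

namespace REXI

variable {f g : V → ℝ} {x : V} {U : Set V} {k : ℕ} {M M' : ℝ}

theorem DL_app (l l' : List (Fin 4)) (f : V → ℝ) : DL l (DL l' f) = DL (l ++ l') f := by
  induction l with
  | nil => rfl
  | cons i l ih => exact congrArg (D (e i)) ih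

theorem DL_cmul (l : List (Fin 4)) (c : ℝ) (f : V → ℝ) :
    DL l (fun y => c * f y) = fun y => c * DL l f y := by
  induction l with
  | nil => rfl
  | cons i l ih => rw [DL, ih, D_const_mul]; rfl

theorem DL_add (hU : IsOpen U) (hf : ContDiffOn ℝ ∞ f U) (hg : ContDiffOn ℝ ∞ g U)
    (l : List (Fin 4)) : ∀ x ∈ U, DL l (fun y => f y + g y) x = DL l f x + DL l g x := by
  induction l with
  | nil => exact fun _ _ => rfl
  | cons i l ih =>
    intro x hx
    have a := (DL_smooth (hf.contDiffAt (hU.mem_nhds hx)) l).differentiableAt (by simp)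
    have b := (DL_smooth (hg.contDiffAt (hU.mem_nhds hx)) l).differentiableAt (by simp)
    rw [DL, D_congr (g := fun y => DL l f y + DL l g y) (eventually_of_mem (hU.mem_nhds hx) ih),
      D_add a b]
    rfl

theorem DL_on (hU : IsOpen U) (hf : ContDiffOn ℝ ∞ f U) (l : List (Fin 4)) :
    ContDiffOn ℝ ∞ (DL l f) U := fun _ hx =>
  (DL_smooth (hf.contDiffAt (hU.mem_nhds hx)) l).contDiffWithinAt

theorem lv_on (hU : IsOpen U) (hf : ContDiffOn ℝ ∞ f U) (α : Fin 4) :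
    ContDiffOn ℝ ∞ (fun y => lv f y α) U := fun _ hx =>
  (contDiffAt_pi.1 (lv_smooth (hf.contDiffAt (hU.mem_nhds hx))) α).contDiffWithinAt

theorem lv_word (f : V → ℝ) (α : Fin 4) : ∃ (a b : List (Fin 4)) (c : ℝ), a.length = 2 ∧
    b.length = 2 ∧ |c| = 1 ∧ (fun y => lv f y α) = fun y => DL a f y + c * DL b f y := by
  fin_cases α
  · exact ⟨[0, 0], [1, 1], 1, rfl, rfl, abs_one, funext fun y => by
      simp only [lv, lev, DL, I_e0, one_mul]; rfl⟩
  · exact ⟨[2, 2], [3, 3], 1, rfl, rfl, abs_one, funext fun y => by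
      simp only [lv, lev, DL, I_e2, one_mul]; rfl⟩
  · exact ⟨[0, 2], [1, 3], 1, rfl, rfl, abs_one, funext fun y => by
      simp only [lv, lev, DL, I_e0, I_e2, one_mul]; rfl⟩
  · refine ⟨[0, 3], [1, 2], -1, rfl, rfl, by simp, funext fun y => ?_⟩
    have h : D (-e 2) f = fun y => -1 * D (e 2) f y := funext fun y => by simp only [D, map_neg]; ring
    change lev f y (e 0) (e 3) = _
    rw [lev, I_e0, I_e3, h, D_const_mul]
    rfl

theorem lb_of (hU : IsOpen U) (hf : ContDiffOn ℝ ∞ f U)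
    (h : ∀ l : List (Fin 4), l.length ≤ k + 2 → ∀ y ∈ U, |DL l f y| ≤ M) : LB k (2 * M) f U := by
  intro l hl α x hx
  obtain ⟨a, b, c, ha, hb, hc, he⟩ := lv_word f α
  rw [he, DL_add hU (DL_on hU hf a) (contDiffOn_const.mul (DL_on hU hf b)) l x hx, DL_cmul,
    DL_app, DL_app]
  have h1 := h (l ++ a) (by rw [List.length_append]; omega) x hx
  have h2 := h (l ++ b) (by rw [List.length_append]; omega) x hx
  refine (abs_add_le _ _).trans ?_
  rw [abs_mul, hc]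
  linarith

theorem lb_add (hU : IsOpen U) (hf : ContDiffOn ℝ ∞ f U) (hg : ContDiffOn ℝ ∞ g U)
    (h : LB k M f U) (h' : LB k M' g U) : LB k (M + M') (fun y => f y + g y) U := by
  intro l hl α x hx
  have e1 : (fun y => lv (fun y => f y + g y) y α) =ᶠ[𝓝 x] fun y => lv f y α + lv g y α :=
    eventually_of_mem (hU.mem_nhds hx) fun y hy => by
      have := lv_add ((hf.contDiffAt (hU.mem_nhds hy)).of_le two_le_inf)
        ((hg.contDiffAt (hU.mem_nhds hy)).of_le two_le_inf)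
      exact congrFun this α
  rw [(DL_congr_ev e1 l).eq_of_nhds, DL_add hU (lv_on hU hf α) (lv_on hU hg α) l x hx]
  exact (abs_add_le _ _).trans (add_le_add (h l hl α x hx) (h' l hl α x hx))

theorem lb_cmul (c : ℝ) (h : LB k M f U) : LB k (|c| * M) (fun y => c * f y) U := by
  intro l hl α x hx
  have e1 : (fun y => lv (fun y => c * f y) y α) = fun y => c * lv f y α :=
    funext fun y => by rw [lv_const_mul]; rfl
  rw [e1, DL_cmul, abs_mul]
  exact mul_le_mul_of_nonneg_left (h l hl α x hx) (abs_nonneg c)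

theorem lb_mono (h : LB k M f U) (hM : M ≤ M') : LB k M' f U :=
  fun l hl α x hx => (h l hl α x hx).trans hM

theorem lb_norm (h : LB 0 M f U) (hx : x ∈ U) : ‖lv f x‖ ≤ M := by
  have h1 : ∀ α, |lv f x α| ≤ M := fun α => h [] le_rfl α x hx
  exact (pi_norm_le_iff_of_nonneg ((abs_nonneg _).trans (h1 0))).2 h1

theorem unif (c : List (Fin 4) → ℝ) (k : ℕ) :
    ∃ C : ℝ, 0 ≤ C ∧ ∀ l : List (Fin 4), l.length ≤ k → c l ≤ C := by
  obtain ⟨C, hC⟩ := ((List.finite_length_le (Fin 4) k).image c).bddAbove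
  exact ⟨max C 0, le_max_right _ _, fun l hl => (hC ⟨l, hl, rfl⟩).trans (le_max_left _ _)⟩

end REXI

open REXI

theorem exi (_h1 : StmtFR) (h2 : StmtRHO) (h3 : StmtEXV) (h4 : StmtXFL) : StmtEXI := by
  intro X F A ψ hX hψ hA Λ Mk hΛ
  let M : Type := {f : C3 → ℝ // XSm0 X f ∧ F.Ell Λ f ∧ ∀ k, F.Bnd k (Mk k) f}
  obtain ⟨ρ, hD, hρ⟩ := h2 X F ψ M (fun m => m.1) Λ hX hψ hΛ (fun m => m.2.1) (fun m => m.2.2.1)
    fun k => ⟨Mk k, fun m => m.2.2.2 k⟩
  obtain ⟨τ₀, hτ₀, v, v0, vs, vb, ve⟩ := h3 X F A M (fun m => m.1) ρ Λ hX hA hD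
  have hb : ball (0 : V) 1 ⊆ ball 0 2 := ball_subset_ball one_le_two
  have sf : ∀ (m : M) i, ContDiffOn ℝ ∞ (m.1 ∘ F.Φ i) (ball 0 1) := fun m i =>
    (m.2.1 _ _ (F.par i)).mono hb
  have sρ : ∀ (m : M) i, ContDiffOn ℝ ∞ (ρ m ∘ F.Φ i) (ball 0 1) := fun m i =>
    (hD.ρs m _ _ (F.par i)).mono hb
  have sv : ∀ (m : M) i, ∀ t ∈ Icc 0 τ₀, ContDiffOn ℝ ∞ (v m t ∘ F.Φ i) (ball 0 1) :=
    fun m i t ht => (vs m i).comp (f := fun y : V => (t, y))
      (contDiffOn_const.prodMk contDiffOn_id) fun y hy => ⟨ht, hy⟩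
  choose c hc using vb
  have wb : ∀ k, ∃ C : ℝ, 0 ≤ C ∧ ∀ (m : M) i, ∀ t ∈ Icc 0 τ₀,
      LB k (C * t) (fun y => t * (ρ m ∘ F.Φ i) y + (v m t ∘ F.Φ i) y) (ball 0 1) := by
    intro k
    obtain ⟨C, hC0, hC⟩ := unif c (k + 2)
    obtain ⟨C', hC'⟩ := hD.ρb k
    refine ⟨|C'| + 2 * C, by positivity, fun m i t ht => ?_⟩
    refine lb_mono (lb_add isOpen_ball (contDiffOn_const.mul (sρ m i)) (sv m i t ht)
      (lb_cmul t (hC' m i)) (lb_of (M := C * t) isOpen_ball (sv m i t ht) fun l hl y hy =>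
        (hc l m i t ht y hy).trans (mul_le_mul_of_nonneg_right (hC l hl) ht.1))) ?_
    rw [abs_of_nonneg ht.1]
    nlinarith [mul_le_mul_of_nonneg_left (le_abs_self C') ht.1]
  obtain ⟨K, hK, hw⟩ := wb 0
  have hp : 0 < 12 * K * Λ + 1 := by positivity
  refine ⟨min τ₀ (1 / (12 * K * Λ + 1)), lt_min hτ₀ (by positivity), fun f f1 f2 f3 => ?_⟩
  set τ := min τ₀ (1 / (12 * K * Λ + 1)) with hτ
  let m : M := ⟨f, f1, f2, f3⟩
  have hI : Icc 0 τ ⊆ Icc 0 τ₀ := Icc_subset_Icc_right (min_le_left _ _)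
  have ass : ∀ t i, (fun p => f p + t * ρ m p + v m t p) ∘ F.Φ i =
      fun y => (f ∘ F.Φ i) y + (t * (ρ m ∘ F.Φ i) y + (v m t ∘ F.Φ i) y) :=
    fun t i => funext fun y => add_assoc _ _ _
  have sw : ∀ i, ∀ t ∈ Icc 0 τ, ContDiffOn ℝ ∞
      (fun y => t * (ρ m ∘ F.Φ i) y + (v m t ∘ F.Φ i) y) (ball 0 1) := fun i t ht =>
    (contDiffOn_const.mul (sρ m i)).add (sv m i t (hI ht))
  have ell : ∀ t ∈ Icc 0 τ, F.Ell (2 * Λ) fun p => f p + t * ρ m p + v m t p := by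
    intro t ht i x hx
    refine (cl_of_norm (ε := K * t) (f2 i x hx) ?_).ell (f2 i x hx) ?_
    · rw [ass, lv_add (((sf m i).contDiffAt (isOpen_ball.mem_nhds hx)).of_le two_le_inf)
        (((sw i t ht).contDiffAt (isOpen_ball.mem_nhds hx)).of_le two_le_inf),
        add_sub_cancel_left]
      exact lb_norm (hw m i t (hI ht)) hx
    · have h1 : t * (12 * K * Λ + 1) ≤ 1 := (le_div_iff₀ hp).1 (ht.2.trans (min_le_right _ _))
      nlinarith [ht.1]
  refine ⟨fun t p => f p + t * ρ m p + v m t p, fun p _ => by simp [v0], ?_, ⟨2 * Λ, ell⟩,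
    fun k => ?_⟩
  · refine h4 X F ψ τ _ hX hψ (fun i => ?_) fun i t ht => ?_
    · exact (((sf m i).comp contDiffOn_snd fun q hq => hq.2).add
        (contDiffOn_fst.mul ((sρ m i).comp contDiffOn_snd fun q hq => hq.2))).add
          ((vs m i).mono (prod_mono hI subset_rfl))
    · have p1 := (ell t ht i 0 (mem_ball_self one_pos)).isPos
      have p2 := (f2 i 0 (mem_ball_self one_pos)).isPos
      refine ⟨p1, ?_⟩
      have d := ((((hasDerivWithinAt_id t (Icc 0 τ)).mul_const (ρ m (F.Φ i 0))).const_add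
        (f (F.Φ i 0))).fun_add ((ve m i t (hI ht)).mono hI))
      refine d.congr_deriv ?_
      rw [Real.log_div p1.det.ne' p2.det.ne', hρ m i]
      ring
  · obtain ⟨C, hC, h⟩ := wb k
    refine ⟨Mk k + C * τ, fun t ht i => ?_⟩
    rw [ass]
    exact lb_mono (lb_add isOpen_ball (sf m i) (sw i t ht) (f3 k i) (h m i t (hI ht)))
      (add_le_add le_rfl (mul_le_mul_of_nonneg_left ht.2 hC))

end Pool.Agent.MP_67f0e4_gt.EU
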