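import Pool.Agent.MP_67f0e4_gt.EU.SpecC

/-! Row EXV: the solution of the equation for the correction term. -/

set_option autoImplicit false

open scoped ContDiff Topology
open Set Metric Filter

namespace Pool.Agent.MP_67f0e4_gt.EU

open K

namespace REXV

theorem dl_zero (l : List (Fin 4)) : DL l (fun _ => 0) = fun _ => 0 := by
  induction l with
  | nil => rfl
  | cons i l ih =>
    funext y
    change fderiv ℝ (DL l fun _ => 0) y (e i) = 0
    rw [ih]
    simp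

end REXV

theorem exv (h1 : StmtLOC) (h2 : StmtGH) (h3 : StmtFR) (h4 : StmtCONJ) (h5 : StmtCONO)
    (h6 : StmtCONE) (h7 : StmtTLIM) (h8 : StmtSMO) : StmtEXV := by
  intro X F A M f ρ Λ hX hA hD
  obtain ⟨L, hL⟩ := h1 X F A hA
  obtain ⟨δ, c, hδ, hc, g1, g2⟩ := h2
  obtain ⟨Q, R, -, -, hR, r1⟩ := h3.2.2.2.2 Λ hD.pos
  have hε : 0 < L.s / R := div_pos hL.s_pos hR
  have hS : Short Λ (L.s / R) L.s := fun g hg γ a hγ =>
    (mul_le_mul_of_nonneg_left ((r1 g hg).2.2 γ a hγ) hε.le).trans_eq (div_mul_cancel₀ _ hR.ne')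
  obtain ⟨c1, c2, c3, c4⟩ := h4 X F A L M f ρ Λ (L.s / R) δ c hA hL hD hε hS
  have hb : ball (0 : V) (1 / 2) ⊆ ball 0 1 := ball_subset_ball (by norm_num)
  have ok : (sch L f ρ (L.s / R) δ c).Ok :=
    { cov := c1
      loc := fun i y hy => ⟨(i.1, ⟨(i.2, y), hy⟩), rfl, (hL.mem (i.2, y) (hb hy)).1⟩
      ε_pos := hε
      δ_pos := hδ
      c_pos := hc
      jmp := c2
      sub := fun x => hL.op x.2.1
      θb := c3
      rb := c4
      Gs := g1
      Gm := g2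
      op := h5 X F A L M f ρ Λ (L.s / R) δ c hA hL hD hε hS }
  obtain ⟨τ, hτ, v, hv⟩ := h7 _ _ ok
  refine ⟨τ, hτ, fun m t p => v t (m, p), fun m p => hv.init _,
    fun m i => h8 _ _ τ v ok hτ hv (m, i), fun l => ?_, fun m i t ht => ?_⟩
  · obtain ⟨C, hC⟩ := hv.lip l
    refine ⟨C, fun m i t ht y hy => ?_⟩
    have k := hC (m, i) 0 ⟨le_rfl, hτ.le⟩ t ht y hy
    simp only [hv.init, REXV.dl_zero, sub_zero, abs_of_nonneg ht.1] at k
    exact k
  · have h0 : (0 : V) ∈ ball (0 : V) (1 / 2) := mem_ball_self (by norm_num)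
    have k := hv.eq t ht (m, ⟨(i, 0), h0⟩) 0 (hL.mem (i, 0) (hb h0)).1
    have k' := h6 X F A L M f ρ Λ (L.s / R) δ c hX hA hL hD t m (fun p => v t (m, p))
      ⟨(i, 0), h0⟩ fun j => hv.sm t ht (m, j)
    exact k.congr_deriv k'

end Pool.Agent.MP_67f0e4_gt.EU
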