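import Pool.Agent.MP_67f0e4_gt.EU.Spec

/-! The leading term of the derivatives of `θ ^ 2 * G (B)`. -/

set_option autoImplicit false

open scoped ContDiff Topology
open Set Metric Filter

namespace Pool.Agent.MP_67f0e4_gt.EU

open K

namespace RFAA

variable {O : Set V} {f g : V → ℝ} {y : V}

theorem snoc (l : List (Fin 4)) (i : Fin 4) (f : V → ℝ) : DL (l ++ [i]) f = DL l (D (e i) f) := by
  induction l with
  | nil => rfl
  | cons j l ih => exact congrArg (D (e j)) ih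

theorem smD {E : Type} [NormedAddCommGroup E] [NormedSpace ℝ E] {U : Set E} {f : E → ℝ}
    (hU : IsOpen U) (hf : ContDiffOn ℝ ∞ f U) (v : E) : ContDiffOn ℝ ∞ (D v f) U :=
  (hf.fderiv_of_isOpen hU (by simp)).clm_apply contDiffOn_const

theorem dif {E : Type} [NormedAddCommGroup E] [NormedSpace ℝ E] {U : Set E} {f : E → ℝ} {y : E}
    (hU : IsOpen U) (hf : ContDiffOn ℝ ∞ f U) (hy : y ∈ U) : HasFDerivAt f (fderiv ℝ f y) y :=
  ((hf.contDiffAt (hU.mem_nhds hy)).differentiableAt (by simp)).hasFDerivAt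

theorem smDL (hO : IsOpen O) (hf : ContDiffOn ℝ ∞ f O) :
    ∀ l : List (Fin 4), ContDiffOn ℝ ∞ (DL l f) O
  | [] => hf
  | i :: l => smD hO (smDL hO hf l) (e i)

theorem cong (hO : IsOpen O) (h : ∀ z ∈ O, f z = g z) :
    ∀ l : List (Fin 4), ∀ z ∈ O, DL l f z = DL l g z
  | [], z, hz => h z hz
  | i :: l, _, hz => congrArg (fun L : V →L[ℝ] ℝ => L (e i))
      (EventuallyEq.fderiv_eq (eventually_of_mem (hO.mem_nhds hz) (cong hO h l)))

theorem sum {ι : Type} (s : Finset ι) {F : ι → V → ℝ} (hO : IsOpen O)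
    (h : ∀ a, ContDiffOn ℝ ∞ (F a) O) :
    ∀ l : List (Fin 4), ∀ z ∈ O, DL l (fun w => ∑ a ∈ s, F a w) z = ∑ a ∈ s, DL l (F a) z
  | [], _, _ => rfl
  | i :: l, z, hz => by
    have h1 := (HasFDerivAt.fun_sum (u := s) fun a _ =>
      dif hO (smDL hO (h a) l) hz).congr_of_eventuallyEq
        (eventually_of_mem (hO.mem_nhds hz) (sum s hO h l))
    exact (congrArg (· (e i)) h1.fderiv).trans (sum_apply _ _ _)

theorem step (hO : IsOpen O) (hy : y ∈ O) (hf : ContDiffOn ℝ ∞ f O) (hg : ContDiffOn ℝ ∞ g O)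
    (l : List (Fin 4)) (i : Fin 4) : DL (l ++ [i]) (fun w => f w * g w) y =
      DL l (fun w => D (e i) f w * g w) y + DL l (fun w => f w * D (e i) g w) y := by
  have h1 := sum (F := fun b : Bool => fun w => cond b (D (e i) f w * g w) (f w * D (e i) g w))
    Finset.univ hO (fun b => by
      cases b
      exacts [hf.mul (smD hO hg _), (smD hO hf _).mul hg]) l y hy
  rw [Fintype.sum_bool] at h1
  refine (congrFun (snoc l i _) y).trans ((cong hO (fun z hz => ?_) l y hy).trans h1)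
  rw [Fintype.sum_bool, D, ((dif hO hf hz).fun_mul (dif hO hg hz)).fderiv]
  simp only [D, cond, add_apply, smul_apply, smul_eq_mul]
  ring

theorem leib (hO : IsOpen O) (hy : y ∈ O) {M : ℝ} (l : List (Fin 4)) : ∀ {f g : V → ℝ},
    ContDiffOn ℝ ∞ f O → ContDiffOn ℝ ∞ g O →
    (∀ p q : List (Fin 4), p.length + q.length = l.length → |DL p f y| * |DL q g y| ≤ M) →
    |DL l (fun w => f w * g w) y| ≤ 2 ^ l.length * M := by
  induction l using List.reverseRecOn with
  | nil => exact fun _ _ h => by simpa [DL, abs_mul] using h [] [] rfl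
  | append_singleton l i ih =>
    intro f g hf hg h
    have h1 := ih (smD hO hf (e i)) hg fun p q t => snoc p i f ▸ h _ _ (by simp; omega)
    have h2 := ih hf (smD hO hg (e i)) fun p q t => snoc q i g ▸ h _ _ (by simp; omega)
    rw [step hO hy hf hg, List.length_append, List.length_singleton, pow_succ]
    linarith [abs_add_le (DL l (fun w => D (e i) f w * g w) y) (DL l (fun w => f w * D (e i) g w) y)]

theorem top (hO : IsOpen O) (hy : y ∈ O) {M : ℝ} (hM : 0 ≤ M) (l : List (Fin 4)) :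
    ∀ {f g : V → ℝ}, ContDiffOn ℝ ∞ f O → ContDiffOn ℝ ∞ g O →
    (∀ p q : List (Fin 4), p.length + q.length = l.length → 1 ≤ p.length →
      |DL p f y| * |DL q g y| ≤ M) →
    |DL l (fun w => f w * g w) y - f y * DL l g y| ≤ 2 ^ l.length * M := by
  induction l using List.reverseRecOn with
  | nil => exact fun _ _ _ => by simpa [DL] using hM
  | append_singleton l i ih =>
    intro f g hf hg h
    have h1 := leib hO hy l (smD hO hf (e i)) hg fun p q t =>
      snoc p i f ▸ h _ _ (by simp; omega) (by simp)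
    have h2 := ih hf (smD hO hg (e i)) fun p q t u => snoc q i g ▸ h _ _ (by simp; omega) u
    rw [step hO hy hf hg, List.length_append, List.length_singleton, pow_succ, snoc, add_sub_assoc]
    linarith [abs_add_le (DL l (fun w => D (e i) f w * g w) y)
      (DL l (fun w => f w * D (e i) g w) y - f y * DL l (D (e i) g) y)]

variable {A : Type} [Fintype A] [DecidableEq A] {δ κ : ℝ} {k : ℕ} {B : A → V → ℝ} {w : ℕ → ℝ}
  {G : (A → ℝ) → ℝ}

/-- The data at one point, with a weight. -/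
structure Dat (δ κ : ℝ) (k : ℕ) (O : Set V) (B : A → V → ℝ) (y : V) (w : ℕ → ℝ) : Prop where
  op : IsOpen O
  mem : y ∈ O
  sm : ∀ a, ContDiffOn ℝ ∞ (B a) O
  le : ∀ a, ∀ z ∈ O, |B a z| ≤ δ
  one : ∀ i, 1 ≤ w i
  mul : ∀ i j, i + j ≤ k → w i * w j ≤ κ * w (i + j)

/-- The derivatives up to order `m` are bounded by the weight. -/
def HB (B : A → V → ℝ) (y : V) (w : ℕ → ℝ) (m : ℕ) : Prop :=
  ∀ a, ∀ p : List (Fin 4), p.length ≤ m → |DL p (B a) y| ≤ w p.length

omit [DecidableEq A] in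
theorem maps (hδ : 0 < δ) (h : ∀ a, ∀ z ∈ O, |B a z| ≤ δ) {z : V} (hz : z ∈ O) :
    (fun a => B a z) ∈ closedBall (0 : A → ℝ) δ ∧ (fun a => B a z) ∈ ball (0 : A → ℝ) (2 * δ) := by
  have h1 : (fun a => B a z) ∈ closedBall (0 : A → ℝ) δ :=
    mem_closedBall_zero_iff.2 ((pi_norm_le_iff_of_nonneg hδ.le).2 fun a => h a z hz)
  exact ⟨h1, closedBall_subset_ball (by linarith) h1⟩

omit [DecidableEq A] in
theorem smC (hδ : 0 < δ) (hB : ∀ a, ContDiffOn ℝ ∞ (B a) O) (h : ∀ a, ∀ z ∈ O, |B a z| ≤ δ)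
    (hG : ContDiffOn ℝ ∞ G (ball 0 (2 * δ))) : ContDiffOn ℝ ∞ (fun z => G fun a => B a z) O :=
  hG.comp (contDiffOn_pi.2 hB) fun _ hz => (maps hδ h hz).2

theorem chain (hδ : 0 < δ) (d : Dat δ κ k O B y w) (hG : ContDiffOn ℝ ∞ G (ball 0 (2 * δ)))
    (l : List (Fin 4)) (i : Fin 4) : DL (l ++ [i]) (fun z => G fun a => B a z) y =
      ∑ a, DL l (fun z => D (Pi.single a 1) G (fun b => B b z) * D (e i) (B a) z) y := by
  rw [snoc, ← sum _ d.op (fun a => (smC hδ d.sm d.le (smD isOpen_ball hG _)).mul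
    (smD d.op (d.sm a) _)) l y d.mem]
  refine cong d.op (fun z hz => ?_) l y d.mem
  have h1 := (dif isOpen_ball hG (maps hδ d.le hz).2).comp z
    (hasFDerivAt_pi.2 fun a => dif d.op (d.sm a) hz)
  refine (congrArg (· (e i)) h1.fderiv).trans ?_
  change fderiv ℝ G _ (fun a => D (e i) (B a) z) = _
  rw [pi_eq_sum_univ' fun a => D (e i) (B a) z, map_sum]
  exact Finset.sum_congr rfl fun a _ => by rw [map_smul, smul_eq_mul, mul_comm]; rfl

theorem comp1 (hδ : 0 < δ) (hκ : 0 ≤ κ) (n : ℕ) (hn : n ≤ k) : ∀ G : (A → ℝ) → ℝ,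
    ContDiffOn ℝ ∞ G (ball 0 (2 * δ)) → ∃ C, 0 ≤ C ∧ ∀ O B y w, Dat δ κ k O B y w →
      ∀ l : List (Fin 4), l.length ≤ n → HB B y w l.length →
        |DL l (fun z => G fun a => B a z) y| ≤ C * w l.length := by
  induction n with
  | zero =>
    intro G hG
    obtain ⟨C, hC⟩ := (isCompact_closedBall (0 : A → ℝ) δ).exists_bound_of_continuousOn
      (hG.continuousOn.mono (closedBall_subset_ball (by linarith)))
    have h0 : 0 ≤ C := (norm_nonneg _).trans (hC 0 (mem_closedBall_self hδ.le))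
    refine ⟨C, h0, fun O B y w d l hl _ => ?_⟩
    obtain rfl := List.length_eq_zero_iff.1 (Nat.le_zero.1 hl)
    exact (hC _ (maps hδ d.le d.mem).1).trans (le_mul_of_one_le_right h0 (d.one _))
  | succ n ih =>
    intro G hG
    obtain ⟨C₀, c0, h0⟩ := ih (by omega) G hG
    choose C c1 h1 using fun a => ih (by omega) _ (smD isOpen_ball hG (Pi.single a 1))
    have c2 : 0 ≤ ∑ a, 2 ^ n * (C a * κ) :=
      Finset.sum_nonneg fun a _ => mul_nonneg (by positivity) (mul_nonneg (c1 a) hκ)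
    refine ⟨C₀ + ∑ a, 2 ^ n * (C a * κ), by positivity, fun O B y w d l hl hb => ?_⟩
    have w0 := zero_le_one.trans (d.one l.length)
    rcases hl.lt_or_eq with hl | hl
    · exact (h0 O B y w d l (by omega) hb).trans (by nlinarith)
    rcases l.eq_nil_or_concat' with rfl | ⟨l, i, rfl⟩
    · simp at hl
    have hl' : l.length = n := by simpa using hl
    rw [chain hδ d hG, add_mul, Finset.sum_mul]
    refine ((Finset.abs_sum_le_sum_abs _ _).trans (Finset.sum_le_sum fun a _ => ?_)).trans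
      (le_add_of_nonneg_left (mul_nonneg c0 w0))
    rw [mul_assoc, ← hl']
    refine leib d.op d.mem l (smC hδ d.sm d.le (smD isOpen_ball hG _)) (smD d.op (d.sm a) _)
      fun p q t => ?_
    have h2 := d.mul p.length (q ++ [i]).length (by simp; omega)
    rw [show p.length + (q ++ [i]).length = (l ++ [i]).length by simp; omega] at h2
    rw [← snoc, mul_assoc]
    refine (mul_le_mul (h1 a O B y w d p (by omega) fun b r u => hb b r (by omega))
      (hb a _ (by simp; omega)) (abs_nonneg _)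
        (mul_nonneg (c1 a) (zero_le_one.trans (d.one _)))).trans ?_
    rw [mul_assoc]
    exact mul_le_mul_of_nonneg_left h2 (c1 a)

theorem comp2 (hδ : 0 < δ) (hκ : 0 ≤ κ) (hG : ContDiffOn ℝ ∞ G (ball 0 (2 * δ))) :
    ∃ C, 0 ≤ C ∧ ∀ O B y w W, Dat δ κ k O B y w → (∀ i, w i ≤ W) →
      ∀ l : List (Fin 4), l.length ≤ k →
        (HB B y w l.length → |DL l (fun z => G fun a => B a z) y| ≤ C * W) ∧
        (HB B y w (l.length - 1) → |DL l (fun z => G fun a => B a z) y -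
          ∑ a, D (Pi.single a 1) G (fun b => B b y) * DL l (B a) y| ≤ C * W) := by
  obtain ⟨C₀, c0, h0⟩ := comp1 hδ hκ k le_rfl G hG
  choose C c1 h1 using fun a => comp1 hδ hκ k le_rfl _ (smD isOpen_ball hG (Pi.single a 1))
  have c2 : 0 ≤ ∑ a, 2 ^ k * (C a * κ) :=
    Finset.sum_nonneg fun a _ => mul_nonneg (by positivity) (mul_nonneg (c1 a) hκ)
  refine ⟨C₀ + ∑ a, 2 ^ k * (C a * κ), by positivity, fun O B y w W d hW l hl => ?_⟩
  have w0 := (zero_le_one.trans (d.one 0)).trans (hW 0)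
  have h2 : HB B y w l.length → |DL l (fun z => G fun a => B a z) y| ≤ C₀ * W := fun hb =>
    (h0 O B y w d l hl hb).trans (mul_le_mul_of_nonneg_left (hW _) c0)
  refine ⟨fun hb => (h2 hb).trans (by nlinarith), fun hb => ?_⟩
  have h3 : ∀ a, ∀ p q : List (Fin 4), p.length + q.length ≤ k → p.length ≤ l.length - 1 →
      q.length ≤ l.length - 1 → |DL p (fun z => D (Pi.single a 1) G fun b => B b z) y| *
        |DL q (B a) y| ≤ C a * κ * W := fun a p q t t1 t2 => by
    refine (mul_le_mul (h1 a O B y w d p (by omega) fun b r u => hb b r (by omega))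
      (hb a q t2) (abs_nonneg _) (mul_nonneg (c1 a) (zero_le_one.trans (d.one _)))).trans ?_
    rw [mul_assoc, mul_assoc]
    exact mul_le_mul_of_nonneg_left ((d.mul _ _ t).trans (mul_le_mul_of_nonneg_left (hW _) hκ))
      (c1 a)
  have h4 : ∀ a, ∀ m ≤ k, 2 ^ m * (C a * κ * W) ≤ 2 ^ k * (C a * κ) * W := fun a m hm => by
    rw [mul_assoc (2 ^ k)]
    exact mul_le_mul_of_nonneg_right (pow_le_pow_right₀ one_le_two hm)
      (mul_nonneg (mul_nonneg (c1 a) hκ) w0)
  rw [add_mul, Finset.sum_mul]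
  rcases l.eq_nil_or_concat' with rfl | ⟨l, i, rfl⟩
  · refine (abs_sub _ _).trans (add_le_add (h2 hb) ((Finset.abs_sum_le_sum_abs _ _).trans
      (Finset.sum_le_sum fun a _ => le_trans ?_ (h4 a 0 k.zero_le))))
    rw [abs_mul, pow_zero, one_mul]
    exact h3 a [] [] k.zero_le le_rfl le_rfl
  rw [List.length_append, List.length_singleton] at hl h3
  rw [chain hδ d hG, ← Finset.sum_sub_distrib]
  refine ((Finset.abs_sum_le_sum_abs _ _).trans (Finset.sum_le_sum fun a _ => le_trans ?_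
    (h4 a l.length (by omega)))).trans (le_add_of_nonneg_left (mul_nonneg c0 w0))
  rw [snoc]
  exact top d.op d.mem (mul_nonneg (mul_nonneg (c1 a) hκ) w0) l
    (smC hδ d.sm d.le (smD isOpen_ball hG _)) (smD d.op (d.sm a) _) fun p q t u =>
      snoc q i (B a) ▸ h3 a p _ (by simp; omega) (by omega) (by simp; omega)

/-- The weight with two levels. -/
noncomputable def wt (k : ℕ) (κ a : ℝ) (i : ℕ) : ℝ := if i ≤ max 2 (k - 3) then κ else κ + a

theorem wt_le {a : ℝ} (ha : 0 ≤ a) (i : ℕ) : κ ≤ wt k κ a i ∧ wt k κ a i ≤ κ + a := by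
  unfold wt
  split_ifs <;> constructor <;> linarith

theorem wt_mul {a : ℝ} (ha : 0 ≤ a) (hκ : 0 ≤ κ) (i j : ℕ) (h : i + j ≤ k) :
    wt k κ a i * wt k κ a j ≤ κ * wt k κ a (i + j) := by
  unfold wt
  split_ifs <;> first | omega | nlinarith

end RFAA

open RFAA in
theorem faa : StmtFAA := by
  intro A _ _ G δ hδ hG k K₀
  obtain ⟨κ, k1, k0⟩ : ∃ κ : ℝ, 1 ≤ κ ∧ K₀ ≤ κ := ⟨max 1 K₀, le_max_left _ _, le_max_right _ _⟩
  have k2 := zero_le_one.trans k1
  obtain ⟨C, c0, hC⟩ := comp2 (k := k) hδ k2 hG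
  obtain ⟨T, t1, hT⟩ : ∃ T : ℝ, 1 ≤ T ∧ ∀ m ≤ k, (2 : ℝ) ^ m ≤ T :=
    ⟨2 ^ k, one_le_pow₀ one_le_two, fun m hm => pow_le_pow_right₀ one_le_two hm⟩
  refine ⟨4 * T ^ 2 * κ ^ 3 * C, by positivity,
    fun O B θ y a₁ a₂ hO hy hB hθ hle jθ jB p1 p2 b1 b2 l hl => ?_⟩
  have hS := smC hδ hB hle hG
  have key : ∀ a : ℝ, 0 ≤ a → ∀ j, (∀ b, ∀ p : List (Fin 4), p.length + j ≤ k →
      |DL p (B b) y| ≤ a) → Dat δ κ k O B y (wt k κ a) ∧
        ∀ m, m + j ≤ k ∨ m = 0 → HB B y (wt k κ a) m := fun a ha j h =>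
    ⟨⟨hO, hy, hB, hle, fun i => k1.trans (wt_le ha i).1, wt_mul ha k2⟩, fun m hm b p hp => by
      unfold wt
      split_ifs with q
      · exact (jB b p q).trans k0
      · exact (h b p (by omega)).trans (le_add_of_nonneg_left k2)⟩
  obtain ⟨d1, e1⟩ := key a₁ p1 1 b1
  obtain ⟨d2, e2⟩ := key a₂ p2 2 b2
  have s1 := hC O B y _ _ d1 fun i => (wt_le p1 i).2
  have s2 := hC O B y _ _ d2 fun i => (wt_le p2 i).2
  have j1 : ∀ p : List (Fin 4), p.length ≤ k → |DL p θ y| ≤ κ := fun p hp => (jθ p hp).trans k0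
  have u1 : ∀ (a : ℝ) (j : ℕ), 0 ≤ a → (∀ q : List (Fin 4), q.length + (j + 1) ≤ k →
      |DL q (fun z => G fun a => B a z) y| ≤ C * (κ + a)) → ∀ q : List (Fin 4), q.length + j ≤ k →
      |DL q (fun z => θ z * G fun a => B a z) y - θ y * DL q (fun z => G fun a => B a z) y| ≤
        T * (κ * (C * (κ + a))) := fun a j ha h q hq =>
    (top hO hy (by positivity) q hθ hS fun r s t u => mul_le_mul (j1 r (by omega))
      (h s (by omega)) (abs_nonneg _) k2).trans
        (mul_le_mul_of_nonneg_right (hT _ (by omega)) (by positivity))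
  have v1 : ∀ q : List (Fin 4), q.length + 1 ≤ k →
      |DL q (fun z => G fun a => B a z) y| ≤ C * (κ + a₁) := fun q hq =>
    (s1 q (by omega)).1 (e1 _ (Or.inl hq))
  have x1 := u1 a₁ 0 p1 v1 l hl
  have x2 := u1 a₂ 1 p2 fun q hq => (s2 q (by omega)).1 (e2 _ (Or.inl hq))
  have x3 := (s1 l hl).2 (e1 _ (by omega))
  have θ0 := abs_nonneg (θ y)
  have θ1 : |θ y| ≤ κ := j1 [] k.zero_le
  have x4 := (top hO hy (M := κ * (|θ y| * (C * (κ + a₁)) + T * (κ * (C * (κ + a₂)))))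
    (by positivity) l hθ (hθ.mul hS) fun r s t u => mul_le_mul (j1 r (by omega)) (by
      have y1 := x2 s (by omega)
      have y2 := mul_le_mul_of_nonneg_left (v1 s (by omega)) θ0
      rw [← abs_mul] at y2
      linarith [abs_sub_abs_le_abs_sub (DL s (fun z => θ z * G fun a => B a z) y)
        (θ y * DL s (fun z => G fun a => B a z) y)]) (abs_nonneg _) k2).trans
    (mul_le_mul_of_nonneg_right (hT _ hl) (by positivity))
  simp only [sq, mul_assoc]
  change |_ - θ y * (θ y * ∑ a, D (Pi.single a 1) G (fun b => B b y) * DL l (B a) y)| ≤ _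
  generalize DL l (fun z => θ z * (θ z * G fun a => B a z)) y = X₀ at *
  generalize DL l (fun z => θ z * G fun a => B a z) y = X₁ at *
  generalize DL l (fun z => G fun a => B a z) y = X₂ at *
  generalize ∑ a, D (Pi.single a 1) G (fun b => B b y) * DL l (B a) y = X₃ at *
  have z1 : |X₀ - θ y * (θ y * X₃)| ≤
      |X₀ - θ y * X₁| + |θ y| * (|X₁ - θ y * X₂| + |θ y| * |X₂ - X₃|) := by
    rw [show X₀ - θ y * (θ y * X₃) =
      X₀ - θ y * X₁ + θ y * (X₁ - θ y * X₂ + θ y * (X₂ - X₃)) by ring]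
    refine (abs_add_le _ _).trans (add_le_add_right ?_ _)
    rw [abs_mul, ← abs_mul (θ y) (X₂ - X₃)]
    exact mul_le_mul_of_nonneg_left (abs_add_le _ _) θ0
  have z2 : |θ y| * (κ + a₁) ≤ κ ^ 2 * (1 + a₂ + |θ y| * a₁) := by
    have := mul_nonneg θ0 p1
    have : 1 ≤ κ ^ 2 := one_le_pow₀ k1
    nlinarith
  have z3 : κ + a₂ ≤ κ * (1 + a₂ + |θ y| * a₁) := by
    have := mul_nonneg θ0 p1
    nlinarith
  have z4 : 0 ≤ 1 + a₂ + |θ y| * a₁ := by positivity
  generalize 1 + a₂ + |θ y| * a₁ = R at *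
  have z5 : T ≤ T * T := le_mul_of_one_le_right (zero_le_one.trans t1) t1
  calc _ ≤ T * (κ * (|θ y| * (C * (κ + a₁)) + T * (κ * (C * (κ + a₂))))) +
        |θ y| * (T * (κ * (C * (κ + a₁))) + κ * (C * (κ + a₁))) := by
        refine z1.trans ?_
        gcongr
    _ = (T + T + 1) * (κ * C * (|θ y| * (κ + a₁))) + T * T * (κ ^ 2 * C * (κ + a₂)) := by ring
    _ ≤ (T * T + T * T + T * T) * (κ * C * (κ ^ 2 * R)) + T * T * (κ ^ 2 * C * (κ * R)) := by
        gcongr
        exact t1.trans z5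
    _ = _ := by ring

end Pool.Agent.MP_67f0e4_gt.EU
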