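import Pool.Agent.MP_67f0e4_gt.EU.SpecC
import Pool.Agent.MP_67f0e4_gt.K.Alg

/-! Row FR: the unitary frames. -/

set_option autoImplicit false

open scoped ContDiff
open Set

namespace Pool.Agent.MP_67f0e4_gt.EU

open K

namespace RFR

theorem E1_eq (g : Hm) : E1 g = (((√(g 1 / hdet g) : ℝ) : ℂ),
    (⟨-√(g 1 / hdet g) * g 2 / g 1, -√(g 1 / hdet g) * g 3 / g 1⟩ : ℂ)) := by
  refine Prod.ext rfl (Complex.ext ?_ ?_)
  · simp [E1, Complex.div_ofReal_re]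
  · simp [E1, Complex.div_ofReal_im]

theorem bf_E1 {g : Hm} (hg : Pos g) (w : ℂ) : bf g (E1 g) (0, w) = 0 := by
  have h1 := hg.g1.ne'
  rw [E1_eq]
  simp only [bf, Complex.ofReal_re, Complex.ofReal_im, Complex.zero_re, Complex.zero_im]
  field_simp
  ring

theorem qf_E1 {g : Hm} (hg : Pos g) : qf g (E1 g) = 1 := by
  have h1 := hg.g1
  have h2 := hg.det
  have hs : √(g 1 / hdet g) ^ 2 = g 1 / hdet g := Real.sq_sqrt (by positivity)
  have e : qf g (E1 g) = √(g 1 / hdet g) ^ 2 * (hdet g / g 1) := by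
    rw [E1_eq]
    simp only [qf, bf, Complex.ofReal_re, Complex.ofReal_im]
    generalize √(g 1 / hdet g) = s
    rw [hdet]
    field_simp
    ring
  rw [e, hs]
  field_simp

theorem qf_E2 {g : Hm} (hg : Pos g) {γ : ℂ} (hγ : ‖γ‖ = 1) : qf g (E2 g γ) = 1 := by
  have h1 := hg.g1
  have e : E2 g γ = (γ / (√(g 1) : ℝ)) • e 2 := by simp [E2]
  rw [e, qf_csmul, qf, bf22, norm_div, hγ, Complex.norm_real,
    Real.norm_of_nonneg (Real.sqrt_nonneg _), div_pow, Real.sq_sqrt h1.le]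
  field_simp

/-- The matrix of `h` in the frame of `g`. -/
noncomputable def mat (g h : Hm) (γ : ℂ) : Hm := pb (cols (E1 g) (E2 g γ)) h

theorem mat0 (g h : Hm) (γ : ℂ) : mat g h γ 0 = qf h (E1 g) := by simp [mat, pb, cols_apply, qf]

theorem mat1 (g h : Hm) (γ : ℂ) : mat g h γ 1 = qf h (E2 g γ) := by
  simp [mat, pb, cols_apply, qf]

theorem mat2 (g h : Hm) (γ : ℂ) : mat g h γ 2 = bf h (E1 g) (E2 g γ) := by
  simp [mat, pb, cols_apply]

theorem mat3 (g h : Hm) (γ : ℂ) : mat g h γ 3 = bf h (E1 g) (Complex.I • E2 g γ) := by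
  simp [mat, pb, cols_apply]

theorem mat_self {g : Hm} (hg : Pos g) {γ : ℂ} (hγ : ‖γ‖ = 1) : mat g g γ = one := by
  refine Hm_ext ?_ ?_ ?_ ?_
  · rw [mat0, qf_E1 hg, one0]
  · rw [mat1, qf_E2 hg hγ, one1]
  · rw [mat2, one2]
    exact bf_E1 hg _
  · have e : Complex.I • E2 g γ = (0, Complex.I * (γ / (√(g 1) : ℝ))) := by simp [E2]
    rw [mat3, one3, e]
    exact bf_E1 hg _

theorem det_mat {g : Hm} (hg : Pos g) (h : Hm) {γ : ℂ} (hγ : ‖γ‖ = 1) :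
    hdet (one + mat g h γ) = hdet (g + h) / hdet g := by
  have h1 := hdet_pb (cols (E1 g) (E2 g γ)) g
  have h2 := hdet_pb (cols (E1 g) (E2 g γ)) (g + h)
  have h3 : pb (cols (E1 g) (E2 g γ)) g = one := mat_self hg hγ
  rw [pb_add, h3] at h2
  rw [h3, hdet_one] at h1
  rw [mat, h2, eq_div_iff hg.det.ne', mul_right_comm, ← h1, one_mul]

theorem qf_I (h : Hm) (v : V) : qf h (Complex.I • v) = qf h v := bf_I h v v

theorem qf_sub_vec (h : Hm) (v w : V) : qf h (v - w) = qf h v - 2 * bf h v w + qf h w := by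
  rw [sub_eq_add_neg, qf_add_vec, bf_neg_right, qf, qf, bf_neg_left, bf_neg_right, qf]
  ring

theorem qf_fr (g h : Hm) (γ : ℂ) :
    qf h (fr g γ (0, false)) = mat g h γ 0 ∧ qf h (fr g γ (1, false)) = mat g h γ 1 ∧
    qf h (fr g γ (2, false)) = mat g h γ 0 + 2 * mat g h γ 2 + mat g h γ 1 ∧
    qf h (fr g γ (3, false)) = mat g h γ 0 - 2 * mat g h γ 2 + mat g h γ 1 ∧
    qf h (fr g γ (4, false)) = mat g h γ 0 + 2 * mat g h γ 3 + mat g h γ 1 ∧
    qf h (fr g γ (5, false)) = mat g h γ 0 - 2 * mat g h γ 3 + mat g h γ 1 := by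
  rw [mat0, mat1, mat2, mat3]
  refine ⟨?_, ?_, ?_, ?_, ?_, ?_⟩
  · simp [fr]
  · simp [fr]
  · simp [fr, qf_add_vec]
  · simp [fr, qf_sub_vec]
  · simp [fr, qf_add_vec, qf_I]
  · simp [fr, qf_sub_vec, qf_I]

theorem one_fr (g h : Hm) (γ : ℂ) (z : Dir → ℝ) (hg : Pos g) (hγ : ‖γ‖ = 1)
    (hz : ∀ j : Fin 6, z (j, false) + z (j, true) = qf h (fr g γ (j, false))) :
    Gh z = Real.log (hdet (g + h) / hdet g) := by
  obtain ⟨q0, q1, q2, q3, q4, q5⟩ := qf_fr g h γ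
  have z0 := (hz 0).trans q0
  have z1 := (hz 1).trans q1
  have z2 := (hz 2).trans q2
  have z3 := (hz 3).trans q3
  have z4 := (hz 4).trans q4
  have z5 := (hz 5).trans q5
  have e0 : 1 + z (0, false) + z (0, true) = 1 + mat g h γ 0 := by linarith
  have e1 : 1 + z (1, false) + z (1, true) = 1 + mat g h γ 1 := by linarith
  have e2 : (z (2, false) + z (2, true) - z (3, false) - z (3, true)) / 4 = mat g h γ 2 := by
    linarith
  have e3 : (z (4, false) + z (4, true) - z (5, false) - z (5, true)) / 4 = mat g h γ 3 := by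
    linarith
  have e4 : (z (2, false) + z (2, true) + z (3, false) + z (3, true) + z (4, false) + z (4, true) +
      z (5, false) + z (5, true) - 4 * (z (0, false) + z (0, true) + z (1, false) + z (1, true))) /
        8 = 0 := by linarith
  rw [Gh, e0, e1, e2, e3, e4, add_zero, ← det_mat hg h hγ]
  simp [hdet]

theorem two_fr (g : Hm) (γ : ℂ) (j : Fin 6) :
    fr g γ (j, true) = Complex.I • fr g γ (j, false) := by simp [fr]

theorem dg_add (d₁ d₂ : ℝ) (γ : ℂ) (u v : V) :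
    dg d₁ d₂ γ (u + v) = dg d₁ d₂ γ u + dg d₁ d₂ γ v := by simp [dg, mul_add]

theorem dg_sub (d₁ d₂ : ℝ) (γ : ℂ) (u v : V) :
    dg d₁ d₂ γ (u - v) = dg d₁ d₂ γ u - dg d₁ d₂ γ v := by simp [dg, mul_sub]

theorem dg_smul (d₁ d₂ : ℝ) (γ c : ℂ) (u : V) : dg d₁ d₂ γ (c • u) = c • dg d₁ d₂ γ u := by
  refine Prod.ext ?_ ?_ <;> simp only [dg, Prod.smul_fst, Prod.smul_snd, smul_eq_mul] <;> ring

theorem three_fr (g g' : Hm) (d₁ d₂ : ℝ) (γ₀ : ℂ) (hg : Pos g) (h1 : 0 < d₁) (h2 : 0 < d₂)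
    (hγ : ‖γ₀‖ = 1) (H : ∀ u, qf g' (dg d₁ d₂ γ₀ u) = qf g u) (γ : ℂ) (a : Dir) :
    fr g' (γ₀ * γ) a = dg d₁ d₂ γ₀ (fr g γ a) := by
  have hn : γ₀.re * γ₀.re + γ₀.im * γ₀.im = 1 := by
    rw [← Complex.normSq_apply, Complex.normSq_eq_norm_sq, hγ, one_pow]
  have a0 := H (e 0)
  have a1 := H (e 2)
  have a2 := H (e 0 + e 2)
  have a3 := H (e 0 + e 3)
  simp [qf, bf, dg] at a0 a1 a2 a3
  have b0 : g 0 = d₁ ^ 2 * g' 0 := by linarith
  have b1 : g 1 = d₂ ^ 2 * g' 1 := by linear_combination -a1 + d₂ ^ 2 * g' 1 * hn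
  have b2 : g 2 = d₁ * d₂ * (g' 2 * γ₀.re + g' 3 * γ₀.im) := by
    linear_combination (a0 + a1 - a2) / 2
  have b3 : g 3 = d₁ * d₂ * (g' 3 * γ₀.re - g' 2 * γ₀.im) := by
    linear_combination (a0 + a1 - a3) / 2
  have bd : hdet g = (d₁ * d₂) ^ 2 * hdet g' := by
    rw [hdet, hdet, b0, b1, b2, b3]
    linear_combination -(d₁ * d₂) ^ 2 * (g' 2 ^ 2 + g' 3 ^ 2) * hn
  have p1 : 0 < g' 1 := by
    have := hg.g1
    rw [b1] at this
    exact (mul_pos_iff_of_pos_left (by positivity)).1 this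
  have pd : 0 < hdet g' := by
    have := hg.det
    rw [bd] at this
    exact (mul_pos_iff_of_pos_left (by positivity)).1 this
  have s1 : √(g' 1 / hdet g') = d₁ * √(g 1 / hdet g) := by
    have : g' 1 / hdet g' = d₁ ^ 2 * (g 1 / hdet g) := by
      rw [b1, bd]
      field_simp
    rw [this, Real.sqrt_mul (sq_nonneg _), Real.sqrt_sq h1.le]
  have s2 : √(g 1) = d₂ * √(g' 1) := by
    rw [b1, Real.sqrt_mul (sq_nonneg _), Real.sqrt_sq h2.le]
  have c1 : E1 g' = dg d₁ d₂ γ₀ (E1 g) := by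
    rw [E1_eq g', E1_eq g, s1]
    generalize √(g 1 / hdet g) = s
    refine Prod.ext ?_ (Complex.ext ?_ ?_)
    · simp [dg]
    · simp only [dg, Complex.mul_re, Complex.mul_im, Complex.ofReal_re, Complex.ofReal_im, b1,
        b2, b3]
      field_simp
      linear_combination s * g' 2 * d₂ * hn
    · simp only [dg, Complex.mul_re, Complex.mul_im, Complex.ofReal_re, Complex.ofReal_im, b1,
        b2, b3]
      field_simp
      linear_combination s * g' 3 * d₂ * hn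
  have c2 : E2 g' (γ₀ * γ) = dg d₁ d₂ γ₀ (E2 g γ) := by
    have n1 : ((√(g' 1) : ℝ) : ℂ) ≠ 0 := Complex.ofReal_ne_zero.2 (Real.sqrt_pos.2 p1).ne'
    have n2 : (d₂ : ℂ) ≠ 0 := Complex.ofReal_ne_zero.2 h2.ne'
    refine Prod.ext ?_ ?_
    · simp [dg, E2]
    · simp only [dg, E2, s2, Complex.ofReal_mul]
      field_simp
  obtain ⟨j, b⟩ := a
  rw [fr, fr, dg_smul, c1, c2]
  refine congrArg _ ?_
  fin_cases j <;> simp [dg_add, dg_sub, dg_smul]

theorem four_fr (γ : ℂ) (a : Dir) :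
    ContDiffOn ℝ ∞ (fun g => fr g γ a) {g : Hm | 0 < g 1 ∧ 0 < hdet g} := by
  have hc : ∀ i, ContDiff ℝ ∞ fun g : Hm => ((g i : ℝ) : ℂ) := fun i =>
    Complex.ofRealCLM.contDiff.comp (contDiff_apply ℝ ℝ i)
  have hd : ContDiff ℝ ∞ hdet := by
    unfold hdet
    fun_prop
  have hs : ContDiffOn ℝ ∞ (fun g : Hm => ((√(g 1 / hdet g) : ℝ) : ℂ))
      {g : Hm | 0 < g 1 ∧ 0 < hdet g} :=
    Complex.ofRealCLM.contDiff.comp_contDiffOn
      (((contDiff_apply ℝ ℝ 1).contDiffOn.div hd.contDiffOn fun g hg => hg.2.ne').sqrt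
        fun g hg => (div_pos hg.1 hg.2).ne')
  have ht : ContDiffOn ℝ ∞ (fun g : Hm => ((√(g 1) : ℝ) : ℂ)) {g : Hm | 0 < g 1 ∧ 0 < hdet g} :=
    Complex.ofRealCLM.contDiff.comp_contDiffOn
      ((contDiff_apply ℝ ℝ 1).contDiffOn.sqrt fun g hg => hg.1.ne')
  have h1 : ContDiffOn ℝ ∞ E1 {g : Hm | 0 < g 1 ∧ 0 < hdet g} := by
    unfold E1
    simp only [div_eq_mul_inv (_ : ℂ)]
    exact hs.prodMk ((hs.neg.mul ((hc 2).add ((hc 3).mul contDiff_const)).contDiffOn).mul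
      ((hc 1).contDiffOn.inv fun g hg => Complex.ofReal_ne_zero.2 hg.1.ne'))
  have h2 : ContDiffOn ℝ ∞ (fun g => E2 g γ) {g : Hm | 0 < g 1 ∧ 0 < hdet g} := by
    unfold E2
    simp only [div_eq_mul_inv (_ : ℂ)]
    exact contDiffOn_const.prodMk (contDiffOn_const.mul
      (ht.inv fun g hg => Complex.ofReal_ne_zero.2 (Real.sqrt_pos.2 hg.1).ne'))
  obtain ⟨j, b⟩ := a
  unfold fr
  refine ContDiffOn.const_smul _ ?_
  fin_cases j
  · exact h1
  · exact h2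
  · exact h1.add h2
  · exact h1.sub h2
  · exact h1.add (h2.const_smul _)
  · exact h1.sub (h2.const_smul _)

theorem qf_le {g : Hm} (hg : Pos g) {γ : ℂ} (hγ : ‖γ‖ = 1) (a : Dir) : qf g (fr g γ a) ≤ 2 := by
  obtain ⟨q0, q1, q2, q3, q4, q5⟩ := qf_fr g g γ
  rw [mat_self hg hγ] at q0 q1 q2 q3 q4 q5
  simp only [one0, one1, one2, one3] at q0 q1 q2 q3 q4 q5
  have key : ∀ j : Fin 6, qf g (fr g γ (j, false)) ≤ 2 := fun j => by
    fin_cases j
    · exact q0.trans_le (by norm_num)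
    · exact q1.trans_le (by norm_num)
    · exact q2.trans_le (by norm_num)
    · exact q3.trans_le (by norm_num)
    · exact q4.trans_le (by norm_num)
    · exact q5.trans_le (by norm_num)
  obtain ⟨j, b⟩ := a
  cases b
  · exact key j
  · rw [two_fr, qf_I]
    exact key j

theorem five_fr (Λ : ℝ) (hΛ : 0 < Λ) : ∃ (Q : Set Hm) (R : ℝ), IsCompact Q ∧
    Q ⊆ {g : Hm | 0 < g 1 ∧ 0 < hdet g} ∧ 0 < R ∧ ∀ g, EllH Λ g → g ∈ Q ∧ Pos g ∧
      ∀ (γ : ℂ) (a : Dir), ‖γ‖ = 1 → ‖fr g γ a‖ ≤ R := by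
  have hd : Continuous hdet := by
    unfold hdet
    fun_prop
  refine ⟨Metric.closedBall 0 (2 * Λ) ∩ ({g | Λ⁻¹ ≤ g 1} ∩ {g | (4 * Λ ^ 2)⁻¹ ≤ hdet g}), Λ + 1,
    (isCompact_closedBall _ _).inter_right
      ((isClosed_le continuous_const (continuous_apply 1)).inter
        (isClosed_le continuous_const hd)),
    fun g hg => ⟨(inv_pos.2 hΛ).trans_le hg.2.1, lt_of_lt_of_le (by positivity) hg.2.2⟩,
    by positivity, fun g hg => ⟨⟨mem_closedBall_zero_iff.2 hg.norm_le, ?_, hg.det_ge⟩, hg.isPos,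
      fun γ a hγ => ?_⟩⟩
  · have h := (hg.2 (e 2)).1
    rw [norm_e, qf, bf22, one_pow] at h
    change Λ⁻¹ ≤ g 1
    rwa [inv_le_iff_one_le_mul₀' hΛ]
  · have h := (hg.2 (fr g γ a)).1
    have h2 := mul_le_mul_of_nonneg_left (qf_le hg.isPos hγ a) hΛ.le
    nlinarith [sq_nonneg (‖fr g γ a‖ - 1)]

end RFR

open RFR in
/-- Row FR. -/
theorem frm : StmtFR :=
  ⟨one_fr, fun g h γ j => ⟨two_fr g γ j, by rw [two_fr, qf_I]⟩, three_fr, four_fr, five_fr⟩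

end Pool.Agent.MP_67f0e4_gt.EU
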