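import Pool.Agent.MP_67f0e4_gt.EU.SpecC

/-! Row GH: smoothness and monotonicity of `Gh`. -/

set_option autoImplicit false

open scoped ContDiff Topology
open Set Metric Filter

namespace Pool.Agent.MP_67f0e4_gt.EU

open K

namespace RGH

/-- the argument of the logarithm -/
noncomputable def P (z : Dir → ℝ) : ℝ :=
  (1 + z (0, false) + z (0, true)) * (1 + z (1, false) + z (1, true)) -
    ((z (2, false) + z (2, true) - z (3, false) - z (3, true)) / 4) ^ 2 -
    ((z (4, false) + z (4, true) - z (5, false) - z (5, true)) / 4) ^ 2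

/-- the linear part -/
noncomputable def L (z : Dir → ℝ) : ℝ :=
  (z (2, false) + z (2, true) + z (3, false) + z (3, true) + z (4, false) + z (4, true) +
    z (5, false) + z (5, true) - 4 * (z (0, false) + z (0, true) + z (1, false) + z (1, true))) / 8

theorem gh_eq : Gh = fun z => Real.log (P z) + L z := rfl

theorem P_smooth : ContDiff ℝ ∞ P := by
  unfold P
  fun_prop

theorem L_smooth : ContDiff ℝ ∞ L := by
  unfold L
  fun_prop

theorem smoothAt {z : Dir → ℝ} (hz : 0 < P z) : ContDiffAt ℝ ∞ Gh z := by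
  rw [gh_eq]
  exact (P_smooth.contDiffAt.log hz.ne').add L_smooth.contDiffAt

theorem P_zero : P 0 = 1 := by simp [P]

theorem line (w : Dir → ℝ) : HasDerivAt (fun s : ℝ => Gh (s • w))
    (w (0, false) + w (0, true) + w (1, false) + w (1, true) + L w) 0 := by
  set A := w (0, false) + w (0, true) with hA
  set B := w (1, false) + w (1, true) with hB
  set Q := ((w (2, false) + w (2, true) - w (3, false) - w (3, true)) / 4) ^ 2 +
    ((w (4, false) + w (4, true) - w (5, false) - w (5, true)) / 4) ^ 2 with hQ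
  have e : (fun s : ℝ => Gh (s • w)) =
      fun s => Real.log (1 + s * (A + B) + s * s * (A * B - Q)) + s * L w := by
    funext s
    have e1 : P (s • w) = 1 + s * (A + B) + s * s * (A * B - Q) := by
      simp only [P, Pi.smul_apply, smul_eq_mul, hA, hB, hQ]
      ring
    have e2 : L (s • w) = s * L w := by
      simp only [L, Pi.smul_apply, smul_eq_mul]
      ring
    rw [gh_eq]
    simp only [e1, e2]
  rw [e]
  have h1 : HasDerivAt (fun s : ℝ => 1 + s * (A + B) + s * s * (A * B - Q)) (A + B) 0 := by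
    have h2 := (((hasDerivAt_id (0 : ℝ)).mul_const (A + B)).const_add 1).add
      (((hasDerivAt_id (0 : ℝ)).mul (hasDerivAt_id (0 : ℝ))).mul_const (A * B - Q))
    refine h2.congr_deriv ?_
    simp
  have h3 := (h1.log (by simp)).add ((hasDerivAt_id (0 : ℝ)).mul_const (L w))
  refine h3.congr_deriv ?_
  simp only [hB]
  ring

theorem fderiv_zero (w : Dir → ℝ) :
    fderiv ℝ Gh 0 w = w (0, false) + w (0, true) + w (1, false) + w (1, true) + L w := by
  have h0 : DifferentiableAt ℝ Gh ((0 : ℝ) • w) := by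
    rw [zero_smul]
    exact (smoothAt (by rw [P_zero]; exact one_pos)).differentiableAt (by simp)
  have h1 : HasDerivAt (fun s : ℝ => s • w) w 0 :=
    ((hasDerivAt_id (0 : ℝ)).smul_const w).congr_deriv (one_smul _ _)
  have h2 := h0.hasFDerivAt.comp_hasDerivAt (0 : ℝ) h1
  rw [zero_smul] at h2
  exact h2.unique (line w)

theorem fderiv_single (a : Dir) : 1 / 8 ≤ fderiv ℝ Gh 0 (Pi.single a 1) := by
  rw [fderiv_zero]
  obtain ⟨j, b⟩ := a
  fin_cases j <;> cases b <;> simp [L, Pi.single_apply] <;> norm_num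

end RGH

open RGH in
theorem gh : StmtGH := by
  have h0 : ∀ᶠ z in 𝓝 (0 : Dir → ℝ), 0 < P z :=
    P_smooth.continuous.continuousAt.eventually (lt_mem_nhds (by rw [P_zero]; exact one_pos))
  have hs : ContDiffAt ℝ ∞ Gh 0 := smoothAt (by rw [P_zero]; exact one_pos)
  have hc : ContinuousAt (fderiv ℝ Gh) 0 := hs.continuousAt_fderiv (by simp)
  have h1 : ∀ a : Dir, ∀ᶠ z in 𝓝 (0 : Dir → ℝ), 1 / 16 < fderiv ℝ Gh z (Pi.single a 1) := by
    intro a
    have h2 : ContinuousAt (fun z => fderiv ℝ Gh z (Pi.single a 1)) 0 :=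
      hc.clm_apply continuousAt_const
    exact h2.eventually (lt_mem_nhds (lt_of_lt_of_le (by norm_num) (fderiv_single a)))
  obtain ⟨r, hr, h⟩ := Metric.eventually_nhds_iff_ball.1 (h0.and (eventually_all.2 h1))
  refine ⟨r / 2, 1 / 16, by positivity, by norm_num, fun z hz => ?_, fun z hz a => ?_⟩
  · rw [show 2 * (r / 2) = r by ring] at hz
    exact (smoothAt (h z hz).1).contDiffWithinAt
  · exact ((h z (closedBall_subset_ball (by linarith) hz)).2 a).le

end Pool.Agent.MP_67f0e4_gt.EU
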