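import Pool.Agent.MP_67f0e4_gt.EU.Spec

/-! Row INT: integrals with parameters. -/

set_option autoImplicit false

open scoped ContDiff Topology
open Set Metric Filter

namespace Pool.Agent.MP_67f0e4_gt.EU

open K

namespace RINT

variable {O : Set V} {J : Set ℝ}

section
variable {W : Type} [NormedAddCommGroup W] [NormedSpace ℝ W]

/-- the derivative in the first variable -/
noncomputable def pd (g : V × ℝ → W) (q : V × ℝ) : V →L[ℝ] W :=
  (fderiv ℝ g q).comp (ContinuousLinearMap.inl ℝ V ℝ)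

theorem pd_sm (hO : IsOpen O) (hJ : IsOpen J) {g : V × ℝ → W} (hg : ContDiffOn ℝ ∞ g (O ×ˢ J)) :
    ContDiffOn ℝ ∞ (pd g) (O ×ˢ J) :=
  (hg.fderiv_of_isOpen (hO.prod hJ) (by simp)).clm_comp contDiffOn_const

theorem has_pd (hO : IsOpen O) (hJ : IsOpen J) {g : V × ℝ → W} (hg : ContDiffOn ℝ ∞ g (O ×ˢ J))
    {y : V} {s : ℝ} (hy : y ∈ O) (hs : s ∈ J) :
    HasFDerivAt (fun w => g (w, s)) (pd g (y, s)) y :=
  ((hg.contDiffAt ((hO.prod hJ).mem_nhds ⟨hy, hs⟩)).differentiableAt (by simp)).hasFDerivAt.comp y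
    (hasFDerivAt_prodMk_left y s)

omit [NormedSpace ℝ W] in
theorem ii (hI : Icc 0 1 ⊆ J) {g : V × ℝ → W} (hg : ContinuousOn g (O ×ˢ J)) {y : V}
    (hy : y ∈ O) : IntervalIntegrable (fun s => g (y, s)) MeasureTheory.volume 0 1 := by
  refine ContinuousOn.intervalIntegrable ?_
  rw [uIcc_of_le zero_le_one]
  exact hg.comp (Continuous.prodMk_right y).continuousOn fun s hs => ⟨hy, hI hs⟩

theorem key (hO : IsOpen O) (hJ : IsOpen J) (hI : Icc 0 1 ⊆ J) {g : V × ℝ → W}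
    (hg : ContDiffOn ℝ ∞ g (O ×ˢ J)) {y : V} (hy : y ∈ O) :
    HasFDerivAt (fun w => ∫ s in (0 : ℝ)..1, g (w, s)) (∫ s in (0 : ℝ)..1, pd g (y, s)) y := by
  obtain ⟨ε, hε, hb⟩ := nhds_basis_closedBall.mem_iff.1 (hO.mem_nhds hy)
  have hc := (pd_sm hO hJ hg).continuousOn
  obtain ⟨C, hC⟩ := ((isCompact_closedBall y ε).prod isCompact_Icc).exists_bound_of_continuousOn
    (hc.mono (prod_mono hb hI))
  have hu : uIoc (0 : ℝ) 1 ⊆ Icc 0 1 := by
    rw [uIoc_of_le zero_le_one]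
    exact Ioc_subset_Icc_self
  exact intervalIntegral.hasFDerivAt_integral_of_dominated_of_fderiv_le (F := fun w s => g (w, s))
    (F' := fun w s => pd g (w, s)) (bound := fun _ => C) (closedBall_mem_nhds y hε)
    (mem_of_superset (hO.mem_nhds hy) fun w hw =>
      (ii hI hg.continuousOn hw).def'.aestronglyMeasurable)
    (ii hI hg.continuousOn hy) (ii hI hc hy).def'.aestronglyMeasurable
    (Eventually.of_forall fun t ht w hw => hC (w, t) ⟨hw, hu ht⟩) intervalIntegrable_const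
    (Eventually.of_forall fun t ht w hw => has_pd hO hJ hg (hb hw) (hI (hu ht)))

end

theorem smooth (hO : IsOpen O) (hJ : IsOpen J) (hI : Icc 0 1 ⊆ J) (n : ℕ) :
    ∀ (W : Type) [NormedAddCommGroup W] [NormedSpace ℝ W] (g : V × ℝ → W),
      ContDiffOn ℝ ∞ g (O ×ˢ J) → ContDiffOn ℝ n (fun w => ∫ s in (0 : ℝ)..1, g (w, s)) O := by
  induction n with
  | zero =>
    intro W _ _ g hg
    exact contDiffOn_zero.2 fun y hy => (key hO hJ hI hg hy).continuousAt.continuousWithinAt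
  | succ n ih =>
    intro W _ _ g hg
    rw [Nat.cast_succ, contDiffOn_succ_iff_fderiv_of_isOpen hO]
    exact ⟨fun y hy => (key hO hJ hI hg hy).differentiableAt.differentiableWithinAt,
      fun h => absurd h (by simp),
      (ih _ _ (pd_sm hO hJ hg)).congr fun y hy => (key hO hJ hI hg hy).fderiv⟩

theorem word (hO : IsOpen O) (hJ : IsOpen J) (hI : Icc 0 1 ⊆ J) {g : V × ℝ → ℝ}
    (hg : ContDiffOn ℝ ∞ g (O ×ˢ J)) (l : List (Fin 4)) :
    ∃ G : V × ℝ → ℝ, ContDiffOn ℝ ∞ G (O ×ˢ J) ∧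
      (∀ y ∈ O, ∀ s ∈ J, DL l (fun w => g (w, s)) y = G (y, s)) ∧
      ∀ y ∈ O, DL l (fun w => ∫ s in (0 : ℝ)..1, g (w, s)) y = ∫ s in (0 : ℝ)..1, G (y, s) := by
  induction l with
  | nil => exact ⟨g, hg, fun _ _ _ _ => rfl, fun _ _ => rfl⟩
  | cons i l ih =>
    obtain ⟨G, h1, h2, h3⟩ := ih
    refine ⟨fun q => pd G q (e i), (pd_sm hO hJ h1).clm_apply contDiffOn_const,
      fun y hy s hs => ?_, fun y hy => ?_⟩
    · have h4 : DL l (fun w => g (w, s)) =ᶠ[𝓝 y] fun w => G (w, s) :=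
        mem_of_superset (hO.mem_nhds hy) fun w hw => h2 w hw s hs
      change fderiv ℝ (DL l fun w => g (w, s)) y (e i) = _
      rw [h4.fderiv_eq, (has_pd hO hJ h1 hy hs).fderiv]
    · have h4 : DL l (fun w => ∫ s in (0 : ℝ)..1, g (w, s)) =ᶠ[𝓝 y]
          fun w => ∫ s in (0 : ℝ)..1, G (w, s) := mem_of_superset (hO.mem_nhds hy) h3
      change fderiv ℝ (DL l fun w => ∫ s in (0 : ℝ)..1, g (w, s)) y (e i) = _
      rw [h4.fderiv_eq, (key hO hJ hI h1 hy).fderiv,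
        ContinuousLinearMap.intervalIntegral_apply (ii hI (pd_sm hO hJ h1).continuousOn hy)]

end RINT

theorem intg : StmtINT := by
  intro O J g hO hJ hI hg
  refine ⟨contDiffOn_infty.2 fun n => RINT.smooth hO hJ hI n ℝ g hg, fun l y hy => ?_⟩
  obtain ⟨G, -, h2, h3⟩ := RINT.word hO hJ hI hg l
  rw [h3 y hy]
  refine intervalIntegral.integral_congr fun s hs => (h2 y hy s (hI ?_)).symm
  rwa [uIcc_of_le zero_le_one] at hs

end Pool.Agent.MP_67f0e4_gt.EU
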