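import Pool.Agent.MP_67f0e4_gt.EU.SpecC
import Pool.Agent.MP_67f0e4_gt.K.Chain

/-! Row INV: change of parametrisation. -/

set_option autoImplicit false

open scoped ContDiff Topology
open Set Metric Filter

namespace Pool.Agent.MP_67f0e4_gt.EU

open K

theorem inv : StmtINV := by
  intro X N N' U U' hX hN hN' a ha a' ha' he
  obtain ⟨R, hR, h1, h2⟩ := hX.2 N' U' hN' a' ha'
  have hU := hN.op.mem_nhds ha
  have hNa : ContDiffAt ℂ ∞ N a := hN.hol.contDiffAt hU
  have hN'a : ContDiffAt ℂ ∞ N' a' := hN'.hol.contDiffAt (hN'.op.mem_nhds ha')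
  rw [← he] at hR h2
  have hτ : ContDiffAt ℂ ∞ (R ∘ N) a := hR.comp a hNa
  have hτa : (R ∘ N) a = a' := by
    rw [Function.comp_apply, he]
    exact h1.self_of_nhds
  have ht : Tendsto N (𝓝 a) (𝓝[X] (N a)) :=
    tendsto_nhdsWithin_iff.2 ⟨hNa.continuousAt, mem_of_superset hU fun x hx => hN.mem hx⟩
  have hev : ∀ᶠ x in 𝓝 a, N' ((R ∘ N) x) = N x := ht.eventually h2
  have hinj : Function.Injective (fderiv ℂ (R ∘ N) a) := by
    have d1 := hτ.differentiableAt (by simp)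
    have d2 : DifferentiableAt ℂ N' ((R ∘ N) a) := by
      rw [hτa]
      exact hN'a.differentiableAt (by simp)
    have e1 : fderiv ℂ (N' ∘ R ∘ N) a = fderiv ℂ N a := EventuallyEq.fderiv_eq hev
    rw [fderiv_comp a d2 d1] at e1
    have := hN.inj a ha
    rw [← e1] at this
    exact Function.Injective.of_comp this
  refine ⟨R ∘ N, ‖cdet (fderiv ℂ (R ∘ N) a)‖ ^ 2, hτ.restrict_scalars ℝ, hτa, hev,
    pow_pos (norm_pos_iff.2 (cdet_ne.2 hinj)) 2, fun g hg => ?_⟩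
  have e2 : lv (g ∘ N) a = pb (fderiv ℂ (R ∘ N) a) (lv (g ∘ N') a') := by
    rw [← hτa] at hg ⊢
    rw [← lv_hol (hτ.of_le two_le_inf) hg]
    exact lv_congr (hev.mono fun x hx => (congrArg g hx).symm)
  rw [e2]
  exact ⟨hdet_pb _ _, fun h => h.pb hinj⟩

end Pool.Agent.MP_67f0e4_gt.EU
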