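import Pool.Agent.MP_67f0e4_gt.EU.Spec

/-! Block A: bounds for the iterates of the scheme on a fixed time interval. -/

set_option autoImplicit false

open scoped ContDiff
open Set Metric

namespace Pool.Agent.MP_67f0e4_gt.EU

open K

namespace RITER

theorem cut : ∃ χ, Cut χ := by
  let b : ContDiffBump (0 : V) := ⟨1 / 4, 1 / 2, by norm_num, by norm_num⟩
  exact ⟨b, b.contDiff, fun _ => ⟨b.nonneg, b.le_one⟩,
    fun _ hy => b.one_of_mem_closedBall (ball_subset_closedBall hy),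
    fun _ hy => b.zero_of_le_dist (not_lt.1 hy)⟩

theorem dl_zero (l : List (Fin 4)) : DL l (fun _ => 0) = fun _ => 0 := by
  induction l with
  | nil => rfl
  | cons i l ih =>
    funext y
    simp [DL, ih, D]

variable {X : Type} {S : Sch X} {χ : V → ℝ}

theorem ja_mono {k k' : ℕ} {f : X → ℝ} {M M' : ℝ} (h : S.JA k f M) (hk : k' ≤ k) (hM : M ≤ M') :
    S.JA k' f M' := fun i y hy l hl => (h i y hy l (hl.trans hk)).trans hM

theorem qb_zero (η h C : ℝ) (k : ℕ) :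
    S.QB χ k (S.it η h 0) (Real.exp (C * (((0 : ℕ) : ℝ) * h)) - 1) := by
  intro i y _
  have : jet k (fun w => S.it η h 0 (S.Φ i w)) y = 0 := by
    ext l
    exact congrFun (dl_zero l.1) y
  simp [this]

theorem qb_step {k m : ℕ} {f : X → ℝ} {h C : ℝ}
    (hq : S.QB χ k f (Real.exp (C * (m * h)) - 1 + h * C * (1 + (Real.exp (C * (m * h)) - 1)))) :
    S.QB χ k f (Real.exp (C * ((m + 1 : ℕ) * h)) - 1) := by
  intro i y hy
  refine (hq i y hy).trans ?_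
  have h1 := mul_le_mul_of_nonneg_left (Real.add_one_le_exp (C * h)) (Real.exp_pos (C * (m * h))).le
  rw [← Real.exp_add] at h1
  rw [show C * ((m + 1 : ℕ) * h) = C * (m * h) + C * h by push_cast; ring]
  linarith

theorem ja_of_qb (hC : StmtCOV) (ok : S.Ok) (hχ : Cut χ) (k : ℕ) : ∃ C : ℝ, 1 ≤ C ∧
    ∀ (f : X → ℝ) (q : ℝ), S.Sm f → S.QB χ k f q → S.JA k f (C * √q) := by
  obtain ⟨C, h1, h2⟩ := (hC X S.ι S.Φ ok.cov).2 k
  have sub : ball (0 : V) (1 / 4) ⊆ ball 0 1 := ball_subset_ball (by norm_num)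
  refine ⟨C, h1, fun f q hf hq => h2 f _ (fun i => (hf i).mono sub) fun i y hy l hl => ?_⟩
  have h3 := hq i y (sub hy)
  rw [hχ.one y hy, one_pow, one_mul] at h3
  exact (PiLp.norm_apply_le (jet k (fun w => f (S.Φ i w)) y) ⟨l, hl⟩).trans
    ((le_abs_self _).trans (Real.abs_le_sqrt h3))

theorem small (hA : StmtAEST) (ok : S.Ok) : ∃ ρ : ℝ, 0 < ρ ∧ ∀ η ∈ Ioo 0 S.ε, ∀ t ∈ Icc 0 ρ,
    ∀ f : X → ℝ, S.Sm f → S.JA 2 f ρ → S.In η t f := by
  choose C c0 hC using fun p : S.B × S.A => hA S.κ S.O S.ε _ (ok.jmp p.1 p.2) 2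
  choose R hR using fun p : S.B × S.A => (ok.rb p.1 p.2).2 0
  obtain ⟨M, hM⟩ : ∃ M, M = ∑ p, (C p + |R p|) + 1 := ⟨_, rfl⟩
  have n0 : ∀ p, 0 ≤ C p + |R p| := fun p => add_nonneg (c0 p) (abs_nonneg _)
  have M0 : 0 < M := by
    rw [hM]
    exact add_pos_of_nonneg_of_pos (Finset.sum_nonneg fun p _ => n0 p) one_pos
  have d0 := div_pos ok.δ_pos M0
  refine ⟨S.δ / M, d0, fun η hη t ht f hf hj x y hy b a => ?_⟩
  have h1 := ((hC (b, a) x _ _ η hη (hf (S.ch x)) (hj _)).2 y hy).1 [] le_rfl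
  have h2 := hR (b, a) x y hy
  rw [norm_iteratedFDeriv_zero, Real.norm_eq_abs] at h2
  have h3 : |t * S.r b a x y| ≤ S.δ / M * |R (b, a)| := by
    rw [abs_mul, abs_of_nonneg ht.1]
    exact mul_le_mul ht.2 (h2.trans (le_abs_self _)) (abs_nonneg _) d0.le
  have h4 := Finset.single_le_sum (f := fun p => C p + |R p|) (fun p _ => n0 p)
    (Finset.mem_univ (b, a))
  have h5 : S.δ / M * (C (b, a) + |R (b, a)|) ≤ S.δ / M * M :=
    mul_le_mul_of_nonneg_left (by linarith) d0.le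
  rw [div_mul_cancel₀ _ M0.ne'] at h5
  refine (abs_add_le _ _).trans ?_
  have h6 : |Aop η (fun w => f (S.Φ (S.ch x) w)) (S.ψ b a x) y| ≤ C (b, a) * (S.δ / M) := h1
  linarith

end RITER

open RITER

theorem iter (hC : StmtCOV) (hA : StmtAEST) (hN : StmtNB) (hS : StmtSTEP) : StmtITER := by
  intro X S ok
  obtain ⟨χ, hχ⟩ := cut
  obtain ⟨C₀, p0, st⟩ := hS X S χ ok hχ
  obtain ⟨ρ, r0, hρ⟩ := small hA ok
  obtain ⟨C4, η4, c4, e4, e4', s4⟩ := st 4 1 (by norm_num)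
  obtain ⟨J4, j4, q4⟩ := ja_of_qb hC ok hχ 4
  obtain ⟨_, nb⟩ := hN X S ok 0 1
  obtain ⟨σ, σ0, σ1, σ2⟩ : ∃ σ : ℝ, 0 < σ ∧ σ ≤ 1 ∧ σ ≤ ρ :=
    ⟨min 1 ρ, lt_min one_pos r0, min_le_left _ _, min_le_right _ _⟩
  obtain ⟨τ, t0, t1, t2, t3⟩ : ∃ τ : ℝ, 0 < τ ∧ τ ≤ σ ∧ τ ≤ 1 / (C4 + 1) ∧
      τ ≤ (σ / J4) ^ 2 / (2 * (C4 + 1)) :=
    ⟨min σ (min (1 / (C4 + 1)) ((σ / J4) ^ 2 / (2 * (C4 + 1)))), by positivity, min_le_left _ _,
      (min_le_right _ _).trans (min_le_left _ _), (min_le_right _ _).trans (min_le_right _ _)⟩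
  rw [le_div_iff₀ (by positivity)] at t2 t3
  have hh : ∀ η : ℝ, 0 < η → 0 < η ^ 2 / C₀ ∧ η ^ 2 / C₀ * C₀ ≤ η ^ 2 ∧ ∀ m : ℕ,
      0 ≤ m * (η ^ 2 / C₀) ∧ m * (η ^ 2 / C₀) ≤ (m + 1 : ℕ) * (η ^ 2 / C₀) := fun η h =>
    ⟨by positivity, (div_mul_cancel₀ _ p0.ne').le, fun m => ⟨by positivity,
      mul_le_mul_of_nonneg_right (by simp) (by positivity)⟩⟩
  have ja : ∀ (f : X → ℝ) (t : ℝ), 0 ≤ t → t ≤ τ → S.Sm f →
      S.QB χ 4 f (Real.exp (C4 * t) - 1) → S.JA 4 f σ := fun f t h0 h1 hf hq => by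
    refine ja_mono (q4 f _ hf hq) le_rfl ?_
    have h2 : 0 ≤ C4 * t := by positivity
    have h3 : C4 * t ≤ τ * (C4 + 1) := by nlinarith
    have h4 := Real.abs_exp_sub_one_le (x := C4 * t) (by rw [abs_of_nonneg h2]; linarith)
    rw [abs_of_nonneg h2] at h4
    have h5 : √(Real.exp (C4 * t) - 1) ≤ σ / J4 :=
      Real.sqrt_le_iff.2 ⟨by positivity, by linarith [le_abs_self (Real.exp (C4 * t) - 1)]⟩
    rwa [le_div_iff₀' (by linarith)] at h5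
  have key : ∀ k, 4 ≤ k → ∃ C η₁ : ℝ, 0 < η₁ ∧ η₁ < S.ε ∧ ∀ η ∈ Ioc 0 η₁, ∀ m : ℕ,
      m * (η ^ 2 / C₀) ≤ τ → S.Sm (S.it η (η ^ 2 / C₀) m) ∧
        S.In η (m * (η ^ 2 / C₀)) (S.it η (η ^ 2 / C₀) m) ∧
        S.JA k (S.it η (η ^ 2 / C₀) m) C := by
    intro k hk
    induction k, hk using Nat.le_induction with
    | base =>
      refine ⟨σ, η4, e4, e4', fun η hη => ?_⟩
      obtain ⟨h1, h2, h3⟩ := hh η hη.1
      have hη' : η ∈ Ioo 0 S.ε := ⟨hη.1, hη.2.trans_lt e4'⟩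
      have fin : ∀ m : ℕ, m * (η ^ 2 / C₀) ≤ τ → S.Sm (S.it η (η ^ 2 / C₀) m) →
          S.QB χ 4 (S.it η (η ^ 2 / C₀) m) (Real.exp (C4 * (m * (η ^ 2 / C₀))) - 1) →
          S.In η (m * (η ^ 2 / C₀)) (S.it η (η ^ 2 / C₀) m) ∧
            S.JA 4 (S.it η (η ^ 2 / C₀) m) σ := fun m hm a b =>
        ⟨hρ η hη' _ ⟨(h3 m).1, by linarith⟩ _ a
          (ja_mono (ja _ _ (h3 m).1 hm a b) (by norm_num) σ2), ja _ _ (h3 m).1 hm a b⟩
      have ind : ∀ m : ℕ, m * (η ^ 2 / C₀) ≤ τ → S.Sm (S.it η (η ^ 2 / C₀) m) ∧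
          S.QB χ 4 (S.it η (η ^ 2 / C₀) m) (Real.exp (C4 * (m * (η ^ 2 / C₀))) - 1) := by
        intro m
        induction m with
        | zero => exact fun _ => ⟨fun _ => contDiffOn_const, qb_zero _ _ _ _⟩
        | succ m ih =>
          intro hm
          have hm' := (h3 m).2.trans hm
          obtain ⟨a, b⟩ := ih hm'
          obtain ⟨c, d⟩ := fin m hm' a b
          have ht : m * (η ^ 2 / C₀) ∈ Icc (0 : ℝ) 1 := ⟨(h3 m).1, by linarith⟩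
          have d' := ja_mono d le_rfl σ1
          exact ⟨fun i => (a i).add (contDiffOn_const.mul ((nb η hη' _ ht _ a c d').1 i)),
            qb_step (s4 η hη _ h1 h2 _ ht _ _ a c d' b)⟩
      exact fun m hm => ⟨(ind m hm).1, fin m hm (ind m hm).1 (ind m hm).2⟩
    | succ k hk ih =>
      obtain ⟨C, η₁, a1, a2, ih⟩ := ih
      obtain ⟨C', η₂, b1, b2, -, sk⟩ := st (k + 1) C (by omega)
      obtain ⟨J, j1, qk⟩ := ja_of_qb hC ok hχ (k + 1)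
      refine ⟨J * √(Real.exp (C' * τ) - 1), min η₁ η₂, lt_min a1 b2,
        (min_le_left _ _).trans_lt a2, fun η hη => ?_⟩
      obtain ⟨h1, h2, h3⟩ := hh η hη.1
      have ih := ih η ⟨hη.1, hη.2.trans (min_le_left _ _)⟩
      have ind : ∀ m : ℕ, m * (η ^ 2 / C₀) ≤ τ →
          S.QB χ (k + 1) (S.it η (η ^ 2 / C₀) m) (Real.exp (C' * (m * (η ^ 2 / C₀))) - 1) := by
        intro m
        induction m with
        | zero => exact fun _ => qb_zero _ _ _ _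
        | succ m ihm =>
          intro hm
          have hm' := (h3 m).2.trans hm
          obtain ⟨a, c, d⟩ := ih m hm'
          exact qb_step (sk η ⟨hη.1, hη.2.trans (min_le_right _ _)⟩ _ h1 h2 _
            ⟨(h3 m).1, by linarith⟩ _ _ a c (ja_mono d (by omega) le_rfl) (ihm hm'))
      refine fun m hm => ⟨(ih m hm).1, (ih m hm).2.1, ja_mono (qk _ _ (ih m hm).1 (ind m hm))
        le_rfl (mul_le_mul_of_nonneg_left (Real.sqrt_le_sqrt ?_) (by linarith))⟩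
      exact sub_le_sub_right (Real.exp_le_exp.2 (mul_le_mul_of_nonneg_left hm b1)) 1
  refine ⟨τ, C₀, t0, t1.trans σ1, p0, fun k => ?_⟩
  obtain ⟨C, η₁, a1, a2, h⟩ := key (max 4 k) (le_max_left _ _)
  exact ⟨C, η₁, a1, a2, fun η hη m hm => ⟨(h η hη m hm).1, (h η hη m hm).2.1,
    ja_mono (h η hη m hm).2.2 (le_max_right _ _) le_rfl⟩⟩

end Pool.Agent.MP_67f0e4_gt.EU
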