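import Pool.Agent.MP_67f0e4_gt.EU.Spec

/-! Block A: joint smoothness from the equation. -/

set_option autoImplicit false

open scoped ContDiff Topology
open Set Metric Filter

namespace Pool.Agent.MP_67f0e4_gt.EU

noncomputable section

open K

namespace RJS

/-- the coordinates -/
def cl : Fin 4 → V →L[ℝ] ℝ :=
  ![Complex.reCLM.comp (ContinuousLinearMap.fst ℝ ℂ ℂ),
    Complex.imCLM.comp (ContinuousLinearMap.fst ℝ ℂ ℂ),
    Complex.reCLM.comp (ContinuousLinearMap.snd ℝ ℂ ℂ),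
    Complex.imCLM.comp (ContinuousLinearMap.snd ℝ ℂ ℂ)]

theorem clm_eq (A : V →L[ℝ] ℝ) : A = ∑ i, A (e i) • cl i := by
  refine ContinuousLinearMap.ext fun w => ?_
  have h : w = ∑ i, cl i w • e i := by
    refine Prod.ext (Complex.ext ?_ ?_) (Complex.ext ?_ ?_) <;>
      simp [cl, e, Fin.sum_univ_four]
  conv_lhs => rw [h]
  simp only [map_sum, map_smul, sum_apply, smul_apply,
    smul_eq_mul, mul_comm]

theorem dl_sm {O : Set V} (hO : IsOpen O) {f : V → ℝ} (hf : ContDiffOn ℝ ∞ f O)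
    (l : List (Fin 4)) : ContDiffOn ℝ ∞ (DL l f) O := by
  induction l with
  | nil => exact hf
  | cons i l ih => exact (ih.fderiv_of_isOpen hO (m := ∞) (by simp)).clm_apply contDiffOn_const

theorem dl_diff {O : Set V} (hO : IsOpen O) {f : V → ℝ} (hf : ContDiffOn ℝ ∞ f O)
    (l : List (Fin 4)) {y : V} (hy : y ∈ O) : DifferentiableAt ℝ (DL l f) y :=
  ((dl_sm hO hf l).contDiffAt (hO.mem_nhds hy)).differentiableAt (by simp)

/-- smooth functions of the jets -/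
def Cls (I : Set ℝ) (O : Set V) (v F : ℝ → V → ℝ) : Prop :=
  ∃ (L : Type) (_ : Fintype L) (w : L → List (Fin 4)) (g : ℝ × V × (L → ℝ) → ℝ)
    (Z : Set (ℝ × V × (L → ℝ))), IsOpen Z ∧ ContDiffOn ℝ ∞ g Z ∧ ∀ t ∈ I, ∀ y ∈ O,
      (t, y, fun j => DL (w j) (v t) y) ∈ Z ∧ F t y = g (t, y, fun j => DL (w j) (v t) y)

variable {I : Set ℝ} {O : Set V} {v F : ℝ → V → ℝ}

theorem Cls.cd (h : Cls I O v F) {m : ℕ}
    (hv : ∀ l, ContDiffOn ℝ m (fun z : ℝ × V => DL l (v z.1) z.2) (I ×ˢ O)) :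
    ContDiffOn ℝ m (fun z : ℝ × V => F z.1 z.2) (I ×ˢ O) := by
  obtain ⟨L, _, w, g, Z, -, hg, h⟩ := h
  have h1 : ContDiffOn ℝ m (fun z : ℝ × V => (z.1, z.2, fun j => DL (w j) (v z.1) z.2))
      (I ×ˢ O) :=
    contDiffOn_fst.prodMk (contDiffOn_snd.prodMk (contDiffOn_pi.2 fun j => hv (w j)))
  exact ((contDiffOn_infty.1 hg m).comp h1 fun z hz => (h z.1 hz.1 z.2 hz.2).1).congr
    fun z hz => (h z.1 hz.1 z.2 hz.2).2

theorem Cls.sm (h : Cls I O v F) (hO : IsOpen O) (hv : ∀ t ∈ I, ContDiffOn ℝ ∞ (v t) O) :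
    ∀ t ∈ I, ContDiffOn ℝ ∞ (F t) O := by
  obtain ⟨L, _, w, g, Z, -, hg, h⟩ := h
  intro t ht
  have h1 : ContDiffOn ℝ ∞ (fun y : V => (t, y, fun j => DL (w j) (v t) y)) O :=
    contDiffOn_const.prodMk (contDiffOn_id.prodMk
      (contDiffOn_pi.2 fun j => dl_sm hO (hv t ht) (w j)))
  exact (hg.comp h1 fun y hy => (h t ht y hy).1).congr fun y hy => (h t ht y hy).2

theorem Cls.der (h : Cls I O v F) (hO : IsOpen O) (hv : ∀ t ∈ I, ContDiffOn ℝ ∞ (v t) O)
    (i : Fin 4) : Cls I O v fun t => D (e i) (F t) := by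
  obtain ⟨L, _, w, g, Z, hZ, hg, h⟩ := h
  have hπ : ContDiff ℝ ∞ fun z : ℝ × V × (L ⊕ L → ℝ) =>
      ((z.1, z.2.1, fun j => z.2.2 (Sum.inl j)) : ℝ × V × (L → ℝ)) := by fun_prop
  have hρ : ContDiff ℝ ∞ fun z : ℝ × V × (L ⊕ L → ℝ) =>
      ((0, e i, fun j => z.2.2 (Sum.inr j)) : ℝ × V × (L → ℝ)) := by fun_prop
  refine ⟨L ⊕ L, inferInstance, Sum.elim w fun j => i :: w j,
    fun z => fderiv ℝ g (z.1, z.2.1, fun j => z.2.2 (Sum.inl j))
      (0, e i, fun j => z.2.2 (Sum.inr j)),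
    (fun z => (z.1, z.2.1, fun j => z.2.2 (Sum.inl j))) ⁻¹' Z, hZ.preimage hπ.continuous,
    ((hg.fderiv_of_isOpen hZ (m := ∞) (by simp)).comp hπ.contDiffOn fun _ hz => hz).clm_apply
      hρ.contDiffOn, fun t ht y hy => ⟨(h t ht y hy).1, ?_⟩⟩
  have h1 : HasFDerivAt (fun y : V => ((t, y, fun j => DL (w j) (v t) y) : ℝ × V × (L → ℝ)))
      ((0 : V →L[ℝ] ℝ).prod ((ContinuousLinearMap.id ℝ V).prod
        (ContinuousLinearMap.pi fun j => fderiv ℝ (DL (w j) (v t)) y))) y :=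
    (hasFDerivAt_const t y).prodMk ((hasFDerivAt_id y).prodMk
      (hasFDerivAt_pi.2 fun j => (dl_diff hO (hv t ht) (w j) hy).hasFDerivAt))
  have h2 := ((hg.contDiffAt (hZ.mem_nhds (h t ht y hy).1)).differentiableAt
    (by simp)).hasFDerivAt.comp y h1
  have h3 : F t =ᶠ[𝓝 y] g ∘ fun y : V => (t, y, fun j => DL (w j) (v t) y) := by
    filter_upwards [hO.mem_nhds hy] with x hx using (h t ht x hx).2
  show fderiv ℝ (F t) y (e i) = _
  rw [(h2.congr_of_eventuallyEq h3).fderiv]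
  rfl

theorem Cls.dl (h : Cls I O v F) (hO : IsOpen O) (hv : ∀ t ∈ I, ContDiffOn ℝ ∞ (v t) O)
    (l : List (Fin 4)) : Cls I O v fun t => DL l (F t) := by
  induction l with
  | nil => exact h
  | cons i l ih => exact ih.der hO hv i

theorem line {f : V → ℝ} {y w : V} {r : ℝ} (h : DifferentiableAt ℝ f (y + r • w)) :
    HasDerivAt (fun r : ℝ => f (y + r • w)) (D w f (y + r • w)) r := by
  have h1 : HasDerivAt (fun r : ℝ => y + r • w) w r := by
    simpa using ((hasDerivAt_id r).smul_const w).const_add y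
  exact h.hasFDerivAt.comp_hasDerivAt r h1

theorem slice {a b : ℝ} {f : ℝ → V → ℝ}
    (hf : ContinuousOn (fun z : ℝ × V => f z.1 z.2) (Icc a b ×ˢ O)) {y : V} (hy : y ∈ O) :
    ContinuousOn (fun s => f s y) (Icc a b) :=
  hf.comp (f := fun s : ℝ => (s, y)) (continuous_id.prodMk continuous_const).continuousOn
    fun _ hs => ⟨hs, hy⟩

theorem int_der (hO : IsOpen O) {a b t : ℝ} (ht : t ∈ Icc a b) {f : ℝ → V → ℝ} {w y : V}
    (hy : y ∈ O) (hf : ContinuousOn (fun z : ℝ × V => f z.1 z.2) (Icc a b ×ˢ O))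
    (hf' : ContinuousOn (fun z : ℝ × V => D w (f z.1) z.2) (Icc a b ×ˢ O))
    (hd : ∀ s ∈ Icc a b, ∀ x ∈ O, DifferentiableAt ℝ (f s) x) :
    HasDerivAt (fun r : ℝ => ∫ s in a..t, f s (y + r • w)) (∫ s in a..t, D w (f s) y) 0 := by
  obtain ⟨ε, hε, hb⟩ := nhds_basis_closedBall.mem_iff.1 (hO.mem_nhds hy)
  obtain ⟨C, hC⟩ := (isCompact_Icc.prod (isCompact_closedBall y ε)).exists_bound_of_continuousOn
    (hf'.mono (prod_mono_right hb))
  have hc : Continuous fun r : ℝ => y + r • w := by fun_prop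
  have hs : {r : ℝ | y + r • w ∈ closedBall y ε} ∈ 𝓝 (0 : ℝ) :=
    hc.continuousAt.preimage_mem_nhds (by simpa using closedBall_mem_nhds y hε)
  have hI : uIcc a t ⊆ Icc a b := by
    rw [uIcc_of_le ht.1]
    exact Icc_subset_Icc_right ht.2
  have hI' : uIoc a t ⊆ Icc a b := uIoc_subset_uIcc.trans hI
  have y0 : y + (0 : ℝ) • w = y := by simp
  have H := intervalIntegral.hasDerivAt_integral_of_dominated_loc_of_deriv_le
    (μ := MeasureTheory.volume) (a := a) (b := t) (bound := fun _ => C)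
    (F := fun r s => f s (y + r • w)) (F' := fun r s => D w (f s) (y + r • w)) hs
    (by
      filter_upwards [hs] with r hr
      exact ((slice hf (hb hr)).mono hI').aestronglyMeasurable measurableSet_uIoc)
    (((slice hf (y0.symm ▸ hy)).mono hI).intervalIntegrable)
    (((slice (f := fun s => D w (f s)) hf' (y0.symm ▸ hy)).mono hI').aestronglyMeasurable
      measurableSet_uIoc)
    (Eventually.of_forall fun s hs r hr => hC (s, y + r • w) ⟨hI' hs, hr⟩)
    intervalIntegrable_const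
    (Eventually.of_forall fun s hs r hr => line (hd s (hI' hs) _ (hb hr)))
  simpa only [y0] using H.2

theorem tint (hO : IsOpen O) {a b : ℝ} {n : ℝ → V → ℝ}
    (hv : ∀ t ∈ Icc a b, ContDiffOn ℝ ∞ (v t) O) (hn : ∀ t ∈ Icc a b, ContDiffOn ℝ ∞ (n t) O)
    (hc : ∀ l, ContinuousOn (fun z : ℝ × V => DL l (n z.1) z.2) (Icc a b ×ˢ O))
    (he : ∀ t ∈ Icc a b, ∀ y ∈ O, HasDerivWithinAt (fun s => v s y) (n t y) (Icc a b) t)
    {t : ℝ} (ht : t ∈ Icc a b) (l : List (Fin 4)) :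
    ∀ y ∈ O, DL l (v t) y = DL l (v a) y + ∫ s in a..t, DL l (n s) y := by
  have ha : a ∈ Icc a b := ⟨le_rfl, ht.1.trans ht.2⟩
  have hI : Icc a t ⊆ Icc a b := Icc_subset_Icc_right ht.2
  induction l with
  | nil =>
    intro y hy
    have h := intervalIntegral.integral_eq_sub_of_hasDeriv_right_of_le (f := fun s => v s y)
      (f' := fun s => n s y) ht.1
      (fun s hs => ((he s (hI hs) y hy).continuousWithinAt).mono hI)
      (fun s hs => ((he s (hI (Ioo_subset_Icc_self hs)) y hy).hasDerivAt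
        (Icc_mem_nhds hs.1 (hs.2.trans_le ht.2))).hasDerivWithinAt)
      (((slice (f := n) (hc []) hy).mono hI).intervalIntegrable_of_Icc ht.1)
    show v t y = v a y + ∫ s in a..t, n s y
    rw [h, add_sub_cancel]
  | cons i l ih =>
    intro y hy
    have y0 : y + (0 : ℝ) • e i = y := by simp
    have h1 := line (w := e i) (r := 0) (y0.symm ▸ dl_diff hO (hv t ht) l hy)
    have h2 := (line (w := e i) (r := 0) (y0.symm ▸ dl_diff hO (hv a ha) l hy)).add
      (int_der (f := fun s => DL l (n s)) (w := e i) hO ht hy (hc l) (hc (i :: l))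
        fun s hs x hx => dl_diff hO (hn s hs) l hx)
    have hc' : Continuous fun r : ℝ => y + r • e i := by fun_prop
    have hs : {r : ℝ | y + r • e i ∈ O} ∈ 𝓝 (0 : ℝ) :=
      hc'.continuousAt.preimage_mem_nhds (by rw [y0]; exact hO.mem_nhds hy)
    have h3 := h1.unique (h2.congr_of_eventuallyEq (by
      filter_upwards [hs] with r hr using ih _ hr))
    rw [y0] at h3
    exact h3

theorem tder (hO : IsOpen O) {a b : ℝ} {n : ℝ → V → ℝ}
    (hv : ∀ t ∈ Icc a b, ContDiffOn ℝ ∞ (v t) O) (hn : ∀ t ∈ Icc a b, ContDiffOn ℝ ∞ (n t) O)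
    (hc : ∀ l, ContinuousOn (fun z : ℝ × V => DL l (n z.1) z.2) (Icc a b ×ˢ O))
    (he : ∀ t ∈ Icc a b, ∀ y ∈ O, HasDerivWithinAt (fun s => v s y) (n t y) (Icc a b) t)
    {t : ℝ} (ht : t ∈ Icc a b) (l : List (Fin 4)) {y : V} (hy : y ∈ O) :
    HasDerivWithinAt (fun s => DL l (v s) y) (DL l (n t) y) (Icc a b) t := by
  have : Fact (t ∈ Icc a b) := ⟨ht⟩
  have h0 := slice (f := fun s => DL l (n s)) (hc l) hy
  have h1 := (intervalIntegral.integral_hasDerivWithinAt_right (s := Icc a b) (t := Icc a b)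
    ((h0.mono (Icc_subset_Icc_right ht.2)).intervalIntegrable_of_Icc ht.1)
    (h0.stronglyMeasurableAtFilter_nhdsWithin measurableSet_Icc t) (h0 t ht)).const_add
      (DL l (v a) y)
  exact h1.congr (fun s hs => tint hO hv hn hc he hs l y hy) (tint hO hv hn hc he ht l y hy)

theorem joint (hO : IsOpen O) {u : ℝ → V → ℝ} {p t : ℝ} {q : ℝ × V → V →L[ℝ] ℝ} {y : V}
    (hy : y ∈ O) (hp : HasDerivWithinAt (fun s => u s y) p I t)
    (hd : ∀ s ∈ I, ∀ x ∈ O, HasFDerivAt (u s) (q (s, x)) x)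
    (hq : ContinuousWithinAt q (I ×ˢ O) (t, y)) :
    HasFDerivWithinAt (fun z : ℝ × V => u z.1 z.2)
      ((q (t, y)).comp (ContinuousLinearMap.snd ℝ ℝ V) + p • ContinuousLinearMap.fst ℝ ℝ V)
      (I ×ˢ O) (t, y) := by
  have h2 : HasFDerivWithinAt (fun z : ℝ × V => u z.1 y) (p • ContinuousLinearMap.fst ℝ ℝ V)
      (I ×ˢ O) (t, y) := by
    have h := hp.hasFDerivWithinAt.comp (f := Prod.fst) (s := I ×ˢ O) (t, y)
      hasFDerivWithinAt_fst fun z hz => hz.1
    refine h.congr_fderiv (ContinuousLinearMap.ext fun z => ?_)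
    simp [mul_comm]
  have h1 : HasFDerivWithinAt (fun z : ℝ × V => u z.1 z.2 - u z.1 y)
      ((q (t, y)).comp (ContinuousLinearMap.snd ℝ ℝ V)) (I ×ˢ O) (t, y) := by
    rw [hasFDerivWithinAt_iff_isLittleO, Asymptotics.isLittleO_iff]
    intro ε hε
    obtain ⟨δ, hδ, hb⟩ := Metric.continuousWithinAt_iff.1 hq ε hε
    obtain ⟨δ', hδ', hb'⟩ := Metric.isOpen_iff.1 hO y hy
    have hm : 0 < min δ δ' := lt_min hδ hδ'
    have hs : ball y (min δ δ') ⊆ O := (ball_subset_ball (min_le_right _ _)).trans hb'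
    filter_upwards [self_mem_nhdsWithin, mem_nhdsWithin_of_mem_nhds (ball_mem_nhds (t, y) hm)]
      with z hz hz'
    have hz2 : dist z.1 t < min δ δ' ∧ dist z.2 y < min δ δ' := max_lt_iff.1 hz'
    have h := (convex_ball y (min δ δ')).norm_image_sub_le_of_norm_hasFDerivWithin_le'
      (f := u z.1) (f' := fun x => q (z.1, x)) (φ := q (t, y)) (C := ε)
      (fun x hx => (hd z.1 hz.1 x (hs hx)).hasFDerivWithinAt)
      (fun x hx => by
        rw [← dist_eq_norm]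
        exact (hb (x := (z.1, x)) ⟨hz.1, hs hx⟩
          ((max_lt hz2.1 hx).trans_le (min_le_left _ _))).le)
      (mem_ball_self hm) hz2.2
    have e : u z.1 z.2 - u z.1 y - (u t y - u t y) -
        (q (t, y)).comp (ContinuousLinearMap.snd ℝ ℝ V) (z - (t, y)) =
        u z.1 z.2 - u z.1 y - q (t, y) (z.2 - y) := by
      rw [sub_self, sub_zero]
      rfl
    rw [e]
    exact h.trans (mul_le_mul_of_nonneg_left (norm_snd_le (z - (t, y))) hε.le)
  exact (h1.add h2).congr (fun z _ => (sub_add_cancel _ _).symm) (sub_add_cancel _ _).symm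

theorem cont (hO : IsOpen O) (hv : ∀ t ∈ I, ContDiffOn ℝ ∞ (v t) O) (l : List (Fin 4)) {C : ℝ}
    (hC : ∀ t ∈ I, ∀ t' ∈ I, ∀ y ∈ O, |DL l (v t') y - DL l (v t) y| ≤ C * |t' - t|) :
    ContinuousOn (fun z : ℝ × V => DL l (v z.1) z.2) (I ×ˢ O) := by
  rintro ⟨t, y⟩ ⟨ht, hy⟩
  have h1 : Tendsto (fun z : ℝ × V => DL l (v t) z.2) (𝓝[I ×ˢ O] (t, y)) (𝓝 (DL l (v t) y)) :=
    ((dl_diff hO (hv t ht) l hy).continuousAt.comp (f := Prod.snd) (x := (t, y))
      continuous_snd.continuousAt).continuousWithinAt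
  have h2 : Tendsto (fun z : ℝ × V => DL l (v z.1) z.2 - DL l (v t) z.2) (𝓝[I ×ˢ O] (t, y))
      (𝓝 0) := by
    have hc : Continuous fun z : ℝ × V => C * |z.1 - t| := by fun_prop
    refine squeeze_zero_norm' (a := fun z : ℝ × V => C * |z.1 - t|) ?_ ?_
    · filter_upwards [self_mem_nhdsWithin] with z hz using hC t ht z.1 hz.1 z.2 hz.2
    · simpa using (hc.tendsto (t, y)).mono_left nhdsWithin_le_nhds
  simpa [ContinuousWithinAt] using h2.add h1

end RJS

theorem js : StmtJS := by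
  intro O a b v L _ wd H Z hO hab hZ hH hv hb hm he
  have hcl : RJS.Cls (Icc a b) O v fun t y => H (t, y, fun j => DL (wd j) (v t) y) :=
    ⟨L, inferInstance, wd, H, Z, hZ, hH, fun t ht y hy => ⟨hm t ht y hy, rfl⟩⟩
  have h0 : ∀ l, ContinuousOn (fun z : ℝ × V => DL l (v z.1) z.2) (Icc a b ×ˢ O) := fun l => by
    obtain ⟨C, hC⟩ := hb l
    exact RJS.cont hO hv l fun t ht t' ht' y hy => (hC t ht t' ht' y hy).2
  have h0' : ∀ l, ContDiffOn ℝ (0 : ℕ) (fun z : ℝ × V => DL l (v z.1) z.2) (Icc a b ×ˢ O) :=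
    fun l => contDiffOn_zero.2 (h0 l)
  have ht := fun t (ht : t ∈ Icc a b) l y (hy : y ∈ O) => RJS.tder hO hv (hcl.sm hO hv)
    (fun l => ((hcl.dl hO hv l).cd h0').continuousOn) he ht l hy
  have key : ∀ (m : ℕ) l,
      ContDiffOn ℝ m (fun z : ℝ × V => DL l (v z.1) z.2) (Icc a b ×ˢ O) := by
    intro m
    induction m with
    | zero => exact h0'
    | succ m ih =>
      intro l
      have hq : ContDiffOn ℝ m (fun z : ℝ × V => ∑ i, DL (i :: l) (v z.1) z.2 • RJS.cl i)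
          (Icc a b ×ˢ O) := ContDiffOn.sum fun i _ => (ih (i :: l)).smul contDiffOn_const
      rw [Nat.cast_succ, contDiffOn_succ_iff_hasFDerivWithinAt_of_uniqueDiffOn
        ((uniqueDiffOn_Icc hab).prod hO.uniqueDiffOn)]
      refine ⟨fun h => absurd h (by simp), _, (hq.clm_comp (contDiffOn_const
        (c := ContinuousLinearMap.snd ℝ ℝ V))).add (((hcl.dl hO hv l).cd ih).smul
          (contDiffOn_const (c := ContinuousLinearMap.fst ℝ ℝ V))), ?_⟩
      rintro ⟨t, y⟩ hz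
      exact RJS.joint (u := fun s => DL l (v s))
        (q := fun z : ℝ × V => ∑ i, DL (i :: l) (v z.1) z.2 • RJS.cl i) hO hz.2
        (ht t hz.1 l y hz.2)
        (fun s hs x hx => (RJS.dl_diff hO (hv s hs) l hx).hasFDerivAt.congr_fderiv
          (RJS.clm_eq _)) (hq.continuousOn _ hz)
  exact contDiffOn_infty.2 fun m => key m []

end

end Pool.Agent.MP_67f0e4_gt.EU
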