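import Pool.Agent.MP_67f0e4_gt.EU.SpecC

/-! Row LOC: the choice of transition maps. -/

set_option autoImplicit false

open scoped ContDiff Topology
open Set Metric Filter

namespace Pool.Agent.MP_67f0e4_gt.EU

open K

namespace RLOC

theorem key {X : Set C3} {F : Fam X} (A : Atl F) (hA : A.Ok) (c : A.C) (x : F.ι × V) :
    ∃ (j : F.ι) (T S : V → V), ContDiffOn ℂ ∞ T (ball x.2 A.r) ∧
      ContDiffOn ℂ ∞ S (ball 0 A.r) ∧ (∀ y ∈ ball x.2 A.r, ‖T y‖ ≤ 2 + A.r) ∧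
      (∀ w ∈ ball (0 : V) A.r, ‖S w‖ ≤ 2 + A.r ∧ F.Φ x.1 (S w) = F.Φ j w) ∧
      (x.2 ∈ ball (0 : V) 1 → T x.2 = 0 ∧ (∀ y ∈ ball x.2 A.r, F.Φ j (T y) = F.Φ x.1 y) ∧
        (∀ᶠ y in 𝓝 x.2, S (T y) = y) ∧
        ∀ᶠ y in 𝓝 x.2, A.typ j = c ∨ A.th c (F.Φ x.1 y) = 0) := by
  have hr := hA.r_pos
  by_cases hx : x.2 ∈ ball (0 : V) 1
  · have aux : ∀ c', (∃ᶠ y in 𝓝 x.2, A.th c' (F.Φ x.1 y) ≠ 0) →
        (c' = c ∨ ∀ᶠ y in 𝓝 x.2, A.th c (F.Φ x.1 y) = 0) →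
        ∃ (j : F.ι) (T S : V → V), ContDiffOn ℂ ∞ T (ball x.2 A.r) ∧
        ContDiffOn ℂ ∞ S (ball 0 A.r) ∧ (∀ y ∈ ball x.2 A.r, ‖T y‖ ≤ 2 + A.r) ∧
        (∀ w ∈ ball (0 : V) A.r, ‖S w‖ ≤ 2 + A.r ∧ F.Φ x.1 (S w) = F.Φ j w) ∧
        (x.2 ∈ ball (0 : V) 1 → T x.2 = 0 ∧ (∀ y ∈ ball x.2 A.r, F.Φ j (T y) = F.Φ x.1 y) ∧
          (∀ᶠ y in 𝓝 x.2, S (T y) = y) ∧
          ∀ᶠ y in 𝓝 x.2, A.typ j = c ∨ A.th c (F.Φ x.1 y) = 0) := by
      intro c' h1 h2
      obtain ⟨j, T, S, hj, hT0, hT, hS, hTb, hSb, hST⟩ := hA.trans x.1 x.2 hx c' h1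
      refine ⟨j, T, S, hT, hS, fun y hy => ?_, fun w hw => ⟨?_, (hSb w hw).2⟩,
        fun _ => ⟨hT0, fun y hy => (hTb y hy).2, hST, ?_⟩⟩
      · linarith [(hTb y hy).1]
      · linarith [(hSb w hw).1]
      · rcases h2 with h2 | h2
        · exact Eventually.of_forall fun _ => Or.inl (hj.trans h2)
        · exact h2.mono fun _ h => Or.inr h
    by_cases hf : ∃ᶠ y in 𝓝 x.2, A.th c (F.Φ x.1 y) ≠ 0
    · exact aux c hf (Or.inl rfl)
    · have hp : F.Φ x.1 x.2 ∈ X := (F.par x.1).mem (ball_subset_ball (by norm_num) hx)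
      have hs := hA.sq _ hp
      have : ∃ c', A.th c' (F.Φ x.1 x.2) ≠ 0 := by
        by_contra hn
        have hn' : ∀ c', A.th c' (F.Φ x.1 x.2) = 0 := fun c' => by
          by_contra h; exact hn ⟨c', h⟩
        simp [hn'] at hs
      obtain ⟨c', hc'⟩ := this
      refine aux c' (fun h => ?_) (Or.inr ?_)
      · exact h.self_of_nhds hc'
      · exact (not_frequently.1 hf).mono fun _ h => not_not.1 h
  · refine ⟨x.1, fun _ => 0, fun w => w, contDiffOn_const, contDiffOn_id, fun y _ => ?_,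
      fun w hw => ⟨?_, rfl⟩, fun h => absurd h hx⟩
    · simp only [norm_zero]; linarith
    · have := mem_ball_zero_iff.1 hw
      linarith

theorem Bd_sub {κ κ' : Type} {U : κ → Set V} {G : κ → V → V} (h : Bd U G) (g : κ' → κ)
    (U' : κ' → Set V) (hU : ∀ x, U' x ⊆ U (g x)) : Bd U' fun x => G (g x) :=
  ⟨fun x => (h.1 (g x)).mono (hU x), fun n => by
    obtain ⟨C, hC⟩ := h.2 n
    exact ⟨C, fun x y hy => hC (g x) y (hU x hy)⟩⟩

end RLOC

theorem locEx (hC : StmtCAU) : StmtLOC := by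
  intro X F A hA
  have hr := hA.r_pos
  choose j T S hT hS hTb hSb hx using RLOC.key A hA
  have bT := hC (A.C × (F.ι × V)) (fun q => q.2.2) A.r (2 + A.r) (fun q => T q.1 q.2) hr
    (fun q => hT q.1 q.2) (fun q => hTb q.1 q.2)
  have bS := hC (A.C × (F.ι × V)) (fun _ => 0) A.r (2 + A.r) (fun q => S q.1 q.2) hr
    (fun q => hS q.1 q.2) (fun q w hw => (hSb q.1 q.2 w hw).1)
  obtain ⟨C₀, hC₀⟩ := bS.2 1
  set C : ℝ := max C₀ 1 with hCd
  have hC1 : 1 ≤ C := le_max_right _ _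
  have hCp : 0 < C := by linarith
  have lip : ∀ c x, ∀ w ∈ ball (0 : V) (A.r / 2), ‖S c x w - S c x 0‖ ≤ C * ‖w‖ := by
    intro c x w hw
    have h1 : ∀ y ∈ ball (0 : V) (A.r / 2), DifferentiableAt ℝ (S c x) y := fun y hy =>
      ((bS.1 (c, x)).contDiffAt (isOpen_ball.mem_nhds hy)).differentiableAt (by simp)
    have h2 : ∀ y ∈ ball (0 : V) (A.r / 2), ‖fderiv ℝ (S c x) y‖ ≤ C := fun y hy => by
      have := hC₀ (c, x) y hy
      rw [norm_iteratedFDeriv_one] at this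
      exact this.trans (le_max_left _ _)
    have := (convex_ball (0 : V) (A.r / 2)).norm_image_sub_le_of_norm_fderiv_le h1 h2
      (mem_ball_self (by linarith)) hw
    simpa using this
  set s : ℝ := min (A.r / 4) (1 / (8 * C)) with hs
  have s0 : 0 < s := lt_min (by linarith) (by positivity)
  have s1 : s ≤ A.r / 4 := min_le_left _ _
  have s2 : s ≤ 1 / (8 * C) := min_le_right _ _
  have s3 : C * s ≤ 1 / 8 := by
    have := mul_le_mul_of_nonneg_left s2 hCp.le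
    have e : C * (1 / (8 * C)) = 1 / 8 := by field_simp
    linarith
  have s4 : s ≤ 1 / 8 := by nlinarith
  let P : F.ι × V → Set V := fun x => {y | x.2 ∈ ball (0 : V) 1 ∧ y ∈ ball (0 : V) 1 ∧
    y ∈ ball x.2 (A.r / 2) ∧ ∀ c, T c x y ∈ ball (0 : V) s ∧ S c x (T c x y) = y ∧
      (A.typ (j c x) = c ∨ A.th c (F.Φ x.1 y) = 0)}
  refine ⟨⟨s, fun x => interior (P x), j, T, S⟩, s0, s4, fun x => ⟨isOpen_interior,
    fun y hy => (interior_subset hy).2.1⟩, fun x h => ⟨?_, fun c => (hx c x h).1⟩,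
    fun c x => ?_, fun c => ?_, fun c => ?_, fun c x y hy => ?_, fun c x w hw => ?_⟩
  · refine mem_interior_iff_mem_nhds.2 ?_
    have e1 : ∀ᶠ y in 𝓝 x.2, y ∈ ball (0 : V) 1 := isOpen_ball.mem_nhds h
    have e2 : ∀ᶠ y in 𝓝 x.2, y ∈ ball x.2 (A.r / 2) := ball_mem_nhds _ (by linarith)
    have e3 : ∀ᶠ y in 𝓝 x.2, ∀ c, T c x y ∈ ball (0 : V) s ∧ S c x (T c x y) = y ∧
        (A.typ (j c x) = c ∨ A.th c (F.Φ x.1 y) = 0) := by
      refine eventually_all.2 fun c => ?_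
      have hc : ContinuousAt (T c x) x.2 :=
        ((hT c x).contDiffAt (ball_mem_nhds _ hr)).continuousAt
      have e4 : ∀ᶠ y in 𝓝 x.2, T c x y ∈ ball (0 : V) s := by
        refine hc.eventually_mem ?_
        rw [(hx c x h).1]
        exact ball_mem_nhds _ s0
      exact e4.and ((hx c x h).2.2.1.and (hx c x h).2.2.2)
    filter_upwards [e1, e2, e3] with y a1 a2 a3
    exact ⟨h, a1, a2, a3⟩
  · by_cases h : A.typ (j c x) = c
    · exact Or.inl h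
    · exact Or.inr fun y hy => (((interior_subset hy).2.2.2 c).2.2).resolve_left h
  · exact RLOC.Bd_sub bT (fun x => (c, x)) _ fun x y hy => (interior_subset hy).2.2.1
  · exact RLOC.Bd_sub bS (fun x => (c, x)) _ fun x => ball_subset_ball (by
      show 2 * s ≤ A.r / 2
      linarith)
  · have h := interior_subset hy
    exact ⟨(h.2.2.2 c).1, (hx c x h.1).2.1 y (ball_subset_ball (by linarith) h.2.2.1),
      (h.2.2.2 c).2.1⟩
  · have hw' : ‖w‖ < 2 * s := mem_ball_zero_iff.1 hw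
    refine ⟨(hSb c x w (mem_ball_zero_iff.2 (by linarith))).2, fun h => ?_⟩
    have h1 : x.2 ∈ ball (0 : V) 1 := ball_subset_ball (by norm_num) h
    have h0 : S c x 0 = x.2 := by
      have := (hx c x h1).2.2.1.self_of_nhds
      rwa [(hx c x h1).1] at this
    have h2 := lip c x w (mem_ball_zero_iff.2 (by linarith))
    rw [h0] at h2
    have h3 : ‖x.2‖ < 1 / 2 := mem_ball_zero_iff.1 h
    have h4 : ‖S c x w‖ ≤ ‖S c x w - x.2‖ + ‖x.2‖ := by
      simpa using norm_add_le (S c x w - x.2) x.2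
    have h5 : C * ‖w‖ ≤ C * (2 * s) := mul_le_mul_of_nonneg_left hw'.le hCp.le
    show S c x w ∈ ball (0 : V) 1
    rw [mem_ball_zero_iff]
    nlinarith

end Pool.Agent.MP_67f0e4_gt.EU
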