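import Pool.Agent.MP_67f0e4_gt.EU.SpecC
import Pool.Agent.MP_67f0e4_gt.K.Chain

/-! Row MPX: the maximum principle from bounded geometry. -/

set_option autoImplicit false

open scoped ContDiff Topology
open Set Metric Filter

namespace Pool.Agent.MP_67f0e4_gt.EU

open K

namespace RMPX

theorem form : ∃ Q : V →L[ℝ] V →L[ℝ] ℝ, ∀ y, ‖y‖ ^ 2 ≤ Q y y := by
  refine ⟨(innerSL ℝ (E := ℂ)).bilinearComp (ContinuousLinearMap.fst ℝ ℂ ℂ)
    (ContinuousLinearMap.fst ℝ ℂ ℂ) + (innerSL ℝ (E := ℂ)).bilinearComp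
      (ContinuousLinearMap.snd ℝ ℂ ℂ) (ContinuousLinearMap.snd ℝ ℂ ℂ), fun y => ?_⟩
  refine (qf_one_ge y).trans_eq ?_
  rw [qf_one, ← real_inner_self_eq_norm_sq, ← real_inner_self_eq_norm_sq]
  rfl

theorem pen {κ : Type} {r : ℝ} (hr : 0 < r) {S : κ → V → V} (h : Bd (fun _ => ball (0 : V) r) S)
    (Q : V →L[ℝ] V →L[ℝ] ℝ) : ∃ M : ℝ, ∀ x,
      ContDiffAt ℝ 2 (fun w => Q (S x w) (S x w)) 0 ∧ ‖lv (fun w => Q (S x w) (S x w)) 0‖ ≤ M := by
  choose C hC using h.2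
  have h0 : (0 : V) ∈ ball (0 : V) r := mem_ball_self hr
  refine ⟨2 * (2 * (‖Q‖ * ∑ i ∈ Finset.range (2 + 1), (Nat.choose 2 i : ℝ) * C i * C (2 - i))),
    fun x => ?_⟩
  have h1 : ContDiffAt ℝ 2 (S x) 0 :=
    ((h.1 x).contDiffAt (isOpen_ball.mem_nhds h0)).of_le two_le_inf
  have h2 : ContDiffAt ℝ 2 (fun w => Q (S x w) (S x w)) 0 :=
    (Q.contDiff.contDiffAt.comp 0 h1).clm_apply h1
  have h3 := Q.norm_iteratedFDerivWithin_le_of_bilinear (h.1 x) (h.1 x)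
    isOpen_ball.uniqueDiffOn h0 (n := 2) two_le_inf
  simp only [iteratedFDerivWithin_of_isOpen _ isOpen_ball h0] at h3
  have h4 : ‖iteratedFDeriv ℝ 2 (fun w => Q (S x w) (S x w)) 0‖ ≤
      ‖Q‖ * ∑ i ∈ Finset.range (2 + 1), (Nat.choose 2 i : ℝ) * C i * C (2 - i) :=
    h3.trans (mul_le_mul_of_nonneg_left (Finset.sum_le_sum fun i _ =>
      mul_le_mul (mul_le_mul_of_nonneg_left (hC i x 0 h0) (Nat.cast_nonneg _)) (hC _ x 0 h0)
        (norm_nonneg _) (mul_nonneg (Nat.cast_nonneg _) ((norm_nonneg _).trans (hC i x 0 h0))))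
      Q.opNorm_nonneg)
  generalize ‖Q‖ * ∑ i ∈ Finset.range (2 + 1), (Nat.choose 2 i : ℝ) * C i * C (2 - i) = M at h4
  have h5 : ∀ u : V, |D u (D u fun w => Q (S x w) (S x w)) 0| ≤ M * ‖u‖ ^ 2 := by
    intro u
    have h6 := (iteratedFDeriv ℝ 2 (fun w => Q (S x w) (S x w)) 0).le_opNorm fun _ => u
    rw [iteratedFDeriv_two_apply, Finset.prod_const, Finset.card_univ, Fintype.card_fin] at h6
    rw [DD_eq h2]
    exact h6.trans (mul_le_mul_of_nonneg_right h4 (sq_nonneg _))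
  refine ⟨h2, norm_le_of_qf fun u => ?_⟩
  have h6 := h5 (Complex.I • u)
  rw [norm_smul, Complex.norm_I, one_mul] at h6
  rw [qf_lv h2, lev]
  linarith [abs_add_le (D u (D u fun w => Q (S x w) (S x w)) 0)
    (D (Complex.I • u) (D (Complex.I • u) fun w => Q (S x w) (S x w)) 0), h5 u]

theorem time {t0 t1 t d : ℝ} {g : ℝ → ℝ} (ht : t ∈ Ioc t0 t1)
    (hd : HasDerivWithinAt g d (Icc t0 t1) t) (hm : ∀ s ∈ Icc t0 t1, g s ≤ g t) : 0 ≤ d := by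
  have h6 : IsLocalMaxOn g (Icc t0 t1) t := IsMaxOn.localize hm
  have h7 : t0 - t ∈ posTangentConeAt (Icc t0 t1) t :=
    sub_mem_posTangentConeAt_of_segment_subset
      ((convex_Icc t0 t1).segment_subset (Ioc_subset_Icc_self ht)
        (left_mem_Icc.2 (ht.1.le.trans ht.2)))
  have h8 := h6.hasFDerivWithinAt_nonpos hd.hasFDerivWithinAt h7
  simp only [ContinuousLinearMap.toSpanSingleton_apply, smul_eq_mul] at h8
  nlinarith [ht.1]

end RMPX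

open RMPX in
theorem mpx (hL : StmtLOC) : StmtMPX := by
  intro X F A hA t0 t1 Λ B Z h01 hZ hB hZ0 hin t ht p hp
  obtain ⟨L, hl⟩ := hL X F A hA
  obtain ⟨c⟩ : Nonempty A.C := by
    by_contra h
    have := not_nonempty_iff.1 h
    have h1 := hA.sq p hp
    rw [Finset.univ_eq_empty, Finset.sum_empty] at h1
    exact zero_ne_one h1
  obtain ⟨Q, hQ⟩ := form
  have hs : 0 < 2 * L.s := mul_pos two_pos hl.s_pos
  obtain ⟨M, hM⟩ := pen hs (hl.Sb c) Q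
  by_contra hn
  rw [not_le] at hn
  obtain ⟨a, ha, ha'⟩ : ∃ a : ℝ, 0 < a ∧ 0 < Z t p - a * (t - t0) := by
    have h1 : 0 < t1 - t0 := sub_pos.2 h01
    refine ⟨Z t p / 2 / (t1 - t0), by positivity, ?_⟩
    have h2 : Z t p / 2 / (t1 - t0) * (t - t0) ≤ Z t p / 2 / (t1 - t0) * (t1 - t0) :=
      mul_le_mul_of_nonneg_left (by linarith [ht.2]) (by positivity)
    rw [div_mul_cancel₀ _ h1.ne'] at h2
    linarith
  set T : Set ℝ := {x | ∃ s ∈ Icc t0 t1, ∃ q ∈ X, x = Z s q - a * (s - t0)} with hT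
  have hTb : BddAbove T := ⟨B, by
    rintro _ ⟨s, hs, q, hq, rfl⟩
    have := mul_nonneg ha.le (sub_nonneg.2 hs.1)
    linarith [hB s hs q hq]⟩
  have hle : ∀ s ∈ Icc t0 t1, ∀ q ∈ X, Z s q - a * (s - t0) ≤ sSup T := fun s hs q hq =>
    le_csSup hTb ⟨s, hs, q, hq, rfl⟩
  obtain ⟨β, hβ, hβ1, hβ2⟩ : ∃ β : ℝ, 0 < β ∧ β ≤ sSup T ∧ β * (96 * (|Λ| * |M|) + 1) ≤ a := by
    have h1 : 0 < 96 * (|Λ| * |M|) + 1 := by positivity
    refine ⟨min (sSup T) (a / (96 * (|Λ| * |M|) + 1)),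
      lt_min (ha'.trans_le (hle t ht p hp)) (div_pos ha h1), min_le_left _ _, ?_⟩
    exact (le_div_iff₀ h1).1 (min_le_right _ _)
  obtain ⟨_, ⟨t2, ht2, p2, hp2, rfl⟩, h2⟩ := exists_lt_of_lt_csSup
    (⟨_, t, ht, p, hp, rfl⟩ : T.Nonempty) (sub_lt_self (sSup T) hβ)
  obtain ⟨i, rfl⟩ := F.sur p2 hp2
  have hsub : closedBall (0 : V) (1 / 4) ⊆ ball 0 2 := closedBall_subset_ball (by norm_num)
  have hc : ContinuousOn (fun q : ℝ × V => Z q.1 (F.Φ i q.2) - a * (q.1 - t0) -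
      16 * β * Q q.2 q.2) (Icc t0 t1 ×ˢ closedBall 0 (1 / 4)) := by
    refine ContinuousOn.sub (ContinuousOn.sub ((hZ _ _ (F.par i)).continuousOn.mono
      (prod_mono subset_rfl hsub)) (Continuous.continuousOn (by fun_prop)))
      (Continuous.continuousOn (by fun_prop))
  have hm0 : ((t2, 0) : ℝ × V) ∈ Icc t0 t1 ×ˢ closedBall (0 : V) (1 / 4) :=
    ⟨ht2, mem_closedBall_self (by norm_num)⟩
  obtain ⟨⟨t3, y⟩, ⟨ht3, hy⟩, hmax⟩ :=
    (isCompact_Icc.prod (isCompact_closedBall (0 : V) (1 / 4))).exists_isMaxOn ⟨_, hm0⟩ hc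
  have hmx : ∀ s ∈ Icc t0 t1, ∀ w ∈ closedBall (0 : V) (1 / 4),
      Z s (F.Φ i w) - a * (s - t0) - 16 * β * Q w w ≤
        Z t3 (F.Φ i y) - a * (t3 - t0) - 16 * β * Q y y := fun s hs w hw =>
    hmax (show ((s, w) : ℝ × V) ∈ _ from ⟨hs, hw⟩)
  have hX : F.Φ i y ∈ X := (F.par i).mem (hsub hy)
  have h3 := hmx t2 ht2 0 hm0.2
  rw [map_zero, mul_zero, sub_zero] at h3
  have h4 := hle t3 ht3 _ hX
  have h5 := mul_le_mul_of_nonneg_left (hQ y) (by positivity : 0 ≤ 16 * β)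
  have hy4 : y ∈ ball (0 : V) (1 / 4) := by
    rw [mem_ball_zero_iff]
    have h6 : β * (16 * ‖y‖ ^ 2) < β * 1 := by linarith
    have h7 := lt_of_mul_lt_mul_left h6 hβ.le
    nlinarith [norm_nonneg y]
  have hpos : 0 < Z t3 (F.Φ i y) := by
    have h6 := mul_nonneg ha.le (sub_nonneg.2 ht3.1)
    have h7 : 0 ≤ 16 * β * ‖y‖ ^ 2 := by positivity
    linarith
  have ht3' : t3 ∈ Ioc t0 t1 := ⟨lt_of_le_of_ne ht3.1 fun h => by
    rw [← h] at hpos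
    exact absurd (hZ0 _ hX) (not_le.2 hpos), ht3.2⟩
  obtain ⟨hO, hT0⟩ := hl.mem (i, y) (ball_subset_ball (by norm_num) hy4)
  obtain ⟨-, hΦ, hS⟩ := hl.Tm c (i, y) y hO
  rw [hT0 c] at hΦ hS
  obtain ⟨b, d, hb, hΛ, hd, hdb⟩ := hin t3 ht3' (L.j c (i, y)) (by rwa [hΦ])
  rw [hΦ] at hd
  have hda : 0 ≤ d - a * 1 := by
    refine time ht3' (hd.sub (((hasDerivWithinAt_id t3 _).sub_const t0).const_mul a))
      fun s hs => ?_
    have := hmx s hs y hy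
    show Z s (F.Φ i y) - a * (s - t0) ≤ Z t3 (F.Φ i y) - a * (t3 - t0)
    linarith
  have hb0 : ball (0 : V) (2 * L.s) ∈ 𝓝 (0 : V) := ball_mem_nhds _ hs
  have hz : ContDiffAt ℝ 2 (Z t3 ∘ F.Φ (L.j c (i, y))) 0 := by
    have h6 : ContDiffOn ℝ ∞ (Z t3 ∘ F.Φ (L.j c (i, y))) (ball 0 2) :=
      (hZ _ _ (F.par (L.j c (i, y)))).comp (f := fun w : V => (t3, w))
        (contDiffOn_const.prodMk contDiffOn_id) fun w hw => ⟨ht3, hw⟩
    exact (h6.contDiffAt (ball_mem_nhds _ two_pos)).of_le two_le_inf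
  obtain ⟨hq, hqM⟩ := hM (i, y)
  have hloc : IsLocalMax (fun w => (Z t3 ∘ F.Φ (L.j c (i, y))) w -
      16 * β * Q (L.S c (i, y) w) (L.S c (i, y) w)) 0 := by
    have h6 : ∀ᶠ w in 𝓝 (0 : V), L.S c (i, y) w ∈ ball (0 : V) (1 / 4) :=
      (((hl.Sb c).1 (i, y)).continuousOn.continuousAt hb0).eventually_mem
        (by rw [hS]; exact isOpen_ball.mem_nhds hy4)
    filter_upwards [h6, hb0] with w hw hw'
    have h7 := hmx t3 ht3 _ (ball_subset_closedBall hw)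
    rw [(hl.Sm c (i, y) w hw').1] at h7
    simp only [Function.comp, hΦ, hS]
    linarith
  have h6 := hmix_max hb (hz.sub (contDiffAt_const.mul hq)) hloc
  rw [lv_sub hz (contDiffAt_const.mul hq), lv_const_mul, hmix_sub_right, hmix_smul_right] at h6
  have h7 := (le_abs_self _).trans (abs_hmix_le b
    (lv (fun w => Q (L.S c (i, y) w) (L.S c (i, y) w)) 0))
  have h8 : ‖b‖ * ‖lv (fun w => Q (L.S c (i, y) w) (L.S c (i, y) w)) 0‖ ≤ |Λ| * |M| :=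
    mul_le_mul (hΛ.trans (le_abs_self _)) (hqM.trans (le_abs_self _)) (norm_nonneg _)
      (abs_nonneg _)
  have h9 := mul_le_mul_of_nonneg_left (show hmix b (lv (fun w => Q (L.S c (i, y) w)
    (L.S c (i, y) w)) 0) ≤ 6 * (|Λ| * |M|) by linarith) (by positivity : 0 ≤ 16 * β)
  linarith

end Pool.Agent.MP_67f0e4_gt.EU
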