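import Pool.Agent.MP_67f0e4_gt.EU.Spec
import Pool.Agent.MP_67f0e4_gt.K.Chain

/-! Row NB: the operator preserves smoothness and loses finitely many derivatives. -/

set_option autoImplicit false

open scoped ContDiff Topology
open Set Metric Filter

namespace Pool.Agent.MP_67f0e4_gt.EU

open K

namespace RNB

theorem norm_e (i : Fin 4) : ‖e i‖ ≤ 1 := by
  fin_cases i <;> simp [e, Prod.norm_def]

theorem dl_iter (l : List (Fin 4)) : ∃ m : Fin l.length → V, (∀ i, ‖m i‖ ≤ 1) ∧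
    ∀ (f : V → ℝ) (y : V), ContDiffAt ℝ ∞ f y → ∀ᶠ z in 𝓝 y,
      DL l f z = iteratedFDeriv ℝ l.length f z m := by
  induction l with
  | nil => exact ⟨fun i => i.elim0, fun i => i.elim0, fun f y _ => .of_forall fun z => rfl⟩
  | cons i l ih =>
    obtain ⟨m, m1, m2⟩ := ih
    refine ⟨Fin.cons (e i) m, fun j => Fin.cases (norm_e i) m1 j, fun f y hf => ?_⟩
    have h1 : ∀ᶠ z in 𝓝 y, ContDiffAt ℝ (l.length + 1 : ℕ) f z :=
      (hf.of_le (by exact_mod_cast le_top)).eventually (by simp)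
    filter_upwards [(m2 f y hf).eventually_nhds, h1] with z h2 h3
    exact (D_congr h2 _).trans (fderiv_continuousMultilinear_apply_const_apply
      (h3.differentiableAt_iteratedFDeriv (by exact_mod_cast Nat.lt_succ_self _)) m (e i))

theorem bd_jb {κ : Type} {O : κ → Set V} {F : κ → V → ℝ} (hO : ∀ x, IsOpen (O x)) (h : Bd O F)
    (k : ℕ) : ∃ C : ℝ, 0 ≤ C ∧ ∀ x, ∀ y ∈ O x, JB k (F x) y C := by
  choose C hC using h.2
  refine ⟨∑ n ∈ Finset.range (k + 1), |C n|, Finset.sum_nonneg fun _ _ => abs_nonneg _,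
    fun x y hy l hl => ?_⟩
  obtain ⟨m, m1, m2⟩ := dl_iter l
  rw [(m2 _ y ((h.1 x).contDiffAt ((hO x).mem_nhds hy))).self_of_nhds, ← Real.norm_eq_abs]
  calc _ ≤ ‖iteratedFDeriv ℝ l.length (F x) y‖ * ∏ i, ‖m i‖ := ContinuousMultilinearMap.le_opNorm _ _
    _ ≤ |C l.length| * 1 := mul_le_mul ((hC _ x y hy).trans (le_abs_self _))
        (Finset.prod_le_one (fun _ _ => norm_nonneg _) fun i _ => m1 i)
        (Finset.prod_nonneg fun _ _ => norm_nonneg _) (abs_nonneg _)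
    _ ≤ _ := by
        rw [mul_one]
        exact Finset.single_le_sum (f := fun n => |C n|) (fun _ _ => abs_nonneg _)
          (Finset.mem_range.2 (Nat.lt_succ_of_le hl))

theorem dl_sum {ι : Type} [Fintype ι] {O : Set V} (hO : IsOpen O) {F : ι → V → ℝ}
    (h : ∀ i, ContDiffOn ℝ ∞ (F i) O) (l : List (Fin 4)) :
    ∀ y ∈ O, DL l (fun w => ∑ i, F i w) y = ∑ i, DL l (F i) y := by
  induction l with
  | nil => exact fun _ _ => rfl
  | cons j l ih =>
    intro y hy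
    refine (D_congr (eventually_of_mem (hO.mem_nhds hy) ih) _).trans (D_sum _ (fun i _ => ?_) _)
    exact (DL_smooth ((h i).contDiffAt (hO.mem_nhds hy)) l).differentiableAt (by simp)

theorem dl_lin {O : Set V} (hO : IsOpen O) {f g : V → ℝ} (hf : ContDiffOn ℝ ∞ f O)
    (hg : ContDiffOn ℝ ∞ g O) (t : ℝ) (l : List (Fin 4)) :
    ∀ y ∈ O, DL l (fun w => t * f w + g w) y = t * DL l f y + DL l g y := by
  induction l with
  | nil => exact fun _ _ => rfl
  | cons j l ih =>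
    intro y hy
    have a := (DL_smooth (hf.contDiffAt (hO.mem_nhds hy)) l).differentiableAt (by simp)
    have b := (DL_smooth (hg.contDiffAt (hO.mem_nhds hy)) l).differentiableAt (by simp)
    refine (D_congr (eventually_of_mem (hO.mem_nhds hy) ih) _).trans ?_
    rw [D_add (a.const_mul t) b, D_const_mul]
    rfl

end RNB

open RNB in
theorem nb (hC : StmtCOV) (hA : StmtAEST) (hF : StmtFAA) : StmtNB := by
  intro X S ok k K₀
  have op := fun x => (ok.sub x).1
  obtain ⟨c1, c2⟩ := hC X _ _ ok.cov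
  obtain ⟨Cc, -, c2⟩ := c2 k
  choose CA _ hCA using fun b a => hA _ _ _ _ (ok.jmp b a) (k + 4)
  choose Cr r0 hr using fun b a => bd_jb op (ok.rb b a) (k + 2)
  choose Cθ _ hθ using fun b => bd_jb op (ok.θb b) k
  obtain ⟨K₁, k1⟩ := (Set.finite_range fun q : S.B × S.A => Cr q.1 q.2 + CA q.1 q.2 * K₀).bddAbove
  obtain ⟨K₂, k2⟩ := (Set.finite_range Cθ).bddAbove
  set K := max 0 (max K₁ K₂) with hK
  have K0 : 0 ≤ K := le_max_left _ _
  have k1' : ∀ b a, Cr b a + CA b a * K₀ ≤ K := fun b a =>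
    (k1 ⟨(b, a), rfl⟩).trans ((le_max_left _ _).trans (le_max_right _ _))
  have k2' : ∀ b, Cθ b ≤ K := fun b =>
    (k2 ⟨b, rfl⟩).trans ((le_max_right _ _).trans (le_max_right _ _))
  have sub : closedBall (0 : S.A → ℝ) S.δ ⊆ ball 0 (2 * S.δ) :=
    closedBall_subset_ball (by linarith [ok.δ_pos])
  obtain ⟨Gb, hG⟩ := (isCompact_closedBall (0 : S.A → ℝ) S.δ).exists_bound_of_continuousOn
    ((ok.Gs.continuousOn_fderiv_of_isOpen isOpen_ball one_le_inf).mono sub)
  have G0 : 0 ≤ Gb := (norm_nonneg _).trans (hG 0 (mem_closedBall_self ok.δ_pos.le))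
  obtain ⟨CF, F0, hCF⟩ := hF S.A S.G S.δ ok.δ_pos ok.Gs k K
  refine ⟨Cc * ∑ _b : S.B, (CF * (1 + K + K * K) + K ^ 2 * ∑ _a : S.A, Gb * K),
    fun η hη t ht f sm inn ja => ?_⟩
  let B : S.B → S.κ → S.A → V → ℝ := fun b x a y =>
    t * S.r b a x y + Aop η (fun w => f (S.Φ (S.ch x) w)) (S.ψ b a x) y
  have A := fun b a x => hCA b a x _ K₀ η hη (sm (S.ch x)) (ja (S.ch x))
  have Bs : ∀ b x a, ContDiffOn ℝ ∞ (B b x a) (S.O x) := fun b x a =>
    (contDiffOn_const.mul ((ok.rb b a).1 x)).add (A b a x).1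
  have Bb : ∀ b x a, ∀ y ∈ S.O x, JB (k + 2) (B b x a) y K := fun b x a y hy l hl => by
    rw [dl_lin (op x) ((ok.rb b a).1 x) (A b a x).1 t l y hy]
    refine (abs_add_le _ _).trans (le_trans (add_le_add ?_ (((A b a x).2 y hy).1 l (by omega)))
      (k1' b a))
    rw [abs_mul, abs_of_nonneg ht.1]
    exact (mul_le_of_le_one_left (abs_nonneg _) ht.2).trans (hr b a x y hy l hl)
  have Bm : ∀ b x, ∀ y ∈ S.O x, (fun a => B b x a y) ∈ closedBall (0 : S.A → ℝ) S.δ :=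
    fun b x y hy => mem_closedBall_zero_iff.2 ((pi_norm_le_iff_of_nonneg ok.δ_pos.le).2
      fun a => inn x y hy b a)
  have Ts : ∀ b x, ContDiffOn ℝ ∞ (fun w => S.θ b x w ^ 2 * S.G fun a => B b x a w) (S.O x) :=
    fun b x => (((ok.θb b).1 x).pow 2).mul
      (ok.Gs.comp (contDiffOn_pi.2 (Bs b x)) fun y hy => sub (Bm b x y hy))
  have key : ∀ i, ∀ y ∈ ball (0 : V) (1 / 4), ∃ x, y ∈ S.O x ∧
      (fun w => S.N η t f (S.Φ i w)) =ᶠ[𝓝 y]
        fun w => ∑ b, S.θ b x w ^ 2 * S.G fun a => B b x a w := fun i y hy => by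
    obtain ⟨x, rfl, hx⟩ := ok.loc i y (ball_subset_ball (by norm_num) hy)
    exact ⟨x, hx, eventually_of_mem ((op x).mem_nhds hx) fun w hw => ok.op η hη t f x w hw⟩
  have s4 : ∀ i, ContDiffOn ℝ ∞ (fun w => S.N η t f (S.Φ i w)) (ball 0 (1 / 4)) := fun i y hy => by
    obtain ⟨x, hx, e⟩ := key i y hy
    exact (((ContDiffOn.sum fun b _ => Ts b x).contDiffAt
      ((op x).mem_nhds hx)).congr_of_eventuallyEq e).contDiffWithinAt
  refine ⟨c1 _ s4, c2 _ _ s4 fun i y hy l hl => ?_⟩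
  obtain ⟨x, hx, e⟩ := key i y hy
  rw [(DL_congr_ev e l).self_of_nhds, dl_sum (op x) (fun b => Ts b x) l y hx]
  refine (Finset.abs_sum_le_sum_abs _ _).trans (Finset.sum_le_sum fun b _ => ?_)
  have θK : JB k (S.θ b x) y K := fun l hl => (hθ b x y hx l hl).trans (k2' b)
  have θ0 : |S.θ b x y| ≤ K := θK [] (Nat.zero_le _)
  have h1 := hCF (S.O x) (B b x) (S.θ b x) y K K (op x) hx (Bs b x) ((ok.θb b).1 x)
    (fun a w hw => inn x w hw b a) θK (fun a l hl => Bb b x a y hx l (by omega)) K0 K0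
    (fun a l hl => Bb b x a y hx l (by omega)) (fun a l hl => Bb b x a y hx l (by omega)) l hl
  refine ((abs_sub_abs_le_abs_sub _ _).trans h1 |> sub_le_iff_le_add.1).trans (add_le_add ?_ ?_)
  · gcongr
  · rw [abs_mul, abs_pow]
    refine mul_le_mul (pow_le_pow_left₀ (abs_nonneg _) θ0 2) ((Finset.abs_sum_le_sum_abs _ _).trans
      (Finset.sum_le_sum fun a _ => ?_)) (abs_nonneg _) (by positivity)
    rw [abs_mul]
    refine mul_le_mul ?_ (Bb b x a y hx l (by omega)) (abs_nonneg _) G0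
    refine ((fderiv ℝ S.G _).le_opNorm _).trans ?_
    rw [Pi.norm_single, norm_one, mul_one]
    exact hG _ (Bm b x y hx)

end Pool.Agent.MP_67f0e4_gt.EU
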