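import Pool.Agent.MP_67f0e4_gt.EU.SpecC
import Pool.Agent.MP_67f0e4_gt.EU.RCOMP
import Pool.Agent.MP_67f0e4_gt.K.Chain

/-! Row RHO: the Ricci potential of the initial data. -/

set_option autoImplicit false

open scoped ContDiff Topology
open Set Metric Filter

namespace Pool.Agent.MP_67f0e4_gt.EU

open K

namespace RRHO

theorem unif (c : ℕ → ℝ) (n : ℕ) : ∃ B : ℝ, 1 ≤ B ∧ ∀ i ≤ n, c i ≤ B := by
  obtain ⟨B, hB⟩ := ((Set.finite_Iic n).image c).bddAbove
  exact ⟨max 1 B, le_max_left _ _, fun i hi => (hB ⟨i, hi, rfl⟩).trans (le_max_right _ _)⟩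

theorem dw_app (l l' : List V) (f : V → ℝ) : dw (l ++ l') f = dw l (dw l' f) := by
  induction l with
  | nil => rfl
  | cons v l ih => rw [List.cons_append, dw, ih]; rfl

variable {O : Set V} {f g u : V → ℝ} {x : V}

theorem DL_add (hO : IsOpen O) (hf : ContDiffOn ℝ ∞ f O) (hg : ContDiffOn ℝ ∞ g O)
    (l : List (Fin 4)) : ∀ x ∈ O, DL l (fun y => f y + g y) x = DL l f x + DL l g x := by
  induction l with
  | nil => intro x _; rfl
  | cons i l ih =>
    intro x hx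
    have h := hO.mem_nhds hx
    exact (D_congr (eventually_of_mem h ih) _).trans
      (D_add ((DL_smooth (hf.contDiffAt h) l).differentiableAt (by simp))
        ((DL_smooth (hg.contDiffAt h) l).differentiableAt (by simp)) _)

theorem dw_le (hO : IsOpen O) (hu : ContDiffOn ℝ ∞ u O) (hx : x ∈ O) (l : List V)
    (hl : ∀ v ∈ l, ‖v‖ ≤ 1) : |dw l u x| ≤ ‖iteratedFDeriv ℝ l.length u x‖ := by
  have h := RCOMP.dw_ofFn hO hu l.length l.get x hx
  rw [List.ofFn_get] at h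
  rw [h]
  exact ((iteratedFDeriv ℝ l.length u x).le_opNorm _).trans (mul_le_of_le_one_right
    (norm_nonneg (iteratedFDeriv ℝ l.length u x))
    (Finset.prod_le_one (fun _ _ => norm_nonneg _) fun j _ => hl _ (List.get_mem _ _)))

theorem DD_le (hO : IsOpen O) (hu : ContDiffOn ℝ ∞ u O) (hx : x ∈ O) (l : List (Fin 4))
    {a b : V} (ha : ‖a‖ ≤ 1) (hb : ‖b‖ ≤ 1) :
    |DL l (D a (D b u)) x| ≤ ‖iteratedFDeriv ℝ (l.length + 2) u x‖ := by
  have h := dw_le hO hu hx (l.map e ++ [a, b]) fun v hv => by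
    rcases List.mem_append.1 hv with h | h
    · obtain ⟨i, -, rfl⟩ := List.mem_map.1 h
      exact (norm_e i).le
    · rcases List.mem_pair.1 h with rfl | rfl
      exacts [ha, hb]
  rw [List.length_append, List.length_map, dw_app, ← RCOMP.DL_eq] at h
  exact h

theorem lev_le (hO : IsOpen O) (hu : ContDiffOn ℝ ∞ u O) (hx : x ∈ O) (l : List (Fin 4))
    (i j : Fin 4) : |DL l (fun y => lev u y (e i) (e j)) x| ≤
      2 * ‖iteratedFDeriv ℝ (l.length + 2) u x‖ := by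
  have hI : ∀ i, ‖Complex.I • e i‖ ≤ 1 := fun i => by
    rw [norm_smul, Complex.norm_I, norm_e, one_mul]
  have h := DL_add hO (D_smoothOn hO (D_smoothOn hO hu (e j)) (e i))
    (D_smoothOn hO (D_smoothOn hO hu (Complex.I • e j)) (Complex.I • e i)) l x hx
  refine (le_of_eq (congrArg abs h)).trans ((abs_add_le _ _).trans ?_)
  rw [two_mul]
  exact add_le_add (DD_le hO hu hx l (norm_e i).le (norm_e j).le) (DD_le hO hu hx l (hI i) (hI j))

theorem lv_le (hO : IsOpen O) (hu : ContDiffOn ℝ ∞ u O) (hx : x ∈ O) (l : List (Fin 4))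
    (α : Fin 4) : |DL l (fun y => lv u y α) x| ≤ 2 * ‖iteratedFDeriv ℝ (l.length + 2) u x‖ := by
  fin_cases α
  exacts [lev_le hO hu hx l 0 0, lev_le hO hu hx l 2 2, lev_le hO hu hx l 0 2,
    lev_le hO hu hx l 0 3]

theorem norm_lv (hO : IsOpen O) (hf : ContDiffOn ℝ ∞ f O) (hx : x ∈ O) {k : ℕ} {M : ℝ}
    (hM : LB k M f O) {i : ℕ} (hi : i ≤ k) : ‖iteratedFDeriv ℝ i (lv f) x‖ ≤ 4 ^ k * M := by
  have M0 : 0 ≤ M := (abs_nonneg _).trans (hM [] (Nat.zero_le k) 0 x hx)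
  have hs : ContDiffOn ℝ ∞ (lv f) O := fun y hy =>
    (lv_smooth (hf.contDiffAt (hO.mem_nhds hy))).contDiffWithinAt
  refine ContinuousMultilinearMap.opNorm_le_bound (by positivity) fun m => ?_
  refine (pi_norm_le_iff_of_nonneg (mul_nonneg (by positivity)
    (Finset.prod_nonneg fun _ _ => norm_nonneg _))).2 fun α => ?_
  have h1 := (ContinuousLinearMap.proj (R := ℝ) (φ := fun _ : Fin 4 => ℝ)
    α).iteratedFDeriv_comp_left (hs.contDiffAt (hO.mem_nhds hx)) (i := i) (by exact_mod_cast le_top)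
  have h2 : iteratedFDeriv ℝ i (lv f) x m α = iteratedFDeriv ℝ i (fun y => lv f y α) x m :=
    (congrArg (fun A => A m) h1).symm
  rw [h2]
  exact (ContinuousMultilinearMap.le_opNorm _ _).trans (mul_le_mul_of_nonneg_right
    (RCOMP.norm_le hO (contDiffOn_pi.1 hs α) hx (fun l hl => hM l hl α x hx) hi)
    (Finset.prod_nonneg fun _ _ => norm_nonneg _))

theorem log_sm (hf : ContDiffAt ℝ ∞ f x) (hp : Pos (lv f x)) :
    ContDiffAt ℝ ∞ (fun y => Real.log (hdet (lv f y))) x :=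
  (hdet_smooth.contDiffAt.comp x (lv_smooth hf)).log hp.det.ne'

/-- Bounds for the derivatives of `log det`. -/
theorem log_le {Q : Set Hm} (hQ : IsCompact Q) (hW : Q ⊆ {g : Hm | 0 < g 1 ∧ 0 < hdet g})
    (n : ℕ) (M : ℝ) : ∃ C : ℝ, ∀ (O : Set V) (f : V → ℝ), IsOpen O → ContDiffOn ℝ ∞ f O →
      (∀ x ∈ O, lv f x ∈ Q) → LB n M f O → ∀ x ∈ O,
        ‖iteratedFDeriv ℝ n (fun y => Real.log (hdet (lv f y))) x‖ ≤ C := by
  have oW : IsOpen {g : Hm | 0 < hdet g} := isOpen_lt continuous_const hdet_smooth.continuous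
  have sG : ContDiffOn ℝ ∞ (fun g : Hm => Real.log (hdet g)) {g : Hm | 0 < hdet g} :=
    hdet_smooth.contDiffOn.log fun g hg => ne_of_gt hg
  have hc : ∀ i : ℕ, ∃ C, ∀ g ∈ Q, ‖iteratedFDerivWithin ℝ i (fun g : Hm => Real.log (hdet g))
      {g : Hm | 0 < hdet g} g‖ ≤ C := fun i => hQ.exists_bound_of_continuousOn
    ((sG.continuousOn_iteratedFDerivWithin (by exact_mod_cast le_top) oW.uniqueDiffOn).mono
      fun g hg => (hW hg).2)
  choose c hc using hc
  obtain ⟨B, -, hB⟩ := unif c n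
  refine ⟨n.factorial * B * max 1 (4 ^ n * M) ^ n, fun O f hO hf hq hM x hx => ?_⟩
  have hs : ContDiffOn ℝ ∞ (lv f) O := fun y hy =>
    (lv_smooth (hf.contDiffAt (hO.mem_nhds hy))).contDiffWithinAt
  have h3 := norm_iteratedFDerivWithin_comp_le (n := n) sG hs (by exact_mod_cast le_top)
    oW.uniqueDiffOn hO.uniqueDiffOn (fun y hy => (hW (hq y hy)).2) hx (C := B)
    (D := max 1 (4 ^ n * M)) (fun i hi => (hc i _ (hq x hx)).trans (hB i hi)) fun i h hi => by
      rw [iteratedFDerivWithin_of_isOpen i hO hx]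
      exact (norm_lv hO hf hx hM hi).trans ((le_max_right _ _).trans
        (le_self_pow₀ (le_max_left _ _) (Nat.one_le_iff_ne_zero.1 h)))
  rwa [iteratedFDerivWithin_of_isOpen _ hO hx] at h3

end RRHO

open RRHO Classical in
theorem rho (hF : StmtFR) (hI : StmtINV) : StmtRHO := by
  intro X F ψ M f Λ hX hψ hΛ fs ell fb
  obtain ⟨Q, R, hQ, hW, -, hq⟩ := hF.2.2.2.2 Λ hΛ
  have m0 : (0 : V) ∈ ball (0 : V) 2 := mem_ball_self two_pos
  have b12 : ball (0 : V) 1 ⊆ ball 0 2 := ball_subset_ball one_le_two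
  obtain ⟨ρ, key⟩ : ∃ ρ : M → C3 → ℝ, ∀ m N U, Par X N U → ∀ x ∈ U, Pos (lv (f m ∘ N) x) ∧
      ρ m (N x) = Real.log (hdet (lv (f m ∘ N) x)) - Real.log (hdet (lv (ψ ∘ N) x)) := by
    refine ⟨fun m p => if h : ∃ i, F.Φ i 0 = p then
      Real.log (hdet (lv (f m ∘ F.Φ h.choose) 0)) - Real.log (hdet (lv (ψ ∘ F.Φ h.choose) 0))
      else 0, fun m N U hN x hx => ?_⟩
    have h := F.sur _ (hN.mem hx)
    obtain ⟨-, k, -, -, -, hk, hg⟩ := hI X N _ U _ hX hN (F.par h.choose) x hx 0 m0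
      h.choose_spec.symm
    have n0 := isOpen_ball.mem_nhds m0
    obtain ⟨a1, a2⟩ := hg (f m) (((fs m _ _ (F.par _)).contDiffAt n0).of_le two_le_inf)
    obtain ⟨a3, -⟩ := hg ψ (((hψ.1 _ _ (F.par _)).contDiffAt n0).of_le two_le_inf)
    have p1 := (ell m h.choose 0 (mem_ball_self one_pos)).isPos
    have p2 := (hψ.2 _ _ (F.par h.choose) 0 m0).1
    refine ⟨a2 p1, (dif_pos h).trans ?_⟩
    rw [a1, a3, Real.log_mul hk.ne' p1.det.ne', Real.log_mul hk.ne' p2.det.ne',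
      add_sub_add_left_eq_sub]
  have s1 : ∀ m N U, Par X N U → ∀ x ∈ U,
      ContDiffAt ℝ ∞ (fun y => Real.log (hdet (lv (f m ∘ N) y))) x := fun m N U hN x hx =>
    log_sm ((fs m N U hN).contDiffAt (hN.op.mem_nhds hx)) (key m N U hN x hx).1
  have s2 : ∀ N U, Par X N U → ∀ x ∈ U,
      ContDiffAt ℝ ∞ (fun y => Real.log (hdet (lv (ψ ∘ N) y))) x := fun N U hN x hx =>
    log_sm ((hψ.1 N U hN).contDiffAt (hN.op.mem_nhds hx)) (hψ.2 N U hN x hx).1
  refine ⟨ρ, ⟨hΛ, fs, fun m N U hN => ?_, ell, fb, fun k => ?_⟩,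
    fun m i => (key m _ _ (F.par i) 0 m0).2⟩
  · exact ContDiffOn.congr (fun x hx => ((s1 m N U hN x hx).sub (s2 N U hN x hx)).contDiffWithinAt)
      fun x hx => (key m N U hN x hx).2
  · choose c hc using fb
    choose d hd using fun n => log_le hQ hW n (c n)
    obtain ⟨B, -, hB⟩ := unif d (k + 2)
    refine ⟨2 * B, fun m i l hl α x hx => ?_⟩
    have e1 : ∀ y ∈ ball (0 : V) 2, lv (ρ m ∘ F.Φ i) y α =
        lv (fun y => Real.log (hdet (lv (f m ∘ F.Φ i) y))) y α := fun y hy => by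
      have e2 : ρ m ∘ F.Φ i =ᶠ[𝓝 y] fun y => Real.log (hdet (lv (f m ∘ F.Φ i) y)) -
          Real.log (hdet (lv (ψ ∘ F.Φ i) y)) :=
        eventually_of_mem (isOpen_ball.mem_nhds hy) fun w hw => (key m _ _ (F.par i) w hw).2
      rw [lv_congr e2, lv_sub ((s1 m _ _ (F.par i) y hy).of_le two_le_inf)
        ((s2 _ _ (F.par i) y hy).of_le two_le_inf), (hψ.2 _ _ (F.par i) y hy).2, sub_zero]
    rw [(DL_congr_ev (eventually_of_mem (isOpen_ball.mem_nhds (b12 hx)) e1) l).eq_of_nhds]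
    refine (lv_le isOpen_ball (fun y hy => (s1 m _ _ (F.par i) y (b12 hy)).contDiffWithinAt) hx l
      α).trans (mul_le_mul_of_nonneg_left ((hd _ _ _ isOpen_ball ((fs m _ _ (F.par i)).mono b12)
        (fun y hy => (hq _ (ell m i y hy)).1) (hc _ m i) x hx).trans
        (hB _ (Nat.add_le_add_right hl 2))) zero_le_two)

end Pool.Agent.MP_67f0e4_gt.EU
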