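import Pool.Agent.MP_67f0e4_gt.EU.Spec

/-! Row SMO: the limit of the iterates is smooth in space and time. -/

set_option autoImplicit false

open scoped ContDiff Topology
open Set Metric Filter

namespace Pool.Agent.MP_67f0e4_gt.EU

open K

namespace RSMO

theorem chart (hZ : StmtAZ) (hJ : StmtJS) (X : Type) (S : Sch X) (τ : ℝ) (v : ℝ → X → ℝ)
    (hS : S.Ok) (hτ : 0 < τ) (hw : S.Weak τ v) (x : S.κ) :
    ContDiffOn ℝ ∞ (fun z : ℝ × V => v z.1 (S.Φ (S.ch x) z.2)) (Icc 0 τ ×ˢ S.O x) := by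
  classical
  choose P Q hP hQ hA using fun b a => hZ S.κ S.O S.ε (S.ψ b a) hS.ε_pos (hS.jmp b a)
  let L : Type := (Fin 4 × Fin 4) ⊕ Fin 4
  let wd : L → List (Fin 4) := Sum.elim (fun p => [p.1, p.2]) (fun i => [i])
  let arg : S.B → ℝ × V × (L → ℝ) → (S.A → ℝ) := fun b z a =>
    z.1 * S.r b a x z.2.1 + (∑ i, ∑ j, P b a i j x z.2.1 * z.2.2 (Sum.inl (i, j)) +
      ∑ i, Q b a i x z.2.1 * z.2.2 (Sum.inr i))
  let U : Set (ℝ × V × (L → ℝ)) := (fun z => z.2.1) ⁻¹' S.O x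
  have hc : ContDiff ℝ ∞ (fun z : ℝ × V × (L → ℝ) => z.2.1) := contDiff_snd.fst
  have hU : IsOpen U := (hS.sub x).1.preimage hc.continuous
  have hcomp : ∀ g : V → ℝ, ContDiffOn ℝ ∞ g (S.O x) →
      ContDiffOn ℝ ∞ (fun z : ℝ × V × (L → ℝ) => g z.2.1) U := fun g hg =>
    hg.comp hc.contDiffOn (fun _ hz => hz)
  have hev : ∀ j : L, ContDiffOn ℝ ∞ (fun z : ℝ × V × (L → ℝ) => z.2.2 j) U := fun j =>
    ((contDiff_apply ℝ ℝ j).comp contDiff_snd.snd).contDiffOn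
  have harg : ∀ b, ContDiffOn ℝ ∞ (arg b) U := by
    intro b
    refine contDiffOn_pi.2 fun a => ?_
    refine (contDiff_fst.contDiffOn.mul (hcomp _ ((hS.rb b a).1 x))).add (ContDiffOn.add ?_ ?_)
    · exact ContDiffOn.sum fun i _ => ContDiffOn.sum fun j _ =>
        (hcomp _ ((hP b a i j).1 x)).mul (hev _)
    · exact ContDiffOn.sum fun i _ => (hcomp _ ((hQ b a i).1 x)).mul (hev _)
  let Z : Set (ℝ × V × (L → ℝ)) := U ∩ ⋂ b, (U ∩ arg b ⁻¹' ball 0 (2 * S.δ))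
  have hZo : IsOpen Z := hU.inter (isOpen_iInter_of_finite fun b =>
    (harg b).continuousOn.isOpen_inter_preimage hU isOpen_ball)
  let H : ℝ × V × (L → ℝ) → ℝ := fun z => ∑ b, S.θ b x z.2.1 ^ 2 * S.G (arg b z)
  have hH : ContDiffOn ℝ ∞ H Z := by
    refine ContDiffOn.sum fun b _ => ContDiffOn.mul ?_ ?_
    · exact ((hcomp _ ((hS.θb b).1 x)).pow 2).mono inter_subset_left
    · exact hS.Gs.comp ((harg b).mono inter_subset_left) (fun z hz => (mem_iInter.1 hz.2 b).2)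
  have hargeq : ∀ t ∈ Icc 0 τ, ∀ y ∈ S.O x, ∀ b,
      arg b (t, y, fun j => DL (wd j) (fun w => v t (S.Φ (S.ch x) w)) y) =
        fun a => t * S.r b a x y + A0 (fun w => v t (S.Φ (S.ch x) w)) (S.ψ b a x) y := by
    intro t ht y hy b
    funext a
    rw [hA b a x _ (hw.sm t ht (S.ch x)) y hy]
    rfl
  refine hJ (S.O x) 0 τ (fun t w => v t (S.Φ (S.ch x) w)) L wd H Z (hS.sub x).1 hτ hZo hH
    (fun t ht => (hw.sm t ht (S.ch x)).mono (hS.sub x).2) ?_ ?_ ?_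
  · intro l
    obtain ⟨C1, h1⟩ := hw.bd l.length
    obtain ⟨C2, h2⟩ := hw.lip l
    refine ⟨max C1 C2, fun t ht t' ht' y hy => ⟨?_, ?_⟩⟩
    · exact (h1 t ht (S.ch x) y ((hS.sub x).2 hy) l le_rfl).trans (le_max_left _ _)
    · exact (h2 (S.ch x) t ht t' ht' y ((hS.sub x).2 hy)).trans
        (mul_le_mul_of_nonneg_right (le_max_right _ _) (abs_nonneg _))
  · intro t ht y hy
    refine ⟨hy, mem_iInter.2 fun b => ⟨hy, ?_⟩⟩
    rw [mem_preimage, hargeq t ht y hy b, mem_ball_zero_iff]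
    have hδ := hS.δ_pos
    refine lt_of_le_of_lt ((pi_norm_le_iff_of_nonneg hδ.le).2 fun a => ?_) (by linarith)
    exact hw.small t ht x y hy b a
  · intro t ht y hy
    have h := hw.eq t ht x y hy
    have e : H (t, y, fun j => DL (wd j) (fun w => v t (S.Φ (S.ch x) w)) y) =
        S.N0 t x (fun w => v t (S.Φ (S.ch x) w)) y := by
      refine Finset.sum_congr rfl fun b _ => ?_
      rw [hargeq t ht y hy b]
    rw [e]
    exact h

end RSMO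

theorem smo (hZ : StmtAZ) (hJ : StmtJS) : StmtSMO := by
  intro X S τ v hS hτ hw i z hz
  obtain ⟨κ, src, tgt, O, T, hO, hT, hcov, hmap⟩ := hS.cov
  obtain ⟨x', hx', hy⟩ := hcov i z.2 hz.2
  obtain ⟨x, hx, hTy⟩ := hS.loc (tgt x') (T x' z.2)
    (ball_subset_ball (by norm_num) (hmap x' z.2 hy).1)
  have hW : IsOpen (O x' ∩ T x' ⁻¹' S.O x) :=
    (hT.1 x').continuousOn.isOpen_inter_preimage (hO x') (hS.sub x).1
  have hin : ContDiffOn ℝ ∞ (fun q : ℝ × V => (q.1, T x' q.2))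
      (Icc 0 τ ×ˢ (O x' ∩ T x' ⁻¹' S.O x)) :=
    contDiff_fst.contDiffOn.prodMk ((hT.1 x').comp contDiff_snd.contDiffOn fun q hq => hq.2.1)
  have h1 : ContDiffOn ℝ ∞ (fun q : ℝ × V => v q.1 (S.Φ i q.2))
      (Icc 0 τ ×ˢ (O x' ∩ T x' ⁻¹' S.O x)) := by
    refine ((RSMO.chart hZ hJ X S τ v hS hτ hw x).comp hin fun q hq => ⟨hq.1, hq.2.2⟩).congr ?_
    intro q hq
    have := (hmap x' q.2 hq.2.1).2
    simp only [Function.comp, hx, this, hx']
  refine (h1 z ⟨hz.1, hy, hTy⟩).mono_of_mem_nhdsWithin ?_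
  refine mem_nhdsWithin.2 ⟨univ ×ˢ (O x' ∩ T x' ⁻¹' S.O x), isOpen_univ.prod hW,
    ⟨mem_univ _, hy, hTy⟩, fun q hq => ⟨hq.2.1, hq.1.2⟩⟩

end Pool.Agent.MP_67f0e4_gt.EU
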