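import Pool.Agent.MP_67f0e4_gt.EU.RSTEPb

/-! Row STEP: one step of the scheme. -/

set_option autoImplicit false

open scoped ContDiff Topology
open Set Metric Filter

namespace Pool.Agent.MP_67f0e4_gt.EU

open K

namespace RSTEP

theorem jet_le {k : ℕ} (f : V → ℝ) (y : V) : JB k f y ‖jet k f y‖ := fun l hl =>
  PiLp.norm_apply_le (jet k f y) ⟨l, hl⟩

theorem jet_cont {κ : Type} {O : κ → Set V} {ε : ℝ} {ψ : κ → V × ℝ → V} (hJ : Jmp O ε ψ)
    (k : ℕ) {f : V → ℝ} (hf : ContDiffOn ℝ ∞ f (ball 0 1)) (x : κ) {y : V} (hy : y ∈ O x) :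
    ContinuousOn (fun s => jet k f (ψ x (y, s))) (Ioo (-ε) ε) := by
  have h1 : ContinuousOn (fun s => ψ x (y, s)) (Ioo (-ε) ε) :=
    (hJ.bd.1 x).continuousOn.comp (Continuous.prodMk_right y).continuousOn fun s hs => ⟨hy, hs⟩
  refine (PiLp.continuous_toLp 2 _).comp_continuousOn (continuousOn_pi.2 fun l => ?_)
  exact (DL_sm isOpen_ball hf l.1).continuousOn.comp h1 (hJ.maps x y hy)

theorem int_apply {ι : Type} [Fintype ι] {u : ℝ → EuclideanSpace ℝ ι} {η : ℝ} (hη : 0 < η)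
    (hu : ContinuousOn u (Icc (-η) η)) (w : EuclideanSpace ℝ ι) (l : ι) :
    (∫ s in (0 : ℝ)..1, (u (s * η) + u (-(s * η)) - (2 : ℝ) • w)) l =
      ∫ s in (0 : ℝ)..1, (u (s * η) l + u (-(s * η)) l - 2 * w l) := by
  have h1 : ∀ s ∈ uIcc (0 : ℝ) 1, s * η ∈ Icc (-η) η ∧ -(s * η) ∈ Icc (-η) η := by
    intro s hs
    rw [uIcc_of_le zero_le_one] at hs
    have h2 := mul_nonneg hs.1 hη.le
    have h3 := mul_le_of_le_one_left hη.le hs.2
    exact ⟨⟨by linarith, h3⟩, by linarith, by linarith⟩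
  have h2 : ContinuousOn (fun s => u (s * η) + u (-(s * η)) - (2 : ℝ) • w) (uIcc 0 1) :=
    ((hu.comp (continuous_id.mul continuous_const).continuousOn fun s hs => (h1 s hs).1).add
      (hu.comp (continuous_id.mul continuous_const).neg.continuousOn
        fun s hs => (h1 s hs).2)).sub continuousOn_const
  exact ((EuclideanSpace.proj l : EuclideanSpace ℝ ι →L[ℝ] ℝ).intervalIntegral_comp_comm
    h2.intervalIntegrable).symm

end RSTEP

open RSTEP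

theorem step (hP : StmtCOMP) (hC : StmtCOV) (hA : StmtAEST) (hF : StmtFAA) (hG : StmtALG) :
    StmtSTEP := by
  intro X S χ hS hχ
  have hO : ∀ x, IsOpen (S.O x) := fun x => (hS.sub x).1
  choose T₀ _ hT₀ using fun b : S.B => bd_JB hO (hS.θb b) 0
  obtain ⟨Θ, hΘ0, hΘ'⟩ := ex_bd T₀
  have hΘ : ∀ b x, ∀ y ∈ S.O x, |S.θ b x y| ≤ Θ := fun b x y hy =>
    (hT₀ b x y hy [] le_rfl).trans (hΘ' b)
  obtain ⟨Γ, hΓ'⟩ := (isCompact_closedBall (0 : S.A → ℝ) S.δ).exists_bound_of_continuousOn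
    ((hS.Gs.continuousOn_fderiv_of_isOpen isOpen_ball (by simp)).mono
      (closedBall_subset_ball (by linarith [hS.δ_pos])))
  have hΓ0 : 0 ≤ Γ := (norm_nonneg _).trans (hΓ' 0 (mem_closedBall_self hS.δ_pos.le))
  have hΓ : ∀ z ∈ closedBall (0 : S.A → ℝ) S.δ, ∀ a, |fderiv ℝ S.G z (Pi.single a 1)| ≤ Γ := by
    intro z hz a
    refine ((fderiv ℝ S.G z).le_opNorm _).trans ?_
    rw [Pi.norm_single, norm_one, mul_one]
    exact hΓ' z hz
  refine ⟨8 * Fintype.card (S.B × S.A) * (3 * (Θ ^ 2 * Γ)) + 1, by positivity, fun k K₀ hk => ?_⟩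
  obtain ⟨CL, hCL0, hCL⟩ := lead hA hF S hS hΘ hΘ0 hΓ0 hΓ k K₀ hk
  choose Cχ _ hCχ using fun o : S.B × S.A => chi_est hP (hS.jmp o.1 o.2) hχ.sm
  obtain ⟨Kχ, hKχ0, hKχ⟩ := ex_bd Cχ
  obtain ⟨CC, hCC1, hCC⟩ := (hC X S.ι S.Φ hS.cov).2 k
  obtain ⟨σ, hσ⟩ : ∃ σ : ℝ, √(Fintype.card (Wd k)) = σ := ⟨_, rfl⟩
  have hσ1 : 1 ≤ σ := by
    have : Nonempty (Wd k) := ⟨⟨[], Nat.zero_le k⟩⟩
    rw [← hσ]
    exact Real.one_le_sqrt.2 (Nat.one_le_cast.2 Fintype.card_pos)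
  have hσ0 : 0 ≤ σ * CL := by positivity
  obtain ⟨C, h₀, hC0, hh₀, hG'⟩ := hG (S.B × S.A) (3 * S.c) (3 * (Θ ^ 2 * Γ)) (σ * CL + Kχ)
    (by linarith [hS.c_pos]) (by positivity)
  have hε := hS.ε_pos
  refine ⟨C * (σ * CC) ^ 2, min (min 1 h₀) (S.ε / 2), by positivity, by positivity,
    (min_le_right _ _).trans_lt (by linarith), fun η hη h hh hhC t ht f q hf hI hJ hQ i y hy => ?_⟩
  have hq : 0 ≤ q := le_trans (by positivity) (hQ i y hy)
  by_cases hy2 : y ∈ ball (0 : V) (1 / 2)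
  swap
  · rw [hχ.out y hy2, zero_pow two_ne_zero, zero_mul]
    positivity
  obtain ⟨x, rfl, hx⟩ := hS.loc i y hy2
  have hη1 : η ≤ 1 := hη.2.trans ((min_le_left _ _).trans (min_le_left _ _))
  have hη2 : η ≤ h₀ := hη.2.trans ((min_le_left _ _).trans (min_le_right _ _))
  have hη3 : η < S.ε := (hη.2.trans (min_le_right _ _)).trans_lt (by linarith)
  have hIo : Icc (-η) η ⊆ Ioo (-S.ε) S.ε := Icc_subset_Ioo (by linarith) hη3
  have h8 : 0 ≤ h * (8 * Fintype.card (S.B × S.A) * (3 * (Θ ^ 2 * Γ))) := by positivity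
  have hηη : η ^ 2 ≤ η := by nlinarith [hη.1]
  have hM : ∀ w ∈ ball (0 : V) 1,
      ‖jet k (fun w => f (S.Φ (S.ch x) w)) w‖ ≤ σ * CC * √q := by
    intro w hw
    have h1 := hCC f (√q) (fun i => (hf i).mono (ball_subset_ball (by norm_num)))
      (fun i z hz l hl => (jet_le _ z l hl).trans (Real.le_sqrt_of_sq_le ?_)) (S.ch x) w hw
    · rw [mul_assoc, ← hσ]
      exact norm_le_card _ (by positivity) fun l => h1 l.1 l.2
    · have h2 := hQ i z (ball_subset_ball (by norm_num) hz)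
      rwa [hχ.one z hz, one_pow, one_mul] at h2
  obtain ⟨F, hF'⟩ : ∃ F : V → ℝ, (fun w => f (S.Φ (S.ch x) w)) = F := ⟨_, rfl⟩
  have hI' := hI x
  have hJ' := hJ (S.ch x)
  have hQ' := hQ (S.ch x)
  have hf' := hf (S.ch x)
  have hN := hS.op η ⟨hη.1, hη3⟩ t f x
  rw [hF'] at hM hI' hJ' hQ' hf' hN
  have hM0 : 0 ≤ σ * CC * √q := by positivity
  obtain ⟨sN, hL⟩ := hCL η ⟨hη.1, hη3⟩ t ht x F _ hM0 hf' hI' hJ'
    fun w hw l hl => (jet_le F w l hl).trans (hM w hw)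
  have hu := fun o : S.B × S.A => jet_cont (hS.jmp o.1 o.2) k hf' x hx
  have hL' := hL y hx (fun o s => ‖jet k F (S.ψ o.1 o.2 x (y, s)) - jet k F y‖)
    (fun o => ((hu o).sub continuousOn_const).norm) (fun _ _ => norm_nonneg _)
    (fun o s _ l hl => PiLp.norm_apply_le
      (jet k F (S.ψ o.1 o.2 x (y, s)) - jet k F y) ⟨l, hl⟩)
  have hz : ∀ b, (fun a => t * S.r b a x y + Aop η F (S.ψ b a x) y) ∈
      closedBall (0 : S.A → ℝ) S.δ := fun b =>
    mem_closedBall_zero_iff.2 ((pi_norm_le_iff_of_nonneg hS.δ_pos.le).2 (hI' y hx b))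
  have key := hG' (EuclideanSpace ℝ (Wd k)) η h (σ * CC * √q) q (χ y) (jet k F y)
    (jet k (fun w => f (S.Φ (S.ch x) w) + h * S.N η t f (S.Φ (S.ch x) w)) y)
    (fun o => S.θ o.1 x y) (fun o => 3 * (S.θ o.1 x y ^ 2 * fderiv ℝ S.G
      (fun a => t * S.r o.1 a x y + Aop η F (S.ψ o.1 a x) y) (Pi.single o.2 1)))
    (fun o s => jet k F (S.ψ o.1 o.2 x (y, s))) (fun o s => χ (S.ψ o.1 o.2 x (y, s)))
    hη.1 hη1 hh (by linarith) (by linarith) (fun o => (hu o).mono hIo) (fun o => ⟨?_, ?_⟩)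
    (hχ.nn y).1 (hχ.nn y).2 (hM y hy) (hQ' y hy) (fun o s hs => ?_) ?_
  · refine key.trans (add_le_add le_rfl ?_)
    have h1 : 1 ≤ (σ * CC) ^ 2 := one_le_pow₀ (one_le_mul_of_one_le_of_one_le hσ1 hCC1)
    rw [mul_pow (σ * CC), Real.sq_sqrt hq, ← mul_assoc h, mul_assoc (h * C)]
    exact mul_le_mul_of_nonneg_left (by linarith) (by positivity)
  · have h1 := mul_le_mul_of_nonneg_left (hS.Gm _ (hz o.1) o.2) (sq_nonneg (S.θ o.1 x y))
    linarith
  · have h1 : S.θ o.1 x y ^ 2 ≤ Θ ^ 2 := sq_le_sq' (abs_le.1 (hΘ _ x y hx)).1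
      (abs_le.1 (hΘ _ x y hx)).2
    have h2 := (mul_le_mul_of_nonneg_left ((le_abs_self _).trans (hΓ _ (hz o.1) o.2))
      (sq_nonneg (S.θ o.1 x y))).trans (mul_le_mul_of_nonneg_right h1 hΓ0)
    linarith
  · have h1 := (hS.jmp o.1 o.2).maps x y hx s (hIo hs)
    have h2 := hCχ o x y hx η hη3 s hs
    have h3 : Cχ o ≤ σ * CL + Kχ := by linarith [hKχ o]
    exact ⟨hM _ h1, hQ' _ h1, h2.1.trans (mul_le_mul_of_nonneg_right h3 hη.1.le),
      h2.2.trans (mul_le_mul_of_nonneg_right h3 (sq_nonneg η))⟩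
  · obtain ⟨P, hP'⟩ : ∃ P, 1 + σ * CC * √q + ∑ o : S.B × S.A, |S.θ o.1 x y| *
        (η⁻¹ * ∫ s in (0 : ℝ)..1, (‖jet k F (S.ψ o.1 o.2 x (y, s * η)) - jet k F y‖ +
          ‖jet k F (S.ψ o.1 o.2 x (y, -(s * η))) - jet k F y‖)) = P := ⟨_, rfl⟩
    have hP0 : 0 ≤ P := by
      rw [← hP']
      refine add_nonneg (by positivity) (Finset.sum_nonneg fun o _ => mul_nonneg (abs_nonneg _)
        (mul_nonneg (inv_nonneg.2 hη.1.le)
          (intervalIntegral.integral_nonneg zero_le_one fun s _ => by positivity)))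
    rw [hP'] at hL' ⊢
    refine (norm_le_card _ (m := h * (CL * P)) (by positivity) fun l => ?_).trans ?_
    · have h1 : (fun w => f (S.Φ (S.ch x) w) + h * S.N η t f (S.Φ (S.ch x) w)) =ᶠ[𝓝 y]
          fun w => h * S.Nl η t x F w + F w := by
        filter_upwards [(hO x).mem_nhds hx] with w hw
        rw [hN w hw, ← hF', add_comm]
      have h2 := ((DL_congr h1 l.1).eq_of_nhds).trans
        (DL_lin (hO x) sN (hf'.mono (hS.sub x).2) h l.1 y hx)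
      have h3 := mul_le_mul_of_nonneg_left (hL' l.1 l.2) hh.le
      rw [← abs_of_pos hh, ← abs_mul, abs_of_pos hh] at h3
      refine le_trans (le_of_eq (congrArg abs ?_)) h3
      simp only [PiLp.sub_apply, PiLp.add_apply, PiLp.smul_apply, WithLp.ofLp_sum,
        Finset.sum_apply, WithLp.ofLp_smul, Pi.smul_apply, smul_eq_mul,
        int_apply hη.1 ((hu _).mono hIo), d2, (hS.jmp _ _).zero x y hx]
      simp only [jet, h2]
      ring
    · rw [hσ]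
      have h1 : 0 ≤ h * Kχ * P := by positivity
      linarith

end Pool.Agent.MP_67f0e4_gt.EU
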