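import Pool.Agent.MP_67f0e4_gt.EU.Spec

/-! Row TLIM: the limit of the iterates of the scheme. -/

set_option autoImplicit false

open scoped ContDiff Topology
open Set Metric Filter

namespace Pool.Agent.MP_67f0e4_gt.EU

open K

noncomputable section

namespace RTLIM

lemma DL_sm {O : Set V} (hO : IsOpen O) {f : V → ℝ} (hf : ContDiffOn ℝ ∞ f O)
    (l : List (Fin 4)) : ContDiffOn ℝ ∞ (DL l f) O := by
  induction l with
  | nil => exact hf
  | cons i l ih => exact (ih.fderiv_of_isOpen hO (by simp)).clm_apply contDiffOn_const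

lemma DL_add_mul {O : Set V} (hO : IsOpen O) {f g : V → ℝ} (hf : ContDiffOn ℝ ∞ f O)
    (hg : ContDiffOn ℝ ∞ g O) (c : ℝ) (l : List (Fin 4)) :
    ∀ y ∈ O, DL l (fun w => f w + c * g w) y = DL l f y + c * DL l g y := by
  induction l with
  | nil => exact fun _ _ => rfl
  | cons i l ih =>
    intro y hy
    have h1 : DL l (fun w => f w + c * g w) =ᶠ[𝓝 y] fun w => DL l f w + c * DL l g w :=
      eventually_of_mem (hO.mem_nhds hy) ih
    have h2 := (((DL_sm hO hf l).contDiffAt (hO.mem_nhds hy)).differentiableAt (by simp)).hasFDerivAt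
    have h3 := (((DL_sm hO hg l).contDiffAt (hO.mem_nhds hy)).differentiableAt (by simp)).hasFDerivAt
    change fderiv ℝ (DL l fun w => f w + c * g w) y (e i) =
      fderiv ℝ (DL l f) y (e i) + c * fderiv ℝ (DL l g) y (e i)
    rw [h1.fderiv_eq, (h2.fun_add (h3.const_mul c)).fderiv]
    rfl

lemma tele0 (a : ℕ → ℝ) (h c ε : ℝ) (j j' : ℕ) (hj : j ≤ j')
    (H : ∀ i, j ≤ i → i < j' → |a (i + 1) - a i - h * c| ≤ ε * h) :
    |a j' - a j - (j' * h - j * h) * c| ≤ ε * (j' * h - j * h) := by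
  induction j', hj using Nat.le_induction with
  | base => simp
  | succ k hk ih =>
    have h1 := ih fun i h1 h2 => H i h1 (h2.trans (Nat.lt_succ_self k))
    have h2 := H k hk (Nat.lt_succ_self k)
    have h3 := abs_add_le (a k - a j - (k * h - j * h) * c) (a (k + 1) - a k - h * c)
    push_cast
    rw [show a (k + 1) - a j - ((k + 1) * h - j * h) * c =
      a k - a j - (k * h - j * h) * c + (a (k + 1) - a k - h * c) by ring]
    linarith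

lemma tele (a : ℕ → ℝ) (h c ε : ℝ) (hh : 0 ≤ h) (j j' : ℕ)
    (H : ∀ i, (j ≤ i ∧ i < j' ∨ j' ≤ i ∧ i < j) → |a (i + 1) - a i - h * c| ≤ ε * h) :
    |a j' - a j - (j' * h - j * h) * c| ≤ ε * |j' * h - j * h| := by
  rcases le_total j j' with hj | hj
  · rw [abs_of_nonneg (a := (j' : ℝ) * h - j * h)
      (sub_nonneg.2 (mul_le_mul_of_nonneg_right (Nat.cast_le.2 hj) hh))]
    exact tele0 a h c ε j j' hj fun i h1 h2 => H i (Or.inl ⟨h1, h2⟩)
  · rw [abs_sub_comm ((j' : ℝ) * h), abs_of_nonneg (a := (j : ℝ) * h - j' * h)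
      (sub_nonneg.2 (mul_le_mul_of_nonneg_right (Nat.cast_le.2 hj) hh)), ← abs_neg,
      show -(a j' - a j - (j' * h - j * h) * c) = a j - a j' - (j * h - j' * h) * c by ring]
    exact tele0 a h c ε j' j hj fun i h1 h2 => H i (Or.inr ⟨h1, h2⟩)

/-- the number of steps up to time `t` -/
def mm (h : ℕ → ℝ) (t : ℝ) (n : ℕ) : ℕ := ⌊t / h n⌋₊

lemma mm_le {h : ℕ → ℝ} {t : ℝ} {n : ℕ} (hh : 0 < h n) (ht : 0 ≤ t) : mm h t n * h n ≤ t :=
  (le_div_iff₀ hh).1 (Nat.floor_le (div_nonneg ht hh.le))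

lemma lt_mm {h : ℕ → ℝ} (t : ℝ) {n : ℕ} (hh : 0 < h n) : t - h n < mm h t n * h n := by
  have := (div_lt_iff₀ hh).1 (Nat.lt_floor_add_one (t / h n))
  unfold mm
  linarith

variable {X : Type} {S : Sch X} {τ : ℝ} {𝒰 : Ultrafilter ℕ} {η h C : ℕ → ℝ}

/-- the bounds for the iterates along an ultrafilter -/
structure Dat (S : Sch X) (τ : ℝ) (𝒰 : Ultrafilter ℕ) (η h C : ℕ → ℝ) : Prop where
  ok : S.Ok
  le : τ ≤ 1
  pos : ∀ n, 0 < h n
  h0 : Tendsto h 𝒰 (𝓝 0)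
  η0 : Tendsto η 𝒰 (𝓝 0)
  ev : ∀ k, ∀ᶠ n in 𝒰, η n ∈ Ioo 0 S.ε ∧ ∀ j : ℕ, j * h n ≤ τ → S.Sm (S.it (η n) (h n) j) ∧
    S.In (η n) (j * h n) (S.it (η n) (h n) j) ∧ S.JA k (S.it (η n) (h n) j) (C k)

/-- the limit -/
def vv (S : Sch X) (𝒰 : Ultrafilter ℕ) (η h : ℕ → ℝ) (t : ℝ) (p : X) : ℝ :=
  limUnder 𝒰 fun n => S.it (η n) (h n) (mm h t n) p

/-- pairs (mesh, step) whose time tends to `t` -/
def FF (τ : ℝ) (𝒰 : Ultrafilter ℕ) (h : ℕ → ℝ) (t : ℝ) : Filter (ℕ × ℕ) :=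
  comap (fun q => (q.1, (q.2 : ℝ) * h q.1)) ((𝒰 : Filter ℕ) ×ˢ 𝓝[Icc 0 τ] t)

lemma FF_fst (t : ℝ) : Tendsto (fun q : ℕ × ℕ => q.1) (FF τ 𝒰 h t) 𝒰 := by
  have := (tendsto_fst (f := (𝒰 : Filter ℕ)) (g := 𝓝[Icc 0 τ] t)).comp
    (tendsto_comap (f := fun q : ℕ × ℕ => (q.1, (q.2 : ℝ) * h q.1)))
  exact this

lemma FF_snd (t : ℝ) : Tendsto (fun q : ℕ × ℕ => (q.2 : ℝ) * h q.1) (FF τ 𝒰 h t) (𝓝[Icc 0 τ] t) :=
  tendsto_snd.comp tendsto_comap

lemma FF_le (t : ℝ) : ∀ᶠ q in FF τ 𝒰 h t, (q.2 : ℝ) * h q.1 ≤ τ :=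
  ((FF_snd t).eventually self_mem_nhdsWithin).mono fun _ hq => hq.2

namespace Dat

variable (d : Dat S τ 𝒰 η h C) {t : ℝ}
include d

lemma mm_tend (ht : 0 ≤ t) : Tendsto (fun n => (mm h t n : ℝ) * h n) 𝒰 (𝓝 t) := by
  have h1 : Tendsto (fun n => t - h n) 𝒰 (𝓝 t) := by
    simpa using (tendsto_const_nhds (x := t)).sub d.h0
  exact tendsto_of_tendsto_of_tendsto_of_le_of_le h1 tendsto_const_nhds
    (fun n => (lt_mm t (d.pos n)).le) fun n => mm_le (d.pos n) ht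

lemma mm_FF (ht : t ∈ Icc 0 τ) : Tendsto (fun n => (n, mm h t n)) 𝒰 (FF τ 𝒰 h t) :=
  tendsto_comap_iff.2 (tendsto_id.prodMk (tendsto_nhdsWithin_iff.2 ⟨d.mm_tend ht.1,
    Eventually.of_forall fun n => ⟨mul_nonneg (Nat.cast_nonneg _) (d.pos n).le,
      (mm_le (d.pos n) ht.1).trans ht.2⟩⟩))

lemma conv (hL : StmtLIM) (ht : t ∈ Icc 0 τ) (i : S.ι) :
    ContDiffOn ℝ ∞ (fun w => vv S 𝒰 η h t (S.Φ i w)) (ball 0 1) ∧
    ∀ l : List (Fin 4), ∀ y ∈ ball (0 : V) 1,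
      Tendsto (fun n => DL l (fun w => S.it (η n) (h n) (mm h t n) (S.Φ i w)) y) 𝒰
        (𝓝 (DL l (fun w => vv S 𝒰 η h t (S.Φ i w)) y)) := by
  have hm : ∀ n, mm h t n * h n ≤ τ := fun n => (mm_le (d.pos n) ht.1).trans ht.2
  refine hL _ 𝒰 (fun n w => S.it (η n) (h n) (mm h t n) (S.Φ i w)) _ C isOpen_ball
    ((d.ev 0).mono fun n hn => (hn.2 _ (hm n)).1 i)
    (fun k => (d.ev k).mono fun n hn => (hn.2 _ (hm n)).2.2 i) fun y hy => ?_
  obtain ⟨x, -, hx⟩ := (isCompact_Icc (a := -C 0) (b := C 0)).ultrafilter_le_nhds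
    (𝒰.map fun n => S.it (η n) (h n) (mm h t n) (S.Φ i y))
    (le_principal_iff.2 ((d.ev 0).mono fun n hn =>
      abs_le.1 ((hn.2 _ (hm n)).2.2 i y hy [] le_rfl)))
  exact tendsto_nhds_limUnder ⟨x, hx⟩

lemma inc (hN : StmtNB) (l : List (Fin 4)) : ∃ K : ℝ, ∀ᶠ n in 𝒰, ∀ i, ∀ y ∈ ball (0 : V) 1,
    ∀ j j' : ℕ, j * h n ≤ τ → j' * h n ≤ τ →
      |DL l (fun w => S.it (η n) (h n) j' (S.Φ i w)) y -
        DL l (fun w => S.it (η n) (h n) j (S.Φ i w)) y| ≤ K * |j' * h n - j * h n| := by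
  obtain ⟨K, hK⟩ := hN X S d.ok l.length (C (l.length + 4))
  refine ⟨K, (d.ev (l.length + 4)).mono fun n hn i y hy j j' hj hj' => ?_⟩
  have := tele (fun j => DL l (fun w => S.it (η n) (h n) j (S.Φ i w)) y) (h n) 0 K (d.pos n).le
    j j' fun k hk => by
      have h1 : k * h n ≤ τ := by
        rcases hk with hk | hk
        · exact (mul_le_mul_of_nonneg_right (Nat.cast_le.2 hk.2.le) (d.pos n).le).trans hj'
        · exact (mul_le_mul_of_nonneg_right (Nat.cast_le.2 hk.2.le) (d.pos n).le).trans hj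
      obtain ⟨h2, h3, h4⟩ := hn.2 k h1
      obtain ⟨h5, h6⟩ := hK _ hn.1 _
        ⟨mul_nonneg (Nat.cast_nonneg k) (d.pos n).le, h1.trans d.le⟩ _ h2 h3 h4
      have h7 := DL_add_mul isOpen_ball (h2 i) (h5 i) (h n) l y hy
      change |DL l (fun w => S.it (η n) (h n) k (S.Φ i w) +
        h n * S.N (η n) (k * h n) (S.it (η n) (h n) k) (S.Φ i w)) y - _ - _| ≤ _
      rw [h7, mul_zero, sub_zero, add_sub_cancel_left, abs_mul, abs_of_pos (d.pos n), mul_comm]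
      exact mul_le_mul_of_nonneg_right (h6 i y hy l le_rfl) (d.pos n).le
  simpa using this

lemma convF (hL : StmtLIM) (hN : StmtNB) (ht : t ∈ Icc 0 τ) (i : S.ι) (l : List (Fin 4))
    {y : V} (hy : y ∈ ball (0 : V) 1) :
    Tendsto (fun q : ℕ × ℕ => DL l (fun w => S.it (η q.1) (h q.1) q.2 (S.Φ i w)) y) (FF τ 𝒰 h t)
      (𝓝 (DL l (fun w => vv S 𝒰 η h t (S.Φ i w)) y)) := by
  obtain ⟨K, hK⟩ := d.inc hN l
  have h1 := ((d.conv hL ht i).2 l y hy).comp (FF_fst (τ := τ) (h := h) t)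
  have h2 : Tendsto (fun q : ℕ × ℕ => K * |q.2 * h q.1 - mm h t q.1 * h q.1|) (FF τ 𝒰 h t)
      (𝓝 0) := by
    simpa using (((tendsto_nhds_of_tendsto_nhdsWithin (FF_snd (τ := τ) (𝒰 := 𝒰) (h := h) t)).sub
      ((d.mm_tend ht.1).comp (FF_fst t))).abs).const_mul K
  refine h1.congr_dist (squeeze_zero' (Eventually.of_forall fun _ => dist_nonneg) ?_ h2)
  filter_upwards [(FF_fst t).eventually hK, FF_le t] with q h3 h4
  rw [dist_comm, Real.dist_eq]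
  exact h3 i y hy _ _ ((mm_le (d.pos _) ht.1).trans ht.2) h4

lemma argF (hA : StmtAEST) (hZ : StmtAZ) (hL : StmtLIM) (hN : StmtNB) (ht : t ∈ Icc 0 τ)
    (x : S.κ) {y : V} (hy : y ∈ S.O x) (b : S.B) (a : S.A) :
    Tendsto (fun q : ℕ × ℕ => q.2 * h q.1 * S.r b a x y + Aop (η q.1)
      (fun w => S.it (η q.1) (h q.1) q.2 (S.Φ (S.ch x) w)) (S.ψ b a x) y) (FF τ 𝒰 h t)
      (𝓝 (t * S.r b a x y + A0 (fun w => vv S 𝒰 η h t (S.Φ (S.ch x) w)) (S.ψ b a x) y)) := by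
  refine ((tendsto_nhds_of_tendsto_nhdsWithin (FF_snd t)).mul_const _).add ?_
  obtain ⟨P, Q, -, -, hPQ⟩ := hZ _ _ _ _ d.ok.ε_pos (d.ok.jmp b a)
  obtain ⟨K, -, hK⟩ := hA _ _ _ _ (d.ok.jmp b a) 3
  have hy1 := (d.ok.sub x).2 hy
  have h1 : Tendsto (fun q : ℕ × ℕ => ∑ i, ∑ j, P i j x y *
      DL [i, j] (fun w => S.it (η q.1) (h q.1) q.2 (S.Φ (S.ch x) w)) y +
      ∑ i, Q i x y * DL [i] (fun w => S.it (η q.1) (h q.1) q.2 (S.Φ (S.ch x) w)) y) (FF τ 𝒰 h t)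
      (𝓝 (A0 (fun w => vv S 𝒰 η h t (S.Φ (S.ch x) w)) (S.ψ b a x) y)) := by
    rw [hPQ x _ (d.conv hL ht _).1 y hy]
    exact (tendsto_finsetSum _ fun i _ => tendsto_finsetSum _ fun j _ =>
      (d.convF hL hN ht _ _ hy1).const_mul _).add
        (tendsto_finsetSum _ fun i _ => (d.convF hL hN ht _ _ hy1).const_mul _)
  have h2 : Tendsto (fun q : ℕ × ℕ => K * (η q.1 * C 3)) (FF τ 𝒰 h t) (𝓝 0) := by
    simpa using ((d.η0.comp (FF_fst (τ := τ) (h := h) t)).mul_const (C 3)).const_mul K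
  refine h1.congr_dist (squeeze_zero' (Eventually.of_forall fun _ => dist_nonneg) ?_ h2)
  filter_upwards [(FF_fst t).eventually (d.ev 3), FF_le t] with q h3 h4
  obtain ⟨h5, -, h6⟩ := h3.2 _ h4
  rw [dist_comm, Real.dist_eq, ← hPQ x _ (h5 _) y hy]
  exact ((hK x _ _ _ h3.1 (h5 _) (h6 _)).2 y hy).2.1 le_rfl

lemma small (hA : StmtAEST) (hZ : StmtAZ) (hL : StmtLIM) (hN : StmtNB) (ht : t ∈ Icc 0 τ)
    (x : S.κ) {y : V} (hy : y ∈ S.O x) (b : S.B) (a : S.A) :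
    |t * S.r b a x y + A0 (fun w => vv S 𝒰 η h t (S.Φ (S.ch x) w)) (S.ψ b a x) y| ≤ S.δ :=
  le_of_tendsto ((d.argF hA hZ hL hN ht x hy b a).comp (d.mm_FF ht)).abs
    ((d.ev 0).mono fun n hn => (hn.2 _ ((mm_le (d.pos n) ht.1).trans ht.2)).2.1 x y hy b a)

lemma opF (hA : StmtAEST) (hZ : StmtAZ) (hL : StmtLIM) (hN : StmtNB) (ht : t ∈ Icc 0 τ)
    (x : S.κ) {y : V} (hy : y ∈ S.O x) :
    Tendsto (fun q : ℕ × ℕ => S.N (η q.1) (q.2 * h q.1) (S.it (η q.1) (h q.1) q.2)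
      (S.Φ (S.ch x) y)) (FF τ 𝒰 h t)
      (𝓝 (S.N0 t x (fun w => vv S 𝒰 η h t (S.Φ (S.ch x) w)) y)) := by
  refine Tendsto.congr' (((FF_fst t).eventually (d.ev 0)).mono fun q hq =>
    (d.ok.op _ hq.1 _ _ x y hy).symm) (tendsto_finsetSum _ fun b _ => Tendsto.const_mul _ ?_)
  refine (d.ok.Gs.continuousOn.continuousAt (isOpen_ball.mem_nhds ?_)).tendsto.comp
    (tendsto_pi_nhds.2 fun a => d.argF hA hZ hL hN ht x hy b a)
  have := d.ok.δ_pos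
  exact mem_ball_zero_iff.2 (((pi_norm_le_iff_of_nonneg this.le).2 fun a =>
    d.small hA hZ hL hN ht x hy b a).trans_lt (by linarith))

lemma eqn (hA : StmtAEST) (hZ : StmtAZ) (hL : StmtLIM) (hN : StmtNB) (ht : t ∈ Icc 0 τ)
    (x : S.κ) {y : V} (hy : y ∈ S.O x) :
    HasDerivWithinAt (fun s => vv S 𝒰 η h s (S.Φ (S.ch x) y))
      (S.N0 t x (fun w => vv S 𝒰 η h t (S.Φ (S.ch x) w)) y) (Icc 0 τ) t := by
  rw [hasDerivWithinAt_iff_isLittleO, Asymptotics.isLittleO_iff]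
  intro c hc
  have h1 := (d.opF hA hZ hL hN ht x hy).eventually (closedBall_mem_nhds _ hc)
  obtain ⟨pa, ha, pb, hb, hab⟩ := eventually_prod_iff.1 (eventually_comap.1 h1)
  obtain ⟨σ, hσ, hs⟩ := Metric.mem_nhdsWithin_iff.1 hb
  have hy1 := (d.ok.sub x).2 hy
  filter_upwards [self_mem_nhdsWithin, mem_nhdsWithin_of_mem_nhds (ball_mem_nhds t (half_pos hσ))]
    with s hs1 hs2
  have t1 := (d.conv hL hs1 (S.ch x)).2 [] y hy1
  have t2 := (d.conv hL ht (S.ch x)).2 [] y hy1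
  have t3 := (d.mm_tend hs1.1).sub (d.mm_tend ht.1)
  refine le_of_tendsto_of_tendsto ((t1.sub t2).sub (t3.mul_const _)).abs (t3.abs.const_mul c) ?_
  filter_upwards [ha, d.h0.eventually (gt_mem_nhds (half_pos hσ))] with n hn hn2
  refine tele (fun j => S.it (η n) (h n) j (S.Φ (S.ch x) y)) (h n) _ c (d.pos n).le _ _
    fun k hk => ?_
  have a1 := mm_le (d.pos n) hs1.1
  have a2 := mm_le (d.pos n) ht.1
  have a3 := lt_mm s (d.pos n)
  have a4 := lt_mm t (d.pos n)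
  have a5 := abs_lt.1 (show |s - t| < σ / 2 from hs2)
  have a6 : ∀ {i j : ℕ}, i ≤ j → i * h n ≤ j * h n := fun hij =>
    mul_le_mul_of_nonneg_right (Nat.cast_le.2 hij) (d.pos n).le
  have h2 : pb (k * h n) := by
    refine hs ⟨?_, mul_nonneg (Nat.cast_nonneg k) (d.pos n).le, ?_⟩
    · rw [mem_ball, Real.dist_eq, abs_lt]
      rcases hk with hk | hk <;> constructor <;> linarith [a6 hk.1, a6 hk.2.le]
    · rcases hk with hk | hk <;> linarith [a6 hk.2.le, hs1.2, ht.2]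
  have h3 := hab hn h2 (n, k) rfl
  rw [Real.dist_eq] at h3
  change |S.it (η n) (h n) k (S.Φ (S.ch x) y) +
    h n * S.N (η n) (k * h n) (S.it (η n) (h n) k) (S.Φ (S.ch x) y) - _ - _| ≤ _
  rw [add_sub_cancel_left, ← mul_sub, abs_mul, abs_of_pos (d.pos n), mul_comm]
  exact mul_le_mul_of_nonneg_right h3 (d.pos n).le

lemma weak (hA : StmtAEST) (hZ : StmtAZ) (hL : StmtLIM) (hN : StmtNB) :
    S.Weak τ (vv S 𝒰 η h) where
  init p := by
    have : ∀ n, mm h 0 n = 0 := fun n => by simp [mm]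
    simp only [vv, this]
    exact (tendsto_const_nhds (x := (0 : ℝ))).limUnder_eq
  sm t ht i := (d.conv hL ht i).1
  bd k := ⟨C k, fun t ht i y hy l hl => le_of_tendsto ((d.conv hL ht i).2 l y hy).abs
    ((d.ev k).mono fun n hn => (hn.2 _ ((mm_le (d.pos n) ht.1).trans ht.2)).2.2 i y hy l hl)⟩
  lip l := by
    obtain ⟨K, hK⟩ := d.inc hN l
    refine ⟨K, fun i t ht t' ht' y hy => le_of_tendsto_of_tendsto
      (((d.conv hL ht' i).2 l y hy).sub ((d.conv hL ht i).2 l y hy)).abs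
      (((d.mm_tend ht'.1).sub (d.mm_tend ht.1)).abs.const_mul K) (hK.mono fun n hn => ?_)⟩
    exact hn i y hy _ _ ((mm_le (d.pos n) ht.1).trans ht.2) ((mm_le (d.pos n) ht'.1).trans ht'.2)
  small t ht x y hy b a := d.small hA hZ hL hN ht x hy b a
  eq t ht x y hy := d.eqn hA hZ hL hN ht x hy

end Dat

end RTLIM

open RTLIM in
theorem tlim (hA : StmtAEST) (hN : StmtNB) (hI : StmtITER) (hL : StmtLIM) (hZ : StmtAZ) :
    StmtTLIM := by
  intro X S hS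
  obtain ⟨τ, C₀, h0, h1, hC, H⟩ := hI X S hS
  choose C η₁ hη hε H using H
  have hp : ∀ n : ℕ, (0 : ℝ) < 1 / (n + 1) := fun n => by positivity
  have hη0 : Tendsto (fun n : ℕ => (1 : ℝ) / (n + 1)) (Ultrafilter.of (atTop : Filter ℕ)) (𝓝 0) :=
    tendsto_one_div_add_atTop_nhds_zero_nat.mono_left (Ultrafilter.of_le _)
  have d : Dat S τ (Ultrafilter.of atTop) (fun n => 1 / (n + 1))
      (fun n => (1 / (n + 1)) ^ 2 / C₀) C :=
    { ok := hS
      le := h1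
      pos := fun n => div_pos (pow_pos (hp n) 2) hC
      h0 := by simpa using (hη0.pow 2).div_const C₀
      η0 := hη0
      ev := fun k => (hη0.eventually (gt_mem_nhds (hη k))).mono fun n hn =>
        ⟨⟨hp n, hn.trans (hε k)⟩, fun j hj => H k _ ⟨hp n, hn.le⟩ j hj⟩ }
  exact ⟨τ, h0, _, d.weak hA hZ hL hN⟩

end

end Pool.Agent.MP_67f0e4_gt.EU
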