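import Pool.Agent.MP_67f0e4_gt.EU.SpecC
import Pool.Agent.MP_67f0e4_gt.K.Chain

/-! Row UNI: uniqueness of flows with uniform bounds. -/

set_option autoImplicit false

open scoped ContDiff Topology
open Set Metric Filter

namespace Pool.Agent.MP_67f0e4_gt.EU

open K

namespace RUNI

theorem log_le {Λ : ℝ} {g : Hm} (h : EllH Λ g) :
    |Real.log (hdet g)| ≤ |Real.log (Λ ^ 2)| + |Real.log (4 * Λ ^ 2)⁻¹| := by
  have c := h.1
  have h1 := Real.log_le_log h.isPos.det h.det_le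
  have h2 := Real.log_le_log (by positivity) h.det_ge
  have h3 := le_abs_self (Real.log (Λ ^ 2))
  have h4 := neg_abs_le (Real.log (4 * Λ ^ 2)⁻¹)
  have h5 := abs_nonneg (Real.log (Λ ^ 2))
  have h6 := abs_nonneg (Real.log (4 * Λ ^ 2)⁻¹)
  exact abs_le.2 ⟨by linarith, by linarith⟩

theorem slice {S : Set ℝ} {U : Set V} {f : ℝ → V → ℝ} (h : Sm S U f) (hU : IsOpen U) {t : ℝ}
    (ht : t ∈ S) {x : V} (hx : x ∈ U) : ContDiffAt ℝ 2 (f t) x := by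
  have h1 : ContDiffOn ℝ ∞ (fun y : V => ((t, y) : ℝ × V)) U :=
    (contDiff_const.prodMk contDiff_id).contDiffOn
  have h2 := ContDiffOn.comp (g := fun q : ℝ × V => f q.1 q.2) h h1 fun y hy => ⟨ht, hy⟩
  exact (h2.contDiffAt (hU.mem_nhds hx)).of_le two_le_inf

theorem le {X : Set C3} {F : Fam X} {ψ : C3 → ℝ} (hM : F.MPX) {τ : ℝ} {φ φ' : ℝ → C3 → ℝ}
    (hτ : 0 < τ) (h : F.GFlow ψ τ φ) (h' : F.GFlow ψ τ φ') (h0 : ∀ p ∈ X, φ 0 p = φ' 0 p) :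
    ∀ t ∈ Icc 0 τ, ∀ p ∈ X, φ t p - φ' t p ≤ 0 := by
  obtain ⟨hx, ⟨Λ, hΛ⟩, -⟩ := h
  obtain ⟨hx', ⟨Λ', hΛ'⟩, -⟩ := h'
  have z1 : (0 : V) ∈ ball (0 : V) 1 := mem_ball_self one_pos
  have z2 : (0 : V) ∈ ball (0 : V) 2 := mem_ball_self two_pos
  have hd : ∀ i, ∀ t ∈ Icc 0 τ, HasDerivWithinAt (fun s => φ s (F.Φ i 0) - φ' s (F.Φ i 0))
      (Real.log (hdet (lv (φ t ∘ F.Φ i) 0)) - Real.log (hdet (lv (φ' t ∘ F.Φ i) 0)))
      (Icc 0 τ) t := fun i t ht =>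
    (((hx _ _ (F.par i)).eq t ht 0 z2).sub ((hx' _ _ (F.par i)).eq t ht 0 z2)).congr_deriv
      (sub_sub_sub_cancel_right _ _ _)
  refine hM 0 τ (8 * Λ' ^ 3) ((|Real.log (Λ ^ 2)| + |Real.log (4 * Λ ^ 2)⁻¹| +
    (|Real.log (Λ' ^ 2)| + |Real.log (4 * Λ' ^ 2)⁻¹|)) * τ) (fun t p => φ t p - φ' t p) hτ
    (fun N U hN => ContDiffOn.sub (hx N U hN).sm (hx' N U hN).sm) (fun t ht p hp => ?_)
    (fun p hp => (sub_eq_zero.2 (h0 p hp)).le) fun t ht i _ => ?_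
  · obtain ⟨i, rfl⟩ := F.sur p hp
    have h1 := (convex_Icc 0 τ).norm_image_sub_le_of_norm_hasDerivWithin_le (hd i)
      (fun s hs => (abs_sub _ _).trans (add_le_add (log_le (hΛ s hs i 0 z1))
        (log_le (hΛ' s hs i 0 z1)))) (left_mem_Icc.2 hτ.le) ht
    rw [h0 _ hp, sub_self, sub_zero, sub_zero, Real.norm_of_nonneg ht.1] at h1
    exact ((le_abs_self _).trans h1).trans (mul_le_mul_of_nonneg_left ht.2 (by positivity))
  · have ht' : t ∈ Icc 0 τ := Ioc_subset_Icc_self ht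
    have e := hΛ t ht' i 0 z1
    have e' := hΛ' t ht' i 0 z1
    refine ⟨_, _, e'.isPos.inv_nn, e'.inv_le, hd i t ht', ?_⟩
    have h1 := lv_sub (slice (hx _ _ (F.par i)).sm isOpen_ball ht' z2)
      (slice (hx' _ _ (F.par i)).sm isOpen_ball ht' z2)
    have h2 := log_hdet_le e'.isPos e.isPos
    rw [← h1] at h2
    exact sub_le_iff_le_add'.2 h2

end RUNI

theorem uni : StmtUNI := fun _ _ _ hM _ _ _ hτ h h' h0 t ht p hp =>
  le_antisymm (sub_nonpos.1 (RUNI.le hM hτ h h' h0 t ht p hp))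
    (sub_nonpos.1 (RUNI.le hM hτ h' h (fun q hq => (h0 q hq).symm) t ht p hp))

end Pool.Agent.MP_67f0e4_gt.EU
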