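import Pool.Agent.MP_67f0e4_gt.EU.SpecC
import Pool.Agent.MP_67f0e4_gt.K.Alg

/-! Row XFL: from the quasi-charts to all parametrisations. -/

set_option autoImplicit false

open scoped ContDiff Topology
open Set Metric Filter

namespace Pool.Agent.MP_67f0e4_gt.EU

open K

namespace RXFL

theorem cD {f : V → ℝ} {x : V} (h : ContDiffAt ℝ ∞ f x) (v : V) : ContDiffAt ℝ ∞ (D v f) x :=
  (h.fderiv_right (m := ∞) (by simp)).clm_apply contDiffAt_const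

theorem cLev {f : V → ℝ} {x : V} (h : ContDiffAt ℝ ∞ f x) (v w : V) :
    ContDiffAt ℝ ∞ (fun y => lev f y v w) x :=
  (cD (cD h _) _).add (cD (cD h _) _)

theorem cDet {f : V → ℝ} {x : V} (h : ContDiffAt ℝ ∞ f x) :
    ContDiffAt ℝ ∞ (fun y => hdet (lv f y)) x :=
  (((cLev h (e 0) (e 0)).mul (cLev h (e 2) (e 2))).sub ((cLev h (e 0) (e 2)).pow 2)).sub
    ((cLev h (e 0) (e 3)).pow 2)

theorem slice {S : Set ℝ} {U : Set V} {f : ℝ → V → ℝ} (h : Sm S U f) (hU : IsOpen U) {t : ℝ}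
    (ht : t ∈ S) {x : V} (hx : x ∈ U) : ContDiffAt ℝ ∞ (f t) x :=
  (ContDiffOn.comp (g := fun q : ℝ × V => f q.1 q.2) (f := fun y : V => (t, y)) h
    (contDiff_const.prodMk contDiff_id).contDiffOn fun _ hy => ⟨ht, hy⟩).contDiffAt
      (hU.mem_nhds hx)

end RXFL

theorem xfl (hI : StmtINV) : StmtXFL := by
  intro X F ψ τ φ hX hψ hsm hfl N U hN
  have h0 : (0 : V) ∈ ball (0 : V) 2 := mem_ball_self two_pos
  have h1 : (0 : V) ∈ ball (0 : V) 1 := mem_ball_self one_pos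
  have two : (2 : WithTop ℕ∞) ≤ ∞ := WithTop.coe_le_coe.2 le_top
  have key : ∀ a ∈ U, ∃ (i : F.ι) (T : V → V) (k : ℝ), F.Φ i 0 = N a ∧ ContDiffAt ℝ ∞ T a ∧
      T a = 0 ∧ (∀ᶠ x in 𝓝 a, F.Φ i (T x) = N x) ∧ 0 < k ∧ ∀ g : C3 → ℝ,
        ContDiffAt ℝ 2 (g ∘ F.Φ i) 0 → hdet (lv (g ∘ N) a) = k * hdet (lv (g ∘ F.Φ i) 0) ∧
          (Pos (lv (g ∘ F.Φ i) 0) → Pos (lv (g ∘ N) a)) := by
    intro a ha
    obtain ⟨i, hi⟩ := F.sur _ (hN.mem ha)
    obtain ⟨T, k, h⟩ := hI X N (F.Φ i) U (ball 0 2) hX hN (F.par i) a ha 0 h0 hi.symm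
    exact ⟨i, T, k, hi, h⟩
  refine ⟨?_, fun a ha => ?_, fun a ha => (hψ.2 N U hN a ha).2, fun t ht a ha => ?_,
    fun t ht a ha => ?_⟩
  · rintro ⟨t, a⟩ ⟨ht, ha⟩
    obtain ⟨i, T, k, -, hT, hT0, hev, -⟩ := key a ha
    have hg : ContDiffAt ℝ ∞ (fun q : ℝ × V => (q.1, T q.2)) (t, a) :=
      contDiffAt_fst.prodMk (ContDiffAt.comp (t, a) (g := T) (f := Prod.snd) hT contDiffAt_snd)
    have hs : Tendsto (Prod.snd : ℝ × V → V) (𝓝[Icc 0 τ ×ˢ U] (t, a)) (𝓝 a) :=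
      (continuous_snd.tendsto (t, a)).mono_left nhdsWithin_le_nhds
    have hb : ∀ᶠ x in 𝓝 a, T x ∈ ball (0 : V) 1 :=
      hT.continuousAt.eventually (isOpen_ball.mem_nhds (by rw [hT0]; exact h1))
    have hc := ContDiffWithinAt.comp_of_preimage_mem_nhdsWithin (t, a)
      (g := fun q : ℝ × V => (φ q.1 ∘ F.Φ i) q.2) (f := fun q : ℝ × V => (q.1, T q.2))
      (s := Icc 0 τ ×ˢ U) (hsm i _ ⟨ht, by change T a ∈ _; rw [hT0]; exact h1⟩)
      hg.contDiffWithinAt (by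
        filter_upwards [self_mem_nhdsWithin, hs.eventually hb] with q hq hq'
        exact ⟨hq.1, hq'⟩)
    refine hc.congr_of_eventuallyEq ?_ ?_
    · filter_upwards [hs.eventually hev] with q hq
      simp only [Function.comp_apply, hq]
    · simp only [Function.comp_apply, hev.self_of_nhds]
  · exact ((RXFL.cDet ((hψ.1 N U hN).contDiffAt (hN.op.mem_nhds ha))).log
      (hψ.2 N U hN a ha).1.det.ne').contDiffWithinAt
  · obtain ⟨i, T, k, -, -, -, -, -, hg⟩ := key a ha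
    exact (hg (φ t) ((RXFL.slice (hsm i) isOpen_ball ht h1).of_le two)).2 (hfl i t ht).1
  · obtain ⟨i, T, k, hi, -, -, -, hk, hg⟩ := key a ha
    have h2 := (hg (φ t) ((RXFL.slice (hsm i) isOpen_ball ht h1).of_le two)).1
    have h3 := (hg ψ (((hψ.1 _ _ (F.par i)).contDiffAt (isOpen_ball.mem_nhds h0)).of_le two)).1
    have h4 := (hfl i t ht).2
    rw [hi] at h4
    change HasDerivWithinAt (fun s => φ s (N a))
      (Real.log (hdet (lv (φ t ∘ N) a)) - Real.log (hdet (lv (ψ ∘ N) a))) (Icc 0 τ) t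
    rw [h2, h3, Real.log_mul hk.ne' (hfl i t ht).1.det.ne',
      Real.log_mul hk.ne' (hψ.2 _ _ (F.par i) 0 h0).1.det.ne', add_sub_add_left_eq_sub]
    exact h4

end Pool.Agent.MP_67f0e4_gt.EU
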