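import Pool.Agent.MP_67f0e4_gt.EU.Asm
import Pool.Agent.MP_67f0e4_gt.EU.RCOMP
import Pool.Agent.MP_67f0e4_gt.EU.RCOV
import Pool.Agent.MP_67f0e4_gt.EU.RINT
import Pool.Agent.MP_67f0e4_gt.EU.RDIF
import Pool.Agent.MP_67f0e4_gt.EU.RAEST
import Pool.Agent.MP_67f0e4_gt.EU.RFAA
import Pool.Agent.MP_67f0e4_gt.EU.RALG
import Pool.Agent.MP_67f0e4_gt.EU.RNB
import Pool.Agent.MP_67f0e4_gt.EU.RSTEP
import Pool.Agent.MP_67f0e4_gt.EU.RITER
import Pool.Agent.MP_67f0e4_gt.EU.RLIM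
import Pool.Agent.MP_67f0e4_gt.EU.RAZ
import Pool.Agent.MP_67f0e4_gt.EU.RJS
import Pool.Agent.MP_67f0e4_gt.EU.RTLIM
import Pool.Agent.MP_67f0e4_gt.EU.RSMO
import Pool.Agent.MP_67f0e4_gt.EU.RCAU
import Pool.Agent.MP_67f0e4_gt.EU.RLOC
import Pool.Agent.MP_67f0e4_gt.EU.RGH
import Pool.Agent.MP_67f0e4_gt.EU.RFR
import Pool.Agent.MP_67f0e4_gt.EU.RINV
import Pool.Agent.MP_67f0e4_gt.EU.RCONJ
import Pool.Agent.MP_67f0e4_gt.EU.RCONO
import Pool.Agent.MP_67f0e4_gt.EU.RCONE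
import Pool.Agent.MP_67f0e4_gt.EU.REXV
import Pool.Agent.MP_67f0e4_gt.EU.RRHO
import Pool.Agent.MP_67f0e4_gt.EU.RXFL
import Pool.Agent.MP_67f0e4_gt.EU.REXI
import Pool.Agent.MP_67f0e4_gt.EU.RMPX
import Pool.Agent.MP_67f0e4_gt.EU.RUNI
import Pool.Agent.MP_67f0e4_gt.EU.RCONT

/-! Block A: existence, continuation and the maximum principle from the atlas axioms. -/

set_option autoImplicit false

namespace Pool.Agent.MP_67f0e4_gt.EU

theorem sAEST : StmtAEST := aest intg (dif comp)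

theorem sNB : StmtNB := nb (cov' comp) sAEST faa

theorem sITER : StmtITER :=
  iter (cov' comp) sAEST sNB (step comp (cov' comp) sAEST faa alg)

theorem sEXV : StmtEXV :=
  exv (locEx cau) gh frm (conj' frm) (cono frm) (cone frm inv) (tlim sAEST sNB sITER lim az)
    (smo az js)

theorem mainA : StmtA :=
  asm (exi frm (rho frm inv) sEXV (xfl inv)) (mpx (locEx cau)) uni cont

end Pool.Agent.MP_67f0e4_gt.EU
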