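import Pool.Agent.MP_67f0e4_gt.EU.SpecC

/-! Block A: the result of the block as one statement. -/

set_option autoImplicit false

namespace Pool.Agent.MP_67f0e4_gt.EU

open K

/-- the deliverable of block A -/
def StmtA : Prop := ∀ (X : Set C3) (F : Fam X) (A : Atl F) (ψ : C3 → ℝ), Surf X → RFlat X ψ →
  A.Ok → F.MPX ∧ F.CONT ψ

theorem asm (h1 : StmtEXI) (h2 : StmtMPX) (h3 : StmtUNI) (h4 : StmtCONT) : StmtA :=
  fun X F A ψ hS hR hA =>
    ⟨h2 X F A hA, h4 X F ψ (h1 X F A ψ hS hR hA) (h3 X F ψ (h2 X F A hA))⟩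

end Pool.Agent.MP_67f0e4_gt.EU
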