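import Pool.Agent.MP_67f0e4_gt.K.Base

/-! Block A (existence): words of derivatives, uniformly bounded families, the Euler scheme. -/

set_option autoImplicit false

open scoped ContDiff
open Set Metric

namespace Pool.Agent.MP_67f0e4_gt.EU

noncomputable section

open K

section
variable {E W κ : Type} [NormedAddCommGroup E] [NormedSpace ℝ E] [NormedAddCommGroup W]
  [NormedSpace ℝ W]

/-- derivative along a word of vectors; the head is applied last, as in `K.DL` -/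
def dw : List E → (E → ℝ) → E → ℝ
  | [], f => f
  | v :: l, f => D v (dw l f)

/-- A family of smooth maps on the (open) sets `U x` with all derivatives uniformly bounded. -/
def Bd (U : κ → Set E) (F : κ → E → W) : Prop :=
  (∀ x, ContDiffOn ℝ ∞ (F x) (U x)) ∧
    ∀ n : ℕ, ∃ C : ℝ, ∀ x, ∀ y ∈ U x, ‖iteratedFDeriv ℝ n (F x) y‖ ≤ C
end

/-- all derivatives of order at most `k` at `y` are bounded by `M` -/
def JB (k : ℕ) (f : V → ℝ) (y : V) (M : ℝ) : Prop :=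
  ∀ l : List (Fin 4), l.length ≤ k → |DL l f y| ≤ M

/-- words of length at most `k` -/
abbrev Wd (k : ℕ) : Type := {l : List (Fin 4) // l.length ≤ k}

instance (k : ℕ) : Fintype (Wd k) := (List.finite_length_le (Fin 4) k).fintype

/-- the vector of all derivatives of order at most `k` -/
def jet (k : ℕ) (f : V → ℝ) (y : V) : EuclideanSpace ℝ (Wd k) :=
  WithLp.toLp 2 fun l => DL l.1 f y

/-- second difference -/
def d2 (g : ℝ → ℝ) (e : ℝ) : ℝ := g e + g (-e) - 2 * g 0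

/-- averaged second difference quotient of `f` along the curves `ψ (y, ·)` -/
def Aop (η : ℝ) (f : V → ℝ) (ψ : V × ℝ → V) (y : V) : ℝ :=
  3 / η ^ 2 * ∫ s in (0 : ℝ)..1, d2 (fun e => f (ψ (y, e))) (s * η)

/-- its limit -/
def A0 (f : V → ℝ) (ψ : V × ℝ → V) (y : V) : ℝ :=
  deriv (deriv fun e => f (ψ (y, e))) 0

/-- a family of jump maps -/
structure Jmp {κ : Type} (O : κ → Set V) (ε : ℝ) (ψ : κ → V × ℝ → V) : Prop where
  op : ∀ x, IsOpen (O x)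
  bd : Bd (fun x => O x ×ˢ Ioo (-ε) ε) ψ
  zero : ∀ x, ∀ y ∈ O x, ψ x (y, 0) = y
  maps : ∀ x, ∀ y ∈ O x, ∀ e ∈ Ioo (-ε) ε, ψ x (y, e) ∈ ball (0 : V) 1

/-- Every point of a big ball is moved to a small ball by a transition map with uniform bounds. -/
def Cov {X ι : Type} (Φ : ι → V → X) : Prop :=
  ∃ (κ : Type) (src tgt : κ → ι) (O : κ → Set V) (T : κ → V → V), (∀ x, IsOpen (O x)) ∧
    Bd O T ∧ (∀ i, ∀ y ∈ ball (0 : V) 1, ∃ x, src x = i ∧ y ∈ O x) ∧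
    ∀ x, ∀ y ∈ O x, T x y ∈ ball (0 : V) (1 / 4) ∧ Φ (tgt x) (T x y) = Φ (src x) y

/-- Data of a monotone scheme on a set `X` with charts `Φ i`. -/
structure Sch (X : Type) where
  ι : Type
  κ : Type
  B : Type
  A : Type
  [fB : Fintype B]
  [fA : Fintype A]
  [dA : DecidableEq A]
  Φ : ι → V → X
  ch : κ → ι
  O : κ → Set V
  ε : ℝ
  δ : ℝ
  c : ℝ
  θ : B → κ → V → ℝ
  r : B → A → κ → V → ℝ
  ψ : B → A → κ → V × ℝ → V
  G : (A → ℝ) → ℝ
  N : ℝ → ℝ → (X → ℝ) → X → ℝ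

attribute [instance] Sch.fB Sch.fA Sch.dA

namespace Sch
variable {X : Type} (S : Sch X)

/-- the operator in a chart -/
def Nl (η t : ℝ) (x : S.κ) (f : V → ℝ) (y : V) : ℝ :=
  ∑ b, S.θ b x y ^ 2 * S.G fun a => t * S.r b a x y + Aop η f (S.ψ b a x) y

/-- the limit operator in a chart -/
def N0 (t : ℝ) (x : S.κ) (f : V → ℝ) (y : V) : ℝ :=
  ∑ b, S.θ b x y ^ 2 * S.G fun a => t * S.r b a x y + A0 f (S.ψ b a x) y

structure Ok : Prop where
  cov : Cov S.Φ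
  loc : ∀ i, ∀ y ∈ ball (0 : V) (1 / 2), ∃ x, S.ch x = i ∧ y ∈ S.O x
  ε_pos : 0 < S.ε
  δ_pos : 0 < S.δ
  c_pos : 0 < S.c
  jmp : ∀ b a, Jmp S.O S.ε (S.ψ b a)
  sub : ∀ x, IsOpen (S.O x) ∧ S.O x ⊆ ball 0 1
  θb : ∀ b, Bd S.O (S.θ b)
  rb : ∀ b a, Bd S.O (S.r b a)
  Gs : ContDiffOn ℝ ∞ S.G (ball 0 (2 * S.δ))
  Gm : ∀ z ∈ closedBall (0 : S.A → ℝ) S.δ, ∀ a, S.c ≤ fderiv ℝ S.G z (Pi.single a 1)
  op : ∀ η ∈ Ioo 0 S.ε, ∀ (t : ℝ) (f : X → ℝ) (x : S.κ), ∀ y ∈ S.O x,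
    S.N η t f (S.Φ (S.ch x) y) = S.Nl η t x (fun w => f (S.Φ (S.ch x) w)) y

/-- smooth in all charts -/
def Sm (f : X → ℝ) : Prop := ∀ i, ContDiffOn ℝ ∞ (fun w => f (S.Φ i w)) (ball 0 1)

/-- derivatives up to order `k` are bounded by `M` in all charts -/
def JA (k : ℕ) (f : X → ℝ) (M : ℝ) : Prop :=
  ∀ i, ∀ y ∈ ball (0 : V) 1, JB k (fun w => f (S.Φ i w)) y M

/-- the weighted bound -/
def QB (χ : V → ℝ) (k : ℕ) (f : X → ℝ) (q : ℝ) : Prop :=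
  ∀ i, ∀ y ∈ ball (0 : V) 1, χ y ^ 2 * ‖jet k (fun w => f (S.Φ i w)) y‖ ^ 2 ≤ q

/-- the argument of `G` stays in the ball where `G` is monotone -/
def In (η t : ℝ) (f : X → ℝ) : Prop := ∀ x, ∀ y ∈ S.O x, ∀ b a,
  |t * S.r b a x y + Aop η (fun w => f (S.Φ (S.ch x) w)) (S.ψ b a x) y| ≤ S.δ

/-- the iterates with space step `η` and time step `h` -/
def it (η h : ℝ) : ℕ → X → ℝ
  | 0 => fun _ => 0
  | m + 1 => fun p => it η h m p + h * S.N η (m * h) (it η h m) p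

end Sch

/-- a cut-off function -/
structure Cut (χ : V → ℝ) : Prop where
  sm : ContDiff ℝ ∞ χ
  nn : ∀ y, 0 ≤ χ y ∧ χ y ≤ 1
  one : ∀ y ∈ ball (0 : V) (1 / 4), χ y = 1
  out : ∀ y, y ∉ ball (0 : V) (1 / 2) → χ y = 0

end

end Pool.Agent.MP_67f0e4_gt.EU
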