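import Pool.Agent.MP_67f0e4_gt.EU.Spec

/-! Block A: the atlas axioms and the scheme for the Monge-Ampere flow. -/

set_option autoImplicit false

open scoped ContDiff Topology
open Set Metric Filter

namespace Pool.Agent.MP_67f0e4_gt.EU

open K

noncomputable section

variable {X : Set C3}

/-- finitely many types of charts and a partition of unity -/
structure Atl (F : Fam X) where
  C : Type
  [fC : Fintype C]
  n : ℕ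
  typ : F.ι → C
  th : C → C3 → ℝ
  r : ℝ

attribute [instance] Atl.fC

/-- the diagonal map -/
def dg (d₁ d₂ : ℝ) (γ : ℂ) (u : V) : V := (d₁ * u.1, d₂ * γ * u.2)

structure Atl.Ok {F : Fam X} (A : Atl F) : Prop where
  n_pos : 0 < A.n
  r_pos : 0 < A.r
  sq : ∀ p ∈ X, ∑ c, A.th c p ^ 2 = 1
  thb : ∀ c, Bd (fun _ : F.ι => ball (0 : V) 1) fun i y => A.th c (F.Φ i y)
  same : ∀ i j, A.typ i = A.typ j → ∀ y ∈ ball (0 : V) (1 / 4), ∀ y' ∈ ball (0 : V) (1 / 4),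
    F.Φ i y = F.Φ j y' → ∃ (d₁ d₂ : ℝ) (γ : ℂ), 0 < d₁ ∧ 0 < d₂ ∧ γ ^ A.n = 1 ∧
      ∀ u : V, y + u ∈ ball (0 : V) 1 → y' + dg d₁ d₂ γ u ∈ ball (0 : V) 1 →
        F.Φ j (y' + dg d₁ d₂ γ u) = F.Φ i (y + u)
  trans : ∀ i, ∀ y₀ ∈ ball (0 : V) 1, ∀ c, (∃ᶠ y in 𝓝 y₀, A.th c (F.Φ i y) ≠ 0) →
    ∃ (j : F.ι) (T S : V → V), A.typ j = c ∧ T y₀ = 0 ∧ ContDiffOn ℂ ∞ T (ball y₀ A.r) ∧
      ContDiffOn ℂ ∞ S (ball 0 A.r) ∧ (∀ y ∈ ball y₀ A.r, ‖T y‖ ≤ 2 ∧ F.Φ j (T y) = F.Φ i y) ∧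
      (∀ w ∈ ball (0 : V) A.r, ‖S w‖ ≤ 2 ∧ F.Φ i (S w) = F.Φ j w) ∧ ∀ᶠ y in 𝓝 y₀, S (T y) = y

/-- chosen transition maps -/
structure Loc {F : Fam X} (A : Atl F) where
  s : ℝ
  O : F.ι × V → Set V
  j : A.C → F.ι × V → F.ι
  T : A.C → F.ι × V → V → V
  S : A.C → F.ι × V → V → V

structure Loc.Ok {F : Fam X} {A : Atl F} (L : Loc A) : Prop where
  s_pos : 0 < L.s
  s_le : L.s ≤ 1 / 8
  op : ∀ x, IsOpen (L.O x) ∧ L.O x ⊆ ball 0 1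
  mem : ∀ x : F.ι × V, x.2 ∈ ball (0 : V) 1 → x.2 ∈ L.O x ∧ ∀ c, L.T c x x.2 = 0
  typ : ∀ c x, A.typ (L.j c x) = c ∨ ∀ y ∈ L.O x, A.th c (F.Φ x.1 y) = 0
  Tb : ∀ c, Bd L.O (L.T c)
  Sb : ∀ c, Bd (fun _ => ball (0 : V) (2 * L.s)) (L.S c)
  Tm : ∀ c x, ∀ y ∈ L.O x, L.T c x y ∈ ball (0 : V) L.s ∧ F.Φ (L.j c x) (L.T c x y) = F.Φ x.1 y ∧
    L.S c x (L.T c x y) = y
  Sm : ∀ c x, ∀ w ∈ ball (0 : V) (2 * L.s), F.Φ x.1 (L.S c x w) = F.Φ (L.j c x) w ∧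
    (x.2 ∈ ball (0 : V) (1 / 2) → L.S c x w ∈ ball (0 : V) 1)

/-- the twelve directions -/
abbrev Dir := Fin 6 × Bool

/-- the monotone extension of `log det` -/
def Gh (z : Dir → ℝ) : ℝ :=
  Real.log ((1 + z (0, false) + z (0, true)) * (1 + z (1, false) + z (1, true)) -
      ((z (2, false) + z (2, true) - z (3, false) - z (3, true)) / 4) ^ 2 -
      ((z (4, false) + z (4, true) - z (5, false) - z (5, true)) / 4) ^ 2) +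
    (z (2, false) + z (2, true) + z (3, false) + z (3, true) + z (4, false) + z (4, true) +
      z (5, false) + z (5, true) - 4 * (z (0, false) + z (0, true) + z (1, false) + z (1, true))) / 8

/-- the unitary frame of `g` -/
def E1 (g : Hm) : V :=
  ((√(g 1 / hdet g) : ℝ), -(√(g 1 / hdet g) : ℝ) * ((g 2 : ℂ) + (g 3 : ℂ) * Complex.I) / (g 1 : ℂ))

def E2 (g : Hm) (γ : ℂ) : V := (0, γ / (√(g 1) : ℝ))

/-- the directions of the differences -/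
def fr (g : Hm) (γ : ℂ) (a : Dir) : V :=
  (if a.2 then Complex.I else 1) • ![E1 g, E2 g γ, E1 g + E2 g γ, E1 g - E2 g γ,
    E1 g + Complex.I • E2 g γ, E1 g - Complex.I • E2 g γ] a.1

/-- the `n`-th roots of unity -/
def rt (n : ℕ) (k : Fin n) : ℂ := Complex.exp (2 * Real.pi * Complex.I * (k : ℕ) / n)

/-- the contribution of one chart at the point `y`, before the weight -/
def term (n : ℕ) (η t : ℝ) (f ρ v : V → ℝ) (y : V) : ℝ :=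
  ∑ k : Fin n, Gh fun a => t * (qf (lv ρ y) (fr (lv f y) (rt n k) a) / 2) +
    Aop η v (fun q => q.1 + q.2 • fr (lv f y) (rt n k) a) y

open Classical in
/-- the global operator -/
def Nop {F : Fam X} (A : Atl F) (f ρ : C3 → ℝ) (η t : ℝ) (v : C3 → ℝ) (p : C3) : ℝ :=
  ∑ c, if h : ∃ q : F.ι × V, A.typ q.1 = c ∧ q.2 ∈ ball (0 : V) (1 / 4) ∧ F.Φ q.1 q.2 = p then
    A.th c p ^ 2 / A.n * term A.n η t (f ∘ F.Φ h.choose.1) (ρ ∘ F.Φ h.choose.1)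
      (v ∘ F.Φ h.choose.1) h.choose.2 else 0

/-- the scheme for a family of initial data -/
def sch {F : Fam X} {A : Atl F} (L : Loc A) {M : Type} (f ρ : M → C3 → ℝ) (ε δ c : ℝ) :
    Sch (M × C3) where
  ι := M × F.ι
  κ := M × {x : F.ι × V // x.2 ∈ ball (0 : V) (1 / 2)}
  B := A.C × Fin A.n
  A := Dir
  Φ i y := (i.1, F.Φ i.2 y)
  ch x := (x.1, x.2.1.1)
  O x := L.O x.2.1
  ε := ε
  δ := δ
  c := c
  θ b x y := A.th b.1 (F.Φ x.2.1.1 y) / √(A.n : ℝ)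
  r b a x y := qf (lv (ρ x.1 ∘ F.Φ (L.j b.1 x.2.1)) (L.T b.1 x.2.1 y))
    (fr (lv (f x.1 ∘ F.Φ (L.j b.1 x.2.1)) (L.T b.1 x.2.1 y)) (rt A.n b.2) a) / 2
  ψ b a x q := L.S b.1 x.2.1 (L.T b.1 x.2.1 q.1 +
    q.2 • fr (lv (f x.1 ∘ F.Φ (L.j b.1 x.2.1)) (L.T b.1 x.2.1 q.1)) (rt A.n b.2) a)
  G := Gh
  N η t v p := Nop A (f p.1) (ρ p.1) η t (fun p' => v (p.1, p')) p.2

/-- a family of initial data with uniform bounds -/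
structure Dat (F : Fam X) {M : Type} (f ρ : M → C3 → ℝ) (Λ : ℝ) : Prop where
  pos : 0 < Λ
  fs : ∀ m, XSm0 X (f m)
  ρs : ∀ m, XSm0 X (ρ m)
  ell : ∀ m, F.Ell Λ (f m)
  fb : ∀ k, ∃ C, ∀ m, F.Bnd k C (f m)
  ρb : ∀ k, ∃ C, ∀ m, F.Bnd k C (ρ m)

/-- short time existence for data with bounds of all orders -/
def EXF (F : Fam X) (ψ : C3 → ℝ) : Prop :=
  ∀ (Λ : ℝ) (M : ℕ → ℝ), 0 < Λ → ∃ τ > 0, ∀ f : C3 → ℝ, XSm0 X f → F.Ell Λ f →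
    (∀ k, F.Bnd k (M k) f) → ∃ φ : ℝ → C3 → ℝ, (∀ p ∈ X, φ 0 p = f p) ∧ F.GFlow ψ τ φ

/-- uniqueness -/
def UNI (F : Fam X) (ψ : C3 → ℝ) : Prop :=
  ∀ (τ : ℝ) (φ φ' : ℝ → C3 → ℝ), 0 < τ → F.GFlow ψ τ φ → F.GFlow ψ τ φ' →
    (∀ p ∈ X, φ 0 p = φ' 0 p) → ∀ t ∈ Icc 0 τ, ∀ p ∈ X, φ t p = φ' t p

end

end Pool.Agent.MP_67f0e4_gt.EU
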