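import Pool.Agent.MP_67f0e4_gt.EU.KitD

/-! Block A: closure properties of uniformly bounded families. -/

set_option autoImplicit false

open scoped ContDiff Topology
open Set Metric Filter

namespace Pool.Agent.MP_67f0e4_gt.EU

noncomputable section

open K

theorem nat_le_inf (n : ℕ) : (n : WithTop ℕ∞) ≤ ∞ := by exact_mod_cast le_top

section Gen
variable {E W W' W'' κ : Type} [NormedAddCommGroup E] [NormedSpace ℝ E] [NormedAddCommGroup W]
  [NormedSpace ℝ W] [NormedAddCommGroup W'] [NormedSpace ℝ W'] [NormedAddCommGroup W'']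
  [NormedSpace ℝ W''] {U : κ → Set E} {F G : κ → E → W}

theorem upto {P : κ → E → Prop} {a : ℕ → κ → E → ℝ}
    (h : ∀ n, ∃ C : ℝ, ∀ x y, P x y → a n x y ≤ C) (n : ℕ) :
    ∃ C : ℝ, 1 ≤ C ∧ ∀ i ≤ n, ∀ x y, P x y → a i x y ≤ C := by
  choose C hC using h
  refine ⟨1 + ∑ i ∈ Finset.range (n + 1), |C i|,
    le_add_of_nonneg_right (Finset.sum_nonneg fun i _ => abs_nonneg _), fun i hi x y hy => ?_⟩
  have h1 := Finset.single_le_sum (f := fun i => |C i|) (fun i _ => abs_nonneg _)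
    (Finset.mem_range.2 (Nat.lt_succ_of_le hi))
  linarith [hC i x y hy, le_abs_self (C i)]

theorem Bd.upto (h : Bd U F) (n : ℕ) :
    ∃ C : ℝ, 1 ≤ C ∧ ∀ i ≤ n, ∀ x, ∀ y ∈ U x, ‖iteratedFDeriv ℝ i (F x) y‖ ≤ C :=
  EU.upto (P := fun x y => y ∈ U x) (a := fun i x y => ‖iteratedFDeriv ℝ i (F x) y‖) h.2 n

theorem Bd.bound0 (h : Bd U F) : ∃ C : ℝ, 1 ≤ C ∧ ∀ x, ∀ y ∈ U x, ‖F x y‖ ≤ C := by
  obtain ⟨C, h1, h2⟩ := h.upto 0
  exact ⟨C, h1, fun x y hy => by simpa only [norm_iteratedFDeriv_zero] using h2 0 le_rfl x y hy⟩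

theorem Bd.mono {U' : κ → Set E} (h : Bd U F) (hU : ∀ x, U' x ⊆ U x) : Bd U' F :=
  ⟨fun x => (h.1 x).mono (hU x), fun n => (h.2 n).imp fun _ hC x y hy => hC x y (hU x hy)⟩

theorem Bd.reindex {κ' : Type} (h : Bd U F) (σ : κ' → κ) :
    Bd (fun x => U (σ x)) fun x => F (σ x) :=
  ⟨fun x => h.1 (σ x), fun n => (h.2 n).imp fun _ hC x => hC (σ x)⟩

theorem Bd.congr (hU : ∀ x, IsOpen (U x)) (h : Bd U F) (hG : ∀ x, ∀ y ∈ U x, G x y = F x y) :
    Bd U G :=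
  ⟨fun x => (h.1 x).congr (hG x), fun n => (h.2 n).imp fun _ hC x y hy => by
    have h1 : G x =ᶠ[𝓝 y] F x := eventually_of_mem ((hU x).mem_nhds hy) (hG x)
    rw [(h1.iteratedFDeriv ℝ n).self_of_nhds]
    exact hC x y hy⟩

theorem Bd.const {c : κ → W} {C : ℝ} (h : ∀ x, ∀ y ∈ U x, ‖c x‖ ≤ C) : Bd U fun x _ => c x := by
  refine ⟨fun x => contDiffOn_const, fun n => ?_⟩
  cases n with
  | zero => exact ⟨C, fun x y hy => by simpa only [norm_iteratedFDeriv_zero] using h x y hy⟩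
  | succ n => exact ⟨0, fun x y _ => by simp [iteratedFDeriv_succ_const]⟩

theorem Bd.const' (c : W) : Bd U fun _ _ => c := Bd.const (C := ‖c‖) fun _ _ _ => le_rfl

theorem Bd.add (hU : ∀ x, IsOpen (U x)) (h : Bd U F) (h' : Bd U G) :
    Bd U fun x y => F x y + G x y := by
  refine ⟨fun x => (h.1 x).add (h'.1 x), fun n => ?_⟩
  obtain ⟨C, hC⟩ := h.2 n
  obtain ⟨C', hC'⟩ := h'.2 n
  refine ⟨C + C', fun x y hy => ?_⟩
  have hy' := (hU x).mem_nhds hy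
  rw [fun_iteratedFDeriv_add_apply (((h.1 x).contDiffAt hy').of_le (nat_le_inf n))
    (((h'.1 x).contDiffAt hy').of_le (nat_le_inf n))]
  exact (norm_add_le _ _).trans (add_le_add (hC x y hy) (hC' x y hy))

/-- composition with a bounded family of linear maps -/
theorem Bd.clm_fam (hU : ∀ x, IsOpen (U x)) (h : Bd U F) (L : κ → W →L[ℝ] W') {R : ℝ}
    (hL : ∀ x, ‖L x‖ ≤ R) : Bd U fun x y => L x (F x y) := by
  refine ⟨fun x => (L x).contDiff.comp_contDiffOn (h.1 x), fun n => ?_⟩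
  obtain ⟨C, hC⟩ := h.2 n
  exact ⟨R * C, fun x y hy => ((L x).norm_iteratedFDeriv_comp_left
    ((h.1 x).contDiffAt ((hU x).mem_nhds hy)) (nat_le_inf n)).trans
      (mul_le_mul (hL x) (hC x y hy) (norm_nonneg _) ((norm_nonneg _).trans (hL x)))⟩

theorem Bd.clm_comp (hU : ∀ x, IsOpen (U x)) (h : Bd U F) (L : W →L[ℝ] W') :
    Bd U fun x y => L (F x y) := h.clm_fam hU (fun _ => L) fun _ => le_rfl

theorem Bd.neg (hU : ∀ x, IsOpen (U x)) (h : Bd U F) : Bd U fun x y => -F x y :=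
  h.clm_comp hU (-ContinuousLinearMap.id ℝ W)

theorem Bd.sub (hU : ∀ x, IsOpen (U x)) (h : Bd U F) (h' : Bd U G) :
    Bd U fun x y => F x y - G x y := by
  simpa only [sub_eq_add_neg] using h.add hU (h'.neg hU)

theorem Bd.sum {ι : Type} (hU : ∀ x, IsOpen (U x)) (s : Finset ι) {H : ι → κ → E → W}
    (h : ∀ i ∈ s, Bd U (H i)) : Bd U fun x y => ∑ i ∈ s, H i x y := by
  classical
  induction s using Finset.induction_on with
  | empty => simpa only [Finset.sum_empty] using Bd.const' (0 : W)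
  | insert i s hi ih =>
    simpa only [Finset.sum_insert hi] using (h i (Finset.mem_insert_self _ _)).add hU
      (ih fun j hj => h j (Finset.mem_insert_of_mem hj))

theorem Bd.bilin (hU : ∀ x, IsOpen (U x)) (B : W →L[ℝ] W' →L[ℝ] W'') {H : κ → E → W'}
    (h : Bd U F) (h' : Bd U H) : Bd U fun x y => B (F x y) (H x y) := by
  refine ⟨fun x => (B.contDiff.comp_contDiffOn (h.1 x)).clm_apply (h'.1 x), fun n => ?_⟩
  obtain ⟨C, c1, hC⟩ := h.upto n
  obtain ⟨C', c1', hC'⟩ := h'.upto n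
  refine ⟨‖B‖ * ∑ i ∈ Finset.range (n + 1), (n.choose i : ℝ) * C * C', fun x y hy => ?_⟩
  have h1 := B.norm_iteratedFDerivWithin_le_of_bilinear (h.1 x) (h'.1 x) (hU x).uniqueDiffOn hy
    (nat_le_inf n)
  simp only [iteratedFDerivWithin_of_isOpen _ (hU x) hy] at h1
  refine h1.trans (mul_le_mul_of_nonneg_left (Finset.sum_le_sum fun i hi => ?_) B.opNorm_nonneg)
  exact mul_le_mul (mul_le_mul_of_nonneg_left
    (hC i (Nat.lt_succ_iff.1 (Finset.mem_range.1 hi)) x y hy) (Nat.cast_nonneg _))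
    (hC' _ (Nat.sub_le _ _) x y hy) (norm_nonneg _) (by positivity)

theorem Bd.mul {A : Type} [NormedRing A] [NormedAlgebra ℝ A] (hU : ∀ x, IsOpen (U x))
    {a b : κ → E → A} (h : Bd U a) (h' : Bd U b) : Bd U fun x y => a x y * b x y :=
  h.bilin hU (ContinuousLinearMap.mul ℝ A) h'

theorem Bd.smul (hU : ∀ x, IsOpen (U x)) {a : κ → E → ℝ} (h : Bd U a) (h' : Bd U F) :
    Bd U fun x y => a x y • F x y := h.bilin hU (ContinuousLinearMap.lsmul ℝ ℝ) h'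

theorem Bd.csmul (hU : ∀ x, IsOpen (U x)) {a : κ → E → ℂ} {H : κ → E → V} (h : Bd U a)
    (h' : Bd U H) : Bd U fun x y => a x y • H x y :=
  h.bilin hU (ContinuousLinearMap.lsmul ℝ ℂ) h'

theorem Bd.clm_apply (hU : ∀ x, IsOpen (U x)) {L : κ → E → W →L[ℝ] W'} (h : Bd U L)
    (h' : Bd U F) : Bd U fun x y => L x y (F x y) :=
  h.bilin hU (ContinuousLinearMap.id ℝ (W →L[ℝ] W')) h'

theorem Bd.const_mul (hU : ∀ x, IsOpen (U x)) {a : κ → E → ℝ} (h : Bd U a) (c : ℝ) :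
    Bd U fun x y => c * a x y := (Bd.const' c).mul hU h

theorem Bd.div_const (hU : ∀ x, IsOpen (U x)) {a : κ → E → ℝ} (h : Bd U a) (c : ℝ) :
    Bd U fun x y => a x y / c := by
  simpa only [div_eq_mul_inv] using h.mul hU (Bd.const' c⁻¹)

theorem Bd.fprod {ι A : Type} [NormedCommRing A] [NormedAlgebra ℝ A] (hU : ∀ x, IsOpen (U x))
    (s : Finset ι) {a : ι → κ → E → A} (h : ∀ i ∈ s, Bd U (a i)) :
    Bd U fun x y => ∏ i ∈ s, a i x y := by
  classical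
  induction s using Finset.induction_on with
  | empty => simpa only [Finset.prod_empty] using Bd.const' (1 : A)
  | insert i s hi ih =>
    simpa only [Finset.prod_insert hi] using (h i (Finset.mem_insert_self _ _)).mul hU
      (ih fun j hj => h j (Finset.mem_insert_of_mem hj))

theorem Bd.pow {A : Type} [NormedRing A] [NormedAlgebra ℝ A] (hU : ∀ x, IsOpen (U x))
    {a : κ → E → A} (h : Bd U a) (n : ℕ) : Bd U fun x y => a x y ^ n := by
  induction n with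
  | zero => simpa only [pow_zero] using Bd.const' (1 : A)
  | succ n ih => simpa only [pow_succ] using ih.mul hU h

theorem Bd.prod (hU : ∀ x, IsOpen (U x)) {H : κ → E → W'} (h : Bd U F) (h' : Bd U H) :
    Bd U fun x y => (F x y, H x y) := by
  simpa using (h.clm_comp hU (ContinuousLinearMap.inl ℝ W W')).add hU
    (h'.clm_comp hU (ContinuousLinearMap.inr ℝ W W'))

theorem Bd.fst (hU : ∀ x, IsOpen (U x)) {H : κ → E → W × W'} (h : Bd U H) :
    Bd U fun x y => (H x y).1 := h.clm_comp hU (ContinuousLinearMap.fst ℝ W W')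

theorem Bd.snd (hU : ∀ x, IsOpen (U x)) {H : κ → E → W × W'} (h : Bd U H) :
    Bd U fun x y => (H x y).2 := h.clm_comp hU (ContinuousLinearMap.snd ℝ W W')

theorem Bd.pi {ι : Type} [Fintype ι] (hU : ∀ x, IsOpen (U x)) {H : ι → κ → E → W}
    (h : ∀ i, Bd U (H i)) : Bd U fun x y i => H i x y := by
  classical
  refine (Bd.sum hU Finset.univ fun i _ =>
    (h i).clm_comp hU (ContinuousLinearMap.single ℝ (fun _ : ι => W) i)).congr hU fun x y _ => ?_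
  exact (Finset.univ_sum_single fun i => H i x y).symm

theorem Bd.apply {ι : Type} [Fintype ι] (hU : ∀ x, IsOpen (U x)) {H : κ → E → ι → W}
    (h : Bd U H) (i : ι) : Bd U fun x y => H x y i :=
  h.clm_comp hU (ContinuousLinearMap.proj (R := ℝ) (φ := fun _ : ι => W) i)

/-- The general composition lemma: no bound on the values of the inner map is needed, and the
outer map is bounded only along the values. -/
theorem Bd.comp_gen {Z : κ → Set W} {g : κ → W → W'} (hU : ∀ x, IsOpen (U x))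
    (hZ : ∀ x, IsOpen (Z x)) (hg : ∀ x, ContDiffOn ℝ ∞ (g x) (Z x))
    (hF : ∀ x, ContDiffOn ℝ ∞ (F x) (U x)) (hm : ∀ x, ∀ y ∈ U x, F x y ∈ Z x)
    (bg : ∀ n, ∃ C : ℝ, ∀ x, ∀ y ∈ U x, ‖iteratedFDeriv ℝ n (g x) (F x y)‖ ≤ C)
    (bF : ∀ n, ∃ C : ℝ, ∀ x, ∀ y ∈ U x, ‖iteratedFDeriv ℝ (n + 1) (F x) y‖ ≤ C) :
    Bd U fun x y => g x (F x y) := by
  refine ⟨fun x => (hg x).comp (hF x) (hm x), fun n => ?_⟩
  obtain ⟨C, -, hC⟩ := EU.upto (P := fun x y => y ∈ U x)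
    (a := fun i x y => ‖iteratedFDeriv ℝ i (g x) (F x y)‖) bg n
  obtain ⟨R, r1, hR⟩ := EU.upto (P := fun x y => y ∈ U x)
    (a := fun i x y => ‖iteratedFDeriv ℝ (i + 1) (F x) y‖) bF n
  refine ⟨n.factorial * C * R ^ n, fun x y hy => ?_⟩
  have h1 := norm_iteratedFDerivWithin_comp_le (hg x) (hF x) (nat_le_inf n) (hZ x).uniqueDiffOn
    (hU x).uniqueDiffOn (hm x) hy (C := C) (D := R)
    (fun i hi => by
      rw [iteratedFDerivWithin_of_isOpen _ (hZ x) (hm x y hy)]; exact hC i hi x y hy)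
    fun i i1 hi => by
      obtain ⟨j, rfl⟩ := Nat.exists_eq_add_of_le' i1
      rw [iteratedFDerivWithin_of_isOpen _ (hU x) hy]
      exact (hR j (Nat.le_of_succ_le hi) x y hy).trans (le_self_pow₀ r1 (Nat.succ_ne_zero j))
  rw [iteratedFDerivWithin_of_isOpen _ (hU x) hy] at h1
  exact h1

theorem Bd.comp {Z : κ → Set W} {g : κ → W → W'} (hU : ∀ x, IsOpen (U x))
    (hZ : ∀ x, IsOpen (Z x)) (hg : Bd Z g) (hF : Bd U F) (hm : ∀ x, ∀ y ∈ U x, F x y ∈ Z x) :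
    Bd U fun x y => g x (F x y) :=
  Bd.comp_gen hU hZ hg.1 hF.1 hm (fun n => (hg.2 n).imp fun _ hC x y hy => hC x _ (hm x y hy))
    fun n => hF.2 (n + 1)

theorem cpt_bound {Z Q : Set W} {g : W → W'} (hZ : IsOpen Z) (hQ : IsCompact Q) (hQZ : Q ⊆ Z)
    (hg : ContDiffOn ℝ ∞ g Z) (n : ℕ) : ∃ C : ℝ, ∀ w ∈ Q, ‖iteratedFDeriv ℝ n g w‖ ≤ C :=
  hQ.exists_bound_of_continuousOn fun _ hw => ((hg.contDiffAt
    (hZ.mem_nhds (hQZ hw))).continuousAt_iteratedFDeriv (nat_le_inf n)).continuousWithinAt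

theorem Bd.comp_cpt {Z Q : Set W} {g : W → W'} (hU : ∀ x, IsOpen (U x)) (hZ : IsOpen Z)
    (hQ : IsCompact Q) (hQZ : Q ⊆ Z) (hg : ContDiffOn ℝ ∞ g Z) (hF : Bd U F)
    (hm : ∀ x, ∀ y ∈ U x, F x y ∈ Q) : Bd U fun x y => g (F x y) :=
  Bd.comp_gen (Z := fun _ => Z) (g := fun _ => g) hU (fun _ => hZ) (fun _ => hg) hF.1
    (fun x y hy => hQZ (hm x y hy))
    (fun n => (cpt_bound hZ hQ hQZ hg n).imp fun _ hC x y hy => hC _ (hm x y hy))
    fun n => hF.2 (n + 1)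

/-- a smooth function on sets inside a fixed compact set -/
theorem Bd.of_cpt {Z Q : Set E} {g : E → W} (hZ : IsOpen Z) (hQ : IsCompact Q) (hQZ : Q ⊆ Z)
    (hg : ContDiffOn ℝ ∞ g Z) (hm : ∀ x, U x ⊆ Q) : Bd U fun _ => g :=
  ⟨fun x => hg.mono ((hm x).trans hQZ),
    fun n => (cpt_bound hZ hQ hQZ hg n).imp fun _ hC x y hy => hC y (hm x hy)⟩

/-- a smooth function of a bounded family with values in a finite dimensional space -/
theorem Bd.comp_smooth [ProperSpace W] {g : W → W'} (hU : ∀ x, IsOpen (U x))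
    (hg : ContDiff ℝ ∞ g) (hF : Bd U F) : Bd U fun x y => g (F x y) := by
  obtain ⟨C, -, hC⟩ := hF.bound0
  exact hF.comp_cpt hU isOpen_univ (isCompact_closedBall 0 C) (subset_univ _) hg.contDiffOn
    fun x y hy => mem_closedBall_zero_iff.2 (hC x y hy)

theorem norm_iter_affine (L : E →L[ℝ] W) (c : W) (n : ℕ) (y : E) :
    ‖iteratedFDeriv ℝ (n + 1) (fun w => c + L w) y‖ ≤ ‖L‖ := by
  have h : fderiv ℝ (fun w => c + L w) = fun _ => L := by
    funext w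
    rw [fderiv_const_add, L.fderiv]
  rw [← norm_iteratedFDeriv_fderiv, h]
  cases n with
  | zero => rw [norm_iteratedFDeriv_zero]
  | succ n => simp [iteratedFDeriv_succ_const]

/-- precomposition with a bounded family of affine maps -/
theorem Bd.comp_affine {Z : κ → Set W} {g : κ → W → W'} (hU : ∀ x, IsOpen (U x))
    (hZ : ∀ x, IsOpen (Z x)) (hg : Bd Z g) (L : κ → E →L[ℝ] W) (c : κ → W) {R : ℝ}
    (hL : ∀ x, ‖L x‖ ≤ R) (hm : ∀ x, ∀ y ∈ U x, c x + L x y ∈ Z x) :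
    Bd U fun x y => g x (c x + L x y) :=
  Bd.comp_gen (F := fun x y => c x + L x y) hU hZ hg.1
    (fun x => (contDiff_const.add (L x).contDiff).contDiffOn) hm
    (fun n => (hg.2 n).imp fun _ hC x y hy => hC x _ (hm x y hy))
    fun n => ⟨R, fun x y _ => (norm_iter_affine _ _ n y).trans (hL x)⟩

theorem Bd.comp_clm {Z : κ → Set W} {g : κ → W → W'} (hU : ∀ x, IsOpen (U x))
    (hZ : ∀ x, IsOpen (Z x)) (hg : Bd Z g) (L : E →L[ℝ] W) (hm : ∀ x, ∀ y ∈ U x, L y ∈ Z x) :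
    Bd U fun x y => g x (L y) := by
  simpa only [zero_add] using hg.comp_affine hU hZ (fun _ => L) (fun _ => 0) (fun _ => le_rfl)
    fun x y hy => by rw [zero_add]; exact hm x y hy

theorem Bd.comp_fst {E' : Type} [NormedAddCommGroup E'] [NormedSpace ℝ E'] {J : κ → Set E'}
    (hU : ∀ x, IsOpen (U x)) (hJ : ∀ x, IsOpen (J x)) (h : Bd U F) :
    Bd (fun x => U x ×ˢ J x) fun x q => F x q.1 :=
  h.comp_clm (fun x => (hU x).prod (hJ x)) hU (ContinuousLinearMap.fst ℝ E E') fun _ _ hy => hy.1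

/-- slices of a family on a product -/
theorem Bd.slice {E' : Type} [NormedAddCommGroup E'] [NormedSpace ℝ E'] {J : κ → Set E'}
    {H : κ → E × E' → W} (hU : ∀ x, IsOpen (U x)) (hJ : ∀ x, IsOpen (J x))
    (h : Bd (fun x => U x ×ˢ J x) H) (c : κ → E') (hc : ∀ x, c x ∈ J x) :
    Bd U fun x y => H x (y, c x) := by
  simpa using h.comp_affine hU (fun x => (hU x).prod (hJ x))
    (fun _ => ContinuousLinearMap.inl ℝ E E') (fun x => (0, c x)) (fun _ => le_rfl)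
    fun x y hy => by simpa using ⟨hy, hc x⟩

theorem Bd.affine (L : κ → E →L[ℝ] W) (c : κ → W) {R R' : ℝ} (hL : ∀ x, ‖L x‖ ≤ R)
    (hb : ∀ x, ∀ y ∈ U x, ‖c x + L x y‖ ≤ R') : Bd U fun x y => c x + L x y := by
  refine ⟨fun x => (contDiff_const.add (L x).contDiff).contDiffOn, fun n => ?_⟩
  cases n with
  | zero => exact ⟨R', fun x y hy => by simpa only [norm_iteratedFDeriv_zero] using hb x y hy⟩
  | succ n => exact ⟨R, fun x y _ => (norm_iter_affine _ _ n y).trans (hL x)⟩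

theorem Bd.clm (L : E →L[ℝ] W) {R : ℝ} (hb : ∀ x, ∀ y ∈ U x, ‖L y‖ ≤ R) : Bd U fun _ y => L y := by
  simpa only [zero_add] using Bd.affine (U := U) (fun _ => L) (fun _ => 0) (fun _ => le_rfl)
    (R' := R) fun x y hy => by rw [zero_add]; exact hb x y hy

theorem Bd.id {R : ℝ} (hb : ∀ x, ∀ y ∈ U x, ‖y‖ ≤ R) : Bd U fun _ y => y :=
  Bd.clm (ContinuousLinearMap.id ℝ E) hb

theorem Bd.fderiv (hU : ∀ x, IsOpen (U x)) (h : Bd U F) : Bd U fun x => fderiv ℝ (F x) :=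
  ⟨fun x => (h.1 x).fderiv_of_isOpen (hU x) (m := ∞) le_rfl, fun n =>
    (h.2 (n + 1)).imp fun _ hC x y hy => by rw [norm_iteratedFDeriv_fderiv]; exact hC x y hy⟩

theorem Bd.fderiv_apply (hU : ∀ x, IsOpen (U x)) (h : Bd U F) (v : E) :
    Bd U fun x y => _root_.fderiv ℝ (F x) y v :=
  (h.fderiv hU).clm_comp hU (ContinuousLinearMap.apply ℝ W v)

variable {a : κ → E → ℝ}

theorem Bd.D (hU : ∀ x, IsOpen (U x)) (h : Bd U a) (v : E) : Bd U fun x => D v (a x) :=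
  h.fderiv_apply hU v

theorem Bd.dw (hU : ∀ x, IsOpen (U x)) (h : Bd U a) (l : List E) : Bd U fun x => dw l (a x) := by
  induction l with
  | nil => exact h
  | cons v l ih => exact ih.D hU v

theorem Bd.abs_le (h : Bd U a) : ∃ C : ℝ, 1 ≤ C ∧ ∀ x, ∀ y ∈ U x, |a x y| ≤ C := h.bound0

theorem Bd.dw_le (hU : ∀ x, IsOpen (U x)) (h : Bd U a) (l : List E) :
    ∃ C : ℝ, 1 ≤ C ∧ ∀ x, ∀ y ∈ U x, |EU.dw l (a x) y| ≤ C := (h.dw hU l).bound0

/-- functions that are smooth on the positive reals -/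
theorem Bd.comp_pos {g : ℝ → W} (hU : ∀ x, IsOpen (U x)) (hg : ContDiffOn ℝ ∞ g (Ioi 0))
    (h : Bd U a) {c : ℝ} (hc : 0 < c) (hb : ∀ x, ∀ y ∈ U x, c ≤ a x y) :
    Bd U fun x y => g (a x y) := by
  obtain ⟨C, -, hC⟩ := h.abs_le
  exact h.comp_cpt hU isOpen_Ioi (isCompact_Icc (a := c) (b := C))
    (fun t ht => hc.trans_le ht.1) hg fun x y hy => ⟨hb x y hy, (le_abs_self _).trans (hC x y hy)⟩

theorem Bd.inv (hU : ∀ x, IsOpen (U x)) (h : Bd U a) {c : ℝ} (hc : 0 < c)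
    (hb : ∀ x, ∀ y ∈ U x, c ≤ a x y) : Bd U fun x y => (a x y)⁻¹ :=
  h.comp_pos (g := fun t => t⁻¹) hU (contDiffOn_id.inv fun _ ht => ne_of_gt ht) hc hb

theorem Bd.log (hU : ∀ x, IsOpen (U x)) (h : Bd U a) {c : ℝ} (hc : 0 < c)
    (hb : ∀ x, ∀ y ∈ U x, c ≤ a x y) : Bd U fun x y => Real.log (a x y) :=
  h.comp_pos (g := Real.log) hU (contDiffOn_id.log fun _ ht => ne_of_gt ht) hc hb

theorem Bd.sqrt (hU : ∀ x, IsOpen (U x)) (h : Bd U a) {c : ℝ} (hc : 0 < c)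
    (hb : ∀ x, ∀ y ∈ U x, c ≤ a x y) : Bd U fun x y => √(a x y) :=
  h.comp_pos (g := fun t => √t) hU (contDiffOn_id.sqrt fun _ ht => ne_of_gt ht) hc hb

end Gen

section Coord
variable {κ : Type} {U : κ → Set V} {a : κ → V → ℝ}

theorem Bd.DL (hU : ∀ x, IsOpen (U x)) (h : Bd U a) (l : List (Fin 4)) :
    Bd U fun x => DL l (a x) := by
  simp only [DL_eq_dw]; exact h.dw hU _

theorem Bd.DL_le (hU : ∀ x, IsOpen (U x)) (h : Bd U a) (l : List (Fin 4)) :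
    ∃ C : ℝ, 1 ≤ C ∧ ∀ x, ∀ y ∈ U x, |K.DL l (a x) y| ≤ C := (h.DL hU l).bound0

theorem Bd.JB (hU : ∀ x, IsOpen (U x)) (h : Bd U a) (k : ℕ) :
    ∃ C : ℝ, 1 ≤ C ∧ ∀ x, ∀ y ∈ U x, JB k (a x) y C := by
  obtain ⟨C, h1, h2⟩ := h.upto k
  exact ⟨C, h1, fun x y hy l hl => (abs_DL_le (hU x) (h.1 x) l hy).trans (h2 _ hl x y hy)⟩

theorem Bd_of_JB (hU : ∀ x, IsOpen (U x)) (hs : ∀ x, ContDiffOn ℝ ∞ (a x) (U x))
    (h : ∀ k, ∃ C : ℝ, ∀ x, ∀ y ∈ U x, JB k (a x) y C) : Bd U a :=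
  ⟨hs, fun n => (h n).elim fun C hC => ⟨4 ^ n * C, fun x y hy =>
    norm_iter_le (hU x) (hs x) hy n fun l hl => hC x y hy l hl.le⟩⟩

theorem JB_of_words (h : ∀ l : List (Fin 4), ∃ C : ℝ, ∀ x, ∀ y ∈ U x, |DL l (a x) y| ≤ C) (k : ℕ) :
    ∃ C : ℝ, 1 ≤ C ∧ ∀ x, ∀ y ∈ U x, JB k (a x) y C := by
  choose C hC using h
  refine ⟨1 + ∑ l : Wd k, |C l.1|,
    le_add_of_nonneg_right (Finset.sum_nonneg fun i _ => abs_nonneg _), fun x y hy l hl => ?_⟩
  have h1 := Finset.single_le_sum (f := fun l : Wd k => |C l.1|) (fun i _ => abs_nonneg _)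
    (Finset.mem_univ ⟨l, hl⟩)
  linarith [hC l x y hy, le_abs_self (C l)]

theorem Bd_of_words (hU : ∀ x, IsOpen (U x)) (hs : ∀ x, ContDiffOn ℝ ∞ (a x) (U x))
    (h : ∀ l : List (Fin 4), ∃ C : ℝ, ∀ x, ∀ y ∈ U x, |DL l (a x) y| ≤ C) : Bd U a :=
  Bd_of_JB hU hs fun k => (JB_of_words h k).imp fun _ hC => hC.2

end Coord

end

end Pool.Agent.MP_67f0e4_gt.EU
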