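import Pool.Agent.MP_67f0e4_gt.EU.Defs
import Pool.Agent.MP_67f0e4_gt.K.Alg

/-! Block A: calculus of words of derivatives. -/

set_option autoImplicit false

open scoped ContDiff Topology
open Set Metric Filter

namespace Pool.Agent.MP_67f0e4_gt.EU

noncomputable section

open K

section Gen
variable {E : Type} [NormedAddCommGroup E] [NormedSpace ℝ E] {O : Set E} {f g : E → ℝ} {y : E}

theorem dw_nil (f : E → ℝ) : dw [] f = f := rfl

theorem dw_cons (v : E) (l : List E) (f : E → ℝ) : dw (v :: l) f = D v (dw l f) := rfl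

theorem dw_append (l m : List E) (f : E → ℝ) : dw (l ++ m) f = dw l (dw m f) := by
  induction l with
  | nil => rfl
  | cons v l ih => rw [List.cons_append, dw_cons, dw_cons, ih]

theorem dw_concat (l : List E) (v : E) (f : E → ℝ) : dw (l ++ [v]) f = dw l (D v f) :=
  dw_append l [v] f

theorem D_congr (h : f =ᶠ[𝓝 y] g) (v : E) : D v f =ᶠ[𝓝 y] D v g :=
  (h.fderiv (𝕜 := ℝ)).mono fun _ hw => congrArg (fun L : E →L[ℝ] ℝ => L v) hw

theorem dw_congr (h : f =ᶠ[𝓝 y] g) (l : List E) : dw l f =ᶠ[𝓝 y] dw l g := by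
  induction l with
  | nil => exact h
  | cons v l ih => exact D_congr ih v

theorem dw_congr_at (h : f =ᶠ[𝓝 y] g) (l : List E) : dw l f y = dw l g y :=
  (dw_congr h l).self_of_nhds

theorem dw_congr_on (hO : IsOpen O) (h : EqOn f g O) (l : List E) : EqOn (dw l f) (dw l g) O :=
  fun _ hy => dw_congr_at (h.eventuallyEq_of_mem (hO.mem_nhds hy)) l

theorem D_smooth (hO : IsOpen O) (hf : ContDiffOn ℝ ∞ f O) (v : E) : ContDiffOn ℝ ∞ (D v f) O :=
  (hf.fderiv_of_isOpen hO (m := ∞) le_rfl).clm_apply contDiffOn_const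

theorem dw_smooth (hO : IsOpen O) (hf : ContDiffOn ℝ ∞ f O) (l : List E) :
    ContDiffOn ℝ ∞ (dw l f) O := by
  induction l with
  | nil => exact hf
  | cons v l ih => exact D_smooth hO ih v

theorem diffAt {W : Type} [NormedAddCommGroup W] [NormedSpace ℝ W] {F : E → W} (hO : IsOpen O)
    (hf : ContDiffOn ℝ ∞ F O) (hy : y ∈ O) : DifferentiableAt ℝ F y :=
  (hf.contDiffAt (hO.mem_nhds hy)).differentiableAt (by simp)

theorem D_add (hf : DifferentiableAt ℝ f y) (hg : DifferentiableAt ℝ g y) (v : E) :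
    D v (fun w => f w + g w) y = D v f y + D v g y := by
  simp only [D, fderiv_fun_add hf hg, add_apply]

theorem D_sub (hf : DifferentiableAt ℝ f y) (hg : DifferentiableAt ℝ g y) (v : E) :
    D v (fun w => f w - g w) y = D v f y - D v g y := by
  simp only [D, fderiv_fun_sub hf hg, sub_apply]

theorem D_mul (hf : DifferentiableAt ℝ f y) (hg : DifferentiableAt ℝ g y) (v : E) :
    D v (fun w => f w * g w) y = D v f y * g y + f y * D v g y := by
  simp only [D, fderiv_fun_mul hf hg, add_apply,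
    smul_apply, smul_eq_mul]
  ring

theorem D_const (c : ℝ) (v : E) : D v (fun _ : E => c) = fun _ => 0 := by
  funext y
  simp [D]

theorem D_const_mul (c : ℝ) (f : E → ℝ) (v : E) :
    D v (fun w => c * f w) = fun w => c * D v f w := by
  funext y
  have h := fderiv_const_smul_field (𝕜 := ℝ) (f := f) c
  exact congrArg (fun L : E →L[ℝ] ℝ => L v) (congrFun h y)

theorem dw_const_mul (c : ℝ) (f : E → ℝ) (l : List E) :
    dw l (fun w => c * f w) = fun w => c * dw l f w := by
  induction l with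
  | nil => rfl
  | cons v l ih => rw [dw_cons, ih, D_const_mul, dw_cons]

theorem dw_mul_const (c : ℝ) (f : E → ℝ) (l : List E) :
    dw l (fun w => f w * c) = fun w => dw l f w * c := by
  simp only [mul_comm _ c, dw_const_mul]

theorem dw_neg (f : E → ℝ) (l : List E) : dw l (fun w => -f w) = fun w => -dw l f w := by
  simpa only [neg_mul, one_mul] using dw_const_mul (-1) f l

theorem dw_zero (l : List E) : dw l (fun _ : E => (0 : ℝ)) = fun _ => 0 := by
  induction l with
  | nil => rfl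
  | cons v l ih => rw [dw_cons, ih, D_const]

theorem dw_const (c : ℝ) {l : List E} (hl : l ≠ []) : dw l (fun _ : E => c) = fun _ => 0 := by
  induction l using List.reverseRecOn with
  | nil => exact absurd rfl hl
  | append_singleton l v _ => rw [dw_concat, D_const, dw_zero]

theorem dw_add (hO : IsOpen O) (hf : ContDiffOn ℝ ∞ f O) (hg : ContDiffOn ℝ ∞ g O) (l : List E)
    (hy : y ∈ O) : dw l (fun w => f w + g w) y = dw l f y + dw l g y := by
  induction l generalizing y with
  | nil => rfl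
  | cons v l ih =>
    have h : dw l (fun w => f w + g w) =ᶠ[𝓝 y] fun w => dw l f w + dw l g w :=
      eventually_of_mem (hO.mem_nhds hy) fun w hw => ih hw
    rw [dw_cons, (D_congr h v).self_of_nhds]
    exact D_add (diffAt hO (dw_smooth hO hf l) hy) (diffAt hO (dw_smooth hO hg l) hy) v

theorem dw_sub (hO : IsOpen O) (hf : ContDiffOn ℝ ∞ f O) (hg : ContDiffOn ℝ ∞ g O) (l : List E)
    (hy : y ∈ O) : dw l (fun w => f w - g w) y = dw l f y - dw l g y := by
  simp only [sub_eq_add_neg]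
  rw [dw_add hO hf hg.neg l hy, dw_neg]

theorem dw_sum {ι : Type} (s : Finset ι) {F : ι → E → ℝ} (hO : IsOpen O)
    (hF : ∀ i ∈ s, ContDiffOn ℝ ∞ (F i) O) (l : List E) (hy : y ∈ O) :
    dw l (fun w => ∑ i ∈ s, F i w) y = ∑ i ∈ s, dw l (F i) y := by
  classical
  induction s using Finset.induction_on with
  | empty => simp only [Finset.sum_empty, dw_zero]
  | insert i s hi ih =>
    simp only [Finset.sum_insert hi]
    rw [dw_add hO (hF i (Finset.mem_insert_self _ _))
      (ContDiffOn.sum fun j hj => hF j (Finset.mem_insert_of_mem hj)) l hy,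
      ih fun j hj => hF j (Finset.mem_insert_of_mem hj)]

theorem dw_concat_mul (hO : IsOpen O) (hf : ContDiffOn ℝ ∞ f O) (hg : ContDiffOn ℝ ∞ g O)
    (l : List E) (v : E) (hy : y ∈ O) : dw (l ++ [v]) (fun w => f w * g w) y =
      dw l (fun w => D v f w * g w) y + dw l (fun w => f w * D v g w) y := by
  rw [dw_concat, ← dw_add hO ((D_smooth hO hf v).mul hg) (hf.mul (D_smooth hO hg v)) l hy]
  exact dw_congr_on hO (fun w hw => D_mul (diffAt hO hf hw) (diffAt hO hg hw) v) l hy

theorem leib_full (hO : IsOpen O) (hf : ContDiffOn ℝ ∞ f O) (hg : ContDiffOn ℝ ∞ g O)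
    (hy : y ∈ O) (l : List E) {K : ℝ} (h : ∀ b c : List E, b.Sublist l → c.Sublist l →
      b.length + c.length = l.length → |dw b f y| * |dw c g y| ≤ K) :
    |dw l (fun w => f w * g w) y| ≤ 2 ^ l.length * K := by
  induction l using List.reverseRecOn generalizing f g with
  | nil =>
    have h1 := h [] [] (List.Sublist.refl _) (List.Sublist.refl _) rfl
    rw [← abs_mul] at h1
    rw [List.length_nil, pow_zero, one_mul]
    exact h1
  | append_singleton l v ih =>
    have h1 := ih (D_smooth hO hf v) hg fun b c hb hc hl => by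
      rw [← dw_concat]
      exact h _ _ (hb.append_right _) (hc.trans (List.sublist_append_left _ _)) (by
        simp only [List.length_append, List.length_singleton]; omega)
    have h2 := ih hf (D_smooth hO hg v) fun b c hb hc hl => by
      rw [← dw_concat]
      exact h _ _ (hb.trans (List.sublist_append_left _ _)) (hc.append_right _) (by
        simp only [List.length_append, List.length_singleton]; omega)
    rw [dw_concat_mul hO hf hg l v hy, List.length_append, List.length_singleton, pow_succ]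
    linarith [abs_add_le (dw l (fun w => D v f w * g w) y) (dw l (fun w => f w * D v g w) y)]

theorem leib_top (hO : IsOpen O) (hf : ContDiffOn ℝ ∞ f O) (hg : ContDiffOn ℝ ∞ g O)
    (hy : y ∈ O) (l : List E) {K : ℝ} (hK : 0 ≤ K) (h : ∀ b c : List E, b ≠ [] → b.Sublist l →
      c.Sublist l → b.length + c.length = l.length → |dw b f y| * |dw c g y| ≤ K) :
    |dw l (fun w => f w * g w) y - f y * dw l g y| ≤ 2 ^ l.length * K := by
  induction l using List.reverseRecOn generalizing g with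
  | nil => simpa only [dw_nil, sub_self, abs_zero, List.length_nil, pow_zero, one_mul] using hK
  | append_singleton l v ih =>
    have h1 := leib_full hO (D_smooth hO hf v) hg hy l (K := K) fun b c hb hc hl => by
      rw [← dw_concat]
      exact h _ _ (by simp) (hb.append_right _) (hc.trans (List.sublist_append_left _ _)) (by
        simp only [List.length_append, List.length_singleton]; omega)
    have h2 := ih (D_smooth hO hg v) fun b c b0 hb hc hl => by
      rw [← dw_concat]
      exact h _ _ b0 (hb.trans (List.sublist_append_left _ _)) (hc.append_right _) (by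
        simp only [List.length_append, List.length_singleton]; omega)
    rw [dw_concat_mul hO hf hg l v hy, List.length_append, List.length_singleton, pow_succ,
      dw_concat, add_sub_assoc]
    linarith [abs_add_le (dw l (fun w => D v f w * g w) y)
      (dw l (fun w => f w * D v g w) y - f y * dw l (D v g) y)]

theorem dw_ofFn (hO : IsOpen O) (hf : ContDiffOn ℝ ∞ f O) {n : ℕ} (m : Fin n → E) (hy : y ∈ O) :
    dw (List.ofFn m) f y = iteratedFDeriv ℝ n f y m := by
  induction n generalizing y with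
  | zero => rw [List.ofFn_zero, dw_nil, iteratedFDeriv_zero_apply]
  | succ n ih =>
    have h : dw (List.ofFn fun i => m (Fin.succ i)) f =ᶠ[𝓝 y]
        fun w => iteratedFDeriv ℝ n f w (Fin.tail m) :=
      eventually_of_mem (hO.mem_nhds hy) fun w hw => ih _ hw
    have h2 : DifferentiableAt ℝ (iteratedFDeriv ℝ n f) y :=
      (hf.contDiffAt (hO.mem_nhds hy)).differentiableAt_iteratedFDeriv (by
        exact_mod_cast ENat.natCast_lt_top n)
    rw [List.ofFn_succ, dw_cons, (D_congr h _).self_of_nhds, iteratedFDeriv_succ_apply_left]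
    exact fderiv_continuousMultilinear_apply_const_apply h2 _ _

theorem abs_dw_le (hO : IsOpen O) (hf : ContDiffOn ℝ ∞ f O) (l : List E) (hy : y ∈ O) :
    |dw l f y| ≤ ‖iteratedFDeriv ℝ l.length f y‖ * (l.map norm).prod := by
  have h1 := dw_ofFn hO hf l.get hy
  rw [List.ofFn_get] at h1
  have h2 := (iteratedFDeriv ℝ l.length f y).le_opNorm l.get
  have h3 : ∏ i, ‖l.get i‖ = (l.map norm).prod := by
    rw [← List.prod_ofFn]
    exact congrArg List.prod ((List.map_ofFn (f := l.get) (g := norm)).symm.trans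
      (congrArg (List.map norm) (List.ofFn_get l)))
  rw [h1, ← h3]
  exact h2

end Gen

section Coord
variable {O : Set V} {f g : V → ℝ} {y : V}

theorem DL_nil (f : V → ℝ) : DL [] f = f := rfl

theorem DL_cons (i : Fin 4) (l : List (Fin 4)) (f : V → ℝ) : DL (i :: l) f = D (e i) (DL l f) := rfl

theorem DL_eq_dw (l : List (Fin 4)) (f : V → ℝ) : DL l f = dw (l.map e) f := by
  induction l with
  | nil => rfl
  | cons i l ih => rw [DL_cons, ih, List.map_cons, dw_cons]

theorem DL_append (l m : List (Fin 4)) (f : V → ℝ) : DL (l ++ m) f = DL l (DL m f) := by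
  simp only [DL_eq_dw, List.map_append, dw_append]

theorem DL_concat (l : List (Fin 4)) (i : Fin 4) (f : V → ℝ) :
    DL (l ++ [i]) f = DL l (D (e i) f) := DL_append l [i] f

theorem DL_congr (h : f =ᶠ[𝓝 y] g) (l : List (Fin 4)) : DL l f =ᶠ[𝓝 y] DL l g := by
  simp only [DL_eq_dw]; exact dw_congr h _

theorem DL_congr_at (h : f =ᶠ[𝓝 y] g) (l : List (Fin 4)) : DL l f y = DL l g y :=
  (DL_congr h l).self_of_nhds

theorem DL_congr_on (hO : IsOpen O) (h : EqOn f g O) (l : List (Fin 4)) :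
    EqOn (DL l f) (DL l g) O := by
  simp only [DL_eq_dw]; exact dw_congr_on hO h _

theorem DL_smooth (hO : IsOpen O) (hf : ContDiffOn ℝ ∞ f O) (l : List (Fin 4)) :
    ContDiffOn ℝ ∞ (DL l f) O := by
  rw [DL_eq_dw]; exact dw_smooth hO hf _

theorem DL_const_mul (c : ℝ) (f : V → ℝ) (l : List (Fin 4)) :
    DL l (fun w => c * f w) = fun w => c * DL l f w := by
  simp only [DL_eq_dw, dw_const_mul]

theorem DL_mul_const (c : ℝ) (f : V → ℝ) (l : List (Fin 4)) :
    DL l (fun w => f w * c) = fun w => DL l f w * c := by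
  simp only [DL_eq_dw, dw_mul_const]

theorem DL_neg (f : V → ℝ) (l : List (Fin 4)) : DL l (fun w => -f w) = fun w => -DL l f w := by
  simp only [DL_eq_dw, dw_neg]

theorem DL_zero (l : List (Fin 4)) : DL l (fun _ : V => (0 : ℝ)) = fun _ => 0 := by
  simp only [DL_eq_dw, dw_zero]

theorem DL_const (c : ℝ) {l : List (Fin 4)} (hl : l ≠ []) : DL l (fun _ : V => c) = fun _ => 0 := by
  rw [DL_eq_dw, dw_const c (by simpa using hl)]

theorem DL_add (hO : IsOpen O) (hf : ContDiffOn ℝ ∞ f O) (hg : ContDiffOn ℝ ∞ g O)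
    (l : List (Fin 4)) (hy : y ∈ O) : DL l (fun w => f w + g w) y = DL l f y + DL l g y := by
  simp only [DL_eq_dw, dw_add hO hf hg _ hy]

theorem DL_sub (hO : IsOpen O) (hf : ContDiffOn ℝ ∞ f O) (hg : ContDiffOn ℝ ∞ g O)
    (l : List (Fin 4)) (hy : y ∈ O) : DL l (fun w => f w - g w) y = DL l f y - DL l g y := by
  simp only [DL_eq_dw, dw_sub hO hf hg _ hy]

theorem DL_sum {ι : Type} (s : Finset ι) {F : ι → V → ℝ} (hO : IsOpen O)
    (hF : ∀ i ∈ s, ContDiffOn ℝ ∞ (F i) O) (l : List (Fin 4)) (hy : y ∈ O) :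
    DL l (fun w => ∑ i ∈ s, F i w) y = ∑ i ∈ s, DL l (F i) y := by
  simp only [DL_eq_dw, dw_sum s hO hF _ hy]

theorem DL_leib_full (hO : IsOpen O) (hf : ContDiffOn ℝ ∞ f O) (hg : ContDiffOn ℝ ∞ g O)
    (hy : y ∈ O) (l : List (Fin 4)) {K : ℝ} (h : ∀ b c : List (Fin 4), b.Sublist l →
      c.Sublist l → b.length + c.length = l.length → |DL b f y| * |DL c g y| ≤ K) :
    |DL l (fun w => f w * g w) y| ≤ 2 ^ l.length * K := by
  have h1 := leib_full hO hf hg hy (l.map e) (K := K) fun b c hb hc hl => by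
    obtain ⟨b, hb', rfl⟩ := List.sublist_map_iff.1 hb
    obtain ⟨c, hc', rfl⟩ := List.sublist_map_iff.1 hc
    rw [← DL_eq_dw, ← DL_eq_dw]
    exact h b c hb' hc' (by simpa only [List.length_map] using hl)
  rwa [← DL_eq_dw, List.length_map] at h1

theorem DL_leib_top (hO : IsOpen O) (hf : ContDiffOn ℝ ∞ f O) (hg : ContDiffOn ℝ ∞ g O)
    (hy : y ∈ O) (l : List (Fin 4)) {K : ℝ} (hK : 0 ≤ K) (h : ∀ b c : List (Fin 4), b ≠ [] →
      b.Sublist l → c.Sublist l → b.length + c.length = l.length → |DL b f y| * |DL c g y| ≤ K) :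
    |DL l (fun w => f w * g w) y - f y * DL l g y| ≤ 2 ^ l.length * K := by
  have h1 := leib_top hO hf hg hy (l.map e) hK fun b c b0 hb hc hl => by
    obtain ⟨b, hb', rfl⟩ := List.sublist_map_iff.1 hb
    obtain ⟨c, hc', rfl⟩ := List.sublist_map_iff.1 hc
    rw [← DL_eq_dw, ← DL_eq_dw]
    exact h b c (by simpa using b0) hb' hc' (by simpa only [List.length_map] using hl)
  rwa [← DL_eq_dw, ← DL_eq_dw, List.length_map] at h1

theorem JB.nonneg {k : ℕ} {M : ℝ} (h : JB k f y M) : 0 ≤ M :=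
  (abs_nonneg _).trans (h [] (Nat.zero_le _))

theorem JB.mono {k k' : ℕ} {M M' : ℝ} (h : JB k f y M) (hk : k' ≤ k) (hM : M ≤ M') :
    JB k' f y M' := fun l hl => (h l (hl.trans hk)).trans hM

theorem JB.congr {k : ℕ} {M : ℝ} (h : JB k f y M) (hg : f =ᶠ[𝓝 y] g) : JB k g y M :=
  fun l hl => DL_congr_at hg l ▸ h l hl

theorem JB.DL {k : ℕ} {M : ℝ} (m : List (Fin 4)) (h : JB (k + m.length) f y M) :
    JB k (DL m f) y M := fun l hl => by
  rw [← DL_append]
  exact h _ (by rw [List.length_append]; omega)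

theorem JB.mul {k : ℕ} {M M' : ℝ} (hO : IsOpen O) (hf : ContDiffOn ℝ ∞ f O)
    (hg : ContDiffOn ℝ ∞ g O) (hy : y ∈ O) (h : JB k f y M) (h' : JB k g y M') :
    JB k (fun w => f w * g w) y (2 ^ k * (M * M')) := fun l hl =>
  (DL_leib_full hO hf hg hy l (K := M * M') fun b c hb hc _ =>
    mul_le_mul (h b (hb.length_le.trans hl)) (h' c (hc.length_le.trans hl)) (abs_nonneg _)
      h.nonneg).trans (mul_le_mul_of_nonneg_right (pow_le_pow_right₀ one_le_two hl)
        (mul_nonneg h.nonneg h'.nonneg))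

/-- the real coordinates -/
def co : Fin 4 → (V →L[ℝ] ℝ) :=
  ![Complex.reCLM.comp (ContinuousLinearMap.fst ℝ ℂ ℂ),
    Complex.imCLM.comp (ContinuousLinearMap.fst ℝ ℂ ℂ),
    Complex.reCLM.comp (ContinuousLinearMap.snd ℝ ℂ ℂ),
    Complex.imCLM.comp (ContinuousLinearMap.snd ℝ ℂ ℂ)]

theorem sum_co (u : V) : ∑ i, co i u • e i = u := by
  rw [Fin.sum_univ_four]
  exact (V_eq u).symm

theorem abs_co_le (i : Fin 4) (u : V) : |co i u| ≤ ‖u‖ := by
  fin_cases i
  · exact (Complex.abs_re_le_norm _).trans (norm_fst_le u)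
  · exact (Complex.abs_im_le_norm _).trans (norm_fst_le u)
  · exact (Complex.abs_re_le_norm _).trans (norm_snd_le u)
  · exact (Complex.abs_im_le_norm _).trans (norm_snd_le u)

theorem clm_eq_sum (L : V →L[ℝ] ℝ) (u : V) : L u = ∑ i, co i u * L (e i) := by
  conv_lhs => rw [← sum_co u]
  simp only [map_sum, map_smul, smul_eq_mul]

theorem fderiv_eq_sum (f : V → ℝ) (y u : V) : fderiv ℝ f y u = ∑ i, co i u * D (e i) f y :=
  clm_eq_sum _ u

theorem D_eq_sum (f : V → ℝ) (y u : V) : D u f y = ∑ i, co i u * D (e i) f y :=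
  clm_eq_sum _ u

theorem norm_clm_le (L : V →L[ℝ] ℝ) {M : ℝ} (h : ∀ i, |L (e i)| ≤ M) : ‖L‖ ≤ 4 * M := by
  have h0 : 0 ≤ M := (abs_nonneg _).trans (h 0)
  refine L.opNorm_le_bound (by positivity) fun u => ?_
  rw [clm_eq_sum, Real.norm_eq_abs]
  refine (Finset.abs_sum_le_sum_abs _ _).trans ?_
  have h1 : ∀ i ∈ (Finset.univ : Finset (Fin 4)), |co i u * L (e i)| ≤ ‖u‖ * M := fun i _ => by
    rw [abs_mul]
    exact mul_le_mul (abs_co_le i u) (h i) (abs_nonneg _) (norm_nonneg _)
  refine (Finset.sum_le_sum h1).trans (le_of_eq ?_)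
  rw [Fin.sum_univ_four]; ring

theorem norm_iter_le (hO : IsOpen O) (hf : ContDiffOn ℝ ∞ f O) (hy : y ∈ O) (n : ℕ) {M : ℝ}
    (h : ∀ l : List (Fin 4), l.length = n → |DL l f y| ≤ M) :
    ‖iteratedFDeriv ℝ n f y‖ ≤ 4 ^ n * M := by
  have h0 : 0 ≤ M := (abs_nonneg _).trans (h (List.replicate n 0) List.length_replicate)
  refine ContinuousMultilinearMap.opNorm_le_bound (by positivity) fun m => ?_
  have h1 : m = fun i => ∑ j, co j (m i) • e j := funext fun i => (sum_co _).symm
  have h2 : ∀ r ∈ (Finset.univ : Finset (Fin n → Fin 4)),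
      ‖iteratedFDeriv ℝ n f y fun i => co (r i) (m i) • e (r i)‖ ≤ M * ∏ i, ‖m i‖ := fun r _ => by
    rw [ContinuousMultilinearMap.map_smul_univ, ← dw_ofFn hO hf _ hy, smul_eq_mul,
      Real.norm_eq_abs, abs_mul, Finset.abs_prod, mul_comm]
    have h3 := h (List.ofFn r) List.length_ofFn
    rw [DL_eq_dw, List.map_ofFn] at h3
    exact mul_le_mul h3 (Finset.prod_le_prod (fun i _ => abs_nonneg _) fun i _ => abs_co_le _ _)
      (Finset.prod_nonneg fun i _ => abs_nonneg _) h0
  conv_lhs => rw [h1, ContinuousMultilinearMap.map_sum]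
  refine (norm_sum_le _ _).trans ((Finset.sum_le_sum h2).trans (le_of_eq ?_))
  rw [Finset.sum_const, Finset.card_univ, Fintype.card_fun, Fintype.card_fin, Fintype.card_fin,
    nsmul_eq_mul, mul_assoc]
  norm_cast

theorem abs_DL_le (hO : IsOpen O) (hf : ContDiffOn ℝ ∞ f O) (l : List (Fin 4)) (hy : y ∈ O) :
    |DL l f y| ≤ ‖iteratedFDeriv ℝ l.length f y‖ := by
  have h1 := abs_dw_le hO hf (l.map e) hy
  have h2 : ((l.map e).map norm).prod = 1 := by
    refine List.prod_eq_one fun x hx => ?_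
    obtain ⟨v, hv, rfl⟩ := List.mem_map.1 hx
    obtain ⟨i, -, rfl⟩ := List.mem_map.1 hv
    exact norm_e i
  rwa [h2, mul_one, List.length_map, ← DL_eq_dw] at h1

theorem lip_of_JB (hO : IsOpen O) (hc : Convex ℝ O) (hf : ContDiffOn ℝ ∞ f O) {k : ℕ} {M : ℝ}
    (h : ∀ w ∈ O, JB (k + 1) f w M) (l : List (Fin 4)) (hl : l.length ≤ k) {z : V} (hy : y ∈ O)
    (hz : z ∈ O) : |DL l f z - DL l f y| ≤ 4 * M * ‖z - y‖ :=
  hc.norm_image_sub_le_of_norm_fderiv_le (𝕜 := ℝ) (fun _ hw => diffAt hO (DL_smooth hO hf l) hw)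
    (fun w hw => norm_clm_le _ fun i => h w hw (i :: l) (Nat.succ_le_succ hl)) hy hz

theorem taylor2_of_JB (hO : IsOpen O) (hc : Convex ℝ O) (hf : ContDiffOn ℝ ∞ f O) {k : ℕ}
    {M : ℝ} (h : ∀ w ∈ O, JB (k + 2) f w M) (l : List (Fin 4)) (hl : l.length ≤ k) {z : V}
    (hy : y ∈ O) (hz : z ∈ O) :
    |DL l f z - DL l f y - fderiv ℝ (DL l f) y (z - y)| ≤ 16 * M * ‖z - y‖ ^ 2 := by
  have h0 := (h y hy).nonneg
  have h1 := (hc.inter (convex_closedBall y ‖z - y‖)).norm_image_sub_le_of_norm_fderiv_le'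
    (𝕜 := ℝ) (f := DL l f) (φ := fderiv ℝ (DL l f) y) (C := 4 * (4 * M * ‖z - y‖))
    (fun _ hw => diffAt hO (DL_smooth hO hf l) hw.1)
    (fun w hw => norm_clm_le _ fun i =>
      (lip_of_JB hO hc hf (k := k + 1) h (i :: l) (Nat.succ_le_succ hl) hy hw.1).trans
        (mul_le_mul_of_nonneg_left (mem_closedBall_iff_norm.1 hw.2) (by positivity)))
    ⟨hy, mem_closedBall_self (norm_nonneg _)⟩ ⟨hz, mem_closedBall_iff_norm.2 le_rfl⟩
  exact h1.trans (le_of_eq (by ring))

theorem exists_cut : ∃ χ : V → ℝ, Cut χ := by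
  let b : ContDiffBump (0 : V) := ⟨1 / 4, 1 / 2, by norm_num, by norm_num⟩
  exact ⟨b, b.contDiff, fun y => ⟨b.nonneg, b.le_one⟩,
    fun y hy => b.one_of_mem_closedBall (ball_subset_closedBall hy),
    fun y hy => b.zero_of_le_dist (not_lt.1 hy)⟩

end Coord

end

end Pool.Agent.MP_67f0e4_gt.EU
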