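import Pool.Agent.MP_67f0e4_gt.EU.SpecC
import Pool.Agent.MP_67f0e4_gt.K.Chain

/-! The limit operator of the scheme is the Monge-Ampere operator. -/

set_option autoImplicit false

open scoped ContDiff Topology
open Set Metric Filter

namespace Pool.Agent.MP_67f0e4_gt.EU

open K

namespace RCONE

theorem dd_line {f : V → ℝ} {x : V} (hf : ContDiffAt ℝ 2 f x) (v : V) :
    deriv (deriv fun t : ℝ => f (x + t • v)) 0 = D v (D v f) x := by
  have hl : ∀ t : ℝ, HasDerivAt (fun t : ℝ => x + t • v) v t := fun t => by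
    simpa using ((hasDerivAt_id t).smul_const v).const_add x
  have c0 : Tendsto (fun t : ℝ => x + t • v) (𝓝 0) (𝓝 x) := by
    simpa using (hl 0).continuousAt.tendsto
  have d1 : (deriv fun t : ℝ => f (x + t • v)) =ᶠ[𝓝 0] fun t => D v f (x + t • v) :=
    (c0.eventually (ev_diff hf)).mono fun t ht => (ht.hasFDerivAt.comp_hasDerivAt t (hl t)).deriv
  rw [d1.deriv_eq]
  have a : HasFDerivAt (D v f) (fderiv ℝ (D v f) x) (x + (0 : ℝ) • v) := by
    simpa using (D_diff hf v).hasFDerivAt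
  exact (a.comp_hasDerivAt 0 (hl 0)).deriv

theorem dd_chart {f g : V → ℝ} {S : V → V} {s : ℝ} (hs : 0 < s) (hg : ContDiffAt ℝ 2 g 0)
    (h : ∀ w ∈ ball (0 : V) s, f (S w) = g w) (u : V) :
    deriv (deriv fun t : ℝ => f (S (0 + t • u))) 0 = D u (D u g) 0 := by
  have c0 : Tendsto (fun t : ℝ => 0 + t • u) (𝓝 0) (𝓝 0) := by
    have : Continuous fun t : ℝ => 0 + t • u := by fun_prop
    simpa using this.tendsto 0
  have e : (fun t : ℝ => f (S (0 + t • u))) =ᶠ[𝓝 0] fun t => g (0 + t • u) :=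
    (c0.eventually (ball_mem_nhds 0 hs)).mono fun t ht => h _ ht
  rw [e.deriv.deriv_eq, dd_line hg]

theorem norm_rt (n : ℕ) (k : Fin n) : ‖rt n k‖ = 1 := by
  have h : (2 * Real.pi * Complex.I * (k : ℕ) / n : ℂ) =
      ((2 * Real.pi * (k : ℕ) / n : ℝ) : ℂ) * Complex.I := by
    push_cast
    ring
  rw [rt, h, Complex.norm_exp_ofReal_mul_I]

theorem one_chart (hF : StmtFR) {f ρ v : V → ℝ} (hf : ContDiffAt ℝ 2 f 0)
    (hρ : ContDiffAt ℝ 2 ρ 0) (hv : ContDiffAt ℝ 2 v 0) (hp : Pos (lv f 0)) {γ : ℂ}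
    (hγ : ‖γ‖ = 1) (t : ℝ) :
    (Gh fun a => t * (qf (lv ρ 0) (fr (lv f 0) γ a) / 2) +
      D (fr (lv f 0) γ a) (D (fr (lv f 0) γ a) v) 0) =
      Real.log (hdet (lv (fun y => f y + t * ρ y + v y) 0) / hdet (lv f 0)) := by
  have h1 : ContDiffAt ℝ 2 (fun y => t * ρ y) 0 := contDiffAt_const.mul hρ
  rw [lv_add (hf.add h1) hv, lv_add hf h1, lv_const_mul, add_assoc]
  refine hF.1 _ _ γ _ hp hγ fun j => ?_
  obtain ⟨e1, e2⟩ := hF.2.1 (lv f 0) (lv ρ 0) γ j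
  rw [e2, e1, qf_add, qf_smul, qf_lv hv, lev]
  ring

end RCONE

theorem cone (hF : StmtFR) (hI : StmtINV) : StmtCONE := by
  rintro X F A L M f ρ Λ ε δ c hX hA hL hD t m v ⟨⟨i, y⟩, hy⟩ hv
  have hy1 : y ∈ ball (0 : V) 1 := ball_subset_ball (by norm_num) hy
  have hy2 : y ∈ ball (0 : V) 2 := ball_subset_ball (by norm_num) hy
  have z1 : (0 : V) ∈ ball (0 : V) 1 := mem_ball_self one_pos
  have z2 : (0 : V) ∈ ball (0 : V) 2 := mem_ball_self two_pos
  obtain ⟨hO, hT⟩ := hL.mem (i, y) hy1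
  have key : ∀ b : A.C × Fin A.n, (Gh fun a => t * (sch L f ρ ε δ c).r b a (m, ⟨(i, y), hy⟩) y +
      A0 (fun w => v (F.Φ i w)) ((sch L f ρ ε δ c).ψ b a (m, ⟨(i, y), hy⟩)) y) =
      Real.log (hdet (lv ((fun p => f m p + t * ρ m p + v p) ∘ F.Φ i) y) /
        hdet (lv (f m ∘ F.Φ i) y)) := by
    intro b
    have h0 : L.T b.1 (i, y) y = 0 := hT b.1
    have h1 : F.Φ i y = F.Φ (L.j b.1 (i, y)) 0 := by
      rw [← h0]
      exact (hL.Tm b.1 (i, y) y hO).2.1.symm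
    have s1 : ∀ g, XSm0 X g → ContDiffAt ℝ 2 (g ∘ F.Φ (L.j b.1 (i, y))) 0 := fun g hg =>
      ((hg _ _ (F.par _)).contDiffAt (isOpen_ball.mem_nhds z2)).of_le two_le_inf
    have f2 := s1 _ (hD.fs m)
    have r2 := s1 _ (hD.ρs m)
    have v2 : ContDiffAt ℝ 2 (v ∘ F.Φ (L.j b.1 (i, y))) 0 :=
      ((hv _).contDiffAt (isOpen_ball.mem_nhds z1)).of_le two_le_inf
    obtain ⟨τ, k, -, -, -, hk, h2⟩ := hI X _ _ _ _ hX (F.par i) (F.par (L.j b.1 (i, y))) y hy2 0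
      z2 h1
    rw [(h2 _ f2).1, (h2 (fun p => f m p + t * ρ m p + v p)
      ((f2.add (contDiffAt_const.mul r2)).add v2)).1, mul_div_mul_left _ _ hk.ne']
    refine Eq.trans (congrArg Gh (funext fun a => ?_)) (RCONE.one_chart hF f2 r2 v2
      (hD.ell m _ 0 z1).isPos (RCONE.norm_rt A.n b.2) t)
    have h3 := RCONE.dd_chart (f := fun w => v (F.Φ i w)) (S := L.S b.1 (i, y))
      (mul_pos two_pos hL.s_pos) v2 (fun w hw => congrArg v (hL.Sm b.1 (i, y) w hw).1)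
      (fr (lv (f m ∘ F.Φ (L.j b.1 (i, y))) 0) (rt A.n b.2) a)
    simp only [sch, A0, h0]
    rw [h3]
  have hn : (0 : ℝ) < A.n := Nat.cast_pos.2 hA.n_pos
  have hs := hA.sq _ ((F.par i).mem hy2)
  refine Eq.trans (Finset.sum_congr (s₁ := (Finset.univ : Finset (A.C × Fin A.n))) rfl
    fun b _ => congrArg (fun z => (A.th b.1 (F.Φ i y) / √(A.n : ℝ)) ^ 2 * z) (key b)) ?_
  rw [← Finset.sum_mul, Fintype.sum_prod_type]
  simp only [div_pow, Real.sq_sqrt hn.le, Finset.sum_const, Finset.card_univ, Fintype.card_fin,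
    nsmul_eq_mul, mul_div_cancel₀ _ hn.ne', hs, one_mul]

end Pool.Agent.MP_67f0e4_gt.EU
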