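import Pool.Agent.MP_67f0e4_gt.EU.Spec
import Pool.Agent.MP_67f0e4_gt.K.Alg

/-! Row DIF, first part: calculus of words and one-dimensional estimates. -/

set_option autoImplicit false

open scoped ContDiff Topology
open Set Metric Filter

namespace Pool.Agent.MP_67f0e4_gt.EU.RDIF

open K

section gen
variable {E κ : Type} [NormedAddCommGroup E] [NormedSpace ℝ E] {U : Set E} {f g : E → ℝ}

theorem dif_at (hU : IsOpen U) (hf : ContDiffOn ℝ ∞ f U) {z : E} (hz : z ∈ U) :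
    DifferentiableAt ℝ f z := (hf.contDiffAt (hU.mem_nhds hz)).differentiableAt (by simp)

theorem D_sm (hU : IsOpen U) (hf : ContDiffOn ℝ ∞ f U) (v : E) : ContDiffOn ℝ ∞ (D v f) U :=
  (hf.fderiv_of_isOpen hU (by simp)).clm_apply contDiffOn_const

theorem D_congr (hU : IsOpen U) (h : ∀ z ∈ U, f z = g z) (v : E) {z : E} (hz : z ∈ U) :
    D v f z = D v g z := by
  have : f =ᶠ[𝓝 z] g := eventually_of_mem (hU.mem_nhds hz) h
  simp only [D, this.fderiv_eq]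

theorem D_add {z : E} (hf : DifferentiableAt ℝ f z) (hg : DifferentiableAt ℝ g z) (v : E) :
    D v (fun w => f w + g w) z = D v f z + D v g z := by
  simp only [D, fderiv_fun_add hf hg, add_apply]

theorem D_mul {z : E} (hf : DifferentiableAt ℝ f z) (hg : DifferentiableAt ℝ g z) (v : E) :
    D v (fun w => f w * g w) z = D v f z * g z + f z * D v g z := by
  simp only [D, fderiv_fun_mul hf hg, add_apply, smul_apply, smul_eq_mul]
  ring

theorem dw_sm (hU : IsOpen U) (hf : ContDiffOn ℝ ∞ f U) : ∀ L : List E, ContDiffOn ℝ ∞ (dw L f) U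
  | [] => hf
  | v :: L => D_sm hU (dw_sm hU hf L) v

theorem dw_congr (hU : IsOpen U) (h : ∀ z ∈ U, f z = g z) :
    ∀ L : List E, ∀ z ∈ U, dw L f z = dw L g z
  | [] => h
  | v :: L => fun _ hz => D_congr hU (dw_congr hU h L) v hz

theorem dw_add (hU : IsOpen U) (hf : ContDiffOn ℝ ∞ f U) (hg : ContDiffOn ℝ ∞ g U) :
    ∀ L : List E, ∀ z ∈ U, dw L (fun w => f w + g w) z = dw L f z + dw L g z
  | [] => fun _ _ => rfl
  | v :: L => fun _ hz => (D_congr hU (dw_add hU hf hg L) v hz).trans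
      (D_add (dif_at hU (dw_sm hU hf L) hz) (dif_at hU (dw_sm hU hg L) hz) v)

theorem dw_app (v : E) (f : E → ℝ) : ∀ L : List E, dw (L ++ [v]) f = dw L (D v f)
  | [] => rfl
  | w :: L => congrArg (D w) (dw_app v f L)

theorem dw_const (c : ℝ) : ∀ L : List E, ∃ c', |c'| ≤ |c| ∧ dw L (fun _ : E => c) = fun _ => c'
  | [] => ⟨c, le_rfl, rfl⟩
  | v :: L => by
    obtain ⟨c', -, h⟩ := dw_const c L
    refine ⟨0, by simp, ?_⟩
    funext z
    simp [dw, h, D]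

/-- families of functions with uniformly bounded derivatives along words -/
def Bw (U : κ → Set E) (P : κ → E → ℝ) : Prop := (∀ x, ContDiffOn ℝ ∞ (P x) (U x)) ∧
  ∀ L : List E, ∃ C : ℝ, 0 ≤ C ∧ ∀ x, ∀ z ∈ U x, |dw L (P x) z| ≤ C

variable {W : κ → Set E} {P Q : κ → E → ℝ}

theorem Bw.const (c : ℝ) : Bw W fun _ _ => c := ⟨fun _ => contDiffOn_const, fun L => by
  obtain ⟨c', h1, h2⟩ := dw_const (E := E) c L
  exact ⟨|c|, abs_nonneg c, fun _ _ _ => by rw [h2]; exact h1⟩⟩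

theorem Bw.der (hW : ∀ x, IsOpen (W x)) (h : Bw W P) (v : E) : Bw W fun x => D v (P x) :=
  ⟨fun x => D_sm (hW x) (h.1 x) v, fun L => by simpa only [dw_app] using h.2 (L ++ [v])⟩

theorem Bw.add (hW : ∀ x, IsOpen (W x)) (h : Bw W P) (h' : Bw W Q) :
    Bw W fun x z => P x z + Q x z := ⟨fun x => (h.1 x).add (h'.1 x), fun L => by
  obtain ⟨C, c1, c2⟩ := h.2 L
  obtain ⟨C', c3, c4⟩ := h'.2 L
  refine ⟨C + C', add_nonneg c1 c3, fun x z hz => ?_⟩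
  rw [dw_add (hW x) (h.1 x) (h'.1 x) L z hz]
  exact (abs_add_le _ _).trans (add_le_add (c2 x z hz) (c4 x z hz))⟩

theorem Bw.mul (hW : ∀ x, IsOpen (W x)) (h : Bw W P) (h' : Bw W Q) :
    Bw W fun x z => P x z * Q x z := by
  refine ⟨fun x => (h.1 x).mul (h'.1 x), fun L => ?_⟩
  induction L using List.reverseRecOn generalizing P Q with
  | nil =>
    obtain ⟨C, c1, c2⟩ := h.2 []
    obtain ⟨C', c3, c4⟩ := h'.2 []
    refine ⟨C * C', mul_nonneg c1 c3, fun x z hz => ?_⟩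
    exact (abs_mul _ _).le.trans (mul_le_mul (c2 x z hz) (c4 x z hz) (abs_nonneg _) c1)
  | append_singleton L v ih =>
    obtain ⟨C, c1, c2⟩ := ih (h.der hW v) h'
    obtain ⟨C', c3, c4⟩ := ih h (h'.der hW v)
    refine ⟨C + C', add_nonneg c1 c3, fun x z hz => ?_⟩
    rw [dw_app, dw_congr (hW x) (fun w hw => D_mul (dif_at (hW x) (h.1 x) hw)
      (dif_at (hW x) (h'.1 x) hw) v) L z hz, dw_add (hW x) ((D_sm (hW x) (h.1 x) v).mul (h'.1 x))
      ((h.1 x).mul (D_sm (hW x) (h'.1 x) v)) L z hz]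
    exact (abs_add_le _ _).trans (add_le_add (c2 x z hz) (c4 x z hz))

end gen

theorem DL_eq (f : V → ℝ) : ∀ l : List (Fin 4), DL l f = dw (l.map e) f
  | [] => rfl
  | i :: l => congrArg (D (e i)) (DL_eq f l)

theorem grow {φ φ' B B' : ℝ → ℝ} {t : ℝ} (ht : 0 ≤ t) (h0 : |φ 0| ≤ B 0)
    (h1 : ∀ s ∈ Icc 0 t, HasDerivAt φ (φ' s) s) (h2 : ∀ s ∈ Icc 0 t, HasDerivAt B (B' s) s)
    (h3 : ∀ s ∈ Icc 0 t, |φ' s| ≤ B' s) : |φ t| ≤ B t :=
  image_norm_le_of_norm_deriv_right_le_deriv_boundary' (f := φ) (f' := φ') (B := B) (B' := B')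
    (fun s hs => (h1 s hs).continuousAt.continuousWithinAt)
    (fun s hs => (h1 s (Ico_subset_Icc_self hs)).hasDerivWithinAt) h0
    (fun s hs => (h2 s hs).continuousAt.continuousWithinAt)
    (fun s hs => (h2 s (Ico_subset_Icc_self hs)).hasDerivWithinAt)
    (fun s hs => h3 s (Ico_subset_Icc_self hs)) (right_mem_Icc.2 ht)

section one
variable {ε C : ℝ} {g g₁ g₂ g₃ : ℝ → ℝ}

theorem mem_pm {t s : ℝ} (ht : t ∈ Ico 0 ε) (hs : s ∈ Icc 0 t) :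
    s ∈ Ioo (-ε) ε ∧ -s ∈ Ioo (-ε) ε ∧ s ∈ Ico 0 ε := by
  obtain ⟨a, b⟩ := ht
  obtain ⟨c, d⟩ := hs
  exact ⟨⟨by linarith, by linarith⟩, ⟨by linarith, by linarith⟩, c, by linarith⟩

theorem t1 (h : ∀ s ∈ Ioo (-ε) ε, HasDerivAt g (g₁ s) s) (hb : ∀ s ∈ Ioo (-ε) ε, |g₁ s| ≤ C)
    {t : ℝ} (ht : t ∈ Ico 0 ε) : |g t - g 0| ≤ C * t ∧ |g (-t) - g 0| ≤ C * t := by
  have key : ∀ s ∈ Ioo (-ε) ε, |g s - g 0| ≤ C * |s| := fun s hs => by
    simpa using (convex_Ioo (-ε) ε).norm_image_sub_le_of_norm_hasDerivWithin_le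
      (fun s hs => (h s hs).hasDerivWithinAt) hb (mem_pm ht (left_mem_Icc.2 ht.1)).1 hs
  obtain ⟨a, b, -⟩ := mem_pm ht (right_mem_Icc.2 ht.1)
  have h1 := key t a
  have h2 := key (-t) b
  rw [abs_neg] at h2
  rw [abs_of_nonneg ht.1] at h1 h2
  exact ⟨h1, h2⟩

theorem d2_der (h : ∀ s ∈ Ioo (-ε) ε, HasDerivAt g (g₁ s) s) {t s : ℝ} (ht : t ∈ Ico 0 ε)
    (hs : s ∈ Icc 0 t) : HasDerivAt (d2 g) (g₁ s - g₁ (-s)) s := by
  obtain ⟨a, b, -⟩ := mem_pm ht hs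
  refine HasDerivAt.congr_deriv
    (((h s a).add ((h (-s) b).comp s (hasDerivAt_neg s))).sub_const (2 * g 0)) ?_
  ring

theorem d2_zero (g : ℝ → ℝ) : d2 g 0 = 0 := by simp [d2, two_mul]

theorem t2 (h : ∀ s ∈ Ioo (-ε) ε, HasDerivAt g (g₁ s) s)
    (h' : ∀ s ∈ Ioo (-ε) ε, HasDerivAt g₁ (g₂ s) s) (hb : ∀ s ∈ Ioo (-ε) ε, |g₂ s| ≤ C)
    {t : ℝ} (ht : t ∈ Ico 0 ε) : |d2 g t| ≤ C * t ^ 2 := by
  refine grow (B := fun s => C * s ^ 2) (B' := fun s => C * (2 * s)) ht.1 (by simp [d2_zero])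
    (fun s hs => d2_der h ht hs) (fun s _ => by simpa using (hasDerivAt_pow 2 s).const_mul C)
    fun s hs => ?_
  obtain ⟨a, b⟩ := t1 h' hb (mem_pm ht hs).2.2
  rw [abs_le] at *
  constructor <;> linarith [a.1, a.2, b.1, b.2]

theorem t3 (h : ∀ s ∈ Ioo (-ε) ε, HasDerivAt g (g₁ s) s)
    (h' : ∀ s ∈ Ioo (-ε) ε, HasDerivAt g₁ (g₂ s) s)
    (h'' : ∀ s ∈ Ioo (-ε) ε, HasDerivAt g₂ (g₃ s) s) (hb : ∀ s ∈ Ioo (-ε) ε, |g₃ s| ≤ C)
    {t : ℝ} (ht : t ∈ Ico 0 ε) : |d2 g t - t ^ 2 * deriv (deriv g) 0| ≤ C * t ^ 3 := by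
  have h0 := (mem_pm ht (left_mem_Icc.2 ht.1)).1
  have hC : 0 ≤ C := (abs_nonneg _).trans (hb 0 h0)
  have e1 : deriv g =ᶠ[𝓝 0] g₁ :=
    eventually_of_mem (isOpen_Ioo.mem_nhds h0) fun s hs => (h s hs).deriv
  rw [e1.deriv_eq, (h' 0 h0).deriv]
  have key : ∀ s ∈ Ico 0 ε, |g₁ s - g₁ (-s) - 2 * s * g₂ 0| ≤ C * s ^ 2 := by
    intro s hs
    refine grow (φ := fun s => g₁ s - g₁ (-s) - 2 * s * g₂ 0)
      (φ' := fun s => g₂ s + g₂ (-s) - 2 * g₂ 0) (B := fun s => C * s ^ 2)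
      (B' := fun s => C * (2 * s)) hs.1 (by simp) (fun r hr => ?_)
      (fun s _ => by simpa using (hasDerivAt_pow 2 s).const_mul C) fun r hr => ?_
    · obtain ⟨a, b, -⟩ := mem_pm hs hr
      refine HasDerivAt.congr_deriv (((h' r a).sub ((h' (-r) b).comp r (hasDerivAt_neg r))).sub
        (((hasDerivAt_id r).const_mul 2).mul_const (g₂ 0))) ?_
      ring
    · obtain ⟨a, b⟩ := t1 h'' hb (mem_pm hs hr).2.2
      rw [abs_le] at *
      constructor <;> linarith [a.1, a.2, b.1, b.2]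
  refine grow (φ := fun s => d2 g s - s ^ 2 * g₂ 0) (φ' := fun s => g₁ s - g₁ (-s) - 2 * s * g₂ 0)
    (B := fun s => C * s ^ 3) (B' := fun s => C * (3 * s ^ 2)) ht.1 (by simp [d2_zero])
    (fun s hs => ?_) (fun s _ => by simpa using (hasDerivAt_pow 3 s).const_mul C) fun s hs => ?_
  · refine HasDerivAt.congr_deriv ((d2_der h ht hs).sub ((hasDerivAt_pow 2 s).mul_const (g₂ 0))) ?_
    simp
  · have := key s (mem_pm ht hs).2.2
    nlinarith [mul_nonneg hC (sq_nonneg s)]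

end one

section prod
variable {O : Set V} {J : Set ℝ} {G : V × ℝ → ℝ} {y : V} {s : ℝ}

theorem slice (hO : IsOpen O) (hJ : IsOpen J) (hG : ContDiffOn ℝ ∞ G (O ×ˢ J)) (hy : y ∈ O)
    (hs : s ∈ J) : HasDerivAt (fun s => G (y, s)) (D (0, 1) G (y, s)) s :=
  (dif_at (hO.prod hJ) hG (mk_mem_prod hy hs)).hasFDerivAt.comp_hasDerivAt s
    ((hasDerivAt_const s y).prodMk (hasDerivAt_id s))

theorem D_sp (hG : DifferentiableAt ℝ G (y, s)) (v : V) :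
    D v (fun w => G (w, s)) y = D (v, 0) G (y, s) := by
  have h := hG.hasFDerivAt.comp y (hasFDerivAt_prodMk_left (𝕜 := ℝ) y s)
  have h' : HasFDerivAt (fun w => G (w, s)) _ y := h
  simp [D, h'.fderiv]

theorem DL_sp (hO : IsOpen O) (hJ : IsOpen J) (hG : ContDiffOn ℝ ∞ G (O ×ˢ J)) (hs : s ∈ J) :
    ∀ l : List (Fin 4), ∀ y ∈ O, DL l (fun w => G (w, s)) y =
      dw (l.map fun i => ((e i, 0) : V × ℝ)) G (y, s)
  | [] => fun _ _ => rfl
  | i :: l => fun _ hy => (D_congr hO (DL_sp hO hJ hG hs l) (e i) hy).trans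
      (D_sp (dif_at (hO.prod hJ) (dw_sm (hO.prod hJ) hG _) (mk_mem_prod hy hs)) (e i))

end prod

end Pool.Agent.MP_67f0e4_gt.EU.RDIF
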