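import Pool.Agent.MP_67f0e4_gt.EU.RDIFa

/-! Row DIF, second part: representation of the derivatives of `f ∘ ψ`. -/

set_option autoImplicit false

open scoped ContDiff Topology
open Set Metric Filter

namespace Pool.Agent.MP_67f0e4_gt.EU

open K

namespace RDIF

/-- the real coordinates -/
noncomputable def lam : Fin 4 → V →L[ℝ] ℝ :=
  ![Complex.reCLM.comp (ContinuousLinearMap.fst ℝ ℂ ℂ),
    Complex.imCLM.comp (ContinuousLinearMap.fst ℝ ℂ ℂ),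
    Complex.reCLM.comp (ContinuousLinearMap.snd ℝ ℂ ℂ),
    Complex.imCLM.comp (ContinuousLinearMap.snd ℝ ℂ ℂ)]

theorem lam_sum (A : V →L[ℝ] ℝ) (v : V) : A v = A (e 0) * lam 0 v + (A (e 1) * lam 1 v +
    (A (e 2) * lam 2 v + A (e 3) * lam 3 v)) := by
  conv_lhs => rw [V_eq v]
  simp only [map_add, map_smul, smul_eq_mul]
  simp [lam]
  ring

theorem jb_lin (A : V →L[ℝ] ℝ) (k : ℕ) {y : V} (hy : y ∈ ball (0 : V) 1) : JB k A y ‖A‖ := by
  intro l _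
  induction l using List.reverseRecOn with
  | nil => exact (A.le_opNorm y).trans (mul_le_of_le_one_right (norm_nonneg _)
      (mem_ball_zero_iff.1 hy).le)
  | append_singleton l i _ =>
    have h1 : D (e i) A = fun _ => A (e i) := by funext z; simp [D]
    obtain ⟨c, c1, c2⟩ := dw_const (E := V) (A (e i)) (l.map e)
    rw [DL_eq, List.map_append, List.map_singleton, dw_app, h1, c2]
    exact c1.trans (by simpa [norm_e] using A.le_opNorm (e i))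

theorem chain {E : Type} [NormedAddCommGroup E] [NormedSpace ℝ E] {g : V → ℝ} {T : E → V} {z : E}
    (hg : DifferentiableAt ℝ g (T z)) (hT : DifferentiableAt ℝ T z) (v : E) :
    D v (fun w => g (T w)) z = D (e 0) g (T z) * D v (fun w => lam 0 (T w)) z +
      (D (e 1) g (T z) * D v (fun w => lam 1 (T w)) z +
      (D (e 2) g (T z) * D v (fun w => lam 2 (T w)) z +
        D (e 3) g (T z) * D v (fun w => lam 3 (T w)) z)) := by
  have h1 : ∀ m, D v (fun w => lam m (T w)) z = lam m (fderiv ℝ T z v) := fun m => by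
    have h : HasFDerivAt (fun w => lam m (T w)) _ z := (lam m).hasFDerivAt.comp z hT.hasFDerivAt
    simp [D, h.fderiv]
  have h : HasFDerivAt (fun w => g (T w)) _ z := hg.hasFDerivAt.comp z hT.hasFDerivAt
  simp only [h1]
  simp only [D, h.fderiv, ContinuousLinearMap.comp_apply]
  exact lam_sum _ _

variable {κ : Type} {O : κ → Set V} {ε : ℝ} {ψ : κ → V × ℝ → V}

/-- sums of derivatives of `f` times bounded coefficients -/
inductive Rep (O : κ → Set V) (ε : ℝ) (ψ : κ → V × ℝ → V) (van : Prop) (k : ℕ) :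
    (κ → (V → ℝ) → V × ℝ → ℝ) → Prop
  | term (β : List (Fin 4)) (P : κ → V × ℝ → ℝ) : β.length ≤ k →
      Bw (fun x => O x ×ˢ Ioo (-ε) ε) P → (van → ∀ x, ∀ y ∈ O x, P x (y, 0) = 0) →
      Rep O ε ψ van k fun x f z => DL β f (ψ x z) * P x z
  | add (A B : κ → (V → ℝ) → V × ℝ → ℝ) : Rep O ε ψ van k A → Rep O ε ψ van k B →
      Rep O ε ψ van k fun x f z => A x f z + B x f z
  | congr (A B : κ → (V → ℝ) → V × ℝ → ℝ) : Rep O ε ψ van k A →
      (∀ x f, ContDiffOn ℝ ∞ f (ball 0 1) → ∀ z ∈ O x ×ˢ Ioo (-ε) ε, B x f z = A x f z) →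
      Rep O ε ψ van k B

theorem opn (J : Jmp O ε ψ) (x : κ) : IsOpen (O x ×ˢ Ioo (-ε) ε) := (J.op x).prod isOpen_Ioo

theorem DL_sm {f : V → ℝ} (hf : ContDiffOn ℝ ∞ f (ball 0 1)) (β : List (Fin 4)) :
    ContDiffOn ℝ ∞ (DL β f) (ball 0 1) := DL_eq f β ▸ dw_sm isOpen_ball hf _

theorem comp_sm (J : Jmp O ε ψ) (x : κ) {g : V → ℝ} (hg : ContDiffOn ℝ ∞ g (ball 0 1)) :
    ContDiffOn ℝ ∞ (fun z => g (ψ x z)) (O x ×ˢ Ioo (-ε) ε) :=
  hg.comp (J.bd.1 x) fun z hz => J.maps x z.1 hz.1 z.2 hz.2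

theorem chain' (J : Jmp O ε ψ) (x : κ) {f : V → ℝ} (hf : ContDiffOn ℝ ∞ f (ball 0 1))
    (β : List (Fin 4)) (v : V × ℝ) {z : V × ℝ} (hz : z ∈ O x ×ˢ Ioo (-ε) ε) :
    D v (fun w => DL β f (ψ x w)) z = DL (0 :: β) f (ψ x z) * D v (fun w => lam 0 (ψ x w)) z +
      (DL (1 :: β) f (ψ x z) * D v (fun w => lam 1 (ψ x w)) z +
      (DL (2 :: β) f (ψ x z) * D v (fun w => lam 2 (ψ x w)) z +
        DL (3 :: β) f (ψ x z) * D v (fun w => lam 3 (ψ x w)) z)) :=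
  chain (dif_at isOpen_ball (DL_sm hf β) (J.maps x z.1 hz.1 z.2 hz.2))
    (((J.bd.1 x).contDiffAt ((opn J x).mem_nhds hz)).differentiableAt (by simp)) v

theorem bw_lam (hC : StmtCOMP) (J : Jmp O ε ψ) (m : Fin 4) :
    Bw (fun x => O x ×ˢ Ioo (-ε) ε) fun x z => lam m (ψ x z) := by
  refine ⟨fun x => comp_sm J x (lam m).contDiff.contDiffOn, fun L => ?_⟩
  obtain ⟨C, c1, c2⟩ := hC _ κ _ ψ (opn J) J.bd L
  exact ⟨C * ‖lam m‖, by positivity, fun x z hz => c2 x (lam m) univ _ isOpen_univ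
    (lam m).contDiff.contDiffOn z hz trivial (jb_lin _ _ (J.maps x z.1 hz.1 z.2 hz.2))⟩

theorem Rep.sm (J : Jmp O ε ψ) {van : Prop} {k : ℕ} {A : κ → (V → ℝ) → V × ℝ → ℝ}
    (h : Rep O ε ψ van k A) (x : κ) (f : V → ℝ) (hf : ContDiffOn ℝ ∞ f (ball 0 1)) :
    ContDiffOn ℝ ∞ (A x f) (O x ×ˢ Ioo (-ε) ε) := by
  induction h with
  | term β P _ hP _ => exact (comp_sm J x (DL_sm hf β)).mul (hP.1 x)
  | add A B _ _ h1 h2 => exact h1.add h2
  | congr A B _ h h1 => exact h1.congr (h x f hf)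

theorem Rep.der (hC : StmtCOMP) (J : Jmp O ε ψ) (hε : 0 < ε) {van : Prop} {k : ℕ}
    {A : κ → (V → ℝ) → V × ℝ → ℝ} (h : Rep O ε ψ van k A) (v : V × ℝ) (hv : van → v.2 = 0) :
    Rep O ε ψ van (k + 1) fun x f => D v (A x f) := by
  induction h with
  | term β P hβ hP h0 =>
    have t : ∀ m, Rep O ε ψ van (k + 1) fun x f z => DL (m :: β) f (ψ x z) *
        (D v (fun w => lam m (ψ x w)) z * P x z) := fun m =>
      .term _ _ (by simpa using hβ) (((bw_lam hC J m).der (opn J) v).mul (opn J) hP)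
        fun h x y hy => by rw [h0 h x y hy, mul_zero]
    have t' : Rep O ε ψ van (k + 1) fun x f z => DL β f (ψ x z) * D v (P x) z := by
      refine .term _ _ (by omega) (hP.der (opn J) v) fun h x y hy => ?_
      have e1 : v = (v.1, 0) := Prod.ext rfl (hv h)
      rw [e1, ← D_sp (dif_at (opn J x) (hP.1 x) (mk_mem_prod hy ⟨by linarith, hε⟩)),
        D_congr (J.op x) (h0 h x) _ hy]
      simp [D]
    refine .congr _ _ (.add _ _ (.add _ _ (t 0) (.add _ _ (t 1) (.add _ _ (t 2) (t 3)))) t')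
      fun x f hf z hz => ?_
    rw [D_mul (dif_at (opn J x) (comp_sm J x (DL_sm hf β)) hz) (dif_at (opn J x) (hP.1 x) hz),
      chain' J x hf β v hz]
    ring
  | add A B a b h1 h2 =>
    exact .congr _ _ (.add _ _ h1 h2) fun x f hf z hz =>
      D_add (dif_at (opn J x) (a.sm J x f hf) hz) (dif_at (opn J x) (b.sm J x f hf) hz) v
  | congr A B _ h h1 => exact .congr _ _ h1 fun x f hf z hz => D_congr (opn J x) (h x f hf) v hz

theorem rep1 (hC : StmtCOMP) (J : Jmp O ε ψ) (hε : 0 < ε) : ∀ L : List (V × ℝ),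
    Rep O ε ψ False L.length fun x f => dw L fun z => f (ψ x z)
  | [] => .congr _ _ (.term [] _ le_rfl (Bw.const 1) False.elim) fun _ _ _ _ _ => (mul_one _).symm
  | v :: L => (rep1 hC J hε L).der hC J hε v False.elim

theorem rep2 (hC : StmtCOMP) (J : Jmp O ε ψ) (hε : 0 < ε) : ∀ l : List (Fin 4),
    Rep O ε ψ True l.length fun x f z =>
      dw (l.map fun i => ((e i, 0) : V × ℝ)) (fun z => f (ψ x z)) z - DL l f (ψ x z)
  | [] => .congr _ _ (.term [] _ le_rfl (Bw.const 0) fun _ _ _ _ => rfl) fun _ _ _ _ _ => by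
      simp [dw, DL]
  | i :: l => by
    have t : ∀ m, Rep O ε ψ True (l.length + 1) fun x f z => DL (m :: l) f (ψ x z) *
        (D (e i, 0) (fun w => lam m (ψ x w)) z + -lam m (e i)) := fun m => by
      refine .term _ _ le_rfl (((bw_lam hC J m).der (opn J) _).add (opn J) (Bw.const _))
        fun _ x y hy => ?_
      rw [← D_sp (dif_at (opn J x) ((bw_lam hC J m).1 x) (mk_mem_prod hy ⟨by linarith, hε⟩)),
        D_congr (g := lam m) (J.op x) (fun w hw => congrArg (lam m) (J.zero x w hw)) _ hy]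
      simp [D]
    refine .congr _ _ (.add _ _ ((rep2 hC J hε l).der hC J hε (e i, 0) fun _ => rfl)
      (.add _ _ (t 0) (.add _ _ (t 1) (.add _ _ (t 2) (t 3))))) fun x f hf z hz => ?_
    have h1 := D_add (dif_at (opn J x) ((rep2 hC J hε l).sm J x f hf) hz)
      (dif_at (opn J x) (comp_sm J x (DL_sm hf l)) hz) ((e i, 0) : V × ℝ)
    simp only [sub_add_cancel] at h1
    have h2 : DL (i :: l) f (ψ x z) = _ := lam_sum (fderiv ℝ (DL l f) (ψ x z)) (e i)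
    rw [chain' J x hf l _ hz] at h1
    rw [h2]
    simp only [List.map_cons, dw, DL, D] at h1 ⊢
    rw [h1]
    ring

/-- the hypotheses on the data -/
structure Hy (O : κ → Set V) (ε : ℝ) (ψ : κ → V × ℝ → V) (k : ℕ) (x : κ) (f : V → ℝ) (M : ℝ)
    (y : V) (d : ℝ → ℝ) (s : ℝ) : Prop where
  sm : ContDiffOn ℝ ∞ f (ball 0 1)
  jb : ∀ y ∈ ball (0 : V) 1, JB k f y M
  mem : y ∈ O x
  dif : ∀ e ∈ Ioo (-ε) ε, ∀ l : List (Fin 4), l.length ≤ k →
    |DL l f (ψ x (y, e)) - DL l f y| ≤ d e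
  rng : s ∈ Ico 0 ε

section
variable {k : ℕ} {x : κ} {f : V → ℝ} {M : ℝ} {y : V} {d : ℝ → ℝ} {s : ℝ}

theorem Hy.pm (H : Hy O ε ψ k x f M y d s) :
    s ∈ Ioo (-ε) ε ∧ -s ∈ Ioo (-ε) ε ∧ (0 : ℝ) ∈ Ioo (-ε) ε :=
  ⟨(mem_pm H.rng (right_mem_Icc.2 H.rng.1)).1, (mem_pm H.rng (right_mem_Icc.2 H.rng.1)).2.1,
    (mem_pm H.rng (left_mem_Icc.2 H.rng.1)).1⟩

theorem Hy.nn (H : Hy O ε ψ k x f M y d s) : 0 ≤ M ∧ 0 ≤ d s ∧ 0 ≤ d (-s) :=
  ⟨(abs_nonneg _).trans (H.jb 0 (mem_ball_self one_pos) [] (Nat.zero_le _)),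
    (abs_nonneg _).trans (H.dif _ H.pm.1 [] (Nat.zero_le _)),
    (abs_nonneg _).trans (H.dif _ H.pm.2.1 [] (Nat.zero_le _))⟩

theorem Hy.a0 (J : Jmp O ε ψ) (H : Hy O ε ψ k x f M y d s) {β : List (Fin 4)} (h : β.length ≤ k) :
    |DL β f y| ≤ M := H.jb y (J.zero x y H.mem ▸ J.maps x y H.mem 0 H.pm.2.2) β h

end

theorem three {a₁ a₂ a₃ b₁ b₂ b₃ A₁ A₂ A₃ B₁ B₂ B₃ : ℝ} (h1 : |a₁| ≤ A₁) (h2 : |a₂| ≤ A₂)
    (h3 : |a₃| ≤ A₃) (k1 : |b₁| ≤ B₁) (k2 : |b₂| ≤ B₂) (k3 : |b₃| ≤ B₃) :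
    |a₁ * b₁ + a₂ * b₂ + a₃ * b₃| ≤ A₁ * B₁ + A₂ * B₂ + A₃ * B₃ := by
  have t : ∀ {a b A B : ℝ}, |a| ≤ A → |b| ≤ B → |a * b| ≤ A * B := fun h k =>
    (abs_mul _ _).le.trans (mul_le_mul h k (abs_nonneg _) ((abs_nonneg _).trans h))
  exact (abs_add_three _ _ _).trans (add_le_add (add_le_add (t h1 k1) (t h2 k2)) (t h3 k3))

theorem est_a (J : Jmp O ε ψ) {k' k : ℕ} (hk : k' ≤ k) {A : κ → (V → ℝ) → V × ℝ → ℝ}
    (h : Rep O ε ψ True k' A) : ∃ C : ℝ, 0 ≤ C ∧ ∀ x f M y d s, Hy O ε ψ k x f M y d s →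
      |d2 (fun e => A x f (y, e)) s| ≤ C * (s * (d s + d (-s)) + s ^ 2 * M) := by
  induction h with
  | term β P hβ hP h0 =>
    obtain ⟨C₁, a1, a2⟩ := hP.2 [(0, 1)]
    obtain ⟨C₂, b1, b2⟩ := hP.2 [(0, 1), (0, 1)]
    refine ⟨C₁ + C₂, add_nonneg a1 b1, fun x f M y d s H => ?_⟩
    have s1 := fun r hr => slice (s := r) (J.op x) isOpen_Ioo (hP.1 x) H.mem hr
    have s2 := fun r hr => slice (s := r) (J.op x) isOpen_Ioo
      (D_sm (opn J x) (hP.1 x) (0, 1)) H.mem hr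
    obtain ⟨c1, c2⟩ := t1 s1 (fun r hr => a2 x _ (mk_mem_prod H.mem hr)) H.rng
    have c3 := t2 s1 s2 (fun r hr => b2 x _ (mk_mem_prod H.mem hr)) H.rng
    have := three (H.dif _ H.pm.1 β (hβ.trans hk)) (H.dif _ H.pm.2.1 β (hβ.trans hk))
      (H.a0 J (hβ.trans hk)) c1 c2 c3
    obtain ⟨n1, n2, n3⟩ := H.nn
    have n4 := H.rng.1
    simp only [d2, h0 trivial x y H.mem] at this ⊢
    refine le_trans (le_of_eq (congrArg _ (by ring))) (this.trans ?_)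
    nlinarith [mul_nonneg a1 (mul_nonneg (sq_nonneg s) n1),
      mul_nonneg b1 (mul_nonneg n4 (add_nonneg n2 n3))]
  | add A B _ _ h1 h2 =>
    obtain ⟨C₁, a1, a2⟩ := h1
    obtain ⟨C₂, b1, b2⟩ := h2
    refine ⟨C₁ + C₂, add_nonneg a1 b1, fun x f M y d s H => ?_⟩
    rw [add_mul]
    refine le_trans (le_of_eq (congrArg _ ?_)) ((abs_add_le _ _).trans
      (add_le_add (a2 x f M y d s H) (b2 x f M y d s H)))
    simp only [d2]
    ring
  | congr A B _ h h1 =>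
    obtain ⟨C, a1, a2⟩ := h1
    refine ⟨C, a1, fun x f M y d s H => le_trans (le_of_eq ?_) (a2 x f M y d s H)⟩
    simp only [d2, h x f H.sm _ (mk_mem_prod H.mem H.pm.1),
      h x f H.sm _ (mk_mem_prod H.mem H.pm.2.1), h x f H.sm _ (mk_mem_prod H.mem H.pm.2.2)]

theorem est_b (J : Jmp O ε ψ) {k' k : ℕ} (hk : k' ≤ k) {A : κ → (V → ℝ) → V × ℝ → ℝ}
    (h : Rep O ε ψ False k' A) : ∃ C : ℝ, 0 ≤ C ∧ ∀ x f M y d s, Hy O ε ψ k x f M y d s →
      |A x f (y, s) - A x f (y, -s)| ≤ C * (d s + d (-s) + 2 * s * M) := by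
  induction h with
  | term β P hβ hP h0 =>
    obtain ⟨C₁, a1, a2⟩ := hP.2 []
    obtain ⟨C₂, b1, b2⟩ := hP.2 [(0, 1)]
    refine ⟨C₁ + C₂, add_nonneg a1 b1, fun x f M y d s H => ?_⟩
    have s1 := fun r hr => slice (s := r) (J.op x) isOpen_Ioo (hP.1 x) H.mem hr
    obtain ⟨c1, c2⟩ := t1 s1 (fun r hr => b2 x _ (mk_mem_prod H.mem hr)) H.rng
    have c3 : |P x (y, s) - P x (y, -s)| ≤ 2 * (C₂ * s) := by
      rw [abs_le] at *
      constructor <;> linarith [c1.1, c1.2, c2.1, c2.2]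
    have c4 : |-P x (y, -s)| ≤ C₁ := (abs_neg _).le.trans (a2 x _ (mk_mem_prod H.mem H.pm.2.1))
    have c5 : |P x (y, s)| ≤ C₁ := a2 x _ (mk_mem_prod H.mem H.pm.1)
    have := three (H.dif _ H.pm.1 β (hβ.trans hk)) (H.dif _ H.pm.2.1 β (hβ.trans hk))
      (H.a0 J (hβ.trans hk)) c5 c4 c3
    obtain ⟨n1, n2, n3⟩ := H.nn
    have n4 := H.rng.1
    refine le_trans (le_of_eq (congrArg _ (by ring))) (this.trans ?_)
    nlinarith [mul_nonneg a1 (mul_nonneg n4 n1), mul_nonneg b1 (add_nonneg n2 n3)]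
  | add A B _ _ h1 h2 =>
    obtain ⟨C₁, a1, a2⟩ := h1
    obtain ⟨C₂, b1, b2⟩ := h2
    refine ⟨C₁ + C₂, add_nonneg a1 b1, fun x f M y d s H => ?_⟩
    rw [add_mul]
    exact le_trans (le_of_eq (congrArg _ (by ring))) ((abs_add_le _ _).trans
      (add_le_add (a2 x f M y d s H) (b2 x f M y d s H)))
  | congr A B _ h h1 =>
    obtain ⟨C, a1, a2⟩ := h1
    refine ⟨C, a1, fun x f M y d s H => le_trans (le_of_eq ?_) (a2 x f M y d s H)⟩
    rw [h x f H.sm _ (mk_mem_prod H.mem H.pm.1), h x f H.sm _ (mk_mem_prod H.mem H.pm.2.1)]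

end RDIF

end Pool.Agent.MP_67f0e4_gt.EU
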