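import Pool.Agent.MP_67f0e4_gt.EU.Spec

/-! Row LIM: limits along an ultrafilter of functions with bounded derivatives. -/

set_option autoImplicit false

open scoped ContDiff
open Set Metric Filter Topology

namespace Pool.Agent.MP_67f0e4_gt.EU

noncomputable section

open K

namespace RLIM

/-- the coordinates -/
def co : Fin 4 → V →L[ℝ] ℝ :=
  ![Complex.reCLM.comp (ContinuousLinearMap.fst ℝ ℂ ℂ),
    Complex.imCLM.comp (ContinuousLinearMap.fst ℝ ℂ ℂ),
    Complex.reCLM.comp (ContinuousLinearMap.snd ℝ ℂ ℂ),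
    Complex.imCLM.comp (ContinuousLinearMap.snd ℝ ℂ ℂ)]

theorem co_le (i : Fin 4) (u : V) : |co i u| ≤ ‖u‖ := by
  fin_cases i
  exacts [(Complex.abs_re_le_norm _).trans (norm_fst_le u),
    (Complex.abs_im_le_norm _).trans (norm_fst_le u),
    (Complex.abs_re_le_norm _).trans (norm_snd_le u),
    (Complex.abs_im_le_norm _).trans (norm_snd_le u)]

theorem co_sum (u : V) : u = ∑ i, co i u • e i := by
  refine Prod.ext (Complex.ext ?_ ?_) (Complex.ext ?_ ?_) <;> simp [co, e, Fin.sum_univ_four]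

theorem co_e (c : Fin 4 → ℝ) (i : Fin 4) : (∑ j, c j • co j) (e i) = c i := by
  fin_cases i <;> simp [co, e, Fin.sum_univ_four]

theorem clm_eq (A : V →L[ℝ] ℝ) : A = ∑ i, A (e i) • co i := by
  refine ContinuousLinearMap.ext fun u => ?_
  conv_lhs => rw [co_sum u]
  simp [mul_comm]

theorem clm_le (A : V →L[ℝ] ℝ) {M : ℝ} (h : ∀ i, |A (e i)| ≤ M) : ‖A‖ ≤ 4 * M := by
  have h0 : 0 ≤ M := (abs_nonneg _).trans (h 0)
  refine A.opNorm_le_bound (by positivity) fun u => ?_
  rw [clm_eq A, sum_apply]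
  refine (norm_sum_le _ _).trans ((Finset.sum_le_card_nsmul _ _ (M * ‖u‖) fun i _ => ?_).trans ?_)
  · rw [smul_apply, smul_eq_mul, Real.norm_eq_abs, abs_mul]
    exact mul_le_mul (h i) (co_le i u) (abs_nonneg _) h0
  · simp [mul_assoc]

variable {O : Set V} {h : V → ℝ}

theorem sm_D (hO : IsOpen O) (hh : ContDiffOn ℝ ∞ h O) (v : V) : ContDiffOn ℝ ∞ (D v h) O :=
  (hh.fderiv_of_isOpen hO (by simp)).clm_apply contDiffOn_const

theorem sm_DL (hO : IsOpen O) (hh : ContDiffOn ℝ ∞ h O) (l : List (Fin 4)) :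
    ContDiffOn ℝ ∞ (DL l h) O := by
  induction l with
  | nil => exact hh
  | cons i l ih => exact sm_D hO ih _

theorem dif (hO : IsOpen O) (hh : ContDiffOn ℝ ∞ h O) {z : V} (hz : z ∈ O) :
    DifferentiableAt ℝ h z := (hh.contDiffAt (hO.mem_nhds hz)).differentiableAt (by simp)

theorem taylor (hO : IsOpen O) (hh : ContDiffOn ℝ ∞ h O) {M : ℝ}
    (hM : ∀ z ∈ O, ∀ i j, |D (e j) (D (e i) h) z| ≤ M) {y u : V} (hs : closedBall y ‖u‖ ⊆ O) :
    |h (y + u) - h y - ∑ i, D (e i) h y * co i u| ≤ 16 * M * ‖u‖ ^ 2 := by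
  have hy : y ∈ closedBall y ‖u‖ := mem_closedBall_self (norm_nonneg u)
  have h0 : 0 ≤ M := (abs_nonneg _).trans (hM y (hs hy) 0 0)
  have h1 : ∀ z ∈ closedBall y ‖u‖, ‖fderiv ℝ h z - fderiv ℝ h y‖ ≤ 4 * (4 * M * ‖u‖) :=
    fun z hz => clm_le _ fun i => by
      have := (convex_closedBall y ‖u‖).norm_image_sub_le_of_norm_fderiv_le (𝕜 := ℝ)
        (f := D (e i) h) (C := 4 * M) (fun x hx => dif hO (sm_D hO hh _) (hs hx))
        (fun x hx => clm_le _ fun j => hM x (hs hx) i j) hy hz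
      refine this.trans (mul_le_mul_of_nonneg_left ?_ (by positivity))
      rwa [mem_closedBall, dist_eq_norm] at hz
  have h2 := (convex_closedBall y ‖u‖).norm_image_sub_le_of_norm_fderiv_le' (𝕜 := ℝ) (f := h)
    (fun x hx => dif hO hh (hs hx)) h1 hy (y := y + u) (by simp)
  rw [add_sub_cancel_left, clm_eq (fderiv ℝ h y), sum_apply] at h2
  exact h2.trans_eq (by ring)

end RLIM

open RLIM in
theorem lim : StmtLIM := by
  intro O 𝒰 F f C hO hF hC hf
  have hg : ∀ (l : List (Fin 4)) (y : V), ∃ x, y ∈ O →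
      Tendsto (fun n => DL l (F n) y) 𝒰 (𝓝 x) := fun l y => by
    by_cases hy : y ∈ O
    · obtain ⟨x, -, hx⟩ := (isCompact_Icc (a := -C l.length) (b := C l.length)).ultrafilter_le_nhds
        (𝒰.map fun n => DL l (F n) y) (le_principal_iff.2 ((hC l.length).mono fun n hn =>
          abs_le.1 (hn y hy l le_rfl)))
      exact ⟨x, fun _ => hx⟩
    · exact ⟨0, fun h => absurd h hy⟩
  choose g hg using hg
  have hd : ∀ (l : List (Fin 4)), ∀ y ∈ O,
      HasFDerivAt (g l) (∑ i, g (i :: l) y • co i) y := fun l y hy => by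
    obtain ⟨r, r0, hr⟩ := Metric.isOpen_iff.1 hO y hy
    rw [hasFDerivAt_iff_isLittleO_nhds_zero]
    refine (Asymptotics.IsBigO.of_bound (16 * C (l.length + 2)) ?_).trans_isLittleO
      (Asymptotics.isLittleO_norm_pow_id (n := 2) one_lt_two)
    filter_upwards [ball_mem_nhds (0 : V) r0] with u hu
    have hs : closedBall y ‖u‖ ⊆ O :=
      (closedBall_subset_ball (mem_ball_zero_iff.1 hu)).trans hr
    have ht := (((hg l (y + u) (hs (by simp))).sub (hg l y hy)).sub
      (tendsto_finsetSum Finset.univ fun i _ => (hg (i :: l) y hy).mul_const (co i u))).abs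
    rw [sum_apply, Real.norm_of_nonneg (sq_nonneg ‖u‖)]
    refine le_of_tendsto ht ?_
    filter_upwards [hF, hC (l.length + 2)] with n h1 h2
    exact taylor hO (sm_DL hO h1 l) (fun z hz i j => h2 z hz (j :: i :: l) le_rfl) hs
  have hs : ∀ (m : ℕ) (l : List (Fin 4)), ContDiffOn ℝ m (g l) O := fun m => by
    induction m with
    | zero => exact fun l => contDiffOn_zero.2 fun y hy =>
        (hd l y hy).continuousAt.continuousWithinAt
    | succ m ih =>
      intro l
      rw [Nat.cast_succ, contDiffOn_succ_iff_fderiv_of_isOpen hO]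
      refine ⟨fun y hy => (hd l y hy).differentiableAt.differentiableWithinAt, by simp, ?_⟩
      exact (ContDiffOn.sum fun i _ => (ih (i :: l)).smul contDiffOn_const).congr
        fun y hy => (hd l y hy).fderiv
  have he : ∀ (l : List (Fin 4)), ∀ y ∈ O, DL l f y = g l y := fun l => by
    induction l with
    | nil => exact fun y hy => tendsto_nhds_unique (hf y hy) (hg [] y hy)
    | cons i l ih =>
      intro y hy
      have e1 : DL l f =ᶠ[𝓝 y] g l := eventually_of_mem (hO.mem_nhds hy) ih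
      change fderiv ℝ (DL l f) y (e i) = _
      rw [e1.fderiv_eq, (hd l y hy).fderiv]
      exact co_e (fun j => g (j :: l) y) i
  refine ⟨(contDiffOn_infty.2 fun m => hs m []).congr (he []), fun l y hy => ?_⟩
  rw [he l y hy]
  exact hg l y hy

end

end Pool.Agent.MP_67f0e4_gt.EU
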