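import Pool.Agent.MP_67f0e4_gt.EU.Spec

/-! Row STEP, part a: calculus of words, estimates along the jumps. -/

set_option autoImplicit false

open scoped ContDiff Topology
open Set Metric Filter

namespace Pool.Agent.MP_67f0e4_gt.EU.RSTEP

open K

theorem D_sm {E : Type} [NormedAddCommGroup E] [NormedSpace ℝ E] {O : Set E} (hO : IsOpen O)
    {f : E → ℝ} (hf : ContDiffOn ℝ ∞ f O) (v : E) : ContDiffOn ℝ ∞ (D v f) O :=
  (hf.fderiv_of_isOpen hO (m := ∞) (by simp)).clm_apply contDiffOn_const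

theorem DL_sm {O : Set V} (hO : IsOpen O) {f : V → ℝ} (hf : ContDiffOn ℝ ∞ f O)
    (l : List (Fin 4)) : ContDiffOn ℝ ∞ (DL l f) O := by
  induction l with
  | nil => exact hf
  | cons i l ih => exact D_sm hO ih _

theorem DL_congr {f g : V → ℝ} {y : V} (h : f =ᶠ[𝓝 y] g) (l : List (Fin 4)) :
    DL l f =ᶠ[𝓝 y] DL l g := by
  induction l with
  | nil => exact h
  | cons i l ih =>
    filter_upwards [ih.fderiv (𝕜 := ℝ)] with w hw
    change fderiv ℝ _ w _ = fderiv ℝ _ w _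
    rw [hw]

theorem dat {E : Type} [NormedAddCommGroup E] [NormedSpace ℝ E] {O : Set E} (hO : IsOpen O)
    {f : E → ℝ} (hf : ContDiffOn ℝ ∞ f O) {y : E} (hy : y ∈ O) : DifferentiableAt ℝ f y :=
  (hf.contDiffAt (hO.mem_nhds hy)).differentiableAt (by simp)

theorem DL_sum {ι : Type} [Fintype ι] {O : Set V} (hO : IsOpen O) {g : ι → V → ℝ}
    (hg : ∀ i, ContDiffOn ℝ ∞ (g i) O) (l : List (Fin 4)) :
    ∀ y ∈ O, DL l (fun w => ∑ i, g i w) y = ∑ i, DL l (g i) y := by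
  induction l with
  | nil => exact fun _ _ => rfl
  | cons j l ih =>
    intro y hy
    have h1 : DL l (fun w => ∑ i, g i w) =ᶠ[𝓝 y] fun w => ∑ i, DL l (g i) w :=
      eventually_of_mem (hO.mem_nhds hy) ih
    change fderiv ℝ _ y _ = ∑ i, fderiv ℝ _ y _
    rw [h1.fderiv_eq, fderiv_fun_sum fun i _ => dat hO (DL_sm hO (hg i) l) hy,
      sum_apply]

theorem DL_lin {O : Set V} (hO : IsOpen O) {f g : V → ℝ} (hf : ContDiffOn ℝ ∞ f O)
    (hg : ContDiffOn ℝ ∞ g O) (c : ℝ) (l : List (Fin 4)) :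
    ∀ y ∈ O, DL l (fun w => c * f w + g w) y = c * DL l f y + DL l g y := by
  induction l with
  | nil => exact fun _ _ => rfl
  | cons j l ih =>
    intro y hy
    have h1 : DL l (fun w => c * f w + g w) =ᶠ[𝓝 y] fun w => c * DL l f w + DL l g w :=
      eventually_of_mem (hO.mem_nhds hy) ih
    have h2 := ((dat hO (DL_sm hO hf l) hy).hasFDerivAt.const_mul c).add
      (dat hO (DL_sm hO hg l) hy).hasFDerivAt
    change fderiv ℝ _ y _ = c * fderiv ℝ _ y _ + fderiv ℝ _ y _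
    rw [h1.fderiv_eq]
    exact (congrArg (fun L : V →L[ℝ] ℝ => L (e j)) h2.fderiv).trans (by simp)

theorem DL_eq {O : Set V} (hO : IsOpen O) {f : V → ℝ} (hf : ContDiffOn ℝ ∞ f O)
    (l : List (Fin 4)) :
    ∀ y ∈ O, DL l f y = iteratedFDeriv ℝ l.length f y fun i => e (l.get i) := by
  induction l with
  | nil => exact fun y _ => rfl
  | cons j l ih =>
    intro y hy
    have h1 : DL l f =ᶠ[𝓝 y] fun w => iteratedFDeriv ℝ l.length f w fun i => e (l.get i) :=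
      eventually_of_mem (hO.mem_nhds hy) ih
    have h2 : DifferentiableAt ℝ (iteratedFDeriv ℝ l.length f) y :=
      (hf.contDiffAt (hO.mem_nhds hy)).differentiableAt_iteratedFDeriv
        (by exact_mod_cast ENat.natCast_lt_top _)
    change fderiv ℝ _ y _ = iteratedFDeriv ℝ (l.length + 1) f y _
    rw [h1.fderiv_eq, fderiv_continuousMultilinear_apply_const_apply h2,
      iteratedFDeriv_succ_apply_left]
    rfl

theorem norm_e (i : Fin 4) : ‖e i‖ ≤ 1 := by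
  fin_cases i <;> simp [e]

theorem bd_JB {κ : Type} {O : κ → Set V} {F : κ → V → ℝ} (hO : ∀ x, IsOpen (O x))
    (hb : Bd O F) (k : ℕ) : ∃ C : ℝ, 0 ≤ C ∧ ∀ x, ∀ y ∈ O x, JB k (F x) y C := by
  choose C hC using hb.2
  refine ⟨∑ n ∈ Finset.range (k + 1), |C n|, Finset.sum_nonneg fun _ _ => abs_nonneg _,
    fun x y hy l hl => ?_⟩
  rw [DL_eq (hO x) (hb.1 x) l y hy, ← Real.norm_eq_abs]
  refine (ContinuousMultilinearMap.le_opNorm _ _).trans ?_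
  refine (mul_le_of_le_one_right (norm_nonneg _)
    (Finset.prod_le_one (fun _ _ => norm_nonneg _) fun i _ => norm_e _)).trans ?_
  exact (hC _ x y hy).trans ((le_abs_self _).trans (Finset.single_le_sum
    (f := fun n => |C n|) (fun _ _ => abs_nonneg _) (Finset.mem_range.2 (Nat.lt_succ_of_le hl))))

theorem sm_JB {g : V → ℝ} (hg : ContDiff ℝ ∞ g) (k : ℕ) :
    ∃ C : ℝ, 0 ≤ C ∧ ∀ y ∈ ball (0 : V) 1, JB k g y C := by
  have hb : Bd (fun _ : Unit => ball (0 : V) 1) fun _ => g := by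
    refine ⟨fun _ => hg.contDiffOn, fun n => ?_⟩
    obtain ⟨C, hC⟩ := (isCompact_closedBall (0 : V) 1).exists_bound_of_continuousOn
      (hg.continuous_iteratedFDeriv (m := n) (by exact_mod_cast le_top)).continuousOn
    exact ⟨C, fun _ y hy => hC y (ball_subset_closedBall hy)⟩
  obtain ⟨C, h0, hC⟩ := bd_JB (fun _ => isOpen_ball) hb k
  exact ⟨C, h0, hC ()⟩

theorem curve {U : Set (V × ℝ)} (hU : IsOpen U) {F : V × ℝ → ℝ} (hF : ContDiffOn ℝ ∞ F U)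
    {y : V} {s : ℝ} (h : (y, s) ∈ U) :
    HasDerivAt (fun r => F (y, r)) (D ((0 : V), (1 : ℝ)) F (y, s)) s :=
  (dat hU hF h).hasFDerivAt.comp_hasDerivAt s
    ((hasDerivAt_const s y).prodMk (hasDerivAt_id s))

theorem lip1 {g g' : ℝ → ℝ} {η C : ℝ} (hd : ∀ s ∈ Icc (-η) η, HasDerivAt g (g' s) s)
    (hb : ∀ s ∈ Icc (-η) η, |g' s| ≤ C) {s r : ℝ} (hs : s ∈ Icc (-η) η) (hr : r ∈ Icc (-η) η) :
    |g s - g r| ≤ C * |s - r| :=
  (convex_Icc (-η) η).norm_image_sub_le_of_norm_hasDerivWithin_le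
    (fun s hs => (hd s hs).hasDerivWithinAt) hb hr hs

theorem lip2 {g g' g'' : ℝ → ℝ} {η C : ℝ} (hC : 0 ≤ C)
    (hd : ∀ s ∈ Icc (-η) η, HasDerivAt g (g' s) s)
    (hd' : ∀ s ∈ Icc (-η) η, HasDerivAt g' (g'' s) s) (hb : ∀ s ∈ Icc (-η) η, |g'' s| ≤ C)
    {s : ℝ} (hs : s ∈ Icc (-η) η) : |g s + g (-s) - 2 * g 0| ≤ 2 * C * η ^ 2 := by
  have hn : ∀ r ∈ Icc (-η) η, -r ∈ Icc (-η) η := fun r hr => ⟨by linarith [hr.2], by linarith [hr.1]⟩
  have hη : 0 ≤ η := by linarith [hs.1, hs.2]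
  have h1 := lip1 (g := fun r => g r + g (-r)) (g' := fun r => g' r - g' (-r)) (η := η)
    (C := C * (2 * η)) (fun r hr => ?_) (fun r hr => ?_) hs (r := 0) ⟨by linarith, hη⟩
  · have h2 : |s - 0| ≤ η := by
      rw [sub_zero]
      exact abs_le.2 hs
    have h3 : g s + g (-s) - 2 * g 0 = g s + g (-s) - (g 0 + g (-0)) := by
      rw [neg_zero]
      ring
    rw [h3]
    refine h1.trans ((mul_le_mul_of_nonneg_left h2 (by positivity)).trans (le_of_eq ?_))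
    ring
  · have h2 := (hd r hr).add ((hd (-r) (hn r hr)).comp r (hasDerivAt_neg r))
    rw [mul_neg_one, ← sub_eq_add_neg] at h2
    exact h2
  · refine (lip1 hd' hb hr (hn r hr)).trans (mul_le_mul_of_nonneg_left ?_ hC)
    exact abs_le.2 ⟨by linarith [hr.1], by linarith [hr.2]⟩

theorem chi_est (hP : StmtCOMP) {κ : Type} {O : κ → Set V} {ε : ℝ} {ψ : κ → V × ℝ → V}
    (hJ : Jmp O ε ψ) {χ : V → ℝ} (hχ : ContDiff ℝ ∞ χ) : ∃ C : ℝ, 0 ≤ C ∧ ∀ x, ∀ y ∈ O x,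
      ∀ η : ℝ, η < ε → ∀ s ∈ Icc (-η) η, |χ (ψ x (y, s)) - χ y| ≤ C * η ∧
        |χ (ψ x (y, s)) ^ 2 + χ (ψ x (y, -s)) ^ 2 - 2 * χ y ^ 2| ≤ C * η ^ 2 := by
  have hU : ∀ x, IsOpen (O x ×ˢ Ioo (-ε) ε) := fun x => (hJ.op x).prod isOpen_Ioo
  obtain ⟨C₁, h1, hC₁⟩ := hP (V × ℝ) κ _ ψ hU hJ.bd [(0, 1)]
  obtain ⟨C₂, h2, hC₂⟩ := hP (V × ℝ) κ _ ψ hU hJ.bd [(0, 1), (0, 1)]
  obtain ⟨M₁, h3, hM₁⟩ := sm_JB hχ 1
  obtain ⟨M₂, h4, hM₂⟩ := sm_JB (hχ.pow 2) 2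
  refine ⟨C₁ * M₁ + 2 * (C₂ * M₂), by positivity, fun x y hy η hη s hs => ?_⟩
  have hη0 : 0 ≤ η := by linarith [hs.1, hs.2]
  have hI : ∀ r ∈ Icc (-η) η, r ∈ Ioo (-ε) ε := fun r hr =>
    ⟨by linarith [hr.1], by linarith [hr.2]⟩
  have s1 : ContDiffOn ℝ ∞ (fun w => χ (ψ x w)) (O x ×ˢ Ioo (-ε) ε) :=
    hχ.comp_contDiffOn (hJ.bd.1 x)
  have s2 : ContDiffOn ℝ ∞ (fun w => χ (ψ x w) ^ 2) (O x ×ˢ Ioo (-ε) ε) := s1.pow 2
  have e1 := lip1 (fun r hr => curve (hU x) s1 (y := y) ⟨hy, hI r hr⟩)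
    (fun r hr => hC₁ x χ univ M₁ isOpen_univ hχ.contDiffOn (y, r) ⟨hy, hI r hr⟩ (mem_univ _)
      (hM₁ _ (hJ.maps x y hy r (hI r hr)))) hs (r := 0) ⟨by linarith, hη0⟩
  have e2 := lip2 (mul_nonneg h2 h4) (fun r hr => curve (hU x) s2 (y := y) ⟨hy, hI r hr⟩)
    (fun r hr => curve (hU x) (D_sm (hU x) s2 (0, 1)) (y := y) ⟨hy, hI r hr⟩)
    (fun r hr => hC₂ x (fun w => χ w ^ 2) univ M₂ isOpen_univ (hχ.pow 2).contDiffOn (y, r)
      ⟨hy, hI r hr⟩ (mem_univ _) (hM₂ _ (hJ.maps x y hy r (hI r hr)))) hs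
  simp only [hJ.zero x y hy, sub_zero] at e1 e2
  have h5 : |s| ≤ η := abs_le.2 hs
  have h6 := mul_nonneg h1 h3
  have h7 := mul_nonneg h2 h4
  constructor
  · refine e1.trans ((mul_le_mul_of_nonneg_left h5 h6).trans ?_)
    exact mul_le_mul_of_nonneg_right (by linarith) hη0
  · exact e2.trans (mul_le_mul_of_nonneg_right (by linarith) (sq_nonneg η))

theorem norm_le_card {ι : Type} [Fintype ι] (v : EuclideanSpace ℝ ι) {m : ℝ} (hm : 0 ≤ m)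
    (h : ∀ i, |v i| ≤ m) : ‖v‖ ≤ √(Fintype.card ι) * m := by
  rw [EuclideanSpace.norm_eq, ← Real.sqrt_sq hm, ← Real.sqrt_mul (Nat.cast_nonneg _)]
  refine Real.sqrt_le_sqrt ?_
  refine (Finset.sum_le_card_nsmul _ _ (m ^ 2) fun i _ => ?_).trans (by simp)
  exact pow_le_pow_left₀ (norm_nonneg _) (h i) 2

theorem ex_bd {ι : Type} [Fintype ι] (C : ι → ℝ) : ∃ c : ℝ, 0 ≤ c ∧ ∀ i, C i ≤ c :=
  ⟨∑ i, |C i|, Finset.sum_nonneg fun _ _ => abs_nonneg _, fun i => (le_abs_self _).trans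
    (Finset.single_le_sum (f := fun i => |C i|) (fun _ _ => abs_nonneg _) (Finset.mem_univ i))⟩

end Pool.Agent.MP_67f0e4_gt.EU.RSTEP
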