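import Pool.Agent.MP_67f0e4_gt.EU.RSTEPa

/-! Row STEP, part b: the leading term of the derivatives of the operator. -/

set_option autoImplicit false

open scoped ContDiff Topology
open Set Metric Filter

namespace Pool.Agent.MP_67f0e4_gt.EU.RSTEP

open K

theorem arith1 {R CA Θ M P θ J : ℝ} (hR : 0 ≤ R) (hC : 0 ≤ CA) (hM : 0 ≤ M) (h0 : 0 ≤ θ)
    (hθ : θ ≤ Θ) (h1 : 1 ≤ P) (h2 : M ≤ P) (h3 : θ * J ≤ P) :
    1 + (R + CA * M) + θ * (R + CA * (M + J)) ≤ (1 + R + CA + Θ * R + Θ * CA + CA) * P := by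
  have hΘ : 0 ≤ Θ := h0.trans hθ
  have e1 : R ≤ R * P := le_mul_of_one_le_right hR h1
  have e2 : CA * M ≤ CA * P := mul_le_mul_of_nonneg_left h2 hC
  have e3 : θ * R ≤ Θ * (R * P) := mul_le_mul hθ e1 hR hΘ
  have e4 : θ * (CA * M) ≤ Θ * (CA * P) := mul_le_mul hθ e2 (mul_nonneg hC hM) hΘ
  have e5 : CA * (θ * J) ≤ CA * P := mul_le_mul_of_nonneg_left h3 hC
  nlinarith

theorem arith2 {R CA Θ Γ M P θ J g z : ℝ} (hR : 0 ≤ R) (hC : 0 ≤ CA) (hM : 0 ≤ M)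
    (hθ : |θ| ≤ Θ) (hg : |g| ≤ Γ) (h1 : 1 ≤ P) (h2 : M ≤ P) (h3 : |θ| * J ≤ P)
    (hz : |z| ≤ R + CA * (M + J)) :
    |θ ^ 2 * g * z| ≤ Θ * Γ * (1 + R + CA + Θ * R + Θ * CA + CA) * P := by
  have h0 := abs_nonneg θ
  have hΘ : 0 ≤ Θ := h0.trans hθ
  have hΓ : 0 ≤ Γ := (abs_nonneg g).trans hg
  have e1 := arith1 hR hC hM h0 hθ h1 h2 h3
  have e2 : |θ| * |z| ≤ |θ| * (R + CA * (M + J)) := mul_le_mul_of_nonneg_left hz h0
  have e3 : 0 ≤ CA * M := mul_nonneg hC hM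
  have e4 : |θ| * |z| ≤ (1 + R + CA + Θ * R + Θ * CA + CA) * P := by linarith
  have e5 : |θ ^ 2 * g * z| = |θ| * |g| * (|θ| * |z|) := by
    rw [abs_mul, abs_mul, abs_pow]
    ring
  rw [e5, mul_assoc (Θ * Γ)]
  exact mul_le_mul (mul_le_mul hθ hg (abs_nonneg g) hΘ) e4 (by positivity) (by positivity)

theorem lead (hA : StmtAEST) (hF : StmtFAA) {X : Type} (S : Sch X) (hS : S.Ok) {Θ Γ : ℝ}
    (hΘ : ∀ b x, ∀ y ∈ S.O x, |S.θ b x y| ≤ Θ) (hΘ0 : 0 ≤ Θ) (hΓ0 : 0 ≤ Γ)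
    (hΓ : ∀ z ∈ closedBall (0 : S.A → ℝ) S.δ, ∀ a, |fderiv ℝ S.G z (Pi.single a 1)| ≤ Γ)
    (k : ℕ) (K₀ : ℝ) (hk : 2 ≤ k) : ∃ C : ℝ, 0 ≤ C ∧ ∀ η ∈ Ioo 0 S.ε, ∀ t ∈ Icc (0 : ℝ) 1,
      ∀ (x : S.κ) (f : V → ℝ) (M : ℝ), 0 ≤ M → ContDiffOn ℝ ∞ f (ball 0 1) →
      (∀ y ∈ S.O x, ∀ b a, |t * S.r b a x y + Aop η f (S.ψ b a x) y| ≤ S.δ) →
      (∀ y ∈ ball (0 : V) 1, JB (max 4 (k - 1)) f y K₀) → (∀ y ∈ ball (0 : V) 1, JB k f y M) →
      ContDiffOn ℝ ∞ (S.Nl η t x f) (S.O x) ∧ ∀ y ∈ S.O x, ∀ d : S.B × S.A → ℝ → ℝ,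
        (∀ o, ContinuousOn (d o) (Ioo (-S.ε) S.ε)) → (∀ o s, 0 ≤ d o s) →
        (∀ o, ∀ s ∈ Ioo (-S.ε) S.ε, ∀ l : List (Fin 4), l.length ≤ k →
          |DL l f (S.ψ o.1 o.2 x (y, s)) - DL l f y| ≤ d o s) →
        ∀ l : List (Fin 4), l.length ≤ k → |DL l (S.Nl η t x f) y - ∑ o : S.B × S.A,
          3 * (S.θ o.1 x y ^ 2 * fderiv ℝ S.G
            (fun a => t * S.r o.1 a x y + Aop η f (S.ψ o.1 a x) y) (Pi.single o.2 1)) / η ^ 2 *
            ∫ s in (0 : ℝ)..1, d2 (fun s => DL l f (S.ψ o.1 o.2 x (y, s))) (s * η)| ≤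
          C * (1 + M + ∑ o : S.B × S.A, |S.θ o.1 x y| *
            (η⁻¹ * ∫ s in (0 : ℝ)..1, (d o (s * η) + d o (-(s * η))))) := by
  have hO : ∀ x, IsOpen (S.O x) := fun x => (hS.sub x).1
  choose C₁ _ hC₁ using fun o : S.B × S.A => hA _ _ _ _ (hS.jmp o.1 o.2) k
  choose C₂ _ hC₂ using fun o : S.B × S.A => hA _ _ _ _ (hS.jmp o.1 o.2) (max 4 (k - 1))
  choose R₁ _ hR₁ using fun o : S.B × S.A => bd_JB hO (hS.rb o.1 o.2) k
  choose T₁ _ hT₁ using fun b : S.B => bd_JB hO (hS.θb b) k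
  obtain ⟨CA, hCA0, hCA⟩ := ex_bd C₁
  obtain ⟨CB, hCB0, hCB⟩ := ex_bd C₂
  obtain ⟨R, hR0, hR⟩ := ex_bd R₁
  obtain ⟨T, hT0, hT⟩ := ex_bd T₁
  obtain ⟨CF, hCF0, hCF⟩ := hF S.A S.G S.δ hS.δ_pos hS.Gs k (T + R + CB * |K₀|)
  have hα0 : 0 ≤ 1 + R + CA + Θ * R + Θ * CA + CA := by positivity
  refine ⟨Fintype.card S.B * (CF * (1 + R + CA + Θ * R + Θ * CA + CA) +
    Fintype.card S.A * (Θ * Γ * (1 + R + CA + Θ * R + Θ * CA + CA))), by positivity,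
    fun η hη t ht x f M hM hf hI hK hJ => ?_⟩
  have hK' : ∀ y ∈ ball (0 : V) 1, JB (max 4 (k - 1)) f y |K₀| := fun y hy l hl =>
    (hK y hy l hl).trans (le_abs_self _)
  have sA : ∀ b a, ContDiffOn ℝ ∞ (Aop η f (S.ψ b a x)) (S.O x) := fun b a =>
    (hC₁ (b, a) x f M η hη hf hJ).1
  have sB : ∀ b a, ContDiffOn ℝ ∞ (fun w => t * S.r b a x w + Aop η f (S.ψ b a x) w) (S.O x) :=
    fun b a => (contDiffOn_const.mul ((hS.rb b a).1 x)).add (sA b a)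
  have sN : ∀ b, ContDiffOn ℝ ∞ (fun w => S.θ b x w ^ 2 *
      S.G fun a => t * S.r b a x w + Aop η f (S.ψ b a x) w) (S.O x) := by
    intro b
    refine (((hS.θb b).1 x).pow 2).mul (hS.Gs.comp (contDiffOn_pi.2 (sB b)) fun w hw => ?_)
    refine mem_ball_zero_iff.2 (((pi_norm_le_iff_of_nonneg hS.δ_pos.le).2 (hI w hw b)).trans_lt ?_)
    linarith [hS.δ_pos]
  refine ⟨ContDiffOn.sum fun b _ => sN b, fun y hy d hd hd0 hdl l hl => ?_⟩
  have hr : ∀ b a (l : List (Fin 4)), l.length ≤ k → |t * DL l (S.r b a x) y| ≤ R := by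
    intro b a l hl
    rw [abs_mul, abs_of_nonneg ht.1]
    exact (mul_le_of_le_one_left (abs_nonneg _) ht.2).trans
      ((hR₁ (b, a) x y hy l hl).trans (hR _))
  have hB : ∀ b a (l : List (Fin 4)),
      DL l (fun w => t * S.r b a x w + Aop η f (S.ψ b a x) w) y =
        t * DL l (S.r b a x) y + DL l (Aop η f (S.ψ b a x)) y := fun b a l =>
    DL_lin (hO x) ((hS.rb b a).1 x) (sA b a) t l y hy
  obtain ⟨I, hI'⟩ : ∃ I : S.B × S.A → ℝ, ∀ o,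
      η⁻¹ * ∫ s in (0 : ℝ)..1, (d o (s * η) + d o (-(s * η))) = I o := ⟨_, fun _ => rfl⟩
  have hI0 : ∀ o, 0 ≤ I o := fun o => hI' o ▸ mul_nonneg (inv_nonneg.2 hη.1.le)
    (intervalIntegral.integral_nonneg zero_le_one fun s _ => add_nonneg (hd0 _ _) (hd0 _ _))
  have hE := fun o : S.B × S.A =>
    ((hC₁ o x f M η hη hf hJ).2 y hy).2.2 (d o) (hd o) (hdl o)
  simp only [hI'] at hE ⊢
  obtain ⟨P, hP⟩ : ∃ P, 1 + M + ∑ o : S.B × S.A, |S.θ o.1 x y| * I o = P := ⟨_, rfl⟩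
  have hs0 : 0 ≤ ∑ o : S.B × S.A, |S.θ o.1 x y| * I o :=
    Finset.sum_nonneg fun o _ => mul_nonneg (abs_nonneg _) (hI0 o)
  have hP1 : 1 ≤ P := by linarith
  have hP2 : M ≤ P := by linarith
  have hP3 : ∀ b, |S.θ b x y| * ∑ a, I (b, a) ≤ P := by
    intro b
    have h1 := Finset.single_le_sum (f := fun b => ∑ a, |S.θ b x y| * I (b, a))
      (fun b _ => Finset.sum_nonneg fun a _ => mul_nonneg (abs_nonneg _) (hI0 (b, a)))
      (Finset.mem_univ b)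
    rw [Fintype.sum_prod_type] at hP
    rw [Finset.mul_sum]
    linarith
  have hI1 : ∀ b a, I (b, a) ≤ ∑ a, I (b, a) := fun b a =>
    Finset.single_le_sum (f := fun a => I (b, a)) (fun a _ => hI0 _) (Finset.mem_univ a)
  have hCA' : ∀ b a, C₁ (b, a) * (M + I (b, a)) ≤ CA * (M + ∑ a, I (b, a)) := fun b a =>
    mul_le_mul (hCA _) (by linarith [hI1 b a]) (add_nonneg hM (hI0 _)) hCA0
  rw [hP, show DL l (S.Nl η t x f) y = _ from DL_sum (hO x) sN l y hy, Fintype.sum_prod_type,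
    ← Finset.sum_sub_distrib]
  refine (Finset.abs_sum_le_sum_abs _ _).trans ((Finset.sum_le_card_nsmul _ _
    ((CF * (1 + R + CA + Θ * R + Θ * CA + CA) + Fintype.card S.A *
      (Θ * Γ * (1 + R + CA + Θ * R + Θ * CA + CA))) * P) fun b _ => ?_).trans
      (le_of_eq (by rw [nsmul_eq_mul, Finset.card_univ]; ring)))
  have hJ0 : 0 ≤ ∑ a, I (b, a) := Finset.sum_nonneg fun a _ => hI0 _
  have hKB : 0 ≤ CB * |K₀| := by positivity
  have e1 := hCF (S.O x) (fun a w => t * S.r b a x w + Aop η f (S.ψ b a x) w) (S.θ b x) y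
    (R + CA * (M + ∑ a, I (b, a))) (R + CA * M) (hO x) hy (sB b) ((hS.θb b).1 x)
    (fun a w hw => hI w hw b a)
    (fun l hl => (hT₁ b x y hy l hl).trans (by linarith [hT b])) (fun a l hl => ?_)
    (by positivity) (by positivity) (fun a l hl => ?_) (fun a l hl => ?_) l hl
  · have e2 := mul_le_mul_of_nonneg_left
      (arith1 hR0 hCA0 hM (abs_nonneg _) (hΘ b x y hy) hP1 hP2 (hP3 b)) hCF0
    have e3 : |∑ a, S.θ b x y ^ 2 * fderiv ℝ S.G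
        (fun a => t * S.r b a x y + Aop η f (S.ψ b a x) y) (Pi.single a 1) *
        (t * DL l (S.r b a x) y + (DL l (Aop η f (S.ψ b a x)) y - 3 / η ^ 2 *
          ∫ s in (0 : ℝ)..1, d2 (fun s => DL l f (S.ψ b a x (y, s))) (s * η)))| ≤
        Fintype.card S.A * (Θ * Γ * (1 + R + CA + Θ * R + Θ * CA + CA) * P) := by
      refine (Finset.abs_sum_le_sum_abs _ _).trans ((Finset.sum_le_card_nsmul _ _ _
        fun a _ => ?_).trans (le_of_eq (by rw [nsmul_eq_mul, Finset.card_univ])))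
      refine arith2 hR0 hCA0 hM (hΘ b x y hy) (hΓ _ (mem_closedBall_zero_iff.2
        ((pi_norm_le_iff_of_nonneg hS.δ_pos.le).2 (hI y hy b))) a) hP1 hP2 (hP3 b) ?_
      exact (abs_add_le _ _).trans
        (add_le_add (hr b a l hl) (((hE (b, a) l).1 hl).trans (hCA' b a)))
    have e4 := (abs_add_le _ _).trans (add_le_add (e1.trans e2) e3)
    refine le_trans (le_of_eq (congrArg abs ?_)) (e4.trans (le_of_eq (by ring)))
    simp only [hB, Finset.mul_sum]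
    rw [sub_add, ← Finset.sum_sub_distrib]
    congr 1
    exact Finset.sum_congr rfl fun a _ => by ring
  · rw [hB]
    have h1 := ((hC₂ (b, a) x f _ η hη hf hK').2 y hy).1 l (by omega)
    have h2 := mul_le_mul_of_nonneg_right (hCB (b, a)) (abs_nonneg K₀)
    have h3 := hr b a l (by omega)
    exact (abs_add_le _ _).trans (by linarith)
  · rw [hB]
    exact (abs_add_le _ _).trans
      (add_le_add (hr b a l (by omega)) (((hE (b, a) l).2 hl).trans (hCA' b a)))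
  · rw [hB]
    exact (abs_add_le _ _).trans (add_le_add (hr b a l (by omega))
      ((((hC₁ (b, a) x f M η hη hf hJ).2 y hy).1 l hl).trans
        (mul_le_mul_of_nonneg_right (hCA _) hM)))

end Pool.Agent.MP_67f0e4_gt.EU.RSTEP
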