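import Pool.Agent.MP_67f0e4_gt.EU.Defs

/-! Block A (existence): statements of the rows for the abstract scheme. -/

set_option autoImplicit false

open scoped ContDiff Topology
open Set Metric Filter

namespace Pool.Agent.MP_67f0e4_gt.EU

open K

/-- Row COMP: derivatives of a composition with a bounded family. -/
def StmtCOMP : Prop := ∀ (E κ : Type) [NormedAddCommGroup E] [NormedSpace ℝ E] (U : κ → Set E)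
  (T : κ → E → V), (∀ x, IsOpen (U x)) → Bd U T → ∀ l : List E, ∃ C : ℝ, 0 ≤ C ∧
    ∀ (x : κ) (f : V → ℝ) (W : Set V) (M : ℝ), IsOpen W → ContDiffOn ℝ ∞ f W → ∀ z ∈ U x,
      T x z ∈ W → JB l.length f (T x z) M → |dw l (fun w => f (T x w)) z| ≤ C * M

/-- Row COV: from the small balls to the big balls. -/
def StmtCOV : Prop := ∀ (X ι : Type) (Φ : ι → V → X), Cov Φ →
  (∀ f : X → ℝ, (∀ i, ContDiffOn ℝ ∞ (fun w => f (Φ i w)) (ball 0 (1 / 4))) →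
    ∀ i, ContDiffOn ℝ ∞ (fun w => f (Φ i w)) (ball 0 1)) ∧
  ∀ k : ℕ, ∃ C : ℝ, 1 ≤ C ∧ ∀ (f : X → ℝ) (M : ℝ),
    (∀ i, ContDiffOn ℝ ∞ (fun w => f (Φ i w)) (ball 0 (1 / 4))) →
    (∀ i, ∀ y ∈ ball (0 : V) (1 / 4), JB k (fun w => f (Φ i w)) y M) →
      ∀ i, ∀ y ∈ ball (0 : V) 1, JB k (fun w => f (Φ i w)) y (C * M)

/-- Row INT: integrals with parameters. -/
def StmtINT : Prop := ∀ (O : Set V) (J : Set ℝ) (g : V × ℝ → ℝ), IsOpen O → IsOpen J →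
  Icc 0 1 ⊆ J → ContDiffOn ℝ ∞ g (O ×ˢ J) →
    ContDiffOn ℝ ∞ (fun y => ∫ s in (0 : ℝ)..1, g (y, s)) O ∧ ∀ l : List (Fin 4), ∀ y ∈ O,
      DL l (fun y => ∫ s in (0 : ℝ)..1, g (y, s)) y = ∫ s in (0 : ℝ)..1, DL l (fun w => g (w, s)) y

/-- Row DIF: second differences of the derivatives of `f ∘ ψ`. -/
def StmtDIF : Prop := ∀ (κ : Type) (O : κ → Set V) (ε : ℝ) (ψ : κ → V × ℝ → V), Jmp O ε ψ →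
  ∀ k : ℕ, ∃ C : ℝ, 0 ≤ C ∧ ∀ (x : κ) (f : V → ℝ) (M : ℝ), ContDiffOn ℝ ∞ f (ball 0 1) →
    (∀ y ∈ ball (0 : V) 1, JB k f y M) → ∀ y ∈ O x, ∀ d : ℝ → ℝ, ContinuousOn d (Ioo (-ε) ε) →
    (∀ e ∈ Ioo (-ε) ε, ∀ l : List (Fin 4), l.length ≤ k →
      |DL l f (ψ x (y, e)) - DL l f y| ≤ d e) → ∀ e ∈ Ico 0 ε, ∀ l : List (Fin 4),
      (l.length ≤ k → |d2 (fun e => DL l (fun w => f (ψ x (w, e))) y) e -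
          d2 (fun e => DL l f (ψ x (y, e))) e| ≤ C * (e * (d e + d (-e)) + e ^ 2 * M)) ∧
      (l.length + 1 ≤ k → |d2 (fun e => DL l (fun w => f (ψ x (w, e))) y) e| ≤
          C * ((∫ s in (0 : ℝ)..e, (d s + d (-s))) + e ^ 2 * M)) ∧
      (l.length + 2 ≤ k → |d2 (fun e => DL l (fun w => f (ψ x (w, e))) y) e| ≤ C * (e ^ 2 * M)) ∧
      (3 ≤ k → |d2 (fun e => f (ψ x (y, e))) e - e ^ 2 * A0 f (ψ x) y| ≤ C * (e ^ 3 * M))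

/-- Row AEST: derivatives of the averaged difference quotient. -/
def StmtAEST : Prop := ∀ (κ : Type) (O : κ → Set V) (ε : ℝ) (ψ : κ → V × ℝ → V), Jmp O ε ψ →
  ∀ k : ℕ, ∃ C : ℝ, 0 ≤ C ∧ ∀ (x : κ) (f : V → ℝ) (M : ℝ), ∀ η ∈ Ioo 0 ε,
    ContDiffOn ℝ ∞ f (ball 0 1) → (∀ y ∈ ball (0 : V) 1, JB k f y M) →
    ContDiffOn ℝ ∞ (Aop η f (ψ x)) (O x) ∧ ∀ y ∈ O x,
    (∀ l : List (Fin 4), l.length + 2 ≤ k → |DL l (Aop η f (ψ x)) y| ≤ C * M) ∧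
    (3 ≤ k → |Aop η f (ψ x) y - A0 f (ψ x) y| ≤ C * (η * M)) ∧
    ∀ d : ℝ → ℝ, ContinuousOn d (Ioo (-ε) ε) →
    (∀ e ∈ Ioo (-ε) ε, ∀ l : List (Fin 4), l.length ≤ k →
      |DL l f (ψ x (y, e)) - DL l f y| ≤ d e) → ∀ l : List (Fin 4),
      (l.length ≤ k → |DL l (Aop η f (ψ x)) y -
          3 / η ^ 2 * ∫ s in (0 : ℝ)..1, d2 (fun e => DL l f (ψ x (y, e))) (s * η)| ≤
        C * (M + η⁻¹ * ∫ s in (0 : ℝ)..1, (d (s * η) + d (-(s * η))))) ∧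
      (l.length + 1 ≤ k → |DL l (Aop η f (ψ x)) y| ≤
        C * (M + η⁻¹ * ∫ s in (0 : ℝ)..1, (d (s * η) + d (-(s * η)))))

/-- Row FAA: the leading term of the derivatives of `θ ^ 2 * G (B)`. -/
def StmtFAA : Prop := ∀ (A : Type) [Fintype A] [DecidableEq A] (G : (A → ℝ) → ℝ) (δ : ℝ), 0 < δ →
  ContDiffOn ℝ ∞ G (ball 0 (2 * δ)) → ∀ (k : ℕ) (K₀ : ℝ), ∃ C : ℝ, 0 ≤ C ∧
    ∀ (O : Set V) (B : A → V → ℝ) (θ : V → ℝ) (y : V) (a₁ a₂ : ℝ), IsOpen O → y ∈ O →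
      (∀ a, ContDiffOn ℝ ∞ (B a) O) → ContDiffOn ℝ ∞ θ O → (∀ a, ∀ w ∈ O, |B a w| ≤ δ) →
      JB k θ y K₀ → (∀ a, JB (max 2 (k - 3)) (B a) y K₀) → 0 ≤ a₁ → 0 ≤ a₂ →
      (∀ a, ∀ l : List (Fin 4), l.length + 1 ≤ k → |DL l (B a) y| ≤ a₁) →
      (∀ a, ∀ l : List (Fin 4), l.length + 2 ≤ k → |DL l (B a) y| ≤ a₂) →
      ∀ l : List (Fin 4), l.length ≤ k →
        |DL l (fun w => θ w ^ 2 * G fun a => B a w) y -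
          θ y ^ 2 * ∑ a, fderiv ℝ G (fun a => B a y) (Pi.single a 1) * DL l (B a) y| ≤
        C * (1 + a₂ + |θ y| * a₁)

/-- Row ALG: the discrete Bernstein inequality at one point. -/
def StmtALG : Prop := ∀ (Ω : Type) [Fintype Ω] (c₀ C₀ K₀ : ℝ), 0 < c₀ → 0 ≤ K₀ →
  ∃ C h₀ : ℝ, 0 ≤ C ∧ 0 < h₀ ∧ ∀ (H : Type) [NormedAddCommGroup H] [InnerProductSpace ℝ H]
    [CompleteSpace H] (η h M q χ₀ : ℝ) (w w' : H) (θ c : Ω → ℝ) (u : Ω → ℝ → H) (χ : Ω → ℝ → ℝ),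
    0 < η → η ≤ 1 → 0 < h → h ≤ h₀ → 8 * h * Fintype.card Ω * C₀ ≤ η ^ 2 →
    (∀ o, ContinuousOn (u o) (Icc (-η) η)) → (∀ o, c₀ * θ o ^ 2 ≤ c o ∧ c o ≤ C₀) →
    0 ≤ χ₀ → χ₀ ≤ 1 → ‖w‖ ≤ M → χ₀ ^ 2 * ‖w‖ ^ 2 ≤ q →
    (∀ o, ∀ e ∈ Icc (-η) η, ‖u o e‖ ≤ M ∧ χ o e ^ 2 * ‖u o e‖ ^ 2 ≤ q ∧ |χ o e - χ₀| ≤ K₀ * η ∧
      |χ o e ^ 2 + χ o (-e) ^ 2 - 2 * χ₀ ^ 2| ≤ K₀ * η ^ 2) →
    ‖w' - (w + h • ∑ o, (c o / η ^ 2) •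
        ∫ s in (0 : ℝ)..1, (u o (s * η) + u o (-(s * η)) - (2 : ℝ) • w))‖ ≤
      h * K₀ * (1 + M + ∑ o, |θ o| *
        (η⁻¹ * ∫ s in (0 : ℝ)..1, (‖u o (s * η) - w‖ + ‖u o (-(s * η)) - w‖))) →
    χ₀ ^ 2 * ‖w'‖ ^ 2 ≤ q + h * C * (1 + M ^ 2)

/-- Row NB: the operator preserves smoothness and loses finitely many derivatives. -/
def StmtNB : Prop := ∀ (X : Type) (S : Sch X), S.Ok → ∀ (k : ℕ) (K₀ : ℝ), ∃ C : ℝ,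
  ∀ η ∈ Ioo 0 S.ε, ∀ t ∈ Icc (0 : ℝ) 1, ∀ f : X → ℝ, S.Sm f → S.In η t f → S.JA (k + 4) f K₀ →
    S.Sm (S.N η t f) ∧ S.JA k (S.N η t f) C

/-- Row STEP: one step of the scheme. -/
def StmtSTEP : Prop := ∀ (X : Type) (S : Sch X) (χ : V → ℝ), S.Ok → Cut χ → ∃ C₀ : ℝ, 0 < C₀ ∧
  ∀ (k : ℕ) (K₀ : ℝ), 2 ≤ k → ∃ C η₁ : ℝ, 0 ≤ C ∧ 0 < η₁ ∧ η₁ < S.ε ∧ ∀ η ∈ Ioc 0 η₁, ∀ h : ℝ,
    0 < h → h * C₀ ≤ η ^ 2 → ∀ t ∈ Icc (0 : ℝ) 1, ∀ (f : X → ℝ) (q : ℝ), S.Sm f → S.In η t f →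
      S.JA (max 4 (k - 1)) f K₀ → S.QB χ k f q →
        S.QB χ k (fun p => f p + h * S.N η t f p) (q + h * C * (1 + q))

/-- Row ITER: bounds for the iterates on a fixed time interval. -/
def StmtITER : Prop := ∀ (X : Type) (S : Sch X), S.Ok → ∃ τ C₀ : ℝ, 0 < τ ∧ τ ≤ 1 ∧ 0 < C₀ ∧
  ∀ k : ℕ, ∃ C η₁ : ℝ, 0 < η₁ ∧ η₁ < S.ε ∧ ∀ η ∈ Ioc 0 η₁, ∀ m : ℕ, m * (η ^ 2 / C₀) ≤ τ →
    S.Sm (S.it η (η ^ 2 / C₀) m) ∧ S.In η (m * (η ^ 2 / C₀)) (S.it η (η ^ 2 / C₀) m) ∧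
      S.JA k (S.it η (η ^ 2 / C₀) m) C

/-- Row LIM: limits along an ultrafilter of functions with bounded derivatives. -/
def StmtLIM : Prop := ∀ (O : Set V) (𝒰 : Ultrafilter ℕ) (F : ℕ → V → ℝ) (f : V → ℝ)
  (C : ℕ → ℝ), IsOpen O → (∀ᶠ n in 𝒰, ContDiffOn ℝ ∞ (F n) O) →
  (∀ k, ∀ᶠ n in 𝒰, ∀ y ∈ O, JB k (F n) y (C k)) →
  (∀ y ∈ O, Tendsto (fun n => F n y) 𝒰 (𝓝 (f y))) → ContDiffOn ℝ ∞ f O ∧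
    ∀ l : List (Fin 4), ∀ y ∈ O, Tendsto (fun n => DL l (F n) y) 𝒰 (𝓝 (DL l f y))

/-- Row AZ: the limit operator is a linear differential operator of second order. -/
def StmtAZ : Prop := ∀ (κ : Type) (O : κ → Set V) (ε : ℝ) (ψ : κ → V × ℝ → V), 0 < ε →
  Jmp O ε ψ → ∃ (P : Fin 4 → Fin 4 → κ → V → ℝ) (Q : Fin 4 → κ → V → ℝ),
    (∀ i j, Bd O (P i j)) ∧ (∀ i, Bd O (Q i)) ∧ ∀ (x : κ) (f : V → ℝ),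
      ContDiffOn ℝ ∞ f (ball 0 1) → ∀ y ∈ O x, A0 f (ψ x) y =
        ∑ i, ∑ j, P i j x y * DL [i, j] f y + ∑ i, Q i x y * DL [i] f y

/-- Row JS: joint smoothness from the equation. -/
def StmtJS : Prop := ∀ (O : Set V) (a b : ℝ) (v : ℝ → V → ℝ) (L : Type) [Fintype L]
  (wd : L → List (Fin 4)) (H : ℝ × V × (L → ℝ) → ℝ) (Z : Set (ℝ × V × (L → ℝ))), IsOpen O →
  a < b → IsOpen Z → ContDiffOn ℝ ∞ H Z → (∀ t ∈ Icc a b, ContDiffOn ℝ ∞ (v t) O) →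
  (∀ l : List (Fin 4), ∃ C : ℝ, ∀ t ∈ Icc a b, ∀ t' ∈ Icc a b, ∀ y ∈ O,
    |DL l (v t) y| ≤ C ∧ |DL l (v t') y - DL l (v t) y| ≤ C * |t' - t|) →
  (∀ t ∈ Icc a b, ∀ y ∈ O, (t, y, fun j => DL (wd j) (v t) y) ∈ Z) →
  (∀ t ∈ Icc a b, ∀ y ∈ O, HasDerivWithinAt (fun s => v s y)
    (H (t, y, fun j => DL (wd j) (v t) y)) (Icc a b) t) →
    ContDiffOn ℝ ∞ (fun z : ℝ × V => v z.1 z.2) (Icc a b ×ˢ O)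

/-- what the limit of the iterates satisfies -/
structure Sch.Weak {X : Type} (S : Sch X) (τ : ℝ) (v : ℝ → X → ℝ) : Prop where
  init : ∀ p, v 0 p = 0
  sm : ∀ t ∈ Icc 0 τ, S.Sm (v t)
  bd : ∀ k, ∃ C : ℝ, ∀ t ∈ Icc 0 τ, S.JA k (v t) C
  lip : ∀ l : List (Fin 4), ∃ C : ℝ, ∀ i, ∀ t ∈ Icc 0 τ, ∀ t' ∈ Icc 0 τ, ∀ y ∈ ball (0 : V) 1,
    |DL l (fun w => v t' (S.Φ i w)) y - DL l (fun w => v t (S.Φ i w)) y| ≤ C * |t' - t|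
  small : ∀ t ∈ Icc 0 τ, ∀ x, ∀ y ∈ S.O x, ∀ b a,
    |t * S.r b a x y + A0 (fun w => v t (S.Φ (S.ch x) w)) (S.ψ b a x) y| ≤ S.δ
  eq : ∀ t ∈ Icc 0 τ, ∀ x, ∀ y ∈ S.O x, HasDerivWithinAt (fun s => v s (S.Φ (S.ch x) y))
    (S.N0 t x (fun w => v t (S.Φ (S.ch x) w)) y) (Icc 0 τ) t

/-- Row TLIM: the limit of the iterates. -/
def StmtTLIM : Prop := ∀ (X : Type) (S : Sch X), S.Ok → ∃ τ : ℝ, 0 < τ ∧ ∃ v, S.Weak τ v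

/-- Row SMO: the limit is smooth in space and time. -/
def StmtSMO : Prop := ∀ (X : Type) (S : Sch X) (τ : ℝ) (v : ℝ → X → ℝ), S.Ok → 0 < τ →
  S.Weak τ v → ∀ i, ContDiffOn ℝ ∞ (fun z : ℝ × V => v z.1 (S.Φ i z.2)) (Icc 0 τ ×ˢ ball 0 1)

end Pool.Agent.MP_67f0e4_gt.EU
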