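import Pool.Agent.MP_67f0e4_gt.EU.DefsC

/-! Block A: statements of the rows for the Monge-Ampere flow. -/

set_option autoImplicit false

open scoped ContDiff Topology
open Set Metric Filter

namespace Pool.Agent.MP_67f0e4_gt.EU

open K

/-- Row CAU: Cauchy estimates. -/
def StmtCAU : Prop := ∀ (κ : Type) (c : κ → V) (r R : ℝ) (T : κ → V → V), 0 < r →
  (∀ x, ContDiffOn ℂ ∞ (T x) (ball (c x) r)) → (∀ x, ∀ y ∈ ball (c x) r, ‖T x y‖ ≤ R) →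
    Bd (fun x => ball (c x) (r / 2)) T

/-- Row LOC: the choice of transition maps. -/
def StmtLOC : Prop := ∀ (X : Set C3) (F : Fam X) (A : Atl F), A.Ok → ∃ L : Loc A, L.Ok

/-- Row GH: smoothness and monotonicity of `Gh`. -/
def StmtGH : Prop := ∃ δ c : ℝ, 0 < δ ∧ 0 < c ∧ ContDiffOn ℝ ∞ Gh (ball 0 (2 * δ)) ∧
  ∀ z ∈ closedBall (0 : Dir → ℝ) δ, ∀ a, c ≤ fderiv ℝ Gh z (Pi.single a 1)

/-- Row FR: the frames. -/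
def StmtFR : Prop :=
  (∀ (g h : Hm) (γ : ℂ) (z : Dir → ℝ), Pos g → ‖γ‖ = 1 →
    (∀ j : Fin 6, z (j, false) + z (j, true) = qf h (fr g γ (j, false))) →
      Gh z = Real.log (hdet (g + h) / hdet g)) ∧
  (∀ (g h : Hm) (γ : ℂ) (j : Fin 6), fr g γ (j, true) = Complex.I • fr g γ (j, false) ∧
    qf h (fr g γ (j, true)) = qf h (fr g γ (j, false))) ∧
  (∀ (g g' : Hm) (d₁ d₂ : ℝ) (γ₀ : ℂ), Pos g → 0 < d₁ → 0 < d₂ → ‖γ₀‖ = 1 →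
    (∀ u, qf g' (dg d₁ d₂ γ₀ u) = qf g u) →
      ∀ γ a, fr g' (γ₀ * γ) a = dg d₁ d₂ γ₀ (fr g γ a)) ∧
  (∀ (γ : ℂ) (a : Dir), ContDiffOn ℝ ∞ (fun g => fr g γ a) {g : Hm | 0 < g 1 ∧ 0 < hdet g}) ∧
  ∀ Λ : ℝ, 0 < Λ → ∃ (Q : Set Hm) (R : ℝ), IsCompact Q ∧ Q ⊆ {g : Hm | 0 < g 1 ∧ 0 < hdet g} ∧
    0 < R ∧ ∀ g, EllH Λ g → g ∈ Q ∧ Pos g ∧ ∀ (γ : ℂ) (a : Dir), ‖γ‖ = 1 → ‖fr g γ a‖ ≤ R

/-- Row INV: change of parametrisation. -/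
def StmtINV : Prop := ∀ (X : Set C3) (N N' : V → C3) (U U' : Set V), Surf X → Par X N U →
  Par X N' U' → ∀ a ∈ U, ∀ a' ∈ U', N a = N' a' → ∃ (τ : V → V) (k : ℝ), ContDiffAt ℝ ∞ τ a ∧
    τ a = a' ∧ (∀ᶠ x in 𝓝 a, N' (τ x) = N x) ∧ 0 < k ∧ ∀ g : C3 → ℝ, ContDiffAt ℝ 2 (g ∘ N') a' →
      hdet (lv (g ∘ N) a) = k * hdet (lv (g ∘ N') a') ∧
        (Pos (lv (g ∘ N') a') → Pos (lv (g ∘ N) a))

/-- the jumps stay in the domain of the transition maps -/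
def Short (Λ ε s : ℝ) : Prop :=
  ∀ g, EllH Λ g → ∀ (γ : ℂ) (a : Dir), ‖γ‖ = 1 → ε * ‖fr g γ a‖ ≤ s

/-- Row CONJ: uniform bounds for the data of the scheme. -/
def StmtCONJ : Prop := ∀ (X : Set C3) (F : Fam X) (A : Atl F) (L : Loc A) (M : Type)
  (f ρ : M → C3 → ℝ) (Λ ε δ c : ℝ), A.Ok → L.Ok → Dat F f ρ Λ → 0 < ε → Short Λ ε L.s →
    Cov (sch L f ρ ε δ c).Φ ∧
    (∀ b a, Jmp (sch L f ρ ε δ c).O ε ((sch L f ρ ε δ c).ψ b a)) ∧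
    (∀ b, Bd (sch L f ρ ε δ c).O ((sch L f ρ ε δ c).θ b)) ∧
    ∀ b a, Bd (sch L f ρ ε δ c).O ((sch L f ρ ε δ c).r b a)

/-- Row CONO: the global operator in a chart. -/
def StmtCONO : Prop := ∀ (X : Set C3) (F : Fam X) (A : Atl F) (L : Loc A) (M : Type)
  (f ρ : M → C3 → ℝ) (Λ ε δ c : ℝ), A.Ok → L.Ok → Dat F f ρ Λ → 0 < ε → Short Λ ε L.s →
    ∀ η ∈ Ioo 0 ε, ∀ (t : ℝ) (v : M × C3 → ℝ) (x : (sch L f ρ ε δ c).κ),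
      ∀ y ∈ (sch L f ρ ε δ c).O x,
      (sch L f ρ ε δ c).N η t v ((sch L f ρ ε δ c).Φ ((sch L f ρ ε δ c).ch x) y) =
        (sch L f ρ ε δ c).Nl η t x
          (fun w => v ((sch L f ρ ε δ c).Φ ((sch L f ρ ε δ c).ch x) w)) y

/-- Row CONE: the limit operator is the Monge-Ampere operator. -/
def StmtCONE : Prop := ∀ (X : Set C3) (F : Fam X) (A : Atl F) (L : Loc A) (M : Type)
  (f ρ : M → C3 → ℝ) (Λ ε δ c : ℝ), Surf X → A.Ok → L.Ok → Dat F f ρ Λ →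
    ∀ (t : ℝ) (m : M) (v : C3 → ℝ) (x : {x : F.ι × V // x.2 ∈ ball (0 : V) (1 / 2)}),
      (∀ i, ContDiffOn ℝ ∞ (v ∘ F.Φ i) (ball 0 1)) →
      (sch L f ρ ε δ c).N0 t (m, x) (fun w => v (F.Φ x.1.1 w)) x.1.2 =
        Real.log (hdet (lv ((fun p => f m p + t * ρ m p + v p) ∘ F.Φ x.1.1) x.1.2) /
          hdet (lv (f m ∘ F.Φ x.1.1) x.1.2))

/-- Row EXV: the solution of the equation for the correction term. -/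
def StmtEXV : Prop := ∀ (X : Set C3) (F : Fam X) (A : Atl F) (M : Type) (f ρ : M → C3 → ℝ)
  (Λ : ℝ), Surf X → A.Ok → Dat F f ρ Λ → ∃ τ : ℝ, 0 < τ ∧ ∃ v : M → ℝ → C3 → ℝ,
    (∀ m p, v m 0 p = 0) ∧ (∀ m i, Sm (Icc 0 τ) (ball 0 1) fun t => v m t ∘ F.Φ i) ∧
    (∀ l : List (Fin 4), ∃ C : ℝ, ∀ m i, ∀ t ∈ Icc 0 τ, ∀ y ∈ ball (0 : V) 1,
      |DL l (v m t ∘ F.Φ i) y| ≤ C * t) ∧
    ∀ m i, ∀ t ∈ Icc 0 τ, HasDerivWithinAt (fun s => v m s (F.Φ i 0))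
      (Real.log (hdet (lv ((fun p => f m p + t * ρ m p + v m t p) ∘ F.Φ i) 0) /
        hdet (lv (f m ∘ F.Φ i) 0))) (Icc 0 τ) t

/-- Row RHO: the Ricci potential of the initial data. -/
def StmtRHO : Prop := ∀ (X : Set C3) (F : Fam X) (ψ : C3 → ℝ) (M : Type) (f : M → C3 → ℝ)
  (Λ : ℝ), Surf X → RFlat X ψ → 0 < Λ → (∀ m, XSm0 X (f m)) → (∀ m, F.Ell Λ (f m)) →
  (∀ k, ∃ C, ∀ m, F.Bnd k C (f m)) → ∃ ρ : M → C3 → ℝ, Dat F f ρ Λ ∧ ∀ m i, ρ m (F.Φ i 0) =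
    Real.log (hdet (lv (f m ∘ F.Φ i) 0)) - Real.log (hdet (lv (ψ ∘ F.Φ i) 0))

/-- Row XFL: from the quasi-charts to all parametrisations. -/
def StmtXFL : Prop := ∀ (X : Set C3) (F : Fam X) (ψ : C3 → ℝ) (τ : ℝ) (φ : ℝ → C3 → ℝ), Surf X →
  RFlat X ψ → (∀ i, Sm (Icc 0 τ) (ball 0 1) fun t => φ t ∘ F.Φ i) →
  (∀ i, ∀ t ∈ Icc 0 τ, Pos (lv (φ t ∘ F.Φ i) 0) ∧ HasDerivWithinAt (fun s => φ s (F.Φ i 0))
    (Real.log (hdet (lv (φ t ∘ F.Φ i) 0)) - Real.log (hdet (lv (ψ ∘ F.Φ i) 0))) (Icc 0 τ) t) →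
    XFlow X ψ (Icc 0 τ) φ

/-- Row EXI: short time existence. -/
def StmtEXI : Prop := ∀ (X : Set C3) (F : Fam X) (A : Atl F) (ψ : C3 → ℝ), Surf X → RFlat X ψ →
  A.Ok → EXF F ψ

/-- Row MPX: the maximum principle from bounded geometry. -/
def StmtMPX : Prop := ∀ (X : Set C3) (F : Fam X) (A : Atl F), A.Ok → F.MPX

/-- Row UNI. -/
def StmtUNI : Prop := ∀ (X : Set C3) (F : Fam X) (ψ : C3 → ℝ), F.MPX → UNI F ψ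

/-- Row CONT. -/
def StmtCONT : Prop := ∀ (X : Set C3) (F : Fam X) (ψ : C3 → ℝ), EXF F ψ → UNI F ψ → F.CONT ψ

end Pool.Agent.MP_67f0e4_gt.EU
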